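import Mathlib

/-!
# One dimensional four function inequality
-/

set_option autoImplicit false

namespace Pool.Agent.Helper711SMP.A1

open MeasureTheory
open scoped ENNReal

namespace A1aux

open Set

theorem exists_quantile (f : ℝ → ℝ≥0∞)
    (h0 : ∫⁻ x in Ici (0 : ℝ), f x ≠ 0) (htop : ∫⁻ x in Ici (0 : ℝ), f x ≠ ∞) :
    ∃ x : ℝ → ℝ, StrictMonoOn x (Ioo 0 1) ∧ (∀ u ∈ Ioo (0 : ℝ) 1, 0 ≤ x u) ∧
      ∀ B : Set ℝ, MeasurableSet B →
        ∫⁻ t in B ∩ Ici 0, f t = (∫⁻ x in Ici (0 : ℝ), f x) * volume (x ⁻¹' B ∩ Ioo 0 1) := by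
  classical
  set F := ∫⁻ x in Ici (0 : ℝ), f x with hF
  set μ := (volume.restrict (Ici (0 : ℝ))).withDensity f with hμ
  have hμB : ∀ B, MeasurableSet B → μ B = ∫⁻ t in B ∩ Ici 0, f t := fun B hB => by
    rw [hμ, withDensity_apply _ hB, Measure.restrict_restrict hB]
  have hμu : μ univ = F := by rw [hμB _ MeasurableSet.univ, univ_inter]
  have hfin : IsFiniteMeasure μ := ⟨by rw [hμu]; exact htop.lt_top⟩
  have hna : NullSingletonClass μ := ⟨fun x => by
    rw [hμB _ (measurableSet_singleton x)]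
    exact setLIntegral_measure_zero _ _ (measure_mono_null inter_subset_left (measure_singleton x))⟩
  have hex : ∀ u ∈ Ioo (0 : ℝ) 1, ∃ t, 0 ≤ t ∧ μ (Iic t) = ENNReal.ofReal u * F := by
    intro u hu
    have hcont : Continuous (fun b => ∫ x in (0 : ℝ)..b, (1 : ℝ) ∂μ) :=
      (integrable_const (1 : ℝ)).continuous_primitive 0
    have h0' : μ (Iic 0) = 0 := by
      rw [hμB _ measurableSet_Iic]
      apply setLIntegral_measure_zero
      rw [Iic_inter_Ici, Icc_self]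
      exact measure_singleton 0
    have hΦ : ∀ b, 0 ≤ b → ∫ x in (0 : ℝ)..b, (1 : ℝ) ∂μ = (μ (Iic b)).toReal := by
      intro b hb
      rw [intervalIntegral.integral_of_le hb, setIntegral_const, smul_eq_mul, mul_one,
        measureReal_def]
      congr 1
      rw [← Iic_union_Ioc_eq_Iic hb, measure_union ?_ measurableSet_Ioc, h0', zero_add]
      rw [Set.disjoint_left]
      intro z hz hz'
      exact absurd hz (not_le.mpr hz'.1)
    have huF : ENNReal.ofReal u * F < F := by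
      conv_rhs => rw [← one_mul F]
      refine ENNReal.mul_lt_mul_left h0 htop ?_
      rw [← ENNReal.ofReal_one]
      exact (ENNReal.ofReal_lt_ofReal_iff one_pos).mpr hu.2
    have hlim := tendsto_measure_Iic_atTop μ
    rw [hμu] at hlim
    obtain ⟨T, hT, hT0⟩ := ((hlim.eventually (lt_mem_nhds huF)).and
      (Filter.eventually_ge_atTop (0 : ℝ))).exists
    have h1 : (ENNReal.ofReal u * F).toReal ∈ Icc (∫ x in (0 : ℝ)..0, (1 : ℝ) ∂μ)
        (∫ x in (0 : ℝ)..T, (1 : ℝ) ∂μ) := by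
      rw [hΦ T hT0]
      refine ⟨by rw [intervalIntegral.integral_same]; exact ENNReal.toReal_nonneg, ?_⟩
      exact ENNReal.toReal_mono (measure_ne_top μ _) hT.le
    obtain ⟨t, ht, hteq⟩ := intermediate_value_Icc hT0 hcont.continuousOn h1
    refine ⟨t, ht.1, ?_⟩
    simp only at hteq
    rw [hΦ t ht.1] at hteq
    exact (ENNReal.toReal_eq_toReal_iff' (measure_ne_top μ _)
      (ENNReal.mul_ne_top ENNReal.ofReal_ne_top htop)).mp hteq
  choose! x hx0 hx using hex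
  have hmono : StrictMonoOn x (Ioo 0 1) := by
    intro u hu v hv huv
    by_contra hle
    push Not at hle
    have h1 : μ (Iic (x v)) ≤ μ (Iic (x u)) := measure_mono (Iic_subset_Iic.mpr hle)
    rw [hx u hu, hx v hv] at h1
    have h2 : ENNReal.ofReal u * F < ENNReal.ofReal v * F :=
      ENNReal.mul_lt_mul_left h0 htop ((ENNReal.ofReal_lt_ofReal_iff hv.1).mpr huv)
    exact absurd h1 (not_le.mpr h2)
  refine ⟨x, hmono, hx0, ?_⟩
  have hxm : AEMeasurable x (volume.restrict (Ioo 0 1)) :=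
    aemeasurable_restrict_of_monotoneOn measurableSet_Ioo hmono.monotoneOn
  have hmeas : μ = F • (volume.restrict (Ioo (0 : ℝ) 1)).map x := by
    refine Measure.ext_of_Iic _ _ fun t => ?_
    rw [Measure.smul_apply, smul_eq_mul, Measure.map_apply_of_aemeasurable hxm measurableSet_Iic,
      Measure.restrict_apply' measurableSet_Ioo]
    set c := μ (Iic t) with hc
    have hcF : c ≤ F := by
      rw [← hμu]
      exact measure_mono (subset_univ _)
    have hc1 : c / F ≤ 1 := ENNReal.div_le_of_le_mul (by rwa [one_mul])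
    have hctop : c / F ≠ ∞ := ne_top_of_le_ne_top ENNReal.one_ne_top hc1
    have hc' : (c / F).toReal ≤ 1 := by
      rw [← ENNReal.toReal_one]
      exact ENNReal.toReal_mono ENNReal.one_ne_top hc1
    have hcc : ENNReal.ofReal (c / F).toReal = c / F := ENNReal.ofReal_toReal hctop
    have hsub1 : Ioo 0 (c / F).toReal ⊆ x ⁻¹' Iic t ∩ Ioo 0 1 := by
      intro u hu
      have hu1 : u ∈ Ioo (0 : ℝ) 1 := ⟨hu.1, hu.2.trans_le hc'⟩
      refine ⟨?_, hu1⟩
      have h1 : ENNReal.ofReal u < c / F := by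
        rw [← hcc]
        exact (ENNReal.ofReal_lt_ofReal_iff (hu.1.trans hu.2)).mpr hu.2
      have h2 : ENNReal.ofReal u * F < c := by
        rwa [ENNReal.lt_div_iff_mul_lt (Or.inl h0) (Or.inl htop)] at h1
      rw [← hx u hu1, hc] at h2
      by_contra hle
      have hle' : t < x u := not_le.mp hle
      exact absurd (measure_mono (Iic_subset_Iic.mpr hle'.le)) (not_le.mpr h2)
    have hsub2 : x ⁻¹' Iic t ∩ Ioo 0 1 ⊆ Ioc 0 (c / F).toReal := by
      rintro u ⟨hu, hu1⟩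
      refine ⟨hu1.1, ?_⟩
      have h1 : ENNReal.ofReal u * F ≤ c := by
        rw [← hx u hu1, hc]
        exact measure_mono (Iic_subset_Iic.mpr hu)
      have h2 : ENNReal.ofReal u ≤ c / F := by
        rwa [ENNReal.le_div_iff_mul_le (Or.inl h0) (Or.inl htop)]
      rw [← hcc] at h2
      exact (ENNReal.ofReal_le_ofReal_iff ENNReal.toReal_nonneg).mp h2
    have hvol : volume (x ⁻¹' Iic t ∩ Ioo 0 1) = c / F := by
      apply le_antisymm
      · calc volume (x ⁻¹' Iic t ∩ Ioo 0 1) ≤ volume (Ioc 0 (c / F).toReal) := measure_mono hsub2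
          _ = c / F := by rw [Real.volume_Ioc, sub_zero, hcc]
      · calc c / F = volume (Ioo 0 (c / F).toReal) := by rw [Real.volume_Ioo, sub_zero, hcc]
          _ ≤ _ := measure_mono hsub1
    rw [hvol, ENNReal.mul_div_cancel h0 htop]
  intro B hB
  rw [← hμB B hB, hmeas, Measure.smul_apply, smul_eq_mul,
    Measure.map_apply_of_aemeasurable hxm hB, Measure.restrict_apply' measurableSet_Ioo]

theorem ae_diff (x : ℝ → ℝ) (hx : MonotoneOn x (Ioo 0 1)) :
    ∀ᵐ u ∂(volume.restrict (Ioo (0 : ℝ) 1)), DifferentiableAt ℝ x u := by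
  have h1 := hx.ae_differentiableWithinAt measurableSet_Ioo
  filter_upwards [h1, ae_restrict_mem measurableSet_Ioo] with u hu hu'
  exact hu.differentiableAt (Ioo_mem_nhds hu'.1 hu'.2)

theorem restrict_good (x : ℝ → ℝ) (hx : MonotoneOn x (Ioo 0 1)) :
    volume.restrict ({u | DifferentiableAt ℝ x u} ∩ Ioo (0 : ℝ) 1) =
      volume.restrict (Ioo (0 : ℝ) 1) := by
  have h2 := ae_diff x hx
  rw [← Measure.restrict_restrict (measurableSet_of_differentiableAt ℝ x)]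
  exact Measure.restrict_eq_self_of_ae_mem h2

theorem quantile_deriv (f : ℝ → ℝ≥0∞) (hf : Measurable f) (F : ℝ≥0∞) (x : ℝ → ℝ)
    (hx : StrictMonoOn x (Ioo 0 1)) (hx0 : ∀ u ∈ Ioo (0 : ℝ) 1, 0 ≤ x u)
    (hB : ∀ B : Set ℝ, MeasurableSet B →
        ∫⁻ t in B ∩ Ici 0, f t = F * volume (x ⁻¹' B ∩ Ioo 0 1)) :
    ∀ᵐ u ∂(volume.restrict (Ioo (0 : ℝ) 1)), ENNReal.ofReal (deriv x u) * f (x u) = F := by
  have hgood := restrict_good x hx.monotoneOn
  set s := {u | DifferentiableAt ℝ x u} ∩ Ioo (0 : ℝ) 1 with hs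
  have hsm : MeasurableSet s := (measurableSet_of_differentiableAt ℝ x).inter measurableSet_Ioo
  have hxm : AEMeasurable x (volume.restrict (Ioo 0 1)) :=
    aemeasurable_restrict_of_monotoneOn measurableSet_Ioo hx.monotoneOn
  have hsI : s ⊆ Ioo 0 1 := inter_subset_right
  refine ae_eq_of_forall_setLIntegral_eq_of_sigmaFinite₀ (g := fun _ => F) ?_
    aemeasurable_const ?_
  · exact ((measurable_deriv x).ennreal_ofReal.aemeasurable).mul (hf.comp_aemeasurable hxm)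
  · intro B hBm _
    rw [← hgood, Measure.restrict_restrict hBm]
    have hBs : MeasurableSet (B ∩ s) := hBm.inter hsm
    have hmono : MonotoneOn x (B ∩ s) := hx.monotoneOn.mono (inter_subset_right.trans hsI)
    have h1 := lintegral_image_eq_lintegral_deriv_mul_of_monotoneOn hBs (f := x) (f' := deriv x)
      (fun u hu => hu.2.1.hasDerivAt.hasDerivWithinAt) hmono f
    rw [← h1]
    have h2 := hB (x '' (B ∩ s)) (hBs.image_of_monotoneOn hmono)
    have h3 : x '' (B ∩ s) ∩ Ici 0 = x '' (B ∩ s) := by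
      apply inter_eq_left.mpr
      rintro _ ⟨u, hu, rfl⟩
      exact hx0 u (hsI hu.2)
    have h4 : x ⁻¹' (x '' (B ∩ s)) ∩ Ioo 0 1 = B ∩ s := by
      apply Subset.antisymm
      · rintro v ⟨⟨u, hu, huv⟩, hv⟩
        have := hx.injOn (hsI hu.2) hv huv
        rwa [← this]
      · intro u hu
        exact ⟨⟨u, hu, rfl⟩, hsI hu.2⟩
    rw [h3, h4] at h2
    rw [h2, setLIntegral_const]

theorem contraction (H : ℝ → ℝ) (hH : MonotoneOn H (Ioo 0 1)) (hH0 : ∀ u ∈ Ioo (0 : ℝ) 1, 0 ≤ H u)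
    (G : ℝ → ℝ≥0∞) :
    ∫⁻ u in Ioo (0 : ℝ) 1, ENNReal.ofReal (deriv H u) * G (H u) ≤ ∫⁻ t in Ici (0 : ℝ), G t := by
  have hgood := restrict_good H hH
  set s := {u | DifferentiableAt ℝ H u} ∩ Ioo (0 : ℝ) 1 with hs
  have hsm : MeasurableSet s := (measurableSet_of_differentiableAt ℝ H).inter measurableSet_Ioo
  have hsI : s ⊆ Ioo 0 1 := inter_subset_right
  rw [← hgood]
  have h1 := lintegral_image_eq_lintegral_deriv_mul_of_monotoneOn hsm (f := H) (f' := deriv H)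
      (fun u hu => hu.1.hasDerivAt.hasDerivWithinAt) (hH.mono hsI) G
  rw [← h1]
  apply lintegral_mono_set
  rintro _ ⟨u, hu, rfl⟩
  exact hH0 u (hsI hu)

theorem deriv_min (x y : ℝ → ℝ) (u : ℝ) (hx : DifferentiableAt ℝ x u) (hy : DifferentiableAt ℝ y u)
    (hH : DifferentiableAt ℝ (fun v => min (y v) (2 * x v)) u) :
    deriv (fun v => min (y v) (2 * x v)) u = deriv y u ∨
      deriv (fun v => min (y v) (2 * x v)) u = 2 * deriv x u := by
  rcases le_total (y u) (2 * x u) with h | h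
  · left
    have h1 : IsLocalMin (fun v => y v - min (y v) (2 * x v)) u := by
      refine Filter.Eventually.of_forall fun v => ?_
      simp only [min_eq_left h, sub_self]
      exact sub_nonneg.mpr (min_le_left _ _)
    have h2 := h1.deriv_eq_zero
    have h3 : deriv (fun v => y v - min (y v) (2 * x v)) u =
        deriv y u - deriv (fun v => min (y v) (2 * x v)) u := deriv_fun_sub hy hH
    linarith
  · right
    have h1 : IsLocalMin (fun v => 2 * x v - min (y v) (2 * x v)) u := by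
      refine Filter.Eventually.of_forall fun v => ?_
      simp only [min_eq_right h, sub_self]
      exact sub_nonneg.mpr (min_le_right _ _)
    have h2 := h1.deriv_eq_zero
    have h3 : deriv (fun v => 2 * x v - min (y v) (2 * x v)) u =
        deriv (fun v => 2 * x v) u - deriv (fun v => min (y v) (2 * x v)) u :=
      deriv_fun_sub (hx.const_mul 2) hH
    have h4 : deriv (fun v => 2 * x v) u = 2 * deriv x u := deriv_const_mul 2 hx
    linarith

theorem real_ineq (a b c : ℝ) (ha : 0 < a) (hb : 0 < b) (hc : c = b ∨ c = 2 * a) :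
    a ^ 2 * b ^ 3 ≤ c * ((a + b) / 2) ^ 4 := by
  rcases hc with rfl | rfl
  · have h1 : a * c ≤ ((a + c) / 2) ^ 2 := by nlinarith [sq_nonneg (a - c)]
    have h2 : (a * c) ^ 2 ≤ (((a + c) / 2) ^ 2) ^ 2 :=
      pow_le_pow_left₀ (mul_pos ha hb).le h1 2
    have h3 := mul_le_mul_of_nonneg_left h2 hb.le
    calc a ^ 2 * c ^ 3 = c * (a * c) ^ 2 := by ring
      _ ≤ c * (((a + c) / 2) ^ 2) ^ 2 := h3
      _ = c * ((a + c) / 2) ^ 4 := by ring
  · have h1 : 0 ≤ a ^ 4 + 4 * a ^ 3 * b + 2 * a ^ 2 * b ^ 2 + b ^ 2 * (2 * a - b) ^ 2 := by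
      positivity
    have h2 : 2 * a * ((a + b) / 2) ^ 4 - a ^ 2 * b ^ 3 =
        a * (a ^ 4 + 4 * a ^ 3 * b + 2 * a ^ 2 * b ^ 2 + b ^ 2 * (2 * a - b) ^ 2) / 8 := by ring
    have h3 : 0 ≤ a * (a ^ 4 + 4 * a ^ 3 * b + 2 * a ^ 2 * b ^ 2 + b ^ 2 * (2 * a - b) ^ 2) / 8 := by
      positivity
    linarith

theorem pointwise (a b c : ℝ) (fx gy GH hM F Γ : ℝ≥0∞) (hF : F ≠ 0) (hΓ : Γ ≠ 0)
    (h1 : ENNReal.ofReal a * fx = F) (h2 : ENNReal.ofReal b * gy = Γ)
    (h3 : fx ^ 2 * gy ^ 3 ≤ GH * hM ^ 4) (hc : c = b ∨ c = 2 * a) :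
    F ^ 2 * Γ ^ 3 ≤ (ENNReal.ofReal c * GH) * (ENNReal.ofReal ((a + b) / 2) * hM) ^ 4 := by
  have ha : 0 < a := by
    by_contra h
    apply hF
    rw [← h1, ENNReal.ofReal_of_nonpos (not_lt.mp h), zero_mul]
  have hb : 0 < b := by
    by_contra h
    apply hΓ
    rw [← h2, ENNReal.ofReal_of_nonpos (not_lt.mp h), zero_mul]
  have hcpos : 0 ≤ c := by rcases hc with rfl | rfl <;> positivity
  have h4 : ENNReal.ofReal a ^ 2 * ENNReal.ofReal b ^ 3 ≤
      ENNReal.ofReal c * ENNReal.ofReal ((a + b) / 2) ^ 4 := by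
    rw [← ENNReal.ofReal_pow ha.le, ← ENNReal.ofReal_pow hb.le,
      ← ENNReal.ofReal_pow (by positivity), ← ENNReal.ofReal_mul (by positivity),
      ← ENNReal.ofReal_mul hcpos]
    exact ENNReal.ofReal_le_ofReal (real_ineq a b c ha hb hc)
  calc F ^ 2 * Γ ^ 3 = (ENNReal.ofReal a ^ 2 * ENNReal.ofReal b ^ 3) * (fx ^ 2 * gy ^ 3) := by
        rw [← h1, ← h2]
        ring
    _ ≤ (ENNReal.ofReal c * ENNReal.ofReal ((a + b) / 2) ^ 4) * (GH * hM ^ 4) :=
        mul_le_mul' h4 h3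
    _ = (ENNReal.ofReal c * GH) * (ENNReal.ofReal ((a + b) / 2) * hM) ^ 4 := by ring

theorem ff1_fin (f g h G : ℝ → ℝ≥0∞) (hf : Measurable f) (hg : Measurable g) (hh : Measurable h)
    (hG : Measurable G)
    (H : ∀ x y : ℝ, 0 ≤ x → 0 ≤ y →
      f x ^ 2 * g y ^ 3 ≤ G (min y (2 * x)) * h ((x + y) / 2) ^ 4)
    (hF : ∫⁻ x in Ici (0 : ℝ), f x ≠ ∞) (hΓ : ∫⁻ x in Ici (0 : ℝ), g x ≠ ∞) :
    (∫⁻ x in Ici (0 : ℝ), f x) ^ 2 * (∫⁻ x in Ici (0 : ℝ), g x) ^ 3 ≤
      (∫⁻ x in Ici (0 : ℝ), G x) * (∫⁻ x in Ici (0 : ℝ), h x) ^ 4 := by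
  by_cases hF0 : ∫⁻ x in Ici (0 : ℝ), f x = 0
  · rw [hF0, zero_pow two_ne_zero, zero_mul]
    exact zero_le
  by_cases hΓ0 : ∫⁻ x in Ici (0 : ℝ), g x = 0
  · rw [hΓ0, zero_pow three_ne_zero, mul_zero]
    exact zero_le
  obtain ⟨x, hx, hx0, hxB⟩ := exists_quantile f hF0 hF
  obtain ⟨y, hy, hy0, hyB⟩ := exists_quantile g hΓ0 hΓ
  have hxd := quantile_deriv f hf _ x hx hx0 hxB
  have hyd := quantile_deriv g hg _ y hy hy0 hyB
  set F := ∫⁻ x in Ici (0 : ℝ), f x with hFdef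
  set Γ := ∫⁻ x in Ici (0 : ℝ), g x with hΓdef
  set HH : ℝ → ℝ := fun v => min (y v) (2 * x v) with hHH
  set MM : ℝ → ℝ := fun v => (x v + y v) / 2 with hMM
  have hHHmono : MonotoneOn HH (Ioo 0 1) := fun u hu v hv huv =>
    min_le_min (hy.monotoneOn hu hv huv)
      (mul_le_mul_of_nonneg_left (hx.monotoneOn hu hv huv) zero_le_two)
  have hMMmono : MonotoneOn MM (Ioo 0 1) := fun u hu v hv huv => by
    have h1 := hx.monotoneOn hu hv huv
    have h2 := hy.monotoneOn hu hv huv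
    change (x u + y u) / 2 ≤ (x v + y v) / 2
    linarith
  have hHH0 : ∀ u ∈ Ioo (0 : ℝ) 1, 0 ≤ HH u := fun u hu =>
    le_min (hy0 u hu) (mul_nonneg zero_le_two (hx0 u hu))
  have hMM0 : ∀ u ∈ Ioo (0 : ℝ) 1, 0 ≤ MM u := fun u hu => by
    have h1 := hx0 u hu
    have h2 := hy0 u hu
    change 0 ≤ (x u + y u) / 2
    linarith
  have hc1 := contraction HH hHHmono hHH0 G
  have hc2 := contraction MM hMMmono hMM0 h
  have hHm : AEMeasurable HH (volume.restrict (Ioo 0 1)) :=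
    aemeasurable_restrict_of_monotoneOn measurableSet_Ioo hHHmono
  have hMm : AEMeasurable MM (volume.restrict (Ioo 0 1)) :=
    aemeasurable_restrict_of_monotoneOn measurableSet_Ioo hMMmono
  have hpt : ∀ᵐ u ∂(volume.restrict (Ioo (0 : ℝ) 1)), F ^ 2 * Γ ^ 3 ≤
      (ENNReal.ofReal (deriv HH u) * G (HH u)) * (ENNReal.ofReal (deriv MM u) * h (MM u)) ^ 4 := by
    filter_upwards [hxd, hyd, ae_diff x hx.monotoneOn, ae_diff y hy.monotoneOn,
      ae_diff HH hHHmono, ae_restrict_mem measurableSet_Ioo] with u h1 h2 h3 h4 h5 hu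
    have h6 : deriv MM u = (deriv x u + deriv y u) / 2 := by
      change deriv (fun v => (x v + y v) / 2) u = _
      rw [deriv_div_const, deriv_fun_add h3 h4]
    rw [h6]
    exact pointwise _ _ _ _ _ _ _ _ _ hF0 hΓ0 h1 h2 (H (x u) (y u) (hx0 u hu) (hy0 u hu))
      (deriv_min x y u h3 h4 h5)
  set U : ℝ → ℝ≥0∞ := fun u => ENNReal.ofReal (deriv HH u) * G (HH u) with hU
  set W : ℝ → ℝ≥0∞ := fun u => ENNReal.ofReal (deriv MM u) * h (MM u) with hW
  have hUm : AEMeasurable U (volume.restrict (Ioo 0 1)) :=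
    ((measurable_deriv HH).ennreal_ofReal.aemeasurable).mul (hG.comp_aemeasurable hHm)
  have hWm : AEMeasurable W (volume.restrict (Ioo 0 1)) :=
    ((measurable_deriv MM).ennreal_ofReal.aemeasurable).mul (hh.comp_aemeasurable hMm)
  have hholder := ENNReal.lintegral_mul_norm_pow_le hUm hWm (p := 1 / 5) (q := 4 / 5)
    (by norm_num) (by norm_num) (by norm_num)
  have hpow : ∀ A B : ℝ≥0∞, (A ^ (1 / 5 : ℝ) * B ^ (4 / 5 : ℝ)) ^ (5 : ℕ) = A * B ^ 4 := by
    intro A B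
    rw [mul_pow, ← ENNReal.rpow_natCast, ← ENNReal.rpow_mul, ← ENNReal.rpow_natCast,
      ← ENNReal.rpow_mul, ← ENNReal.rpow_natCast B 4]
    norm_num
  have h5 : (F ^ 2 * Γ ^ 3) ^ (1 / 5 : ℝ) ≤
      (∫⁻ u in Ioo (0 : ℝ) 1, U u) ^ (1 / 5 : ℝ) * (∫⁻ u in Ioo (0 : ℝ) 1, W u) ^ (4 / 5 : ℝ) := by
    calc (F ^ 2 * Γ ^ 3) ^ (1 / 5 : ℝ) = ∫⁻ u in Ioo (0 : ℝ) 1, (F ^ 2 * Γ ^ 3) ^ (1 / 5 : ℝ) := by
          rw [setLIntegral_const, Real.volume_Ioo]
          simp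
      _ ≤ ∫⁻ u in Ioo (0 : ℝ) 1, U u ^ (1 / 5 : ℝ) * W u ^ (4 / 5 : ℝ) := by
          apply lintegral_mono_ae
          filter_upwards [hpt] with u hu
          calc (F ^ 2 * Γ ^ 3) ^ (1 / 5 : ℝ) ≤ (U u * W u ^ 4) ^ (1 / 5 : ℝ) :=
                ENNReal.rpow_le_rpow hu (by norm_num)
            _ = U u ^ (1 / 5 : ℝ) * W u ^ (4 / 5 : ℝ) := by
                rw [ENNReal.mul_rpow_of_nonneg _ _ (by norm_num), ← ENNReal.rpow_natCast,
                  ← ENNReal.rpow_mul]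
                norm_num
      _ ≤ _ := hholder
  have hp5 : ∀ A : ℝ≥0∞, A = (A ^ (1 / 5 : ℝ)) ^ (5 : ℕ) := by
    intro A
    rw [← ENNReal.rpow_natCast, ← ENNReal.rpow_mul]
    norm_num
  calc F ^ 2 * Γ ^ 3 = ((F ^ 2 * Γ ^ 3) ^ (1 / 5 : ℝ)) ^ (5 : ℕ) := hp5 _
    _ ≤ ((∫⁻ u in Ioo (0 : ℝ) 1, U u) ^ (1 / 5 : ℝ) *
        (∫⁻ u in Ioo (0 : ℝ) 1, W u) ^ (4 / 5 : ℝ)) ^ (5 : ℕ) := pow_le_pow_left' h5 5
    _ = (∫⁻ u in Ioo (0 : ℝ) 1, U u) * (∫⁻ u in Ioo (0 : ℝ) 1, W u) ^ 4 := hpow _ _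
    _ ≤ (∫⁻ x in Ici (0 : ℝ), G x) * (∫⁻ x in Ici (0 : ℝ), h x) ^ 4 :=
        mul_le_mul' hc1 (pow_le_pow_left' hc2 4)

/-- truncation -/
noncomputable def trunc (f : ℝ → ℝ≥0∞) (n : ℕ) (x : ℝ) : ℝ≥0∞ :=
  if x ≤ n then min (f x) n else 0

theorem trunc_le (f : ℝ → ℝ≥0∞) (n : ℕ) (x : ℝ) : trunc f n x ≤ f x := by
  unfold trunc
  split_ifs
  · exact min_le_left _ _
  · exact zero_le

theorem trunc_meas (f : ℝ → ℝ≥0∞) (hf : Measurable f) (n : ℕ) : Measurable (trunc f n) :=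
  Measurable.ite measurableSet_Iic (hf.min measurable_const) measurable_const

theorem trunc_fin (f : ℝ → ℝ≥0∞) (n : ℕ) : ∫⁻ x in Ici (0 : ℝ), trunc f n x ≠ ∞ := by
  have h1 : ∫⁻ x in Ici (0 : ℝ), trunc f n x ≤
      ∫⁻ x in Ici (0 : ℝ), (Iic (n : ℝ)).indicator (fun _ => (n : ℝ≥0∞)) x := by
    apply lintegral_mono
    intro x
    unfold trunc
    by_cases h : x ≤ n
    · rw [if_pos h, indicator_of_mem (show x ∈ Iic (n : ℝ) from h)]
      exact min_le_right _ _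
    · rw [if_neg h]
      exact zero_le
  refine ne_top_of_le_ne_top ?_ h1
  rw [lintegral_indicator measurableSet_Iic, Measure.restrict_restrict measurableSet_Iic,
    Iic_inter_Ici, setLIntegral_const, Real.volume_Icc]
  exact ENNReal.mul_ne_top (ENNReal.natCast_ne_top n) ENNReal.ofReal_ne_top

theorem trunc_mono (f : ℝ → ℝ≥0∞) (x : ℝ) : Monotone (fun n => trunc f n x) := by
  intro m n hmn
  simp only [trunc]
  have h1 : (m : ℝ) ≤ n := by exact_mod_cast hmn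
  by_cases h : x ≤ m
  · rw [if_pos h, if_pos (h.trans h1)]
    exact min_le_min le_rfl (by exact_mod_cast hmn)
  · rw [if_neg h]
    exact zero_le

theorem trunc_tendsto (f : ℝ → ℝ≥0∞) (x : ℝ) :
    Filter.Tendsto (fun n => trunc f n x) Filter.atTop (nhds (f x)) := by
  have h1 : Filter.Tendsto (fun n : ℕ => min (f x) (n : ℝ≥0∞)) Filter.atTop (nhds (f x)) := by
    have h2 := (tendsto_const_nhds (x := f x)).min ENNReal.tendsto_nat_nhds_top
    simpa using h2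
  refine h1.congr' ?_
  obtain ⟨N, hN⟩ := exists_nat_ge x
  filter_upwards [Filter.eventually_ge_atTop N] with n hn
  rw [trunc, if_pos (hN.trans (by exact_mod_cast hn))]

theorem trunc_lim (f : ℝ → ℝ≥0∞) (hf : Measurable f) :
    Filter.Tendsto (fun n => ∫⁻ x in Ici (0 : ℝ), trunc f n x) Filter.atTop
      (nhds (∫⁻ x in Ici (0 : ℝ), f x)) :=
  lintegral_tendsto_of_tendsto_of_monotone (fun n => (trunc_meas f hf n).aemeasurable)
    (Filter.Eventually.of_forall fun x => trunc_mono f x)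
    (Filter.Eventually.of_forall fun x => trunc_tendsto f x)

end A1aux

theorem ff1 (f g h G : ℝ → ℝ≥0∞) (hf : Measurable f) (hg : Measurable g) (hh : Measurable h)
    (hG : Measurable G)
    (H : ∀ x y : ℝ, 0 ≤ x → 0 ≤ y →
      f x ^ 2 * g y ^ 3 ≤ G (min y (2 * x)) * h ((x + y) / 2) ^ 4) :
    (∫⁻ x in Set.Ici (0 : ℝ), f x) ^ 2 * (∫⁻ x in Set.Ici (0 : ℝ), g x) ^ 3 ≤
      (∫⁻ x in Set.Ici (0 : ℝ), G x) * (∫⁻ x in Set.Ici (0 : ℝ), h x) ^ 4 := by
  by_cases hF0 : ∫⁻ x in Set.Ici (0 : ℝ), f x = 0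
  · rw [hF0, zero_pow two_ne_zero, zero_mul]
    exact zero_le
  by_cases hΓ0 : ∫⁻ x in Set.Ici (0 : ℝ), g x = 0
  · rw [hΓ0, zero_pow three_ne_zero, mul_zero]
    exact zero_le
  have h1 : ∀ n : ℕ, (∫⁻ x in Set.Ici (0 : ℝ), A1aux.trunc f n x) ^ 2 *
      (∫⁻ x in Set.Ici (0 : ℝ), A1aux.trunc g n x) ^ 3 ≤
      (∫⁻ x in Set.Ici (0 : ℝ), G x) * (∫⁻ x in Set.Ici (0 : ℝ), h x) ^ 4 := fun n =>
    A1aux.ff1_fin _ _ h G (A1aux.trunc_meas f hf n) (A1aux.trunc_meas g hg n) hh hG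
      (fun x y hx hy => (mul_le_mul' (pow_le_pow_left' (A1aux.trunc_le f n x) 2)
        (pow_le_pow_left' (A1aux.trunc_le g n y) 3)).trans (H x y hx hy))
      (A1aux.trunc_fin f n) (A1aux.trunc_fin g n)
  have h2 := (ENNReal.continuous_pow 2).continuousAt.tendsto.comp (A1aux.trunc_lim f hf)
  have h3 := (ENNReal.continuous_pow 3).continuousAt.tendsto.comp (A1aux.trunc_lim g hg)
  have h4 := ENNReal.Tendsto.mul h2 (Or.inl (pow_ne_zero 2 hF0)) h3 (Or.inl (pow_ne_zero 3 hΓ0))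
  exact le_of_tendsto' h4 h1

end Pool.Agent.Helper711SMP.A1

namespace Pool.Agent.Helper711SMP

alias ff1 := Pool.Agent.Helper711SMP.A1.ff1

end Pool.Agent.Helper711SMP
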