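import Mathlib
import Pool.Agent.Helper711_SMP.A1

/-!
# Four function inequality
-/

set_option autoImplicit false

namespace Pool.Agent.Helper711SMP.A2

open MeasureTheory
open scoped ENNReal

/-- splitting off the first coordinate -/
noncomputable def ffn_ee (M : ℕ) : ((Fin (M + 1)) → ℝ) ≃ᵐ ℝ × (Fin M → ℝ) :=
  MeasurableEquiv.piFinSuccAbove (fun _ : Fin (M + 1) => ℝ) 0

lemma ffn_ee_symm_zero (M : ℕ) (x : ℝ) (z : Fin M → ℝ) : (ffn_ee M).symm (x, z) 0 = x := by
  simp [ffn_ee, MeasurableEquiv.piFinSuccAbove]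

lemma ffn_ee_symm_succ (M : ℕ) (x : ℝ) (z : Fin M → ℝ) (i : Fin M) :
    (ffn_ee M).symm (x, z) i.succ = z i := by
  simp [ffn_ee, MeasurableEquiv.piFinSuccAbove]

lemma ffn_mp (M : ℕ) : MeasurePreserving (ffn_ee M).symm
    ((volume : Measure ℝ).prod (volume : Measure (Fin M → ℝ)))
    (volume : Measure (Fin (M + 1) → ℝ)) := by
  have h := measurePreserving_piFinSuccAbove (fun _ : Fin (M + 1) => (volume : Measure ℝ)) 0
  exact h.symm _

lemma ffn_S (M : ℕ) : MeasurableSet {x : Fin M → ℝ | ∀ i, 0 ≤ x i} := by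
  have : {x : Fin M → ℝ | ∀ i, 0 ≤ x i} = ⋂ i, {x | 0 ≤ x i} := by
    ext x; simp
  rw [this]
  exact MeasurableSet.iInter fun i => measurableSet_le measurable_const (measurable_pi_apply i)

lemma ffn_lint (M : ℕ) (f : (Fin (M + 1) → ℝ) → ℝ≥0∞) (hf : Measurable f) :
    ∫⁻ x in {x : Fin (M + 1) → ℝ | ∀ i, 0 ≤ x i}, f x =
      ∫⁻ x in Set.Ici (0 : ℝ), ∫⁻ z in {z : Fin M → ℝ | ∀ i, 0 ≤ z i},
        f ((ffn_ee M).symm (x, z)) := by
  rw [← lintegral_indicator (ffn_S (M + 1)), ← (ffn_mp M).lintegral_comp (hf.indicator (ffn_S _)),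
    lintegral_prod (fun p => Set.indicator {x : Fin (M + 1) → ℝ | ∀ i, 0 ≤ x i} f
      ((ffn_ee M).symm p))
      ((hf.indicator (ffn_S _)).comp (ffn_ee M).symm.measurable).aemeasurable,
    ← lintegral_indicator measurableSet_Ici]
  apply lintegral_congr
  intro t
  by_cases ht : t ∈ Set.Ici (0:ℝ)
  · rw [Set.indicator_of_mem ht, ← lintegral_indicator (ffn_S M)]
    apply lintegral_congr
    intro z
    by_cases hz : z ∈ {z : Fin M → ℝ | ∀ i, 0 ≤ z i}
    · rw [Set.indicator_of_mem hz, Set.indicator_of_mem]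
      intro i
      refine Fin.cases ?_ (fun j => ?_) i
      · rw [ffn_ee_symm_zero]; exact ht
      · rw [ffn_ee_symm_succ]; exact hz j
    · rw [Set.indicator_of_notMem hz, Set.indicator_of_notMem]
      intro hc
      apply hz
      intro j
      have := hc j.succ
      rwa [ffn_ee_symm_succ] at this
  · rw [Set.indicator_of_notMem ht]
    rw [lintegral_eq_zero_of_ae_eq_zero]
    filter_upwards with z
    apply Set.indicator_of_notMem
    intro hc
    apply ht
    have := hc 0
    rwa [ffn_ee_symm_zero] at this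

theorem ffn (k : ℕ) (f g h G : (Fin k → ℝ) → ℝ≥0∞) (hf : Measurable f) (hg : Measurable g)
    (hh : Measurable h) (hG : Measurable G)
    (H : ∀ x y : Fin k → ℝ, (∀ i, 0 ≤ x i) → (∀ i, 0 ≤ y i) →
      f x ^ 2 * g y ^ 3 ≤ G (fun i => min (y i) (2 * x i)) * h (fun i => (x i + y i) / 2) ^ 4) :
    (∫⁻ x in {x : Fin k → ℝ | ∀ i, 0 ≤ x i}, f x) ^ 2 *
        (∫⁻ x in {x : Fin k → ℝ | ∀ i, 0 ≤ x i}, g x) ^ 3 ≤
      (∫⁻ x in {x : Fin k → ℝ | ∀ i, 0 ≤ x i}, G x) *
        (∫⁻ x in {x : Fin k → ℝ | ∀ i, 0 ≤ x i}, h x) ^ 4 := by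
  induction k with
  | zero =>
    have hS : {x : Fin 0 → ℝ | ∀ i, 0 ≤ x i} = Set.univ := by
      ext x
      simp
    have hu : (volume : Measure (Fin 0 → ℝ)) Set.univ = 1 := by
      rw [volume_pi, Measure.pi_univ]; simp
    rw [hS, Measure.restrict_univ]
    rw [lintegral_unique, lintegral_unique, lintegral_unique, lintegral_unique, hu, mul_one,
      mul_one, mul_one, mul_one]
    have key : ∀ x y z w : Fin 0 → ℝ, f x ^ 2 * g y ^ 3 ≤ G z * h w ^ 4 := by
      intro x y z w
      have h1 := H x y (fun i => i.elim0) (fun i => i.elim0)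
      rwa [Subsingleton.elim (fun i => min (y i) (2 * x i)) z,
        Subsingleton.elim (fun i => (x i + y i) / 2) w] at h1
    exact key _ _ _ _
  | succ M ih =>
    rw [ffn_lint M f hf, ffn_lint M g hg, ffn_lint M h hh, ffn_lint M G hG]
    have meas : ∀ φ : (Fin (M + 1) → ℝ) → ℝ≥0∞, Measurable φ →
        Measurable fun p : ℝ × (Fin M → ℝ) => φ ((ffn_ee M).symm p) :=
      fun φ hφ => hφ.comp (ffn_ee M).symm.measurable
    have meas1 : ∀ φ : (Fin (M + 1) → ℝ) → ℝ≥0∞, Measurable φ → ∀ x : ℝ,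
        Measurable fun z : Fin M → ℝ => φ ((ffn_ee M).symm (x, z)) :=
      fun φ hφ x => (meas φ hφ).comp measurable_prodMk_left
    refine ff1 _ _ _ _ (meas f hf).lintegral_prod_right (meas g hg).lintegral_prod_right
      (meas h hh).lintegral_prod_right (meas G hG).lintegral_prod_right ?_
    intro x y hx hy
    refine ih _ _ _ _ (meas1 f hf x) (meas1 g hg y) (meas1 h hh _) (meas1 G hG _) ?_
    intro z w hz hw
    have h1 := H ((ffn_ee M).symm (x, z)) ((ffn_ee M).symm (y, w)) ?_ ?_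
    · have e1 : (fun i => min ((ffn_ee M).symm (y, w) i) (2 * (ffn_ee M).symm (x, z) i)) =
          (ffn_ee M).symm (min y (2 * x), fun i => min (w i) (2 * z i)) := by
        funext i
        refine Fin.cases ?_ (fun j => ?_) i
        · simp only [ffn_ee_symm_zero]
        · simp only [ffn_ee_symm_succ]
      have e2 : (fun i => ((ffn_ee M).symm (x, z) i + (ffn_ee M).symm (y, w) i) / 2) =
          (ffn_ee M).symm ((x + y) / 2, fun i => (z i + w i) / 2) := by
        funext i
        refine Fin.cases ?_ (fun j => ?_) i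
        · simp only [ffn_ee_symm_zero]
        · simp only [ffn_ee_symm_succ]
      rwa [e1, e2] at h1
    · intro i
      refine Fin.cases ?_ (fun j => ?_) i
      · rw [ffn_ee_symm_zero]; exact hx
      · rw [ffn_ee_symm_succ]; exact hz j
    · intro i
      refine Fin.cases ?_ (fun j => ?_) i
      · rw [ffn_ee_symm_zero]; exact hy
      · rw [ffn_ee_symm_succ]; exact hw j

end Pool.Agent.Helper711SMP.A2

namespace Pool.Agent.Helper711SMP

alias ffn := Pool.Agent.Helper711SMP.A2.ffn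

end Pool.Agent.Helper711SMP
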