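import Mathlib

/-!
# Unconditional log-concave densities: basic facts

Helper file for `MP_920d63_pr` (Sudakov minoration for unconditional log-concave vectors).
-/

set_option autoImplicit false

namespace Pool.Agent.Helper711SMP

open MeasureTheory
open scoped ENNReal

/-- `f` is a log-concave probability density on `Fin n → ℝ` that is even in every coordinate. -/
structure UD {n : ℕ} (f : (Fin n → ℝ) → ℝ≥0∞) : Prop where
  meas : Measurable f
  mass : ∫⁻ x, f x = 1
  logc : ∀ s : ℝ, 0 < s → s < 1 → ∀ x y : Fin n → ℝ,
    f x ^ s * f y ^ (1 - s) ≤ f (s • x + (1 - s) • y)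
  even : ∀ (i : Fin n) (x : Fin n → ℝ), f (Function.update x i (-x i)) = f x

end Pool.Agent.Helper711SMP
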