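import Mathlib
import Pool.Agent.Helper711_SMP.Defs

/-!
# Basic facts on unconditional log-concave densities
-/

set_option autoImplicit false

namespace Pool.Agent.Helper711SMP

open MeasureTheory
open scoped ENNReal

variable {n : ℕ} {f : (Fin n → ℝ) → ℝ≥0∞}

lemma rpow_split (a : ℝ≥0∞) {s : ℝ} (hs : 0 < s) (hs1 : s < 1) : a ^ s * a ^ (1 - s) = a := by
  rcases eq_or_ne a 0 with h | h
  · subst h
    rw [ENNReal.zero_rpow_of_pos hs, zero_mul]
  rcases eq_or_ne a ⊤ with h' | h'
  · subst h'
    rw [ENNReal.top_rpow_of_pos hs, ENNReal.top_rpow_of_pos (by linarith)]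
    simp
  · rw [← ENNReal.rpow_add _ _ h h']
    simp

/-- shrinking one coordinate increases the density -/
lemma UD.anti_one (hf : UD f) (i : Fin n) (x : Fin n → ℝ) (c : ℝ) (hc : |c| ≤ |x i|) :
    f x ≤ f (Function.update x i c) := by
  rcases eq_or_ne c (x i) with h1 | h1
  · rw [h1, Function.update_eq_self]
  rcases eq_or_ne c (-x i) with h2 | h2
  · rw [h2, hf.even]
  -- strict case
  have hx : x i ≠ 0 := by
    intro h
    rw [h, abs_zero] at hc
    have : c = 0 := abs_nonpos_iff.1 hc
    rw [this, h] at h1
    exact h1 rfl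
  have hlt : |c| < |x i| := by
    rcases lt_or_eq_of_le hc with h | h
    · exact h
    · rcases abs_eq_abs.1 h with h' | h'
      · exact absurd h' h1
      · exact absurd h' h2
  set s : ℝ := (1 + c / x i) / 2 with hs
  have hq : |c / x i| < 1 := by
    rw [abs_div, div_lt_one (abs_pos.2 hx)]
    exact hlt
  have hq' := abs_lt.1 hq
  have hs0 : 0 < s := by rw [hs]; linarith [hq'.1]
  have hs1 : s < 1 := by rw [hs]; linarith [hq'.2]
  have key := hf.logc s hs0 hs1 x (Function.update x i (-x i))
  rw [hf.even i x, rpow_split _ hs0 hs1] at key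
  convert key using 2
  funext j
  rcases eq_or_ne j i with h | h
  · subst h
    simp only [Function.update_self, Pi.add_apply, Pi.smul_apply, smul_eq_mul]
    rw [hs]
    field_simp
    ring
  · simp only [Function.update_of_ne h, Pi.add_apply, Pi.smul_apply, smul_eq_mul]
    ring

/-- the density is nonincreasing in the absolute value of every coordinate -/
lemma UD.anti (hf : UD f) {x y : Fin n → ℝ} (h : ∀ i, |x i| ≤ |y i|) : f y ≤ f x := by
  classical
  have key : ∀ s : Finset (Fin n), f y ≤ f (fun i => if i ∈ s then x i else y i) := by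
    intro s
    induction s using Finset.induction_on with
    | empty => simp
    | insert a s ha ih =>
      refine ih.trans ?_
      refine (hf.anti_one a _ (x a) ?_).trans (le_of_eq ?_)
      · simp only [ha, if_false]
        exact h a
      · congr 1
        funext j
        rcases eq_or_ne j a with hj | hj
        · subst hj
          simp
        · simp [Function.update_of_ne hj, Finset.mem_insert, hj]
  have := key Finset.univ
  simpa using this

/-- the density only depends on the absolute values of the coordinates -/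
lemma UD.eq_of_abs (hf : UD f) {x y : Fin n → ℝ} (h : ∀ i, |x i| = |y i|) : f x = f y :=
  le_antisymm (hf.anti fun i => (h i).symm.le) (hf.anti fun i => (h i).le)

/-- midpoint log-concavity -/
lemma UD.mid (hf : UD f) (x y : Fin n → ℝ) :
    f x * f y ≤ f (fun i => (x i + y i) / 2) ^ 2 := by
  have h := hf.logc (1 / 2) (by norm_num) (by norm_num) x y
  have e : ((1 / 2 : ℝ) • x + (1 - 1 / 2 : ℝ) • y) = fun i => (x i + y i) / 2 := by
    funext i
    simp only [Pi.add_apply, Pi.smul_apply, smul_eq_mul]
    ring
  rw [e] at h
  calc f x * f y = (f x ^ (1 / 2 : ℝ) * f y ^ (1 - 1 / 2 : ℝ)) ^ 2 := by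
        rw [mul_pow, ← ENNReal.rpow_natCast, ← ENNReal.rpow_natCast, ← ENNReal.rpow_mul,
          ← ENNReal.rpow_mul]
        norm_num
    _ ≤ _ := by gcongr

end Pool.Agent.Helper711SMP
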