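import Mathlib
import Pool.Agent.TH264.MP.PL

/-!
# Prekopa-Leindler, re-exported
-/

set_option autoImplicit false

namespace Pool.Agent.Helper711SMP

open MeasureTheory
open scoped ENNReal

theorem pl (k : ℕ) (s : ℝ) (hs : 0 < s) (hs1 : s < 1) (f g h : (Fin k → ℝ) → ℝ≥0∞)
    (hf : Measurable f) (hg : Measurable g) (hh : Measurable h)
    (hfg : ∀ x y, f x ^ s * g y ^ (1 - s) ≤ h (s • x + (1 - s) • y)) :
    (∫⁻ x, f x) ^ s * (∫⁻ x, g x) ^ (1 - s) ≤ ∫⁻ x, h x :=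
  Pool.Agent.TH264.MP.pl k s hs hs1 f g h hf hg hh hfg

end Pool.Agent.Helper711SMP
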