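import Mathlib
import Pool.Agent.Helper711_SMP.Basic
import Pool.Agent.Helper711_SMP.PLx

/-!
# Tail bound
-/

set_option autoImplicit false

namespace Pool.Agent.Helper711SMP.B

open MeasureTheory
open scoped ENNReal

variable {n : ℕ} {f : (Fin n → ℝ) → ℝ≥0∞}

/-- change of variables: scaling one coordinate -/
lemma tb_scale (i : Fin n) (s : ℝ) (hs : s ≠ 0) (g : (Fin n → ℝ) → ℝ≥0∞) (hg : Measurable g) :
    ∫⁻ x, g x = ENNReal.ofReal |s| * ∫⁻ x : Fin n → ℝ, g (Function.update x i (s * x i)) := by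
  have hD : Matrix.det (Matrix.diagonal (Function.update (1 : Fin n → ℝ) i s)) = s := by
    rw [Matrix.det_diagonal, Finset.prod_update_of_mem (Finset.mem_univ i)]
    simp
  have h := Real.smul_map_diagonal_volume_pi (D := Function.update (1 : Fin n → ℝ) i s)
    (by rw [hD]; exact hs)
  rw [hD] at h
  conv_lhs => rw [← h]
  rw [lintegral_smul_measure, lintegral_map hg
    (LinearMap.continuous_of_finiteDimensional _).measurable, smul_eq_mul]
  congr 1
  apply lintegral_congr
  intro x
  congr 1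
  ext j
  rw [Matrix.toLin'_apply, Matrix.mulVec_diagonal]
  by_cases hj : j = i
  · subst hj
    simp
  · simp [Function.update_of_ne hj]

/-- the comparison of a slab of width 4 with a slab of width `τ` -/
lemma tb_key (hf : UD f) (i : Fin n) (τ : ℝ) (h0 : 0 < τ) (h4 : τ ≤ 4)
    (G : Set (Fin n → ℝ)) (hG : MeasurableSet G)
    (hGi : ∀ (x : Fin n → ℝ) (c : ℝ), Function.update x i c ∈ G → x ∈ G) :
    ∫⁻ x in {x : Fin n → ℝ | |x i| < 4} ∩ G, f x ≤
      ENNReal.ofReal (4 / τ) * ∫⁻ x in {x : Fin n → ℝ | |x i| < τ} ∩ G, f x := by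
  have hm : ∀ c : ℝ, MeasurableSet ({x : Fin n → ℝ | |x i| < c} ∩ G) := by
    intro c
    refine MeasurableSet.inter ?_ hG
    exact measurableSet_lt ((measurable_pi_apply i).abs) measurable_const
  have hs : (0 : ℝ) < 4 / τ := by positivity
  rw [← lintegral_indicator (hm 4), ← lintegral_indicator (hm τ),
    tb_scale i (4 / τ) hs.ne' _ (hf.meas.indicator (hm 4)), abs_of_pos hs]
  refine mul_le_mul_right ?_ _
  apply lintegral_mono
  intro x
  dsimp only
  by_cases hx : Function.update x i (4 / τ * x i) ∈ {x : Fin n → ℝ | |x i| < 4} ∩ G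
  · rw [Set.indicator_of_mem hx]
    have hx1 : |4 / τ * x i| < 4 := by
      have := hx.1
      simpa using this
    have hx2 : x ∈ G := hGi _ _ hx.2
    have hx3 : |x i| < τ := by
      rw [abs_mul, abs_of_pos hs, div_mul_eq_mul_div, div_lt_iff₀ h0] at hx1
      linarith
    have hx4 : x ∈ {x : Fin n → ℝ | |x i| < τ} ∩ G := ⟨hx3, hx2⟩
    rw [Set.indicator_of_mem hx4]
    apply hf.anti
    intro j
    by_cases hj : j = i
    · subst hj
      rw [Function.update_self, abs_mul, abs_of_pos hs]
      have h1 : (1 : ℝ) ≤ 4 / τ := by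
        rw [le_div_iff₀ h0]
        linarith
      nlinarith [abs_nonneg (x j)]
    · rw [Function.update_of_ne hj]
  · rw [Set.indicator_of_notMem hx]
    exact bot_le

/-- the probability measure with density `f` -/
lemma tb_prob (hf : UD f) : IsProbabilityMeasure ((volume : Measure (Fin n → ℝ)).withDensity f) := by
  constructor
  rw [withDensity_apply _ MeasurableSet.univ, Measure.restrict_univ]
  exact hf.mass

lemma tb_meas (t : Fin n → ℝ) : MeasurableSet {x : Fin n → ℝ | ∀ i, t i ≤ |x i|} := by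
  rw [Set.ofPred_forall]
  exact MeasurableSet.iInter fun i =>
    measurableSet_le measurable_const ((measurable_pi_apply i).abs)

/-- part (a), one coordinate -/
lemma tb_one (hf : UD f) (hm : ∀ i, ∫⁻ x, ENNReal.ofReal |x i| * f x ≤ 1)
    (i : Fin n) (τ : ℝ) (h0 : 0 ≤ τ) (h4 : τ ≤ 4)
    (G : Set (Fin n → ℝ)) (hG : MeasurableSet G)
    (hGi : ∀ (x : Fin n → ℝ) (c : ℝ), Function.update x i c ∈ G → x ∈ G)
    (hG2 : 1 / 2 ≤ ((volume : Measure (Fin n → ℝ)).withDensity f).real G) :
    τ / 16 ≤ ((volume : Measure (Fin n → ℝ)).withDensity f).real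
      ({x : Fin n → ℝ | |x i| < τ} ∩ G) := by
  have := tb_prob hf
  set P := (volume : Measure (Fin n → ℝ)).withDensity f with hP
  rcases eq_or_lt_of_le h0 with h | h0
  · rw [← h]
    simp
  have hm4 : ∀ c : ℝ, MeasurableSet ({x : Fin n → ℝ | |x i| < c}) := by
    intro c
    exact measurableSet_lt ((measurable_pi_apply i).abs) measurable_const
  have hmabs : Measurable (fun x : Fin n → ℝ => ENNReal.ofReal |x i|) :=
    ((measurable_pi_apply i).abs).ennreal_ofReal
  -- Markov
  have h1 : P {x : Fin n → ℝ | ENNReal.ofReal 4 ≤ ENNReal.ofReal |x i|} ≤ 1 / 4 := by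
    have h2 := mul_meas_ge_le_lintegral (μ := P) hmabs (ENNReal.ofReal 4)
    rw [hP, lintegral_withDensity_eq_lintegral_mul _ hf.meas hmabs, ← hP] at h2
    have h3 : ∫⁻ x, (f * fun x : Fin n → ℝ => ENNReal.ofReal |x i|) x ≤ 1 := by
      refine le_trans (le_of_eq ?_) (hm i)
      apply lintegral_congr
      intro x
      rw [Pi.mul_apply, mul_comm]
    have h4' := h2.trans h3
    rw [mul_comm] at h4'
    have h5 : ENNReal.ofReal 4 = 4 := by norm_num
    rw [ENNReal.le_div_iff_mul_le (by left; norm_num) (by left; norm_num)]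
    rw [h5] at h4' ⊢
    exact h4'
  have h1' : P.real ({x : Fin n → ℝ | |x i| < 4})ᶜ ≤ 1 / 4 := by
    have h6 : ({x : Fin n → ℝ | |x i| < 4})ᶜ ⊆
        {x : Fin n → ℝ | ENNReal.ofReal 4 ≤ ENNReal.ofReal |x i|} := by
      intro x hx
      rw [Set.mem_compl_iff, Set.mem_ofPred_eq, not_lt] at hx
      exact ENNReal.ofReal_le_ofReal hx
    have h7 := (measure_mono h6).trans h1
    have h8 : P.real ({x : Fin n → ℝ | |x i| < 4})ᶜ ≤ (1 / 4 : ℝ≥0∞).toReal :=
      ENNReal.toReal_mono (by simp) h7
    simpa using h8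
  have h2 : 1 / 4 ≤ P.real ({x : Fin n → ℝ | |x i| < 4} ∩ G) := by
    have h9 : P.real G ≤ P.real ({x : Fin n → ℝ | |x i| < 4} ∩ G) +
        P.real ({x : Fin n → ℝ | |x i| < 4})ᶜ := by
      refine le_trans (measureReal_mono ?_) (measureReal_union_le _ _)
      intro x hx
      by_cases h : |x i| < 4
      · exact Or.inl ⟨h, hx⟩
      · exact Or.inr h
    linarith
  have h3 : P.real ({x : Fin n → ℝ | |x i| < 4} ∩ G) ≤
      4 / τ * P.real ({x : Fin n → ℝ | |x i| < τ} ∩ G) := by
    have h10 := tb_key hf i τ h0 h4 G hG hGi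
    rw [← withDensity_apply _ ((hm4 4).inter hG), ← withDensity_apply _ ((hm4 τ).inter hG),
      ← hP] at h10
    have h11 := ENNReal.toReal_mono
      (ENNReal.mul_ne_top ENNReal.ofReal_ne_top (measure_ne_top P _)) h10
    rw [ENNReal.toReal_mul, ENNReal.toReal_ofReal (by positivity)] at h11
    exact h11
  have h5 : 1 / 4 ≤ 4 / τ * P.real ({x : Fin n → ℝ | |x i| < τ} ∩ G) := h2.trans h3
  rw [div_mul_eq_mul_div, le_div_iff₀ h0] at h5
  linarith

/-- part (a) -/
lemma tb_small (hf : UD f) (hm : ∀ i, ∫⁻ x, ENNReal.ofReal |x i| * f x ≤ 1)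
    (τ : Fin n → ℝ) (h0 : ∀ i, 0 ≤ τ i) (h1 : ∑ i, τ i ≤ 1) :
    ((volume : Measure (Fin n → ℝ)).withDensity f).real {x : Fin n → ℝ | ∀ i, τ i ≤ |x i|} ≤
      Real.exp (-((1 / 40) * ∑ i, τ i)) := by
  have := tb_prob hf
  set P := (volume : Measure (Fin n → ℝ)).withDensity f with hP
  have hS : 0 ≤ ∑ i, τ i := Finset.sum_nonneg fun i _ => h0 i
  have hexp := Real.add_one_le_exp (-((1 / 40) * ∑ i, τ i))
  by_cases hu : P.real {x : Fin n → ℝ | ∀ i, τ i ≤ |x i|} < 1 / 2
  · linarith
  push Not at hu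
  have hle : ∀ i, τ i ≤ 4 := by
    intro i
    have := Finset.single_le_sum (f := τ) (fun j _ => h0 j) (Finset.mem_univ i)
    linarith
  let G : Fin n → Set (Fin n → ℝ) := fun i => {x | ∀ j, j < i → τ j ≤ |x j|}
  have hGm : ∀ i, MeasurableSet (G i) := by
    intro i
    simp only [G]
    have : {x : Fin n → ℝ | ∀ j, j < i → τ j ≤ |x j|} =
        ⋂ j, ⋂ (_ : j < i), {x : Fin n → ℝ | τ j ≤ |x j|} := by
      ext x
      simp
    rw [this]
    exact MeasurableSet.iInter fun j => MeasurableSet.iInter fun _ =>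
      measurableSet_le measurable_const ((measurable_pi_apply j).abs)
  let E : Fin n → Set (Fin n → ℝ) := fun i => {x : Fin n → ℝ | |x i| < τ i} ∩ G i
  have hEm : ∀ i, MeasurableSet (E i) := by
    intro i
    exact (measurableSet_lt ((measurable_pi_apply i).abs) measurable_const).inter (hGm i)
  have hE : ∀ i, τ i / 16 ≤ P.real (E i) := by
    intro i
    apply tb_one hf hm i (τ i) (h0 i) (hle i) (G i) (hGm i)
    · intro x c hx j hj
      have := hx j hj
      rwa [Function.update_of_ne hj.ne] at this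
    · refine hu.trans (measureReal_mono ?_)
      intro x hx j _
      exact hx j
  have hdisj : (↑(Finset.univ : Finset (Fin n)) : Set (Fin n)).PairwiseDisjoint E := by
    have key : ∀ i j, i < j → Disjoint (E i) (E j) := by
      intro i j hij
      rw [Set.disjoint_left]
      intro x hx hx'
      have h2 : |x i| < τ i := hx.1
      have h3 : τ i ≤ |x i| := hx'.2 i hij
      exact absurd h2 (not_lt.mpr h3)
    intro i _ j _ hij
    rcases lt_or_gt_of_ne hij with h | h
    · exact key i j h
    · exact (key j i h).symm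
  have hsum : P.real (⋃ i ∈ (Finset.univ : Finset (Fin n)), E i) = ∑ i, P.real (E i) :=
    measureReal_biUnion_finset hdisj (fun i _ => hEm i)
  have hdisj2 : Disjoint (⋃ i ∈ (Finset.univ : Finset (Fin n)), E i)
      {x : Fin n → ℝ | ∀ i, τ i ≤ |x i|} := by
    rw [Set.disjoint_left]
    intro x hx hx'
    simp only [Set.mem_iUnion] at hx
    obtain ⟨i, _, hi⟩ := hx
    exact absurd hi.1 (not_lt.mpr (hx' i))
  have htot : P.real (⋃ i ∈ (Finset.univ : Finset (Fin n)), E i) +
      P.real {x : Fin n → ℝ | ∀ i, τ i ≤ |x i|} ≤ 1 := by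
    rw [← measureReal_union hdisj2 (tb_meas τ) (measure_ne_top P _) (measure_ne_top P _)]
    exact measureReal_le_one
  have hs2 : (∑ i, τ i) / 16 ≤ ∑ i, P.real (E i) := by
    rw [Finset.sum_div]
    exact Finset.sum_le_sum fun i _ => hE i
  rw [hsum] at htot
  linarith

/-- the set for part (b): coordinates in `S` two-sided, the others one-sided -/
def tbSet (t : Fin n → ℝ) (S : Finset (Fin n)) : Set (Fin n → ℝ) :=
  {x | (∀ i ∈ S, t i ≤ |x i|) ∧ ∀ i, i ∉ S → t i ≤ x i}

lemma tbSet_meas (t : Fin n → ℝ) (S : Finset (Fin n)) : MeasurableSet (tbSet t S) := by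
  have h : tbSet t S = (⋂ i, ⋂ (_ : i ∈ S), {x : Fin n → ℝ | t i ≤ |x i|}) ∩
      ⋂ i, ⋂ (_ : i ∉ S), {x : Fin n → ℝ | t i ≤ x i} := by
    ext x
    simp [tbSet]
  rw [h]
  refine MeasurableSet.inter ?_ ?_
  · exact MeasurableSet.iInter fun j => MeasurableSet.iInter fun _ =>
      measurableSet_le measurable_const ((measurable_pi_apply j).abs)
  · exact MeasurableSet.iInter fun j => MeasurableSet.iInter fun _ =>
      measurableSet_le measurable_const (measurable_pi_apply j)

lemma tb_step (hf : UD f) (t : Fin n → ℝ) (ht : ∀ i, 0 ≤ t i) (S : Finset (Fin n)) (i : Fin n)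
    (hi : i ∉ S) :
    ((volume : Measure (Fin n → ℝ)).withDensity f) (tbSet t (insert i S)) =
      2 * ((volume : Measure (Fin n → ℝ)).withDensity f) (tbSet t S) := by
  set P := (volume : Measure (Fin n → ℝ)).withDensity f with hP
  -- the reflected set
  let R : Set (Fin n → ℝ) := {x | Function.update x i (-x i) ∈ tbSet t S}
  have hupd : Measurable (fun x : Fin n → ℝ => Function.update x i (-x i)) := by
    refine measurable_pi_iff.mpr ?_
    intro j
    by_cases hj : j = i
    · subst hj
      simp only [Function.update_self]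
      exact (measurable_pi_apply j).neg
    · simp only [Function.update_of_ne hj]
      exact measurable_pi_apply j
  have hRm : MeasurableSet R := hupd (tbSet_meas t S)
  have h1 : tbSet t (insert i S) = tbSet t S ∪ R := by
    ext x
    constructor
    · intro hx
      obtain ⟨h2, h3⟩ := hx
      rcases le_total 0 (x i) with h | h
      · left
        refine ⟨fun j hj => h2 j (Finset.mem_insert_of_mem hj), ?_⟩
        intro j hj
        by_cases hji : j = i
        · subst hji
          have := h2 j (Finset.mem_insert_self _ _)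
          rwa [abs_of_nonneg h] at this
        · exact h3 j (by simp [hji, hj])
      · right
        refine ⟨?_, ?_⟩
        · intro j hj
          have hji : j ≠ i := by
            rintro rfl
            exact hi hj
          rw [Function.update_of_ne hji]
          exact h2 j (Finset.mem_insert_of_mem hj)
        · intro j hj
          by_cases hji : j = i
          · subst hji
            have := h2 j (Finset.mem_insert_self _ _)
            rwa [abs_of_nonpos h, ← Function.update_self j (-x j) x] at this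
          · rw [Function.update_of_ne hji]
            exact h3 j (by simp [hji, hj])
    · rintro (hx | hx)
      · refine ⟨?_, ?_⟩
        · intro j hj
          rcases Finset.mem_insert.mp hj with h | h
          · subst h
            exact (hx.2 j hi).trans (le_abs_self _)
          · exact hx.1 j h
        · intro j hj
          exact hx.2 j (fun h => hj (Finset.mem_insert_of_mem h))
      · have hx' : Function.update x i (-x i) ∈ tbSet t S := hx
        refine ⟨?_, ?_⟩
        · intro j hj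
          rcases Finset.mem_insert.mp hj with h | h
          · subst h
            have := hx'.2 j hi
            rw [Function.update_self] at this
            exact this.trans (neg_le_abs _)
          · have hji : j ≠ i := by
              rintro rfl
              exact hi h
            have := hx'.1 j h
            rwa [Function.update_of_ne hji] at this
        · intro j hj
          have hji : j ≠ i := by
            rintro rfl
            exact hj (Finset.mem_insert_self _ _)
          have := hx'.2 j (fun h => hj (Finset.mem_insert_of_mem h))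
          rwa [Function.update_of_ne hji] at this
  have h2 : P R = P (tbSet t S) := by
    rw [hP, withDensity_apply _ hRm, withDensity_apply _ (tbSet_meas t S),
      ← lintegral_indicator hRm, ← lintegral_indicator (tbSet_meas t S),
      tb_scale i (-1) (by norm_num) _ (hf.meas.indicator (tbSet_meas t S))]
    simp only [abs_neg, abs_one, ENNReal.ofReal_one, one_mul, neg_mul]
    apply lintegral_congr
    intro x
    by_cases hx : x ∈ R
    · rw [Set.indicator_of_mem hx]
      have hx' : Function.update x i (-x i) ∈ tbSet t S := hx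
      rw [Set.indicator_of_mem hx', hf.even]
    · rw [Set.indicator_of_notMem hx]
      have hx' : Function.update x i (-x i) ∉ tbSet t S := hx
      rw [Set.indicator_of_notMem hx']
  have h3 : AEDisjoint P (tbSet t S) R := by
    have h4 : (volume : Measure (Fin n → ℝ)) {x : Fin n → ℝ | x i = 0} = 0 :=
      Measure.pi_hyperplane (fun _ : Fin n => (volume : Measure ℝ)) i 0
    have h5 : P {x : Fin n → ℝ | x i = 0} = 0 := withDensity_absolutelyContinuous _ _ h4
    refine measure_mono_null ?_ h5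
    intro x hx
    have h6 := hx.1.2 i hi
    have hx' : Function.update x i (-x i) ∈ tbSet t S := hx.2
    have h7 := hx'.2 i hi
    rw [Function.update_self] at h7
    have h8 := ht i
    have h9 : x i = 0 := by linarith
    exact h9
  rw [h1, measure_union₀ hRm.nullMeasurableSet h3, h2, two_mul]

/-- two-sided versus one-sided -/
lemma tb_two (hf : UD f) (t : Fin n → ℝ) (ht : ∀ i, 0 ≤ t i) :
    ((volume : Measure (Fin n → ℝ)).withDensity f) {x : Fin n → ℝ | ∀ i, t i ≤ |x i|} =
      2 ^ n * ((volume : Measure (Fin n → ℝ)).withDensity f) {x : Fin n → ℝ | ∀ i, t i ≤ x i} := by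
  have h : ∀ S : Finset (Fin n), ((volume : Measure (Fin n → ℝ)).withDensity f) (tbSet t S) =
      2 ^ S.card * ((volume : Measure (Fin n → ℝ)).withDensity f) (tbSet t ∅) := by
    intro S
    induction S using Finset.induction_on with
    | empty => simp
    | insert i S hi ih =>
      rw [tb_step hf t ht S i hi, ih, Finset.card_insert_of_notMem hi, pow_succ]
      ring
  have h1 := h Finset.univ
  rw [Finset.card_univ, Fintype.card_fin] at h1
  have h2 : tbSet t Finset.univ = {x : Fin n → ℝ | ∀ i, t i ≤ |x i|} := by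
    ext x
    simp [tbSet]
  have h3 : tbSet t ∅ = {x : Fin n → ℝ | ∀ i, t i ≤ x i} := by
    ext x
    simp [tbSet]
  rw [h2, h3] at h1
  exact h1

lemma tbOne_meas (t : Fin n → ℝ) : MeasurableSet {x : Fin n → ℝ | ∀ i, t i ≤ x i} := by
  have h3 : tbSet t ∅ = {x : Fin n → ℝ | ∀ i, t i ≤ x i} := by
    ext x
    simp [tbSet]
  rw [← h3]
  exact tbSet_meas t ∅

/-- Prekopa-Leindler for the one-sided sets -/
lemma tb_pl (hf : UD f) (t : Fin n → ℝ) (s : ℝ) (hs : 0 < s) (hs1 : s < 1) :
    ((volume : Measure (Fin n → ℝ)).withDensity f) {x : Fin n → ℝ | ∀ i, t i ≤ x i} ^ s *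
      ((volume : Measure (Fin n → ℝ)).withDensity f) {x : Fin n → ℝ | ∀ i, 0 ≤ x i} ^ (1 - s) ≤
      ((volume : Measure (Fin n → ℝ)).withDensity f) {x : Fin n → ℝ | ∀ i, s * t i ≤ x i} := by
  have hz := tbOne_meas (fun _ : Fin n => (0 : ℝ))
  have hst := tbOne_meas (fun i : Fin n => s * t i)
  rw [withDensity_apply _ (tbOne_meas t), withDensity_apply _ hz, withDensity_apply _ hst,
    ← lintegral_indicator (tbOne_meas t), ← lintegral_indicator hz, ← lintegral_indicator hst]
  apply pl n s hs hs1 _ _ _ (hf.meas.indicator (tbOne_meas t)) (hf.meas.indicator hz)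
    (hf.meas.indicator hst)
  intro x y
  by_cases hx : x ∈ {x : Fin n → ℝ | ∀ i, t i ≤ x i}
  · by_cases hy : y ∈ {x : Fin n → ℝ | ∀ i, 0 ≤ x i}
    · have hxy : s • x + (1 - s) • y ∈ {x : Fin n → ℝ | ∀ i, s * t i ≤ x i} := by
        intro i
        have h1 := hx i
        have h2 := hy i
        simp only [Pi.add_apply, Pi.smul_apply, smul_eq_mul]
        nlinarith [mul_le_mul_of_nonneg_left h1 hs.le, mul_nonneg (sub_nonneg.mpr hs1.le) h2]
      rw [Set.indicator_of_mem hx, Set.indicator_of_mem hy, Set.indicator_of_mem hxy]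
      exact hf.logc s hs hs1 x y
    · rw [Set.indicator_of_notMem hy, ENNReal.zero_rpow_of_pos (sub_pos.mpr hs1), mul_zero]
      exact bot_le
  · rw [Set.indicator_of_notMem hx, ENNReal.zero_rpow_of_pos hs, zero_mul]
    exact bot_le

/-- part (b) -/
lemma tb_ray (hf : UD f) (t : Fin n → ℝ) (ht : ∀ i, 0 ≤ t i) (m : ℕ) (hm : 1 ≤ m) :
    ((volume : Measure (Fin n → ℝ)).withDensity f) {x : Fin n → ℝ | ∀ i, t i ≤ |x i|} ≤
      ((volume : Measure (Fin n → ℝ)).withDensity f)
        {x : Fin n → ℝ | ∀ i, 1 / (m : ℝ) * t i ≤ |x i|} ^ m := by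
  have := tb_prob hf
  rcases eq_or_lt_of_le hm with h | h
  · rw [← h]
    simp
  have hm0 : (0 : ℝ) < (m : ℝ) := by
    have : 0 < m := by omega
    exact_mod_cast this
  have hs : (0 : ℝ) < 1 / (m : ℝ) := by positivity
  have hs1 : 1 / (m : ℝ) < 1 := by
    rw [div_lt_one hm0]
    exact_mod_cast h
  have h1 := tb_pl hf t (1 / (m : ℝ)) hs hs1
  have h2 := tb_two hf t ht
  have h3 := tb_two hf (fun _ => 0) (fun _ => le_refl _)
  have h4 := tb_two hf (fun i => 1 / (m : ℝ) * t i) (fun i => mul_nonneg hs.le (ht i))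
  have h5 : {x : Fin n → ℝ | ∀ i : Fin n, (0 : ℝ) ≤ |x i|} = Set.univ := by
    ext x
    simp
  rw [h5, measure_univ] at h3
  set P := (volume : Measure (Fin n → ℝ)).withDensity f with hP
  set A := P {x : Fin n → ℝ | ∀ i, t i ≤ x i} with hA
  set B := P {x : Fin n → ℝ | ∀ i : Fin n, (0 : ℝ) ≤ x i} with hB
  set C := P {x : Fin n → ℝ | ∀ i, 1 / (m : ℝ) * t i ≤ x i} with hC
  have h6 : (2 ^ n * A) ^ (1 / (m : ℝ)) ≤ 2 ^ n * C := by
    have h7 : (2 : ℝ≥0∞) ^ n ≠ 0 := by positivity
    have h8 : (2 : ℝ≥0∞) ^ n ≠ ∞ := by simp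
    have h9 : (2 : ℝ≥0∞) ^ n = ((2 : ℝ≥0∞) ^ n) ^ (1 / (m : ℝ)) *
        ((2 : ℝ≥0∞) ^ n) ^ (1 - 1 / (m : ℝ)) := by
      rw [← ENNReal.rpow_add _ _ h7 h8]
      simp
    calc (2 ^ n * A) ^ (1 / (m : ℝ)) = (2 ^ n * A) ^ (1 / (m : ℝ)) *
          (2 ^ n * B) ^ (1 - 1 / (m : ℝ)) := by
          rw [← h3, ENNReal.one_rpow, mul_one]
      _ = (((2 : ℝ≥0∞) ^ n) ^ (1 / (m : ℝ)) * ((2 : ℝ≥0∞) ^ n) ^ (1 - 1 / (m : ℝ))) *
          (A ^ (1 / (m : ℝ)) * B ^ (1 - 1 / (m : ℝ))) := by
          rw [ENNReal.mul_rpow_of_nonneg _ _ hs.le,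
            ENNReal.mul_rpow_of_nonneg _ _ (sub_nonneg.mpr hs1.le)]
          ring
      _ = 2 ^ n * (A ^ (1 / (m : ℝ)) * B ^ (1 - 1 / (m : ℝ))) := by rw [← h9]
      _ ≤ 2 ^ n * C := mul_le_mul_right h1 _
  rw [← h2, ← h4] at h6
  have h10 := ENNReal.rpow_le_rpow h6 hm0.le
  rw [← ENNReal.rpow_mul, one_div, inv_mul_cancel₀ hm0.ne', ENNReal.rpow_one,
    ENNReal.rpow_natCast] at h10
  simpa using h10

theorem tail_bound (hf : UD f) (hm : ∀ i, ∫⁻ x, ENNReal.ofReal |x i| * f x ≤ 1)
    (t : Fin n → ℝ) (ht : ∀ i, 0 ≤ t i) :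
    ∫⁻ x in {x : Fin n → ℝ | ∀ i, t i ≤ |x i|}, f x ≤
      ENNReal.ofReal (Real.exp (-((1 / 40) * ∑ i, t i))) := by
  have := tb_prob hf
  rw [← withDensity_apply _ (tb_meas t)]
  have hS : 0 ≤ ∑ i, t i := Finset.sum_nonneg fun i _ => ht i
  obtain ⟨m, hm1, hm2⟩ : ∃ m : ℕ, 1 ≤ m ∧ ∑ i, t i ≤ m :=
    ⟨max 1 ⌈∑ i, t i⌉₊, le_max_left _ _, (Nat.le_ceil _).trans (by
      exact_mod_cast le_max_right _ _)⟩
  have hm0 : (0 : ℝ) < (m : ℝ) := by
    have : 0 < m := by omega
    exact_mod_cast this
  have h1 := tb_ray hf t ht m hm1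
  have hsum : ∑ i, 1 / (m : ℝ) * t i = (∑ i, t i) / m := by
    rw [← Finset.mul_sum]
    ring
  have h2 := tb_small hf hm (fun i => 1 / (m : ℝ) * t i)
    (fun i => mul_nonneg (by positivity) (ht i)) (by
      rw [hsum, div_le_one hm0]
      exact hm2)
  rw [hsum] at h2
  set P := (volume : Measure (Fin n → ℝ)).withDensity f with hP
  have h3 : P {x : Fin n → ℝ | ∀ i, 1 / (m : ℝ) * t i ≤ |x i|} ≤
      ENNReal.ofReal (Real.exp (-((1 / 40) * ((∑ i, t i) / m)))) := by
    rw [← ofReal_measureReal (measure_ne_top P _)]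
    exact ENNReal.ofReal_le_ofReal h2
  refine h1.trans ((pow_le_pow_left' h3 m).trans (le_of_eq ?_))
  rw [← ENNReal.ofReal_pow (Real.exp_pos _).le, ← Real.exp_nat_mul]
  congr 2
  field_simp

end Pool.Agent.Helper711SMP.B

namespace Pool.Agent.Helper711SMP

alias tail_bound := Pool.Agent.Helper711SMP.B.tail_bound

end Pool.Agent.Helper711SMP
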