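import Mathlib

/-!
# Width and expected maximum: definitions
-/

set_option autoImplicit false

namespace Pool.Agent.Helper711SMP

open MeasureTheory
open scoped ENNReal

variable {n : ℕ}

/-- expected maximum of the linear forms given by `V` under the density `f` -/
noncomputable def S1 (f : (Fin n → ℝ) → ℝ≥0∞) (V : Finset (Fin n → ℝ)) (hV : V.Nonempty) : ℝ :=
  ∫ x, V.sup' hV (fun v => ∑ i, v i * x i) ∂(volume.withDensity f)

/-- width of `V` in the direction `x` -/
noncomputable def NV (V : Finset (Fin n → ℝ)) (hV : V.Nonempty) (x : Fin n → ℝ) : ℝ :=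
  V.sup' hV (fun v => V.sup' hV (fun w => ∑ i, (v i - w i) * x i))


end Pool.Agent.Helper711SMP
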