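import Mathlib

/-!
# Sign averages: definitions
-/

set_option autoImplicit false

namespace Pool.Agent.Helper711SMP

open MeasureTheory
open scoped ENNReal

variable {n : ℕ}

/-- a Boolean as a sign -/
noncomputable def sg (b : Bool) : ℝ := if b then 1 else -1

/-- average of `N` over all sign changes of `x` -/
noncomputable def rad (N : (Fin n → ℝ) → ℝ) (x : Fin n → ℝ) : ℝ :=
  (∑ e : Fin n → Bool, N (fun i => sg (e i) * x i)) / 2 ^ n

/-- put the coordinates in `I` to zero -/
def offI (I : Finset (Fin n)) (x : Fin n → ℝ) : Fin n → ℝ := fun i => if i ∈ I then 0 else x i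


end Pool.Agent.Helper711SMP
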