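import Mathlib
import Pool.Agent.Helper711_SMP.Rad
import Pool.Agent.Helper711_SMP.NV

/-!
# Khinchine inequality
-/

set_option autoImplicit false

namespace Pool.Agent.Helper711SMP.B0

open MeasureTheory
open scoped ENNReal

variable {n : ℕ}

/-- flip one sign -/
def fl (a : Fin n) (e : Fin n → Bool) : Fin n → Bool := Function.update e a (!(e a))

theorem fl_invol (a : Fin n) : Function.Involutive (fl a) := by
  intro e
  funext i
  unfold fl
  by_cases h : i = a
  · subst h
    simp
  · simp [h]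

theorem sg_not (b : Bool) : sg (!b) = -sg b := by
  cases b <;> simp [sg]

theorem sg_sq (b : Bool) : sg b * sg b = 1 := by
  cases b <;> simp [sg]

theorem fl_self (a : Fin n) (e : Fin n → Bool) : sg (fl a e a) = -sg (e a) := by
  unfold fl
  rw [Function.update_self, sg_not]

theorem fl_ne (a i : Fin n) (h : i ≠ a) (e : Fin n → Bool) : fl a e i = e i := by
  unfold fl
  rw [Function.update_of_ne h]

/-- sums of odd functions vanish -/
theorem odd_sum (a : Fin n) (f : (Fin n → Bool) → ℝ) (h : ∀ e, f (fl a e) = f e) :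
    ∑ e : Fin n → Bool, sg (e a) * f e = 0 := by
  have h1 : ∑ e : Fin n → Bool, sg (e a) * f e = ∑ e : Fin n → Bool, -(sg (e a) * f e) := by
    rw [← Equiv.sum_comp (fl_invol a).toPerm (fun e => sg (e a) * f e)]
    refine Finset.sum_congr rfl fun e _ => ?_
    show sg (fl a e a) * f (fl a e) = _
    rw [fl_self, h]
    ring
  rw [Finset.sum_neg_distrib] at h1
  linarith

/-- the linear form of a set of coordinates -/
noncomputable def ly (y : Fin n → ℝ) (s : Finset (Fin n)) (e : Fin n → Bool) : ℝ :=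
  ∑ i ∈ s, y i * sg (e i)

theorem ly_fl (y : Fin n → ℝ) (s : Finset (Fin n)) (a : Fin n) (ha : a ∉ s) (e : Fin n → Bool) :
    ly y s (fl a e) = ly y s e := by
  unfold ly
  refine Finset.sum_congr rfl fun i hi => ?_
  rw [fl_ne a i (fun h => ha (h ▸ hi))]

theorem card_e : (Finset.univ : Finset (Fin n → Bool)).card = 2 ^ n := by simp

theorem sum_cst (c : ℝ) : ∑ _e : Fin n → Bool, c = 2 ^ n * c := by
  rw [Finset.sum_const, card_e, nsmul_eq_mul]
  push_cast
  ring

theorem mom2 (y : Fin n → ℝ) (s : Finset (Fin n)) :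
    ∑ e : Fin n → Bool, ly y s e ^ 2 = 2 ^ n * ∑ i ∈ s, y i ^ 2 := by
  classical
  induction s using Finset.induction_on with
  | empty => simp [ly]
  | insert a s ha ih =>
    have h1 : ∀ e : Fin n → Bool, ly y (insert a s) e ^ 2 =
        y a ^ 2 + 2 * y a * (sg (e a) * ly y s e) + ly y s e ^ 2 := by
      intro e
      have h2 : ly y (insert a s) e = y a * sg (e a) + ly y s e := by
        unfold ly
        rw [Finset.sum_insert ha]
      have h3 := sg_sq (e a)
      rw [h2]
      linear_combination (y a ^ 2) * h3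
    simp only [h1, Finset.sum_add_distrib]
    rw [ih, sum_cst, ← Finset.mul_sum, odd_sum a _ (fun e => ly_fl y s a ha e),
      Finset.sum_insert ha]
    ring

theorem mom4 (y : Fin n → ℝ) (s : Finset (Fin n)) :
    ∑ e : Fin n → Bool, ly y s e ^ 4 ≤ 3 * 2 ^ n * (∑ i ∈ s, y i ^ 2) ^ 2 := by
  classical
  induction s using Finset.induction_on with
  | empty => simp [ly]
  | insert a s ha ih =>
    have h1 : ∀ e : Fin n → Bool, ly y (insert a s) e ^ 4 =
        y a ^ 4 + 4 * y a ^ 3 * (sg (e a) * ly y s e) + 6 * y a ^ 2 * ly y s e ^ 2 +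
          4 * y a * (sg (e a) * ly y s e ^ 3) + ly y s e ^ 4 := by
      intro e
      have h2 : ly y (insert a s) e = y a * sg (e a) + ly y s e := by
        unfold ly
        rw [Finset.sum_insert ha]
      have h3 := sg_sq (e a)
      rw [h2]
      linear_combination (y a ^ 4 * (sg (e a) ^ 2 + 1) + 4 * y a ^ 3 * sg (e a) * ly y s e +
        6 * y a ^ 2 * ly y s e ^ 2) * h3
    simp only [h1, Finset.sum_add_distrib]
    rw [sum_cst, ← Finset.mul_sum, odd_sum a _ (fun e => ly_fl y s a ha e),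
      ← Finset.mul_sum, mom2, ← Finset.mul_sum,
      odd_sum a (fun e => ly y s e ^ 3) (fun e => by rw [ly_fl y s a ha e]),
      Finset.sum_insert ha]
    have h4 : (0 : ℝ) ≤ 2 ^ n * y a ^ 4 := by positivity
    nlinarith [ih, h4]

theorem pt_ineq (x : ℝ) (hx : 0 ≤ x) (b : ℝ) (hb : 0 ≤ b) :
    b ^ 2 * x ^ 2 - 4 / 27 * x ^ 4 ≤ b ^ 3 * x := by
  have h : 0 ≤ 4 / 27 * x * ((x - 3 / 2 * b) ^ 2 * (x + 3 * b)) := by positivity
  nlinarith [h]

theorem avg_ineq (y : Fin n → ℝ) :
    √(∑ i, y i ^ 2) * 2 ^ n ≤ 2 * ∑ e : Fin n → Bool, |ly y Finset.univ e| := by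
  set b : ℝ := √(∑ i, y i ^ 2) with hb
  have hQ : (0 : ℝ) ≤ ∑ i, y i ^ 2 := Finset.sum_nonneg fun i _ => sq_nonneg _
  have hb2 : b ^ 2 = ∑ i, y i ^ 2 := Real.sq_sqrt hQ
  have hb0 : 0 ≤ b := Real.sqrt_nonneg _
  have hA0 : 0 ≤ ∑ e : Fin n → Bool, |ly y Finset.univ e| :=
    Finset.sum_nonneg fun e _ => abs_nonneg _
  rcases hb0.eq_or_lt with h | h
  · rw [← h, zero_mul]
    positivity
  · have h1 : ∑ e : Fin n → Bool, (b ^ 2 * ly y Finset.univ e ^ 2 -
        4 / 27 * ly y Finset.univ e ^ 4) ≤ ∑ e : Fin n → Bool, b ^ 3 * |ly y Finset.univ e| := by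
      refine Finset.sum_le_sum fun e _ => ?_
      have h2 := pt_ineq |ly y Finset.univ e| (abs_nonneg _) b hb0
      rwa [sq_abs, show |ly y Finset.univ e| ^ 4 = ly y Finset.univ e ^ 4 from by
        rw [show (4 : ℕ) = 2 * 2 by norm_num, pow_mul, pow_mul, sq_abs]] at h2
    rw [Finset.sum_sub_distrib, ← Finset.mul_sum, ← Finset.mul_sum, ← Finset.mul_sum, mom2,
      ← hb2] at h1
    have h4 := mom4 y Finset.univ
    rw [← hb2] at h4
    have h5 : b ^ 3 * (5 / 9 * (b * 2 ^ n)) ≤ b ^ 3 * ∑ e : Fin n → Bool,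
        |ly y Finset.univ e| := by
      nlinarith [h1, h4]
    have h6 : 5 / 9 * (b * 2 ^ n) ≤ ∑ e : Fin n → Bool, |ly y Finset.univ e| :=
      le_of_mul_le_mul_left h5 (by positivity)
    have h7 : 0 ≤ b * 2 ^ n := by positivity
    linarith

theorem khin (V : Finset (Fin n → ℝ)) (hV : V.Nonempty) (v w : Fin n → ℝ)
    (hv : v ∈ V) (hw : w ∈ V) :
    √(∑ i, (v i - w i) ^ 2) ≤ 2 * rad (NV V hV) (fun _ => 1) := by
  have hN : ∀ e : Fin n → Bool, |ly (fun i => v i - w i) Finset.univ e| ≤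
      NV V hV (fun i => sg (e i) * 1) := by
    intro e
    have h1 : ∀ p ∈ V, ∀ q ∈ V, ∑ i, (p i - q i) * (sg (e i) * 1) ≤
        NV V hV (fun i => sg (e i) * 1) := by
      intro p hp q hq
      unfold NV
      refine Finset.le_sup'_of_le _ hp ?_
      exact Finset.le_sup' (fun w : Fin n → ℝ => ∑ i, (p i - w i) * (sg (e i) * 1)) hq
    rw [abs_le]
    constructor
    · have h2 := h1 w hw v hv
      have h3 : ∑ i, (w i - v i) * (sg (e i) * 1) =
          -ly (fun i => v i - w i) Finset.univ e := by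
        unfold ly
        rw [← Finset.sum_neg_distrib]
        refine Finset.sum_congr rfl fun i _ => ?_
        ring
      linarith
    · have h2 := h1 v hv w hw
      have h3 : ∑ i, (v i - w i) * (sg (e i) * 1) = ly (fun i => v i - w i) Finset.univ e := by
        unfold ly
        refine Finset.sum_congr rfl fun i _ => ?_
        ring
      linarith
  have h1 := avg_ineq (fun i => v i - w i)
  have h2 := Finset.sum_le_sum fun e (_ : e ∈ (Finset.univ : Finset (Fin n → Bool))) => hN e
  have h3 : (0 : ℝ) < 2 ^ n := by positivity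
  unfold rad
  rw [mul_div_assoc', le_div_iff₀ h3]
  exact h1.trans (mul_le_mul_of_nonneg_left h2 (by norm_num))

end Pool.Agent.Helper711SMP.B0

namespace Pool.Agent.Helper711SMP

alias khin := Pool.Agent.Helper711SMP.B0.khin

end Pool.Agent.Helper711SMP
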