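import Mathlib

/-!
# Truncations and tail sets
-/

set_option autoImplicit false

namespace Pool.Agent.Helper711SMP

open MeasureTheory
open scoped ENNReal

variable {n : ℕ}

/-- truncation at level `τ` -/
noncomputable def clip (τ a : ℝ) : ℝ := max (-τ) (min a τ)

/-- the points `t ≥ 0` for which the event `|x i| ≥ t i` for all `i` has mass at least `exp (-q)` -/
def TS {n : ℕ} (f : (Fin n → ℝ) → ℝ≥0∞) (q : ℝ) : Set (Fin n → ℝ) :=
  {t | (∀ i, 0 ≤ t i) ∧
    ENNReal.ofReal (Real.exp (-q)) ≤ ∫⁻ x in {x : Fin n → ℝ | ∀ i, t i ≤ |x i|}, f x}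

/-- integer part, towards zero, of `y i / θ` -/
noncomputable def ktr (θ : ℝ) (y : Fin n → ℝ) (i : Fin n) : ℤ :=
  if 0 ≤ y i then ⌊y i / θ⌋ else -⌊-(y i) / θ⌋

end Pool.Agent.Helper711SMP
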