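import Mathlib
import Pool.Agent.Helper711_SMP.Clip

/-!
# Clipping
-/

set_option autoImplicit false

namespace Pool.Agent.Helper711SMP.B1

open MeasureTheory
open scoped ENNReal

variable {n : ℕ}

theorem clip_eq_of_abs_le {τ a : ℝ} (h : |a| ≤ τ) : clip τ a = a := by
  rw [abs_le] at h
  unfold clip
  rw [min_eq_left h.2, max_eq_right h.1]

theorem abs_clip_le {τ a : ℝ} (hτ : 0 ≤ τ) : |clip τ a| ≤ τ := by
  unfold clip
  rw [abs_le]
  exact ⟨le_max_left _ _, max_le (by linarith) (min_le_right _ _)⟩

theorem clip_sq_le {τ a : ℝ} (hτ : 0 ≤ τ) : clip τ a ^ 2 ≤ a * clip τ a := by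
  by_cases h : |a| ≤ τ
  · rw [clip_eq_of_abs_le h, sq]
  · push Not at h
    rcases lt_abs.1 h with h1 | h1
    · have : clip τ a = τ := by
        unfold clip; rw [min_eq_right h1.le, max_eq_right (by linarith)]
      rw [this]; nlinarith
    · have : clip τ a = -τ := by
        unfold clip; rw [min_eq_left (by linarith), max_eq_left (by linarith)]
      rw [this]; nlinarith

theorem abs_sub_clip_le {τ a : ℝ} (hτ : 0 ≤ τ) : |a - clip τ a| ≤ |a| := by
  by_cases h : |a| ≤ τ
  · rw [clip_eq_of_abs_le h, sub_self, abs_zero]; exact abs_nonneg _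
  · push Not at h
    rcases lt_abs.1 h with h1 | h1
    · have : clip τ a = τ := by
        unfold clip; rw [min_eq_right h1.le, max_eq_right (by linarith)]
      rw [this, abs_of_nonneg (by linarith), abs_of_nonneg (by linarith)]; linarith
    · have : clip τ a = -τ := by
        unfold clip; rw [min_eq_left (by linarith), max_eq_left (by linarith)]
      rw [this, abs_of_nonpos (by linarith), abs_of_nonpos (by linarith)]; linarith

theorem clip_facts (y : Fin n → ℝ) (p A τ : ℝ) (hp : 8 ≤ p) (hA : 0 < A)
    (hτ : τ = 4800000 * A / p)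
    (hy : ∀ z : Fin n → ℝ, (∀ i, |z i| ≤ 1 / 3) → ∑ i, z i ^ 2 ≤ p → ∑ i, y i * z i ≤ 4 * A) :
    ∑ i, clip τ (y i) ^ 2 ≤ 57600000 * A ^ 2 / p ∧
    ((Finset.univ.filter (fun i => clip τ (y i) ≠ y i)).card : ℝ) ≤ 12 * p / 4800000 ∧
    ∑ i, |y i - clip τ (y i)| ≤ 12 * A := by
  have hp0 : 0 < p := by linarith
  have hτ0 : 0 < τ := by rw [hτ]; positivity
  -- subsets
  have key : ∀ J : Finset (Fin n), (J.card : ℝ) ≤ 9 * p → ∑ i ∈ J, |y i| ≤ 12 * A := by
    intro J hJ
    have h1 := hy (fun i => if i ∈ J then SignType.sign (y i) / 3 else 0) ?_ ?_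
    · have e : ∑ i, y i * (if i ∈ J then ((SignType.sign (y i) : SignType) : ℝ) / 3 else 0) =
          (∑ i ∈ J, |y i|) / 3 := by
        rw [Finset.sum_div]
        simp only [mul_ite, mul_zero]
        rw [← Finset.sum_filter]
        refine Finset.sum_congr (by simp) (fun i _ => ?_)
        have : y i * ((SignType.sign (y i) : SignType) : ℝ) = |y i| := by
          rcases lt_trichotomy (y i) 0 with h | h | h
          · rw [sign_neg h, abs_of_neg h]; simp
          · rw [h]; simp
          · rw [sign_pos h, abs_of_pos h]; simp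
        rw [← mul_div_assoc, this]
      rw [e] at h1
      linarith
    · intro i
      show |if i ∈ J then ((SignType.sign (y i) : SignType) : ℝ) / 3 else 0| ≤ 1 / 3
      split_ifs
      · rcases lt_trichotomy (y i) 0 with h | h | h
        · rw [sign_neg h]; simp [abs_of_pos, abs_div]
        · rw [h]; simp
        · rw [sign_pos h]; simp [abs_of_pos, abs_div]
      · simp
    · have e : ∀ i, (if i ∈ J then ((SignType.sign (y i) : SignType) : ℝ) / 3 else 0) ^ 2 ≤
          if i ∈ J then 1 / 9 else 0 := by
        intro i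
        split_ifs
        · rcases lt_trichotomy (y i) 0 with h | h | h
          · rw [sign_neg h]; simp; norm_num
          · rw [h]; simp
          · rw [sign_pos h]; simp; norm_num
        · simp
      calc ∑ i, (if i ∈ J then ((SignType.sign (y i) : SignType) : ℝ) / 3 else 0) ^ 2 ≤
            ∑ i, (if i ∈ J then (1 : ℝ) / 9 else 0) := Finset.sum_le_sum (fun i _ => e i)
        _ = J.card * (1 / 9) := by
            rw [← Finset.sum_filter]; simp
        _ ≤ p := by linarith
  have keyc : ∀ J : Finset (Fin n), (J.card : ℝ) ≤ 9 * p → (∀ i ∈ J, τ ≤ |y i|) →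
      (J.card : ℝ) ≤ 12 * p / 4800000 := by
    intro J h1 h2
    have h3 := key J h1
    have h4 : (J.card : ℝ) * τ ≤ ∑ i ∈ J, |y i| := by
      rw [← nsmul_eq_mul]
      exact Finset.card_nsmul_le_sum _ _ _ h2
    have h5 : (J.card : ℝ) * τ ≤ 12 * A := h4.trans h3
    rw [hτ] at h5
    have h6 : (J.card : ℝ) * (4800000 * A / p) * p ≤ 12 * A * p :=
      mul_le_mul_of_nonneg_right h5 hp0.le
    have h7 : (J.card : ℝ) * (4800000 * A / p) * p = (J.card : ℝ) * 4800000 * A := by
      field_simp
    rw [h7] at h6
    have h8 : (J.card : ℝ) * 4800000 ≤ 12 * p := by nlinarith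
    rw [le_div_iff₀ (by norm_num)]
    exact h8
  set J := Finset.univ.filter (fun i => τ ≤ |y i|) with hJ
  have hJc : (J.card : ℝ) ≤ 9 * p := by
    by_contra hcon
    push Not at hcon
    have h1 : ⌊9 * p⌋₊ ≤ J.card := by
      have := Nat.floor_le_floor hcon.le
      simpa using this
    obtain ⟨J', hJ', hc⟩ := Finset.exists_subset_card_eq h1
    have h2 : (J'.card : ℝ) ≤ 9 * p := by
      rw [hc]; exact Nat.floor_le (by positivity)
    have h3 := keyc J' h2 (fun i hi => by
      have := hJ' hi
      rw [hJ] at this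
      exact (Finset.mem_filter.1 this).2)
    have h4 := Nat.lt_floor_add_one (9 * p)
    rw [hc] at h3
    linarith
  have hsub : Finset.univ.filter (fun i => clip τ (y i) ≠ y i) ⊆ J := by
    intro i hi
    rw [Finset.mem_filter] at hi
    rw [hJ, Finset.mem_filter]
    refine ⟨hi.1, ?_⟩
    by_contra hcon
    push Not at hcon
    exact hi.2 (clip_eq_of_abs_le hcon.le)
  refine ⟨?_, ?_, ?_⟩
  · set D := ∑ i, clip τ (y i) ^ 2 with hD
    have hD0 : 0 ≤ D := Finset.sum_nonneg (fun i _ => sq_nonneg _)
    rcases hD0.eq_or_lt with h0 | h0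
    · rw [← h0]; positivity
    · set l := min (1 / (3 * τ)) (Real.sqrt (p / D)) with hl
      have hl0 : 0 < l := lt_min (by positivity) (Real.sqrt_pos.2 (by positivity))
      have h1 := hy (fun i => l * clip τ (y i)) ?_ ?_
      · have h2 : l * D ≤ ∑ i, y i * (l * clip τ (y i)) := by
          rw [hD, Finset.mul_sum]
          refine Finset.sum_le_sum (fun i _ => ?_)
          have := clip_sq_le (a := y i) hτ0.le
          nlinarith
        have h3 : l * D ≤ 4 * A := h2.trans h1
        rcases min_cases (1 / (3 * τ)) (Real.sqrt (p / D)) with ⟨h4, _⟩ | ⟨h4, _⟩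
        · rw [← hl] at h4
          rw [h4] at h3
          have h5 : D ≤ 4 * A * (3 * τ) := by
            have := mul_le_mul_of_nonneg_right h3 (by positivity : (0 : ℝ) ≤ 3 * τ)
            have e : 1 / (3 * τ) * D * (3 * τ) = D := by field_simp
            rwa [e] at this
          have e : 4 * A * (3 * τ) = 57600000 * A ^ 2 / p := by rw [hτ]; field_simp; norm_num
          linarith
        · rw [← hl] at h4
          rw [h4] at h3
          have h5 : (Real.sqrt (p / D) * D) ^ 2 ≤ (4 * A) ^ 2 :=
            pow_le_pow_left₀ (by positivity) h3 2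
          rw [mul_pow, Real.sq_sqrt (by positivity)] at h5
          have e : p / D * D ^ 2 = p * D := by field_simp
          rw [e] at h5
          rw [le_div_iff₀ hp0]
          nlinarith [sq_nonneg A]
      · intro i
        rw [abs_mul, abs_of_pos hl0]
        calc l * |clip τ (y i)| ≤ (1 / (3 * τ)) * τ :=
              mul_le_mul (min_le_left _ _) (abs_clip_le hτ0.le) (abs_nonneg _) (by positivity)
          _ = 1 / 3 := by field_simp
      · have e : ∑ i, (l * clip τ (y i)) ^ 2 = l ^ 2 * D := by
          rw [hD, Finset.mul_sum]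
          exact Finset.sum_congr rfl (fun i _ => by ring)
        rw [e]
        have h2 : l ^ 2 ≤ p / D := by
          calc l ^ 2 ≤ (Real.sqrt (p / D)) ^ 2 := pow_le_pow_left₀ hl0.le (min_le_right _ _) 2
            _ = p / D := Real.sq_sqrt (by positivity)
        calc l ^ 2 * D ≤ p / D * D := mul_le_mul_of_nonneg_right h2 hD0
          _ = p := by field_simp
  · refine le_trans ?_ (keyc J hJc (fun i hi => by rw [hJ] at hi; exact (Finset.mem_filter.1 hi).2))
    exact_mod_cast Finset.card_le_card hsub
  · refine le_trans ?_ (key J hJc)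
    have e : ∑ i, |y i - clip τ (y i)| = ∑ i ∈ J, |y i - clip τ (y i)| := by
      symm
      apply Finset.sum_subset (Finset.subset_univ _)
      intro i _ hi
      have : clip τ (y i) = y i := by
        by_contra hcon
        exact hi (hsub (Finset.mem_filter.2 ⟨Finset.mem_univ _, hcon⟩))
      rw [this, sub_self, abs_zero]
    rw [e]
    exact Finset.sum_le_sum (fun i _ => abs_sub_clip_le hτ0.le)

end Pool.Agent.Helper711SMP.B1

namespace Pool.Agent.Helper711SMP

alias clip_facts := Pool.Agent.Helper711SMP.B1.clip_facts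

end Pool.Agent.Helper711SMP
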