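import Mathlib

/-!
# Sign changes of coordinates and the orthant
-/

set_option autoImplicit false

namespace Pool.Agent.Helper711SMP

open MeasureTheory
open scoped ENNReal

variable {n : ℕ} {f : (Fin n → ℝ) → ℝ≥0∞}

lemma sign_mp (σ : Fin n → ℝ) (hσ : ∀ i, σ i = 1 ∨ σ i = -1) :
    MeasurePreserving (fun (x : Fin n → ℝ) i => σ i * x i) volume volume := by
  refine volume_preserving_pi (f := fun i (t : ℝ) => σ i * t) fun i => ?_
  rcases hσ i with h | h
  · simp only [h, one_mul]
    exact MeasurePreserving.id _
  · simp only [h, neg_mul, one_mul]
    exact Measure.measurePreserving_neg volume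

lemma lintegral_even (F : (Fin n → ℝ) → ℝ≥0∞) (hF : Measurable F)
    (he : ∀ (i : Fin n) (x : Fin n → ℝ), F (Function.update x i (-x i)) = F x) :
    ∫⁻ x, F x = 2 ^ n * ∫⁻ x in {x : Fin n → ℝ | ∀ i, 0 ≤ x i}, F x := by
  classical
  -- by induction on a finset `s`: integral over {x_i ≥ 0, i ∈ s}
  have key : ∀ s : Finset (Fin n),
      ∫⁻ x, F x = 2 ^ s.card * ∫⁻ x in {x : Fin n → ℝ | ∀ i ∈ s, 0 ≤ x i}, F x := by
    intro s
    induction s using Finset.induction_on with
    | empty => simp
    | insert a s ha ih =>
      rw [ih, Finset.card_insert_of_notMem ha, pow_succ, mul_assoc]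
      congr 1
      have hms : ∀ t : Finset (Fin n), MeasurableSet {x : Fin n → ℝ | ∀ i ∈ t, 0 ≤ x i} := by
        intro t
        have : {x : Fin n → ℝ | ∀ i ∈ t, 0 ≤ x i} = ⋂ i ∈ t, {x | 0 ≤ x i} := by ext; simp
        rw [this]
        exact Finset.measurableSet_biInter _ fun i _ =>
          measurableSet_le measurable_const (measurable_pi_apply i)
      have hma : MeasurableSet {x : Fin n → ℝ | 0 ≤ x a} :=
        measurableSet_le measurable_const (measurable_pi_apply a)
      rw [← lintegral_inter_add_sdiff _ _ hma]
      have e1 : {x : Fin n → ℝ | ∀ i ∈ s, 0 ≤ x i} ∩ {x | 0 ≤ x a} =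
          {x : Fin n → ℝ | ∀ i ∈ insert a s, 0 ≤ x i} := by
        ext x
        simp only [Set.mem_inter_iff, Set.mem_ofPred_eq, Finset.mem_insert, forall_eq_or_imp]
        tauto
      rw [e1, two_mul]
      congr 1
      -- the reflected part
      set τ : (Fin n → ℝ) → (Fin n → ℝ) := fun x i => (if i = a then -1 else 1) * x i with hτ
      have mp : MeasurePreserving τ volume volume :=
        sign_mp _ (fun i => by by_cases h : i = a <;> simp [h])
      have hτ' : ∀ x, τ x = Function.update x a (-x a) := by
        intro x
        funext i
        by_cases h : i = a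
        · subst h; simp [hτ]
        · simp [hτ, h]
      have e2 := mp.setLIntegral_comp_preimage (s := {x : Fin n → ℝ | ∀ i ∈ s, 0 ≤ x i} \ {x | 0 ≤ x a})
        ((hms s).diff hma) hF
      rw [← e2]
      have e3 : ∀ x, F (τ x) = F x := fun x => by rw [hτ', he]
      simp only [e3]
      -- now compare the sets up to the null set x_a = 0
      apply setLIntegral_congr
      have hnull : volume {x : Fin n → ℝ | x a = 0} = 0 := by
        have : {x : Fin n → ℝ | x a = 0} = Set.pi Set.univ (fun i => if i = a then {0} else Set.univ) := by
          ext x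
          simp only [Set.mem_ofPred_eq, Set.mem_pi, Set.mem_univ, forall_true_left]
          constructor
          · intro h i
            by_cases hi : i = a
            · subst hi; simp [h]
            · simp [hi]
          · intro h
            have := h a
            simpa using this
        rw [this, volume_pi_pi]
        exact Finset.prod_eq_zero (Finset.mem_univ a) (by simp)
      have hne : ∀ᵐ x : Fin n → ℝ, x a ≠ 0 := by
        rw [ae_iff]
        simpa using hnull
      filter_upwards [hne] with x hx
      have hiff : x ∈ τ ⁻¹' ({x : Fin n → ℝ | ∀ i ∈ s, 0 ≤ x i} \ {x | 0 ≤ x a}) ↔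
          x ∈ {x : Fin n → ℝ | ∀ i ∈ insert a s, 0 ≤ x i} := by
        simp only [Set.mem_preimage, Set.mem_sdiff, Set.mem_ofPred_eq, Finset.mem_insert,
          forall_eq_or_imp, hτ']
        constructor
        · rintro ⟨h1, h2⟩
          refine ⟨?_, fun i hi => ?_⟩
          · simp only [Function.update_self] at h2
            linarith
          · have := h1 i hi
            rwa [Function.update_of_ne (ne_of_mem_of_not_mem hi ha)] at this
        · rintro ⟨h1, h2⟩
          refine ⟨fun i hi => ?_, ?_⟩
          · rw [Function.update_of_ne (ne_of_mem_of_not_mem hi ha)]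
            exact h2 i hi
          · simp only [Function.update_self]
            intro h
            have : x a = 0 := by linarith
            exact hx this
      exact propext hiff
  have := key Finset.univ
  simpa using this

end Pool.Agent.Helper711SMP
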