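import Mathlib
import Pool.Agent.Helper711_SMP.Rad
import Pool.Agent.Helper711_SMP.Sign

/-!
# Sign averages
-/

set_option autoImplicit false

namespace Pool.Agent.Helper711SMP.I1

open MeasureTheory
open scoped ENNReal

variable {n : ℕ}

lemma sg_cases (b : Bool) : sg b = 1 ∨ sg b = -1 := by
  cases b <;> simp [sg]

lemma sg_not (b : Bool) : sg (!b) = -sg b := by
  cases b <;> simp [sg]

lemma rad_flip_sum (N : (Fin n → ℝ) → ℝ) (y : Fin n → ℝ) (i : Fin n) :
    ∑ e : Fin n → Bool, N (fun j => sg (e j) * Function.update y i (-y i) j) =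
      ∑ e : Fin n → Bool, N (fun j => sg (e j) * y j) := by
  have hinv : Function.Involutive (fun e : Fin n → Bool => Function.update e i (!e i)) := by
    intro e
    funext j
    by_cases h : j = i
    · subst h
      simp
    · simp [Function.update_of_ne h]
  refine Fintype.sum_equiv hinv.toPerm _ _ fun e => ?_
  congr 1
  funext j
  show sg (e j) * Function.update y i (-y i) j = sg (Function.update e i (!e i) j) * y j
  by_cases h : j = i
  · subst h
    rw [Function.update_self, Function.update_self, sg_not]
    ring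
  · rw [Function.update_of_ne h, Function.update_of_ne h]

lemma rad_update_le (N : Seminorm ℝ (Fin n → ℝ)) (y : Fin n → ℝ) (i : Fin n) (c : ℝ)
    (hc : |c| ≤ |y i|) :
    rad (fun x => N x) (Function.update y i c) ≤ rad (fun x => N x) y := by
  by_cases hy : y i = 0
  · have hc0 : c = 0 := by
      rw [hy, abs_zero] at hc
      exact abs_eq_zero.1 (le_antisymm hc (abs_nonneg c))
    rw [hc0, ← hy, Function.update_eq_self]
  · obtain ⟨θ, h0, h1, hθ⟩ : ∃ θ : ℝ, 0 ≤ θ ∧ θ ≤ 1 ∧ c = θ * y i + (1 - θ) * (-y i) := by
      refine ⟨(1 + c / y i) / 2, ?_, ?_, ?_⟩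
      · have : |c / y i| ≤ 1 := by
          rw [abs_div]
          exact div_le_one_of_le₀ hc (abs_nonneg _)
        have := (abs_le.1 this).1
        linarith
      · have : |c / y i| ≤ 1 := by
          rw [abs_div]
          exact div_le_one_of_le₀ hc (abs_nonneg _)
        have := (abs_le.1 this).2
        linarith
      · field_simp
        ring
    have key : ∀ e : Fin n → Bool, N (fun j => sg (e j) * Function.update y i c j) ≤
        θ * N (fun j => sg (e j) * y j) +
          (1 - θ) * N (fun j => sg (e j) * Function.update y i (-y i) j) := by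
      intro e
      have hdec : (fun j => sg (e j) * Function.update y i c j) =
          θ • (fun j => sg (e j) * y j) +
            (1 - θ) • (fun j => sg (e j) * Function.update y i (-y i) j) := by
        funext j
        simp only [Pi.add_apply, Pi.smul_apply, smul_eq_mul]
        by_cases h : j = i
        · subst h
          rw [Function.update_self, Function.update_self, hθ]
          ring
        · rw [Function.update_of_ne h, Function.update_of_ne h]
          ring
      rw [hdec]
      refine (map_add_le_add N _ _).trans ?_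
      rw [map_smul_eq_mul, map_smul_eq_mul, Real.norm_of_nonneg h0,
        Real.norm_of_nonneg (by linarith : (0 : ℝ) ≤ 1 - θ)]
    unfold rad
    refine div_le_div_of_nonneg_right ?_ (by positivity)
    refine (Finset.sum_le_sum fun e _ => key e).trans_eq ?_
    rw [Finset.sum_add_distrib, ← Finset.mul_sum, ← Finset.mul_sum]
    rw [rad_flip_sum (fun x => N x) y i]
    ring

lemma rad_mono (N : Seminorm ℝ (Fin n → ℝ)) (x y : Fin n → ℝ) (h : ∀ i, |x i| ≤ |y i|) :
    rad (fun x => N x) x ≤ rad (fun x => N x) y := by
  classical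
  have key : ∀ s : Finset (Fin n),
      rad (fun x => N x) (s.piecewise x y) ≤ rad (fun x => N x) y := by
    intro s
    induction s using Finset.induction_on with
    | empty => rw [Finset.piecewise_empty]
    | insert i s hi ih =>
      rw [Finset.piecewise_insert]
      refine (rad_update_le N _ i (x i) ?_).trans ih
      rw [Finset.piecewise_eq_of_notMem _ _ _ hi]
      exact h i
  have := key Finset.univ
  rwa [Finset.piecewise_univ] at this

lemma rad_nonneg (N : Seminorm ℝ (Fin n → ℝ)) (x : Fin n → ℝ) : 0 ≤ rad (fun x => N x) x := by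
  unfold rad
  exact div_nonneg (Finset.sum_nonneg fun e _ => apply_nonneg N _) (by positivity)

lemma rad_cont (N : Seminorm ℝ (Fin n → ℝ)) (hN : Continuous N) :
    Continuous (rad (fun x => N x)) := by
  unfold rad
  refine Continuous.div_const (continuous_finsetSum _ fun e _ => ?_) _
  exact hN.comp (continuous_pi fun i => continuous_const.mul (continuous_apply i))

lemma even_signs (F : (Fin n → ℝ) → ℝ≥0∞)
    (he : ∀ (i : Fin n) (x : Fin n → ℝ), F (Function.update x i (-x i)) = F x)
    (e : Fin n → Bool) (x : Fin n → ℝ) : F (fun i => sg (e i) * x i) = F x := by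
  classical
  have key : ∀ s : Finset (Fin n), F (s.piecewise (fun i => sg (e i) * x i) x) = F x := by
    intro s
    induction s using Finset.induction_on with
    | empty => rw [Finset.piecewise_empty]
    | insert i s hi ih =>
      rw [Finset.piecewise_insert]
      have hz : s.piecewise (fun i => sg (e i) * x i) x i = x i :=
        Finset.piecewise_eq_of_notMem _ _ _ hi
      rcases sg_cases (e i) with h | h
      · have : Function.update (s.piecewise (fun i => sg (e i) * x i) x) i (sg (e i) * x i) =
            s.piecewise (fun i => sg (e i) * x i) x := by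
          rw [h, one_mul]
          conv_lhs => rw [← hz]
          exact Function.update_eq_self _ _
        rw [this]
        exact ih
      · have : sg (e i) * x i = -(s.piecewise (fun i => sg (e i) * x i) x i) := by
          rw [hz, h]
          ring
        rw [this, he]
        exact ih
  have := key Finset.univ
  rwa [Finset.piecewise_univ] at this

lemma rad_lintegral (N : Seminorm ℝ (Fin n → ℝ)) (hN : Continuous N)
    (F : (Fin n → ℝ) → ℝ≥0∞) (hF : Measurable F)
    (he : ∀ (i : Fin n) (x : Fin n → ℝ), F (Function.update x i (-x i)) = F x) :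
    ∫⁻ x, ENNReal.ofReal (rad (fun x => N x) x) * F x = ∫⁻ x, ENNReal.ofReal (N x) * F x := by
  have hmeas : Measurable fun x => ENNReal.ofReal (N x) * F x :=
    (hN.measurable.ennreal_ofReal).mul hF
  have hcont : ∀ e : Fin n → Bool, Continuous (fun x : Fin n → ℝ => fun i => sg (e i) * x i) :=
    fun e => continuous_pi fun i => continuous_const.mul (continuous_apply i)
  have hone : ∀ e : Fin n → Bool,
      ∫⁻ x, ENNReal.ofReal (N (fun i => sg (e i) * x i)) * F x = ∫⁻ x, ENNReal.ofReal (N x) * F x := by
    intro e
    have h1 := (sign_mp (fun i => sg (e i)) (fun i => sg_cases (e i))).lintegral_comp hmeas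
    rw [← h1]
    refine lintegral_congr fun x => ?_
    rw [even_signs F he e x]
  have hpt : ∀ x, ENNReal.ofReal (rad (fun x => N x) x) * F x =
      ∑ e : Fin n → Bool, ((2 : ℝ≥0∞) ^ n)⁻¹ *
        (ENNReal.ofReal (N (fun i => sg (e i) * x i)) * F x) := by
    intro x
    unfold rad
    rw [ENNReal.ofReal_div_of_pos (by positivity), ENNReal.ofReal_pow (by norm_num),
      ENNReal.ofReal_ofNat, ENNReal.ofReal_sum_of_nonneg fun e _ => apply_nonneg N _,
      ENNReal.div_eq_inv_mul, mul_assoc, Finset.sum_mul, Finset.mul_sum]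
  rw [lintegral_congr hpt, lintegral_finsetSum]
  · have hc : ∀ e : Fin n → Bool, ∫⁻ x, ((2 : ℝ≥0∞) ^ n)⁻¹ *
        (ENNReal.ofReal (N (fun i => sg (e i) * x i)) * F x) =
        ((2 : ℝ≥0∞) ^ n)⁻¹ * ∫⁻ x, ENNReal.ofReal (N x) * F x := by
      intro e
      rw [lintegral_const_mul, hone e]
      exact ((hN.comp (hcont e)).measurable.ennreal_ofReal).mul hF
    rw [Finset.sum_congr rfl fun e _ => hc e, Finset.sum_const, Finset.card_univ,
      Fintype.card_fun, Fintype.card_bool, Fintype.card_fin, nsmul_eq_mul, ← mul_assoc]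
    push_cast
    rw [ENNReal.mul_inv_cancel (by positivity) (ENNReal.pow_ne_top (by norm_num)), one_mul]
  · intro e _
    exact (((hN.comp (hcont e)).measurable.ennreal_ofReal).mul hF).const_mul _

lemma rad_markov (N : Seminorm ℝ (Fin n → ℝ)) (S : ℝ) (x : Fin n → ℝ)
    (h : rad (fun x => N x) x ≤ S) :
    2 ^ n ≤ 2 * (Finset.univ.filter
        (fun e : Fin n → Bool => N (fun i => sg (e i) * x i) ≤ 2 * S)).card := by
  classical
  by_contra hlt
  rw [not_le] at hlt
  have hS : 0 ≤ S := (rad_nonneg N x).trans h
  set A := Finset.univ.filter (fun e : Fin n → Bool => N (fun i => sg (e i) * x i) ≤ 2 * S) with hA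
  set B := Finset.univ.filter (fun e : Fin n → Bool => ¬ N (fun i => sg (e i) * x i) ≤ 2 * S)
    with hB
  have hAB : A.card + B.card = 2 ^ n := by
    have h1 := Finset.card_filter_add_card_filter_not (s := (Finset.univ : Finset (Fin n → Bool)))
      (fun e : Fin n → Bool => N (fun i => sg (e i) * x i) ≤ 2 * S)
    rw [Finset.card_univ, Fintype.card_fun, Fintype.card_bool, Fintype.card_fin] at h1
    exact h1
  have hBn : B.Nonempty := by
    rw [← Finset.card_pos]
    omega
  have hsum : ∑ e : Fin n → Bool, N (fun i => sg (e i) * x i) ≤ 2 ^ n * S := by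
    unfold rad at h
    rw [div_le_iff₀ (by positivity)] at h
    linarith
  have hB1 : ∑ e ∈ B, (2 * S) < ∑ e ∈ B, N (fun i => sg (e i) * x i) := by
    refine Finset.sum_lt_sum_of_nonempty hBn fun e he => ?_
    rw [hB, Finset.mem_filter] at he
    exact not_le.1 he.2
  have hB2 : ∑ e ∈ B, N (fun i => sg (e i) * x i) ≤
      ∑ e : Fin n → Bool, N (fun i => sg (e i) * x i) :=
    Finset.sum_le_sum_of_subset_of_nonneg (Finset.subset_univ _) fun e _ _ => apply_nonneg N _
  rw [Finset.sum_const, nsmul_eq_mul] at hB1
  have hcard : (2 : ℝ) ^ n ≤ 2 * (B.card : ℝ) := by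
    have h2 : 2 ^ n ≤ 2 * B.card := by omega
    exact_mod_cast h2
  nlinarith

theorem rad_facts (N : Seminorm ℝ (Fin n → ℝ)) (hN : Continuous N) :
    Continuous (rad (fun x => N x)) ∧
    (∀ x y : Fin n → ℝ, (∀ i, |x i| ≤ |y i|) → rad (fun x => N x) x ≤ rad (fun x => N x) y) ∧
    (∀ F : (Fin n → ℝ) → ℝ≥0∞, Measurable F →
      (∀ (i : Fin n) (x : Fin n → ℝ), F (Function.update x i (-x i)) = F x) →
      ∫⁻ x, ENNReal.ofReal (rad (fun x => N x) x) * F x = ∫⁻ x, ENNReal.ofReal (N x) * F x) ∧
    (∀ (S : ℝ) (x : Fin n → ℝ), rad (fun x => N x) x ≤ S →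
      2 ^ n ≤ 2 * (Finset.univ.filter
        (fun e : Fin n → Bool => N (fun i => sg (e i) * x i) ≤ 2 * S)).card) :=
  ⟨rad_cont N hN, rad_mono N, fun F hF he => rad_lintegral N hN F hF he,
    fun S x h => rad_markov N S x h⟩

end Pool.Agent.Helper711SMP.I1

namespace Pool.Agent.Helper711SMP

alias rad_facts := Pool.Agent.Helper711SMP.I1.rad_facts

end Pool.Agent.Helper711SMP
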