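import Mathlib

/-!
# Uniform density on the cube
-/

set_option autoImplicit false

namespace Pool.Agent.Helper711SMP

open MeasureTheory
open scoped ENNReal

variable {n : ℕ}

/-- density of the uniform distribution on the cube `[-1,1]^n` -/
noncomputable def uni (n : ℕ) : (Fin n → ℝ) → ℝ≥0∞ :=
  Set.indicator {x : Fin n → ℝ | ∀ i, |x i| ≤ 1} (fun _ => (1 / 2 : ℝ≥0∞) ^ n)


end Pool.Agent.Helper711SMP
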