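import Mathlib
import Pool.Agent.Helper711_SMP.Basic
import Pool.Agent.Helper711_SMP.Rad
import Pool.Agent.Helper711_SMP.Uni
import Pool.Agent.Helper711_SMP.I1

/-!
# Uniform vector
-/

set_option autoImplicit false

namespace Pool.Agent.Helper711SMP.J1

open MeasureTheory
open scoped ENNReal

variable {n : ℕ} {f : (Fin n → ℝ) → ℝ≥0∞}

lemma uni_meas (n : ℕ) : MeasurableSet {x : Fin n → ℝ | ∀ i, |x i| ≤ 1} := by
  have : {x : Fin n → ℝ | ∀ i, |x i| ≤ 1} = ⋂ i, {x : Fin n → ℝ | |x i| ≤ 1} := by
    ext x; simp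
  rw [this]
  refine MeasurableSet.iInter (fun i => ?_)
  exact measurableSet_le ((measurable_pi_apply i).abs) measurable_const

lemma uni_vol (n : ℕ) : volume {x : Fin n → ℝ | ∀ i, |x i| ≤ 1} = 2 ^ n := by
  have : {x : Fin n → ℝ | ∀ i, |x i| ≤ 1} = Set.Icc (fun _ => -1) (fun _ => 1) := by
    ext x
    constructor
    · intro h
      exact ⟨fun i => (abs_le.mp (h i)).1, fun i => (abs_le.mp (h i)).2⟩
    · intro h i
      exact abs_le.mpr ⟨h.1 i, h.2 i⟩
  rw [this, Real.volume_Icc_pi]
  simp only [Finset.prod_const, Finset.card_univ, Fintype.card_fin]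
  congr 1
  norm_num

lemma uni_mass (n : ℕ) : ∫⁻ x, uni n x = 1 := by
  unfold uni
  rw [lintegral_indicator (uni_meas n), lintegral_const, Measure.restrict_apply_univ, uni_vol,
    ← mul_pow, one_div, ENNReal.inv_mul_cancel (by norm_num) (by norm_num), one_pow]

lemma uni_UD (n : ℕ) : UD (uni n) where
  meas := measurable_const.indicator (uni_meas n)
  mass := uni_mass n
  logc := by
    intro s hs0 hs1 x y
    by_cases hx : x ∈ {x : Fin n → ℝ | ∀ i, |x i| ≤ 1}
    · by_cases hy : y ∈ {x : Fin n → ℝ | ∀ i, |x i| ≤ 1}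
      · have hxy : s • x + (1 - s) • y ∈ {x : Fin n → ℝ | ∀ i, |x i| ≤ 1} := by
          intro i
          have h1 := abs_le.mp (hx i)
          have h2 := abs_le.mp (hy i)
          simp only [Pi.add_apply, Pi.smul_apply, smul_eq_mul]
          rw [abs_le]
          constructor <;> nlinarith
        unfold uni
        rw [Set.indicator_of_mem hx, Set.indicator_of_mem hy, Set.indicator_of_mem hxy,
          ← ENNReal.rpow_add_of_nonneg _ _ hs0.le (by linarith)]
        have : s + (1 - s) = 1 := by ring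
        rw [this, ENNReal.rpow_one]
      · unfold uni
        rw [Set.indicator_of_notMem hy, ENNReal.zero_rpow_of_pos (by linarith), mul_zero]
        exact zero_le
    · unfold uni
      rw [Set.indicator_of_notMem hx, ENNReal.zero_rpow_of_pos hs0, zero_mul]
      exact zero_le
  even := by
    intro i x
    unfold uni
    have h : ∀ j, |Function.update x i (-x i) j| = |x j| := by
      intro j
      by_cases hj : j = i
      · subst hj; simp
      · rw [Function.update_of_ne hj]
    by_cases hx : x ∈ {x : Fin n → ℝ | ∀ i, |x i| ≤ 1}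
    · rw [Set.indicator_of_mem hx, Set.indicator_of_mem]
      intro j
      rw [h j]; exact hx j
    · rw [Set.indicator_of_notMem hx, Set.indicator_of_notMem]
      intro hc
      apply hx
      intro j
      rw [← h j]; exact hc j

lemma uni_le_mul (n : ℕ) (g : (Fin n → ℝ) → ℝ≥0∞) (c : ℝ≥0∞)
    (hg : ∀ x : Fin n → ℝ, (∀ i, |x i| ≤ 1) → g x ≤ c) : ∫⁻ x, g x * uni n x ≤ c := by
  calc ∫⁻ x, g x * uni n x ≤ ∫⁻ x, c * uni n x := by
        apply lintegral_mono
        intro x
        by_cases hx : x ∈ {x : Fin n → ℝ | ∀ i, |x i| ≤ 1}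
        · exact mul_le_mul' (hg x hx) le_rfl
        · simp only [uni]
          rw [Set.indicator_of_notMem hx, mul_zero, mul_zero]
    _ = c * ∫⁻ x, uni n x := lintegral_const_mul _ (uni_UD n).meas
    _ = c := by rw [uni_mass, mul_one]

theorem uni_facts :
    UD (uni n) ∧ (∀ i, ∫⁻ x, ENNReal.ofReal |x i| * uni n x ≤ 1) ∧
    (∀ N : Seminorm ℝ (Fin n → ℝ), Continuous N →
      ∫⁻ x, ENNReal.ofReal (N x) * uni n x ≤
        ENNReal.ofReal (rad (fun x => N x) (fun _ => 1))) := by
  refine ⟨uni_UD n, ?_, ?_⟩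
  · intro i
    apply uni_le_mul
    intro x hx
    rw [← ENNReal.ofReal_one]
    exact ENNReal.ofReal_le_ofReal (hx i)
  · intro N hN
    obtain ⟨_, h2, h3, _⟩ := rad_facts N hN
    rw [← h3 (uni n) (uni_UD n).meas (uni_UD n).even]
    apply uni_le_mul
    intro x hx
    apply ENNReal.ofReal_le_ofReal
    apply h2
    intro i
    rw [abs_one]
    exact hx i

end Pool.Agent.Helper711SMP.J1

namespace Pool.Agent.Helper711SMP

alias uni_facts := Pool.Agent.Helper711SMP.J1.uni_facts

end Pool.Agent.Helper711SMP
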