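import Mathlib
import Pool.Agent.Helper711_SMP.Basic
import Pool.Agent.Helper711_SMP.Rad
import Pool.Agent.Helper711_SMP.Uni
import Pool.Agent.Helper711_SMP.Sign
import Pool.Agent.Helper711_SMP.I1
import Pool.Agent.Helper711_SMP.J1

/-!
# Shift of the uniform vector
-/

set_option autoImplicit false

namespace Pool.Agent.Helper711SMP.J2

open MeasureTheory
open scoped ENNReal

variable {n : ℕ} {f : (Fin n → ℝ) → ℝ≥0∞}

lemma us_bounded (N : Seminorm ℝ (Fin n → ℝ)) (hN : Continuous N) :
    ∃ C : ℝ, 0 ≤ C ∧ ∀ x : Fin n → ℝ, (∀ i, |x i| ≤ 2) → N x ≤ C := by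
  obtain ⟨C, hC⟩ := (isCompact_closedBall (0 : Fin n → ℝ) 2).exists_bound_of_continuousOn
    hN.continuousOn
  have h0 : 0 ≤ C := le_trans (norm_nonneg _) (hC 0 (by simp))
  refine ⟨C, h0, fun x hx => ?_⟩
  have hx' : x ∈ Metric.closedBall (0 : Fin n → ℝ) 2 := by
    rw [mem_closedBall_zero_iff, pi_norm_le_iff_of_nonneg (by norm_num)]
    intro i
    rw [Real.norm_eq_abs]
    exact hx i
  exact le_trans (le_abs_self _) (hC x hx')

lemma us_rad_two (N : Seminorm ℝ (Fin n → ℝ)) :
    rad (fun x => N x) (fun _ => 2) = 2 * rad (fun x => N x) (fun _ => 1) := by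
  unfold rad
  rw [← mul_div_assoc, Finset.mul_sum]
  congr 1
  refine Finset.sum_congr rfl fun e _ => ?_
  have : (fun i => sg (e i) * 2) = (2 : ℝ) • (fun i => sg (e i) * (1 : ℝ)) := by
    ext i
    simp only [Pi.smul_apply, smul_eq_mul]
    ring
  show N (fun i => sg (e i) * 2) = 2 * N (fun i => sg (e i) * 1)
  rw [this, map_smul_eq_mul]
  norm_num

lemma us_symm (N : Seminorm ℝ (Fin n → ℝ)) (hN : Continuous N) (Q : Fin n → Measure ℝ)
    [∀ i, IsProbabilityMeasure (Q i)] (hQ : ∀ i, ∀ᵐ u ∂(Q i), |u| ≤ 1) (z : Fin n → ℝ)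
    (hm : ∀ i, ∫ u, u ∂(Q i) = z i) :
    Integrable (fun u => N (u - z)) (Measure.pi Q) ∧
    ∫ u, N (u - z) ∂(Measure.pi Q) ≤ 2 * rad (fun x => N x) (fun _ => 1) := by
  obtain ⟨C, hC0, hC⟩ := us_bounded N hN
  have hbd : ∀ᵐ u ∂(Measure.pi Q), ∀ i, |u i| ≤ 1 := by
    rw [ae_all_iff]
    intro i
    exact Measure.tendsto_eval_ae_ae.eventually (hQ i)
  have hz : ∀ i, |z i| ≤ 1 := by
    intro i
    rw [← hm i]
    have := norm_integral_le_of_norm_le_const (μ := Q i) (f := fun u : ℝ => u) (C := 1)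
      ((hQ i).mono fun u hu => by rw [Real.norm_eq_abs]; exact hu)
    simpa using this
  have hint1 : Integrable (fun u => N (u - z)) (Measure.pi Q) := by
    refine Integrable.of_bound (C := C) ?_ ?_
    · exact (hN.comp (continuous_id.sub continuous_const)).aestronglyMeasurable
    · filter_upwards [hbd] with u hu
      rw [Real.norm_eq_abs, abs_of_nonneg (apply_nonneg N _)]
      apply hC
      intro i
      have h1 := hu i
      have h2 := hz i
      calc |(u - z) i| = |u i - z i| := rfl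
        _ ≤ |u i| + |z i| := abs_sub _ _
        _ ≤ 2 := by linarith
  refine ⟨hint1, ?_⟩
  have hiv : ∀ i, Integrable (fun v : Fin n → ℝ => v i) (Measure.pi Q) := by
    intro i
    refine Integrable.of_bound (C := 1) (continuous_apply i).aestronglyMeasurable ?_
    filter_upwards [hbd] with u hu
    rw [Real.norm_eq_abs]
    exact hu i
  have hivv : Integrable (fun v : Fin n → ℝ => v) (Measure.pi Q) := by
    refine Integrable.of_bound (C := 1) continuous_id.aestronglyMeasurable ?_
    filter_upwards [hbd] with u hu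
    rw [pi_norm_le_iff_of_nonneg (by norm_num)]
    exact fun i => by rw [Real.norm_eq_abs]; exact hu i
  have hmean : ∫ v, v ∂(Measure.pi Q) = z := by
    ext i
    rw [eval_integral hiv, integral_eval, hm]
  have hjen : ∀ u : Fin n → ℝ, (∀ i, |u i| ≤ 1) →
      N (u - z) ≤ ∫ v, N (u - v) ∂(Measure.pi Q) := by
    intro u hu
    have hc : ConvexOn ℝ Set.univ (fun x => N x) := N.convexOn
    have h1 : Integrable (fun v : Fin n → ℝ => u - v) (Measure.pi Q) :=
      (integrable_const u).sub hivv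
    have h2 : Integrable ((fun x => N x) ∘ fun v : Fin n → ℝ => u - v) (Measure.pi Q) := by
      refine Integrable.of_bound (C := C) ?_ ?_
      · exact (hN.comp (continuous_const.sub continuous_id)).aestronglyMeasurable
      · filter_upwards [hbd] with v hv
        simp only [Function.comp]
        rw [Real.norm_eq_abs, abs_of_nonneg (apply_nonneg N _)]
        apply hC
        intro i
        have h1 := hu i
        have h2 := hv i
        calc |(u - v) i| = |u i - v i| := rfl
          _ ≤ |u i| + |v i| := abs_sub _ _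
          _ ≤ 2 := by linarith
    have h3 := hc.map_integral_le hN.continuousOn isClosed_univ
      (Filter.Eventually.of_forall fun v => Set.mem_univ _) h1 h2
    have h4 : ∫ v, (u - v) ∂(Measure.pi Q) = u - z := by
      rw [integral_sub (integrable_const u) hivv, hmean]
      simp
    rw [h4] at h3
    exact h3
  have hint2 : Integrable (fun p : (Fin n → ℝ) × (Fin n → ℝ) => N (p.1 - p.2))
      ((Measure.pi Q).prod (Measure.pi Q)) := by
    refine Integrable.of_bound (C := C) ?_ ?_
    · exact (hN.comp (continuous_fst.sub continuous_snd)).aestronglyMeasurable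
    · have h1 : ∀ᵐ p ∂((Measure.pi Q).prod (Measure.pi Q)), ∀ i, |p.1 i| ≤ 1 :=
        Measure.quasiMeasurePreserving_fst.ae hbd
      have h2 : ∀ᵐ p ∂((Measure.pi Q).prod (Measure.pi Q)), ∀ i, |p.2 i| ≤ 1 :=
        Measure.quasiMeasurePreserving_snd.ae hbd
      filter_upwards [h1, h2] with p hp1 hp2
      rw [Real.norm_eq_abs, abs_of_nonneg (apply_nonneg N _)]
      apply hC
      intro i
      have h1 := hp1 i
      have h2 := hp2 i
      calc |(p.1 - p.2) i| = |p.1 i - p.2 i| := rfl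
        _ ≤ |p.1 i| + |p.2 i| := abs_sub _ _
        _ ≤ 2 := by linarith
  have hs1 : ∫ u, N (u - z) ∂(Measure.pi Q) ≤
      ∫ u, ∫ v, N (u - v) ∂(Measure.pi Q) ∂(Measure.pi Q) := by
    refine integral_mono_ae hint1 hint2.integral_prod_left ?_
    filter_upwards [hbd] with u hu
    exact hjen u hu
  have hs2 : ∫ u, ∫ v, N (u - v) ∂(Measure.pi Q) ∂(Measure.pi Q) =
      ∫ p : (Fin n → ℝ) × (Fin n → ℝ), N (p.1 - p.2) ∂((Measure.pi Q).prod (Measure.pi Q)) :=
    (integral_prod _ hint2).symm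
  set ρ : Measure (Fin n → ℝ × ℝ) := Measure.pi fun i => (Q i).prod (Q i) with hR
  have hmp := measurePreserving_arrowProdEquivProdArrow ℝ ℝ (Fin n) Q Q
  have hs3 : ∫ p : (Fin n → ℝ) × (Fin n → ℝ), N (p.1 - p.2)
      ∂((Measure.pi Q).prod (Measure.pi Q)) =
      ∫ w : Fin n → ℝ × ℝ, N (fun i => (w i).1 - (w i).2) ∂ρ := by
    rw [← hmp.integral_comp']
    rfl
  have hs4 : ∀ e : Fin n → Bool,
      ∫ w : Fin n → ℝ × ℝ, N (fun i => sg (e i) * ((w i).1 - (w i).2)) ∂ρ =
      ∫ w : Fin n → ℝ × ℝ, N (fun i => (w i).1 - (w i).2) ∂ρ := by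
    intro e
    have hpi : MeasurePreserving (fun (w : Fin n → ℝ × ℝ) i =>
        (fun p : ℝ × ℝ => if e i then p else p.swap) (w i)) ρ ρ := by
      refine measurePreserving_pi _ _ (f := fun i (p : ℝ × ℝ) => if e i then p else p.swap) ?_
      intro i
      by_cases h : e i
      · simp only [h, if_true]
        exact MeasurePreserving.id _
      · simp only [h, if_false]
        exact Measure.measurePreserving_swap
    have hcont : Continuous fun w : Fin n → ℝ × ℝ => N (fun i => (w i).1 - (w i).2) := by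
      apply hN.comp
      fun_prop
    rw [← hpi.map_eq, integral_map hpi.measurable.aemeasurable hcont.aestronglyMeasurable,
      hpi.map_eq]
    refine integral_congr_ae (Filter.Eventually.of_forall fun w => ?_)
    simp only
    congr 1
    ext i
    by_cases h : e i
    · simp [h, sg]
    · simp [h, sg]
  have hRb : ∀ᵐ w ∂ρ, ∀ i, |(w i).1 - (w i).2| ≤ 2 := by
    rw [ae_all_iff]
    intro i
    have h1 : ∀ᵐ p ∂((Q i).prod (Q i)), |p.1| ≤ 1 :=
      Measure.quasiMeasurePreserving_fst.ae (hQ i)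
    have h2 : ∀ᵐ p ∂((Q i).prod (Q i)), |p.2| ≤ 1 :=
      Measure.quasiMeasurePreserving_snd.ae (hQ i)
    have h3 : ∀ᵐ p ∂((Q i).prod (Q i)), |p.1 - p.2| ≤ 2 := by
      filter_upwards [h1, h2] with p hp1 hp2
      calc |p.1 - p.2| ≤ |p.1| + |p.2| := abs_sub _ _
        _ ≤ 2 := by linarith
    exact (Measure.tendsto_eval_ae_ae (μ := fun i => (Q i).prod (Q i)) (i := i)).eventually h3
  have hinte : ∀ e : Fin n → Bool,
      Integrable (fun w : Fin n → ℝ × ℝ => N (fun i => sg (e i) * ((w i).1 - (w i).2))) ρ := by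
    intro e
    refine Integrable.of_bound (C := C) ?_ ?_
    · refine (hN.comp ?_).aestronglyMeasurable
      fun_prop
    · filter_upwards [hRb] with w hw
      rw [Real.norm_eq_abs, abs_of_nonneg (apply_nonneg N _)]
      apply hC
      intro i
      rw [abs_mul]
      have : |sg (e i)| = 1 := by
        unfold sg
        by_cases h : e i <;> simp [h]
      rw [this, one_mul]
      exact hw i
  have hs5 : ∫ w : Fin n → ℝ × ℝ, rad (fun x => N x) (fun i => (w i).1 - (w i).2) ∂ρ =
      ∫ w : Fin n → ℝ × ℝ, N (fun i => (w i).1 - (w i).2) ∂ρ := by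
    unfold rad
    rw [integral_div, integral_finsetSum _ (fun e _ => hinte e), Finset.sum_congr rfl
      (fun e _ => hs4 e), Finset.sum_const, nsmul_eq_mul]
    have : ((Finset.univ : Finset (Fin n → Bool)).card : ℝ) = 2 ^ n := by
      simp
    rw [this]
    field_simp
  have hs6 : ∫ w : Fin n → ℝ × ℝ, rad (fun x => N x) (fun i => (w i).1 - (w i).2) ∂ρ ≤
      rad (fun x => N x) (fun _ => 2) := by
    have hmono : ∫ w : Fin n → ℝ × ℝ, rad (fun x => N x) (fun i => (w i).1 - (w i).2) ∂ρ ≤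
        ∫ w : Fin n → ℝ × ℝ, rad (fun x => N x) (fun _ => 2) ∂ρ := by
      refine integral_mono_ae ?_ (integrable_const _) ?_
      · unfold rad
        exact (integrable_finsetSum _ fun e _ => hinte e).div_const _
      · filter_upwards [hRb] with w hw
        apply (rad_facts N hN).2.1
        intro i
        rw [abs_of_pos (by norm_num : (0 : ℝ) < 2)]
        exact hw i
    refine le_trans hmono (le_of_eq ?_)
    simp
  calc ∫ u, N (u - z) ∂(Measure.pi Q) ≤ _ := hs1
    _ = _ := hs2
    _ = _ := hs3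
    _ = _ := hs5.symm
    _ ≤ _ := hs6
    _ = _ := us_rad_two N

lemma us_poly (a b c : ℝ) :
    ∫ u in Set.Icc (-1 : ℝ) 1, (a + b * u + c * u ^ 2) = 2 * a + 2 / 3 * c := by
  rw [integral_Icc_eq_integral_Ioc, ← intervalIntegral.integral_of_le (by norm_num)]
  have h : ∀ u ∈ Set.uIcc (-1 : ℝ) 1, HasDerivAt
      (fun u : ℝ => a * u + b * (u ^ 2 / 2) + c * (u ^ 3 / 3)) (a + b * u + c * u ^ 2) u := by
    intro u _
    have h1 : HasDerivAt (fun u : ℝ => a * u) (a * 1) u := (hasDerivAt_id u).const_mul a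
    have h2 : HasDerivAt (fun u : ℝ => b * (u ^ 2 / 2)) (b * ((2 : ℕ) * u ^ (2 - 1) / 2)) u :=
      ((hasDerivAt_pow 2 u).div_const 2).const_mul b
    have h3 : HasDerivAt (fun u : ℝ => c * (u ^ 3 / 3)) (c * ((3 : ℕ) * u ^ (3 - 1) / 3)) u :=
      ((hasDerivAt_pow 3 u).div_const 3).const_mul c
    have h4 := (h1.add h2).add h3
    refine h4.congr_deriv ?_
    norm_num
  rw [intervalIntegral.integral_eq_sub_of_hasDerivAt h
    ((by fun_prop : Continuous fun u : ℝ => a + b * u + c * u ^ 2).intervalIntegrable _ _)]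
  ring

lemma us_abs : ∀ᵐ u ∂((volume : Measure ℝ).restrict (Set.Icc (-1) 1)), |u| ≤ 1 := by
  filter_upwards [ae_restrict_mem measurableSet_Icc] with u hu
  exact abs_le.mpr hu

lemma us_pos (z u : ℝ) (hz : |z| ≤ 1 / 3) (hu : |u| ≤ 1) : 0 ≤ 1 + 3 * z * u := by
  have h1 : |z * u| ≤ 1 / 3 := by
    rw [abs_mul]
    calc |z| * |u| ≤ 1 / 3 * 1 := mul_le_mul hz hu (abs_nonneg _) (by norm_num)
      _ = 1 / 3 := by ring
  have h2 := (abs_le.mp h1).1
  linarith

lemma us_pi_density (c : Measure ℝ) [IsFiniteMeasure c] (h : Fin n → ℝ → ℝ)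
    (hnn : ∀ i, ∀ᵐ x ∂c, 0 ≤ h i x) (hint : ∀ i, Integrable (h i) c)
    [∀ i, IsFiniteMeasure (c.withDensity (fun u => ENNReal.ofReal (h i u)))] :
    Measure.pi (fun i => c.withDensity (fun u => ENNReal.ofReal (h i u))) =
      (Measure.pi (fun _ : Fin n => c)).withDensity
        (fun x => ENNReal.ofReal (∏ i, h i (x i))) := by
  refine Measure.pi_eq fun s hs => ?_
  rw [withDensity_apply _ (MeasurableSet.univ_pi hs), Measure.restrict_pi_pi,
    ← ofReal_integral_eq_lintegral_ofReal (Integrable.fintype_prod fun i => (hint i).restrict),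
    integral_fintype_prod_eq_prod, ENNReal.ofReal_prod_of_nonneg]
  · refine Finset.prod_congr rfl fun i _ => ?_
    rw [withDensity_apply _ (hs i), ofReal_integral_eq_lintegral_ofReal (hint i).restrict
      (ae_restrict_of_ae (hnn i))]
  · intro i _
    exact integral_nonneg_of_ae (ae_restrict_of_ae (hnn i))
  · have h1 : ∀ᵐ x ∂(Measure.pi fun i : Fin n => c.restrict (s i)), ∀ i, 0 ≤ h i (x i) := by
      rw [ae_all_iff]
      intro i
      exact (Measure.tendsto_eval_ae_ae (μ := fun i : Fin n => c.restrict (s i))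
        (i := i)).eventually (ae_restrict_of_ae (hnn i))
    filter_upwards [h1] with x hx
    exact Finset.prod_nonneg fun i _ => hx i

lemma us_uni (G : Set (Fin n → ℝ)) (hG : MeasurableSet G) :
    ∫⁻ x in G, uni n x = (1 / 2 : ℝ≥0∞) ^ n *
      (Measure.pi (fun _ : Fin n => (volume : Measure ℝ).restrict (Set.Icc (-1) 1))) G := by
  have hcube : {x : Fin n → ℝ | ∀ i, |x i| ≤ 1} = Set.univ.pi fun _ => Set.Icc (-1 : ℝ) 1 := by
    ext x
    simp only [Set.mem_setOf_eq, Set.mem_pi, Set.mem_univ, true_implies, Set.mem_Icc]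
    exact forall_congr' fun i => abs_le
  have hm : MeasurableSet (Set.univ.pi fun _ : Fin n => Set.Icc (-1 : ℝ) 1) :=
    MeasurableSet.univ_pi fun _ => measurableSet_Icc
  unfold uni
  rw [hcube, lintegral_indicator hm, lintegral_const, Measure.restrict_restrict hm,
    Measure.restrict_apply_univ, ← Measure.restrict_pi_pi, Measure.restrict_apply hG,
    Set.inter_comm, ← volume_pi]

theorem uni_shift (N : Seminorm ℝ (Fin n → ℝ)) (hN : Continuous N) (Se : ℝ) (hSe : 0 < Se)
    (hrad : rad (fun x => N x) (fun _ => 1) ≤ Se)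
    (z : Fin n → ℝ) (hz : ∀ i, |z i| ≤ 1 / 3) (p : ℝ) (hzp : ∑ i, z i ^ 2 ≤ p) :
    ENNReal.ofReal (Real.exp (-(3 * p)) / 4) ≤
      ∫⁻ x in {x : Fin n → ℝ | N (x - z) ≤ 4 * Se}, uni n x := by
  classical
  set c : Measure ℝ := (volume : Measure ℝ).restrict (Set.Icc (-1) 1) with hc
  haveI : IsFiniteMeasure c := by rw [hc]; infer_instance
  set M := Real.exp (3 * p) with hM
  have hMpos : 0 < M := Real.exp_pos _
  set k : Fin n → ℝ → ℝ := fun i u => (1 + 3 * z i * u) / 2 with hk
  have hci : ∀ F : ℝ → ℝ, Continuous F → Integrable F c := by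
    intro F hF
    rw [hc]
    exact (hF.continuousOn.integrableOn_compact isCompact_Icc)
  have hkint : ∀ i, Integrable (k i) c := fun i => hci _ (by simp only [hk]; fun_prop)
  have hknn : ∀ i, ∀ᵐ u ∂c, 0 ≤ k i u := by
    intro i
    filter_upwards [us_abs] with u hu
    have := us_pos (z i) u (hz i) hu
    simp only [hk]
    linarith
  have hk1 : ∀ i, ∫ u, k i u ∂c = 1 := by
    intro i
    have := us_poly (1 / 2) (3 * z i / 2) 0
    have h2 : (fun u => k i u) = fun u => 1 / 2 + 3 * z i / 2 * u + 0 * u ^ 2 := by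
      ext u
      simp only [hk]
      ring
    rw [h2, hc, this]
    norm_num
  have hk2 : ∀ i, ∫ u, (1 + 3 * z i * u) ^ 2 / 2 ∂c = 1 + 3 * z i ^ 2 := by
    intro i
    have := us_poly (1 / 2) (3 * z i) (9 * z i ^ 2 / 2)
    have h2 : (fun u : ℝ => (1 + 3 * z i * u) ^ 2 / 2) =
        fun u => 1 / 2 + 3 * z i * u + 9 * z i ^ 2 / 2 * u ^ 2 := by
      ext u
      ring
    rw [h2, hc, this]
    ring
  haveI hprob : ∀ i, IsProbabilityMeasure (c.withDensity fun u => ENNReal.ofReal (k i u)) := by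
    intro i
    refine ⟨?_⟩
    rw [withDensity_apply _ MeasurableSet.univ, Measure.restrict_univ,
      ← ofReal_integral_eq_lintegral_ofReal (hkint i) (hknn i), hk1 i, ENNReal.ofReal_one]
  set Q : Fin n → Measure ℝ := fun i => c.withDensity fun u => ENNReal.ofReal (k i u) with hQ
  haveI : ∀ i, IsProbabilityMeasure (Q i) := hprob
  have hQabs : ∀ i, ∀ᵐ u ∂(Q i), |u| ≤ 1 := fun i =>
    (withDensity_absolutelyContinuous c _).ae_le us_abs
  have hQm : ∀ i, ∫ u, u ∂(Q i) = z i := by
    intro i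
    have hkm : Measurable fun u => ENNReal.ofReal (k i u) := by
      simp only [hk]
      fun_prop
    simp only [hQ]
    rw [integral_withDensity_eq_integral_toReal_smul hkm
      (Filter.Eventually.of_forall fun u => ENNReal.ofReal_lt_top)]
    have h1 : ∫ u, (ENNReal.ofReal (k i u)).toReal • u ∂c =
        ∫ u, (0 + 1 / 2 * u + 3 * z i / 2 * u ^ 2) ∂c := by
      refine integral_congr_ae ?_
      filter_upwards [hknn i] with u hu
      rw [ENNReal.toReal_ofReal hu]
      simp only [hk, smul_eq_mul]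
      ring
    rw [h1, hc, us_poly]
    ring
  obtain ⟨hNint, hNle⟩ := us_symm N hN Q hQabs z hQm
  set G : Set (Fin n → ℝ) := {x : Fin n → ℝ | N (x - z) ≤ 4 * Se} with hG
  have hGm : MeasurableSet G :=
    (isClosed_le (hN.comp (continuous_id.sub continuous_const)) continuous_const).measurableSet
  -- Markov
  have hQG : 1 / 2 ≤ (Measure.pi Q).real G := by
    have m1 := mul_meas_ge_le_integral_of_nonneg (μ := Measure.pi Q)
      (Filter.Eventually.of_forall fun u => apply_nonneg N (u - z)) hNint (4 * Se)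
    have m2 : (Measure.pi Q).real {u | 4 * Se ≤ N (u - z)} ≤ 1 / 2 := by
      by_contra hcon
      push Not at hcon
      have : 4 * Se * (1 / 2) < 4 * Se * (Measure.pi Q).real {u | 4 * Se ≤ N (u - z)} :=
        mul_lt_mul_of_pos_left hcon (by linarith)
      linarith
    have m3 : (Measure.pi Q).real G = 1 - (Measure.pi Q).real Gᶜ := by
      rw [probReal_compl_eq_one_sub hGm]
      ring
    have m4 : (Measure.pi Q).real Gᶜ ≤ (Measure.pi Q).real {u | 4 * Se ≤ N (u - z)} := by
      refine measureReal_mono ?_ (measure_ne_top _ _)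
      intro x hx
      simp only [hG, Set.mem_compl_iff, Set.mem_setOf_eq, not_le] at hx ⊢
      exact hx.le
    linarith
  set ρ : Measure (Fin n → ℝ) := Measure.pi fun _ => c with hρ
  have hQρ : Measure.pi Q = ρ.withDensity fun x => ENNReal.ofReal (∏ i, k i (x i)) :=
    us_pi_density c k hknn hkint
  have hρabs : ∀ᵐ x ∂ρ, ∀ i, |x i| ≤ 1 := by
    rw [ae_all_iff]
    intro i
    exact (Measure.tendsto_eval_ae_ae (μ := fun _ : Fin n => c) (i := i)).eventually us_abs
  have hkI : Integrable (fun x : Fin n → ℝ => ∏ i, k i (x i)) ρ :=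
    Integrable.fintype_prod hkint
  have hk2I : Integrable (fun x : Fin n → ℝ => ∏ i, (1 + 3 * z i * x i) ^ 2 / 2) ρ :=
    Integrable.fintype_prod (f := fun i u => (1 + 3 * z i * u) ^ 2 / 2)
      fun i => hci _ (by fun_prop)
  have hkn : ∀ᵐ x ∂ρ, 0 ≤ ∏ i, k i (x i) := by
    filter_upwards [hρabs] with x hx
    refine Finset.prod_nonneg fun i _ => ?_
    have := us_pos (z i) (x i) (hz i) (hx i)
    simp only [hk]
    linarith
  have hQG2 : (Measure.pi Q).real G = ∫ x in G, ∏ i, k i (x i) ∂ρ := by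
    rw [hQρ, measureReal_def, withDensity_apply _ hGm,
      ← ofReal_integral_eq_lintegral_ofReal hkI.restrict (ae_restrict_of_ae hkn),
      ENNReal.toReal_ofReal (integral_nonneg_of_ae (ae_restrict_of_ae hkn))]
  have hM2 : ∫ x, ∏ i, (1 + 3 * z i * x i) ^ 2 / 2 ∂ρ ≤ M := by
    rw [hρ, integral_fintype_prod_eq_prod (f := fun i u => (1 + 3 * z i * u) ^ 2 / 2)]
    rw [Finset.prod_congr rfl fun i _ => hk2 i]
    calc ∏ i, (1 + 3 * z i ^ 2) ≤ ∏ i, Real.exp (3 * z i ^ 2) := by
          refine Finset.prod_le_prod (fun i _ => by positivity) fun i _ => ?_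
          have := Real.add_one_le_exp (3 * z i ^ 2)
          linarith
      _ = Real.exp (∑ i, 3 * z i ^ 2) := (Real.exp_sum _ _).symm
      _ ≤ M := by
          rw [hM]
          apply Real.exp_le_exp.mpr
          rw [← Finset.mul_sum]
          linarith
  have hpt : ∀ᵐ x ∂ρ, ∏ i, k i (x i) ≤
      1 / (4 * M) * ∏ i, (1 + 3 * z i * x i) ^ 2 / 2 + M * (1 / 2) ^ n := by
    filter_upwards with x
    have h1 : ∏ i, k i (x i) = (∏ i, (1 + 3 * z i * x i)) * (1 / 2) ^ n := by
      simp only [hk]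
      rw [Finset.prod_div_distrib]
      simp
      field_simp
    have h2 : ∏ i, (1 + 3 * z i * x i) ^ 2 / 2 =
        (∏ i, (1 + 3 * z i * x i)) ^ 2 * (1 / 2) ^ n := by
      rw [Finset.prod_div_distrib, Finset.prod_pow]
      simp
      field_simp
    rw [h1, h2]
    set H := ∏ i, (1 + 3 * z i * x i)
    have h3 : H ≤ 1 / (4 * M) * H ^ 2 + M := by
      have h4 : 1 / (4 * M) * H ^ 2 + M - H = (H - 2 * M) ^ 2 / (4 * M) := by
        field_simp
        ring
      have h5 : 0 ≤ (H - 2 * M) ^ 2 / (4 * M) := by positivity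
      linarith
    have h6 := mul_le_mul_of_nonneg_right h3 (by positivity : (0 : ℝ) ≤ (1 / 2) ^ n)
    linarith
  have hcI : Integrable (fun _ : Fin n → ℝ => M * (1 / 2 : ℝ) ^ n) (ρ.restrict G) :=
    integrable_const _
  have hfin : 1 / 2 ≤ 1 / 4 + M * (1 / 2) ^ n * ρ.real G := by
    calc 1 / 2 ≤ (Measure.pi Q).real G := hQG
      _ = ∫ x in G, ∏ i, k i (x i) ∂ρ := hQG2
      _ ≤ ∫ x in G, (1 / (4 * M) * ∏ i, (1 + 3 * z i * x i) ^ 2 / 2 +
          M * (1 / 2) ^ n) ∂ρ :=
          integral_mono_ae hkI.restrict ((hk2I.restrict.const_mul _).add hcI)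
            (ae_restrict_of_ae hpt)
      _ = 1 / (4 * M) * (∫ x in G, ∏ i, (1 + 3 * z i * x i) ^ 2 / 2 ∂ρ) +
          M * (1 / 2) ^ n * ρ.real G := by
          rw [integral_add (hk2I.restrict.const_mul _) hcI, integral_const_mul,
            integral_const]
          simp only [smul_eq_mul, measureReal_restrict_apply_univ]
          ring
      _ ≤ 1 / (4 * M) * (∫ x, ∏ i, (1 + 3 * z i * x i) ^ 2 / 2 ∂ρ) +
          M * (1 / 2) ^ n * ρ.real G := by
          have h9 := setIntegral_le_integral (s := G) hk2I (Filter.Eventually.of_forall fun x =>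
            Finset.prod_nonneg fun i _ => by positivity)
          have h10 : (0 : ℝ) ≤ 1 / (4 * M) := by positivity
          have h11 := mul_le_mul_of_nonneg_left h9 h10
          linarith
      _ ≤ 1 / (4 * M) * M + M * (1 / 2) ^ n * ρ.real G := by
          gcongr
      _ = 1 / 4 + M * (1 / 2) ^ n * ρ.real G := by
          congr 1
          field_simp
  rw [us_uni G hGm]
  have hX : (1 / 2 : ℝ≥0∞) ^ n * ρ G = ENNReal.ofReal ((1 / 2) ^ n * ρ.real G) := by
    rw [ENNReal.ofReal_mul (by positivity), ENNReal.ofReal_pow (by positivity)]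
    congr 1
    · congr 1
      rw [ENNReal.ofReal_div_of_pos (by norm_num)]
      simp
    · rw [measureReal_def, ENNReal.ofReal_toReal (measure_ne_top _ _)]
  rw [hX]
  apply ENNReal.ofReal_le_ofReal
  have hneg : Real.exp (-(3 * p)) = M⁻¹ := by rw [hM, Real.exp_neg]
  rw [hneg]
  have h7 : 1 / 4 ≤ M * ((1 / 2) ^ n * ρ.real G) := by
    have : M * ((1 / 2) ^ n * ρ.real G) = M * (1 / 2) ^ n * ρ.real G := by ring
    rw [this]
    linarith
  have h8 : M⁻¹ / 4 = M⁻¹ * (1 / 4) := by ring
  rw [h8]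
  calc M⁻¹ * (1 / 4) ≤ M⁻¹ * (M * ((1 / 2) ^ n * ρ.real G)) :=
        mul_le_mul_of_nonneg_left h7 (by positivity)
    _ = (1 / 2) ^ n * ρ.real G := by
        field_simp

end Pool.Agent.Helper711SMP.J2

namespace Pool.Agent.Helper711SMP

alias uni_shift := Pool.Agent.Helper711SMP.J2.uni_shift

end Pool.Agent.Helper711SMP
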