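import Mathlib
import Pool.Agent.Helper711_SMP.Basic
import Pool.Agent.Helper711_SMP.NV

/-!
# Width
-/

set_option autoImplicit false

namespace Pool.Agent.Helper711SMP.N0

open MeasureTheory
open scoped ENNReal

variable {n : ℕ} {f : (Fin n → ℝ) → ℝ≥0∞}

/-- the support function of `V` -/
noncomputable def NVm (V : Finset (Fin n → ℝ)) (hV : V.Nonempty) (x : Fin n → ℝ) : ℝ :=
  V.sup' hV (fun v => ∑ i, v i * x i)

theorem NVm_le_apply (V : Finset (Fin n → ℝ)) (hV : V.Nonempty) (x : Fin n → ℝ) {v : Fin n → ℝ}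
    (hv : v ∈ V) : ∑ i, v i * x i ≤ NVm V hV x :=
  Finset.le_sup' (fun v : Fin n → ℝ => ∑ i, v i * x i) hv

theorem NV_eq (V : Finset (Fin n → ℝ)) (hV : V.Nonempty) (x : Fin n → ℝ) :
    NV V hV x = NVm V hV x + NVm V hV (-x) := by
  have key : ∀ v w : Fin n → ℝ, ∑ i, (v i - w i) * x i
      = (∑ i, v i * x i) + ∑ i, w i * (-x) i := by
    intro v w
    rw [← Finset.sum_add_distrib]
    refine Finset.sum_congr rfl (fun i _ => ?_)
    simp only [Pi.neg_apply]
    ring
  unfold NV
  apply le_antisymm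
  · refine Finset.sup'_le _ _ (fun v hv => Finset.sup'_le _ _ (fun w hw => ?_))
    rw [key]
    exact add_le_add (NVm_le_apply V hV x hv) (NVm_le_apply V hV (-x) hw)
  · have h1 : NVm V hV (-x) ≤ NV V hV x - NVm V hV x := by
      refine Finset.sup'_le _ _ (fun w hw => ?_)
      have h2 : NVm V hV x ≤ NV V hV x - ∑ i, w i * (-x) i := by
        refine Finset.sup'_le _ _ (fun v hv => ?_)
        have h3 : ∑ i, (v i - w i) * x i ≤ NV V hV x := by
          unfold NV
          refine le_trans ?_ (Finset.le_sup' (fun v : Fin n → ℝ =>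
            V.sup' hV (fun w => ∑ i, (v i - w i) * x i)) hv)
          exact Finset.le_sup' (fun w : Fin n → ℝ => ∑ i, (v i - w i) * x i) hw
        rw [key] at h3
        linarith
      linarith
    have h4 : NVm V hV x + NVm V hV (-x) ≤ NV V hV x := by linarith
    exact h4

theorem NVm_add (V : Finset (Fin n → ℝ)) (hV : V.Nonempty) (x y : Fin n → ℝ) :
    NVm V hV (x + y) ≤ NVm V hV x + NVm V hV y := by
  refine Finset.sup'_le _ _ (fun v hv => ?_)
  have : ∑ i, v i * (x + y) i = (∑ i, v i * x i) + ∑ i, v i * y i := by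
    rw [← Finset.sum_add_distrib]
    refine Finset.sum_congr rfl (fun i _ => ?_)
    simp only [Pi.add_apply]
    ring
  rw [this]
  exact add_le_add (NVm_le_apply V hV x hv) (NVm_le_apply V hV y hv)

theorem NVm_smul_le (V : Finset (Fin n → ℝ)) (hV : V.Nonempty) (c : ℝ) (hc : 0 ≤ c)
    (x : Fin n → ℝ) : NVm V hV (c • x) ≤ c * NVm V hV x := by
  refine Finset.sup'_le _ _ (fun v hv => ?_)
  have : ∑ i, v i * (c • x) i = c * ∑ i, v i * x i := by
    rw [Finset.mul_sum]
    refine Finset.sum_congr rfl (fun i _ => ?_)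
    simp only [Pi.smul_apply, smul_eq_mul]
    ring
  rw [this]
  exact mul_le_mul_of_nonneg_left (NVm_le_apply V hV x hv) hc

theorem NVm_smul (V : Finset (Fin n → ℝ)) (hV : V.Nonempty) (c : ℝ) (hc : 0 ≤ c)
    (x : Fin n → ℝ) : NVm V hV (c • x) = c * NVm V hV x := by
  apply le_antisymm (NVm_smul_le V hV c hc x)
  rcases hc.eq_or_lt with h | h
  · subst h
    obtain ⟨v, hv⟩ := hV
    have := NVm_le_apply V ⟨v, hv⟩ ((0 : ℝ) • x) hv
    simpa using this
  · have h1 := NVm_smul_le V hV c⁻¹ (by positivity) (c • x)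
    rw [smul_smul, inv_mul_cancel₀ h.ne', one_smul] at h1
    have h2 := mul_le_mul_of_nonneg_left h1 hc
    rw [← mul_assoc, mul_inv_cancel₀ h.ne', one_mul] at h2
    exact h2

theorem NVm_cont (V : Finset (Fin n → ℝ)) (hV : V.Nonempty) : Continuous (NVm V hV) := by
  unfold NVm
  refine Continuous.finset_sup'_apply hV (fun v _ => ?_)
  fun_prop

theorem NV_cont (V : Finset (Fin n → ℝ)) (hV : V.Nonempty) : Continuous (NV V hV) := by
  have : NV V hV = fun x => NVm V hV x + NVm V hV (-x) := by
    funext x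
    exact NV_eq V hV x
  rw [this]
  exact (NVm_cont V hV).add ((NVm_cont V hV).comp continuous_neg)

theorem NV_nonneg (V : Finset (Fin n → ℝ)) (hV : V.Nonempty) (x : Fin n → ℝ) :
    0 ≤ NV V hV x := by
  rw [NV_eq]
  obtain ⟨v, hv⟩ := hV
  have h1 := NVm_le_apply V ⟨v, hv⟩ x hv
  have h2 := NVm_le_apply V ⟨v, hv⟩ (-x) hv
  have h3 : (∑ i, v i * x i) + ∑ i, v i * (-x) i = 0 := by
    rw [← Finset.sum_add_distrib]
    refine Finset.sum_eq_zero (fun i _ => ?_)
    simp only [Pi.neg_apply]
    ring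
  linarith

theorem NV_bound (V : Finset (Fin n → ℝ)) (hV : V.Nonempty) :
    ∃ C : ℝ, 0 ≤ C ∧ ∀ x, ‖NVm V hV x‖ ≤ C * ∑ i, |x i| := by
  refine ⟨∑ v ∈ V, ∑ i, |v i|, Finset.sum_nonneg (fun v _ => Finset.sum_nonneg
    (fun i _ => abs_nonneg _)), fun x => ?_⟩
  have hb : ∀ v ∈ V, |∑ i, v i * x i| ≤ (∑ v ∈ V, ∑ i, |v i|) * ∑ i, |x i| := by
    intro v hv
    calc |∑ i, v i * x i| ≤ ∑ i, |v i * x i| := Finset.abs_sum_le_sum_abs _ _
      _ ≤ ∑ i, (∑ v ∈ V, ∑ i, |v i|) * |x i| := by
          refine Finset.sum_le_sum (fun i _ => ?_)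
          rw [abs_mul]
          refine mul_le_mul_of_nonneg_right ?_ (abs_nonneg _)
          calc |v i| ≤ ∑ i, |v i| :=
                Finset.single_le_sum (f := fun i => |v i|) (fun _ _ => abs_nonneg _)
                  (Finset.mem_univ i)
            _ ≤ ∑ v ∈ V, ∑ i, |v i| :=
                Finset.single_le_sum (f := fun v : Fin n → ℝ => ∑ i, |v i|)
                  (fun v _ => Finset.sum_nonneg (fun i _ => abs_nonneg _)) hv
      _ = _ := by rw [Finset.mul_sum]
  rw [Real.norm_eq_abs, abs_le]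
  constructor
  · obtain ⟨v, hv⟩ := hV
    have h1 := NVm_le_apply V ⟨v, hv⟩ x hv
    have h2 := (abs_le.1 (hb v hv)).1
    linarith
  · exact Finset.sup'_le _ _ (fun v hv => (abs_le.1 (hb v hv)).2)

theorem NV_facts (V : Finset (Fin n → ℝ)) (hV : V.Nonempty) :
    (∃ N : Seminorm ℝ (Fin n → ℝ), Continuous N ∧ ∀ x, N x = NV V hV x) ∧
    (∀ f : (Fin n → ℝ) → ℝ≥0∞, UD f → (∀ i, ∫⁻ x, ENNReal.ofReal |x i| * f x < ⊤) →
      Integrable (NV V hV) (volume.withDensity f) ∧
      ∫ x, NV V hV x ∂(volume.withDensity f) = 2 * S1 f V hV ∧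
      ∫⁻ x, ENNReal.ofReal (NV V hV x) * f x =
        ENNReal.ofReal (∫ x, NV V hV x ∂(volume.withDensity f))) := by
  refine ⟨?_, ?_⟩
  · refine ⟨Seminorm.of (NV V hV) ?_ ?_, ?_, ?_⟩
    · intro x y
      rw [NV_eq, NV_eq, NV_eq]
      have h1 := NVm_add V hV x y
      have h2 := NVm_add V hV (-x) (-y)
      have h3 : -(x + y) = -x + -y := by abel
      rw [h3]
      linarith
    · intro a x
      rw [NV_eq, NV_eq]
      rcases le_total 0 a with ha | ha
      · have h3 : -(a • x) = a • (-x) := by rw [smul_neg]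
        rw [h3, NVm_smul V hV a ha, NVm_smul V hV a ha, Real.norm_of_nonneg ha]
        ring
      · have h3 : -(a • x) = (-a) • x := by rw [neg_smul]
        have h4 : a • x = (-a) • (-x) := by rw [smul_neg, neg_smul, neg_neg]
        rw [h3, h4, NVm_smul V hV (-a) (by linarith), NVm_smul V hV (-a) (by linarith),
          Real.norm_of_nonpos ha]
        ring
    · exact NV_cont V hV
    · intro x
      rfl
  · intro f hf hmom
    have hmeas : Measurable f := hf.meas
    set μ := (volume : Measure (Fin n → ℝ)).withDensity f with hμ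
    have habs : ∀ i : Fin n, Integrable (fun x : Fin n → ℝ => |x i|) μ := by
      intro i
      refine ⟨(by fun_prop : Measurable fun x : Fin n → ℝ => |x i|).aestronglyMeasurable, ?_⟩
      unfold HasFiniteIntegral
      rw [hμ, lintegral_withDensity_eq_lintegral_mul _ hmeas (by fun_prop)]
      refine lt_of_le_of_lt (le_of_eq ?_) (hmom i)
      refine lintegral_congr (fun x => ?_)
      simp only [Pi.mul_apply]
      rw [mul_comm, Real.enorm_eq_ofReal (abs_nonneg _)]
    obtain ⟨C, hC, hbd⟩ := NV_bound V hV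
    have hint : Integrable (NVm V hV) μ := by
      refine Integrable.mono' (g := fun x => C * ∑ i, |x i|) ?_
        (NVm_cont V hV).aestronglyMeasurable (Filter.Eventually.of_forall hbd)
      exact (integrable_finsetSum _ (fun i _ => habs i)).const_mul C
    have hneg : MeasurePreserving (fun x : Fin n → ℝ => -x) μ μ := by
      refine ⟨measurable_neg, ?_⟩
      have hv : MeasurePreserving (fun x : Fin n → ℝ => -x) volume volume :=
        Measure.measurePreserving_neg volume
      ext s hs
      rw [Measure.map_apply measurable_neg hs, hμ, withDensity_apply _ hs,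
        withDensity_apply _ (measurable_neg hs)]
      rw [← hv.setLIntegral_comp_preimage hs hmeas]
      refine lintegral_congr (fun x => ?_)
      exact hf.eq_of_abs (fun i => by simp)
    have hint2 : Integrable (fun x => NVm V hV (-x)) μ :=
      (hneg.integrable_comp (NVm_cont V hV).aestronglyMeasurable).2 hint
    have hI : Integrable (NV V hV) μ := by
      have : NV V hV = fun x => NVm V hV x + NVm V hV (-x) := by
        funext x
        exact NV_eq V hV x
      rw [this]
      exact hint.add hint2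
    refine ⟨hI, ?_, ?_⟩
    · have h1 : ∫ x, NV V hV x ∂μ = ∫ x, (NVm V hV x + NVm V hV (-x)) ∂μ :=
        integral_congr_ae (Filter.Eventually.of_forall (fun x => NV_eq V hV x))
      rw [h1, integral_add hint hint2]
      have h2 : ∫ x, NVm V hV (-x) ∂μ = ∫ x, NVm V hV x ∂μ :=
        hneg.integral_comp (MeasurableEquiv.neg (Fin n → ℝ)).measurableEmbedding (NVm V hV)
      rw [h2]
      have h3 : ∫ x, NVm V hV x ∂μ = S1 f V hV := rfl
      rw [h3]
      ring
    · rw [ofReal_integral_eq_lintegral_ofReal hI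
        (Filter.Eventually.of_forall (fun x => NV_nonneg V hV x)), hμ,
        lintegral_withDensity_eq_lintegral_mul (g := fun x => ENNReal.ofReal (NV V hV x)) _ hmeas
          (ENNReal.measurable_ofReal.comp (NV_cont V hV).measurable)]
      refine lintegral_congr (fun x => ?_)
      simp only [Pi.mul_apply]
      rw [mul_comm]

end Pool.Agent.Helper711SMP.N0

namespace Pool.Agent.Helper711SMP

alias NV_facts := Pool.Agent.Helper711SMP.N0.NV_facts

end Pool.Agent.Helper711SMP
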