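import Mathlib
import Pool.Agent.Helper711_SMP.Basic
import Pool.Agent.Helper711_SMP.Rad
import Pool.Agent.Helper711_SMP.Uni
import Pool.Agent.Helper711_SMP.NV
import Pool.Agent.Helper711_SMP.N0
import Pool.Agent.Helper711_SMP.J1
import Pool.Agent.Helper711_SMP.J2
import Pool.Agent.Helper711_SMP.Clip

/-!
# Packing case
-/

set_option autoImplicit false

namespace Pool.Agent.Helper711SMP.B2

open MeasureTheory
open scoped ENNReal

variable {n : ℕ} {f : (Fin n → ℝ) → ℝ≥0∞}

lemma clip_abs (τ a : ℝ) (hτ : 0 ≤ τ) : |clip τ a| ≤ τ := by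
  unfold clip
  rw [abs_le]
  constructor
  · exact le_max_left _ _
  · exact max_le (by linarith) (min_le_right _ _)

lemma clip_mono (τ : ℝ) {a b : ℝ} (h : a ≤ b) : clip τ a ≤ clip τ b := by
  unfold clip
  exact max_le_max le_rfl (min_le_min h le_rfl)

lemma clip_lip (τ : ℝ) {a b : ℝ} (h : a ≤ b) : clip τ b - clip τ a ≤ b - a := by
  unfold clip
  rcases le_total b τ with hb | hb <;> rcases le_total a τ with ha | ha
  · rw [min_eq_left hb, min_eq_left ha]
    rcases le_total (-τ) b with hb' | hb' <;> rcases le_total (-τ) a with ha' | ha'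
    · rw [max_eq_right hb', max_eq_right ha']
    · rw [max_eq_right hb', max_eq_left ha']; linarith
    · rw [max_eq_left hb', max_eq_right ha']; linarith
    · rw [max_eq_left hb', max_eq_left ha']; linarith
  · have : a = b ∨ a ≠ b := em _
    rw [min_eq_left hb, min_eq_right ha]
    have h1 : τ = b := le_antisymm (ha.trans h) hb
    rw [h1]; simp; linarith
  · rw [min_eq_right hb, min_eq_left ha]
    rcases le_total (-τ) a with ha' | ha'
    · rw [max_eq_right ha', max_eq_right (ha'.trans ha)]; linarith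
    · rw [max_eq_left ha']
      rcases le_total (-τ) τ with ht | ht
      · rw [max_eq_right ht]; linarith
      · rw [max_eq_left ht]; linarith
  · rw [min_eq_right hb, min_eq_right ha]; linarith

lemma clip_sq (τ a b : ℝ) : (clip τ a - clip τ b) ^ 2 ≤ (a - b) * (clip τ a - clip τ b) := by
  rcases le_total a b with h | h
  · have h1 := clip_mono τ h
    have h2 := clip_lip τ h
    nlinarith
  · have h1 := clip_mono τ h
    have h2 := clip_lip τ h
    nlinarith

lemma le_sup_gen {β : Type*} (V : Finset β) (hV : V.Nonempty) (F : β → ℝ) {v : β} (hv : v ∈ V) :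
    F v ≤ V.sup' hV F := Finset.le_sup' F hv

lemma le_NV (V : Finset (Fin n → ℝ)) (hV : V.Nonempty) (x : Fin n → ℝ) {v w : Fin n → ℝ}
    (hv : v ∈ V) (hw : w ∈ V) : ∑ i, (v i - w i) * x i ≤ NV V hV x := by
  have h1 := le_sup_gen V hV (fun v => V.sup' hV (fun w => ∑ i, (v i - w i) * x i)) hv
  have h2 := le_sup_gen V hV (fun w => ∑ i, (v i - w i) * x i) hw
  unfold NV
  exact le_trans h2 h1

theorem tj_case (V : Finset (Fin n → ℝ)) (hV : V.Nonempty) (u : Fin n → ℝ) (p A τ : ℝ)
    (hp : 8 ≤ p) (hA : 0 < A) (hτ : τ = 4800000 * A / p)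
    (hcl : ∀ v ∈ V, ∑ i, clip τ (v i - u i) ^ 2 ≤ 57600000 * A ^ 2 / p)
    (hsep : ∀ v ∈ V, ∀ w ∈ V, v ≠ w → ∃ z : Fin n → ℝ, (∀ i, |z i| ≤ 1 / 3) ∧
      ∑ i, z i ^ 2 ≤ p ∧
      A / 1000 ≤ ∑ i, (clip τ (v i - u i) - clip τ (w i - u i)) * z i)
    (hcard : Real.exp (p / 4) ≤ (V.card : ℝ)) :
    A / 10 ^ 15 ≤ rad (NV V hV) (fun _ => 1) := by
  by_contra hcon
  push Not at hcon
  obtain ⟨⟨N, hNc, hN⟩, -⟩ := NV_facts V hV
  have hNr : rad (fun x => N x) (fun _ => (1 : ℝ)) = rad (NV V hV) (fun _ : Fin n => (1 : ℝ)) := by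
    have : (fun x => N x) = NV V hV := funext hN
    rw [this]
  set Se : ℝ := A / 10 ^ 15 with hSe
  have hSe0 : 0 < Se := by positivity
  have hp0 : 0 < p := by linarith
  have hτ0 : 0 ≤ τ := by rw [hτ]; positivity
  set c : ℝ := p / (14400000 * A) with hc
  have hc0 : 0 < c := by positivity
  set z : (Fin n → ℝ) → (Fin n → ℝ) := fun v i => c * clip τ (v i - u i) with hz
  have hz1 : ∀ v, ∀ i, |z v i| ≤ 1 / 3 := by
    intro v i
    rw [hz]
    simp only
    rw [abs_mul, abs_of_pos hc0]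
    calc c * |clip τ (v i - u i)| ≤ c * τ := mul_le_mul_of_nonneg_left (clip_abs _ _ hτ0) hc0.le
      _ = 1 / 3 := by rw [hc, hτ]; field_simp; norm_num
  have hz2 : ∀ v ∈ V, ∑ i, z v i ^ 2 ≤ p / 3600000 := by
    intro v hv
    have h1 : ∑ i, z v i ^ 2 = c ^ 2 * ∑ i, clip τ (v i - u i) ^ 2 := by
      rw [Finset.mul_sum]
      exact Finset.sum_congr rfl fun i _ => by rw [hz]; ring
    rw [h1]
    calc c ^ 2 * ∑ i, clip τ (v i - u i) ^ 2 ≤ c ^ 2 * (57600000 * A ^ 2 / p) :=
          mul_le_mul_of_nonneg_left (hcl v hv) (by positivity)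
      _ = p / 3600000 := by rw [hc]; field_simp; norm_num
  set E : (Fin n → ℝ) → Set (Fin n → ℝ) := fun v => {x | N (x - z v) ≤ 4 * Se} with hE
  have hEm : ∀ v, MeasurableSet (E v) := by
    intro v
    apply IsClosed.measurableSet
    exact isClosed_le (hNc.comp (continuous_id.sub continuous_const)) continuous_const
  have hEi : ∀ v ∈ V, ENNReal.ofReal (Real.exp (-(3 * (p / 3600000))) / 4) ≤
      ∫⁻ x in E v, uni n x := by
    intro v hv
    exact uni_shift N hNc Se hSe0 (by rw [hNr]; exact hcon.le) (z v) (hz1 v) _ (hz2 v hv)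
  have hdis : (V : Set (Fin n → ℝ)).PairwiseDisjoint E := by
    intro v hv w hw hvw
    rw [Function.onFun, Set.disjoint_left]
    intro x hxv hxw
    have hxv' : N (x - z v) ≤ 4 * Se := hxv
    have hxw' : N (x - z w) ≤ 4 * Se := hxw
    rw [hN] at hxv' hxw'
    have h1 := (le_NV V hV (x - z w) hv hw).trans hxw'
    have h2 := (le_NV V hV (x - z v) hw hv).trans hxv'
    have h3 : ∑ i, (v i - w i) * (x - z w) i + ∑ i, (w i - v i) * (x - z v) i =
        c * ∑ i, (v i - w i) * (clip τ (v i - u i) - clip τ (w i - u i)) := by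
      rw [← Finset.sum_add_distrib, Finset.mul_sum]
      refine Finset.sum_congr rfl fun i _ => ?_
      simp only [Pi.sub_apply, hz]
      ring
    set D : ℝ := ∑ i, (clip τ (v i - u i) - clip τ (w i - u i)) ^ 2 with hD
    have h4 : D ≤ ∑ i, (v i - w i) * (clip τ (v i - u i) - clip τ (w i - u i)) := by
      refine Finset.sum_le_sum fun i _ => ?_
      have := clip_sq τ (v i - u i) (w i - u i)
      have h5 : (v i - u i) - (w i - u i) = v i - w i := by ring
      rwa [h5] at this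
    have h6 : c * D ≤ 8 * Se := by
      have := mul_le_mul_of_nonneg_left h4 hc0.le
      linarith
    obtain ⟨zz, -, hzz2, hzz3⟩ := hsep v hv w hw hvw
    have h7 := Finset.sum_mul_sq_le_sq_mul_sq Finset.univ
      (fun i => clip τ (v i - u i) - clip τ (w i - u i)) zz
    have h8 : (A / 1000) ^ 2 ≤ D * p := by
      have h9 : (A / 1000) ^ 2 ≤ (∑ i, (clip τ (v i - u i) - clip τ (w i - u i)) * zz i) ^ 2 :=
        pow_le_pow_left₀ (by positivity) hzz3 2
      have h10 : 0 ≤ D := Finset.sum_nonneg fun i _ => sq_nonneg _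
      exact (h9.trans h7).trans (mul_le_mul_of_nonneg_left hzz2 h10)
    have h11 : c * D * (14400000 * A) = D * p := by rw [hc]; field_simp
    have h12 : (A / 1000) ^ 2 ≤ 8 * Se * (14400000 * A) := by
      rw [← h11] at h8
      exact h8.trans (mul_le_mul_of_nonneg_right h6 (by positivity))
    rw [hSe] at h12
    have h13 : 8 * (A / 10 ^ 15) * (14400000 * A) = A ^ 2 * (8 * 14400000 / 10 ^ 15) := by ring
    have h14 : (A / 1000) ^ 2 = A ^ 2 * (1 / 1000000) := by ring
    rw [h13, h14] at h12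
    have h15 : 0 < A ^ 2 := by positivity
    have h16 := le_of_mul_le_mul_left h12 h15
    norm_num at h16
  have hsum : ∑ v ∈ V, ENNReal.ofReal (Real.exp (-(3 * (p / 3600000))) / 4) ≤ 1 := by
    calc ∑ v ∈ V, ENNReal.ofReal (Real.exp (-(3 * (p / 3600000))) / 4)
        ≤ ∑ v ∈ V, ∫⁻ x in E v, uni n x := Finset.sum_le_sum hEi
      _ = ∫⁻ x in ⋃ v ∈ V, E v, uni n x :=
          (lintegral_biUnion_finset hdis (fun v _ => hEm v) _).symm
      _ ≤ ∫⁻ x, uni n x := setLIntegral_le_lintegral _ _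
      _ = 1 := uni_facts.1.mass
  rw [Finset.sum_const, nsmul_eq_mul, ← ENNReal.ofReal_natCast, ← ENNReal.ofReal_mul (by positivity),
    ← ENNReal.ofReal_one, ENNReal.ofReal_le_ofReal_iff zero_le_one] at hsum
  have h1 : Real.exp (p / 4) * (Real.exp (-(3 * (p / 3600000))) / 4) ≤ 1 :=
    (mul_le_mul_of_nonneg_right hcard (by positivity)).trans hsum
  have h2 : Real.exp (p / 4 + -(3 * (p / 3600000))) ≤ 4 := by
    rw [Real.exp_add]; linarith
  have h3 : (1.99 : ℝ) ≤ p / 4 + -(3 * (p / 3600000)) := by linarith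
  have h4 := Real.exp_le_exp.2 h3
  have h5 := Real.quadratic_le_exp_of_nonneg (x := (1.99 : ℝ)) (by norm_num)
  norm_num at h5
  linarith

end Pool.Agent.Helper711SMP.B2

namespace Pool.Agent.Helper711SMP

alias tj_case := Pool.Agent.Helper711SMP.B2.tj_case

end Pool.Agent.Helper711SMP
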