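import Mathlib
import Pool.Agent.Helper711_SMP.Basic
import Pool.Agent.Helper711_SMP.PLx
import Pool.Agent.Helper711_SMP.NV

/-!
# Growth
-/

set_option autoImplicit false

namespace Pool.Agent.Helper711SMP.K

open MeasureTheory
open scoped ENNReal

variable {n : ℕ} {f : (Fin n → ℝ) → ℝ≥0∞}

/-- the value of the maximum of the forms in `V` -/
noncomputable def gr_mx (V : Finset (Fin n → ℝ)) (hV : V.Nonempty) (x : Fin n → ℝ) : ℝ :=
  V.sup' hV (fun v => ∑ i, v i * x i)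

lemma UD.gr_neg (hf : UD f) (x : Fin n → ℝ) : f (-x) = f x :=
  hf.eq_of_abs (by intro i; simp)

lemma gr_bm (hf : UD f) (l : ℝ) (hl : 0 < l) (hl1 : l < 1) (A B C : Set (Fin n → ℝ))
    (hA : MeasurableSet A) (hB : MeasurableSet B) (hC : MeasurableSet C)
    (h : ∀ x ∈ A, ∀ y ∈ B, l • x + (1 - l) • y ∈ C) :
    (∫⁻ x in A, f x) ^ l * (∫⁻ x in B, f x) ^ (1 - l) ≤ ∫⁻ x in C, f x := by
  rw [← lintegral_indicator hA, ← lintegral_indicator hB, ← lintegral_indicator hC]
  apply pl n l hl hl1 _ _ _ (hf.meas.indicator hA) (hf.meas.indicator hB) (hf.meas.indicator hC)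
  intro x y
  by_cases hx : x ∈ A
  · by_cases hy : y ∈ B
    · rw [Set.indicator_of_mem hx, Set.indicator_of_mem hy, Set.indicator_of_mem (h x hx y hy)]
      exact hf.logc l hl hl1 x y
    · rw [Set.indicator_of_notMem hy, ENNReal.zero_rpow_of_pos (by linarith), mul_zero]
      exact zero_le
  · rw [Set.indicator_of_notMem hx, ENNReal.zero_rpow_of_pos hl, zero_mul]
    exact zero_le

lemma gr_prob_mu (hf : UD f) : IsProbabilityMeasure (volume.withDensity f) :=
  ⟨by rw [withDensity_apply _ MeasurableSet.univ, Measure.restrict_univ]; exact hf.mass⟩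

lemma gr_int_coord (hf : UD f) (i : Fin n) (hi : ∫⁻ x, ENNReal.ofReal |x i| * f x < ⊤) :
    Integrable (fun x : Fin n → ℝ => x i) (volume.withDensity f) := by
  refine ⟨(measurable_pi_apply i).aestronglyMeasurable, ?_⟩
  rw [hasFiniteIntegral_iff_enorm, lintegral_withDensity_eq_lintegral_mul _ hf.meas
    (by fun_prop)]
  refine lt_of_le_of_lt (le_of_eq ?_) hi
  refine lintegral_congr fun x => ?_
  simp only [Pi.mul_apply]
  rw [Real.enorm_eq_ofReal_abs, mul_comm]

lemma gr_int_form (hf : UD f) (hi : ∀ i, ∫⁻ x, ENNReal.ofReal |x i| * f x < ⊤)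
    (v : Fin n → ℝ) :
    Integrable (fun x : Fin n → ℝ => ∑ i, v i * x i) (volume.withDensity f) :=
  integrable_finsetSum _ fun i _ => (gr_int_coord hf i (hi i)).const_mul (v i)

lemma gr_int_mx (hf : UD f) (hi : ∀ i, ∫⁻ x, ENNReal.ofReal |x i| * f x < ⊤)
    (V : Finset (Fin n → ℝ)) (hV : V.Nonempty) :
    Integrable (gr_mx V hV) (volume.withDensity f) := by
  have h : gr_mx V hV = V.sup' hV (fun v (x : Fin n → ℝ) => ∑ i, v i * x i) := by
    ext x
    rw [Finset.sup'_apply]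
    rfl
  rw [h]
  refine Finset.sup'_induction hV _ (p := fun F => Integrable F (volume.withDensity f)) ?_ ?_
  · intro a ha b hb
    exact ha.sup hb
  · intro v _
    exact gr_int_form hf hi v

lemma gr_meas_mx (V : Finset (Fin n → ℝ)) (hV : V.Nonempty) : Measurable (gr_mx V hV) := by
  have h : gr_mx V hV = V.sup' hV (fun v (x : Fin n → ℝ) => ∑ i, v i * x i) := by
    ext x
    rw [Finset.sup'_apply]
    rfl
  rw [h]
  refine Finset.sup'_induction hV _ (p := fun F => Measurable F) ?_ ?_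
  · intro a ha b hb
    exact ha.sup hb
  · intro v _
    fun_prop

lemma gr_mx_ge (V : Finset (Fin n → ℝ)) (hV : V.Nonempty) (x v : Fin n → ℝ) (hv : v ∈ V) :
    ∑ i, v i * x i ≤ gr_mx V hV x :=
  Finset.le_sup' (f := fun v : Fin n → ℝ => ∑ i, v i * x i) hv

lemma gr_mx_le (V : Finset (Fin n → ℝ)) (hV : V.Nonempty) (x : Fin n → ℝ) (c : ℝ)
    (h : ∀ v ∈ V, ∑ i, v i * x i ≤ c) : gr_mx V hV x ≤ c :=
  Finset.sup'_le hV _ h

lemma gr_mx_ex (V : Finset (Fin n → ℝ)) (hV : V.Nonempty) (x : Fin n → ℝ) :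
    ∃ v ∈ V, gr_mx V hV x = ∑ i, v i * x i :=
  Finset.exists_mem_eq_sup' hV _

lemma gr_form_comb (l : ℝ) (v x y : Fin n → ℝ) :
    ∑ i, v i * (l • x + (1 - l) • y) i =
      l * (∑ i, v i * x i) + (1 - l) * (∑ i, v i * y i) := by
  rw [Finset.mul_sum, Finset.mul_sum, ← Finset.sum_add_distrib]
  refine Finset.sum_congr rfl fun i _ => ?_
  simp only [Pi.add_apply, Pi.smul_apply, smul_eq_mul]
  ring

lemma gr_incl (V₁ V₂ : Finset (Fin n → ℝ)) (h1 : V₁.Nonempty) (h2 : V₂.Nonempty) (g s l : ℝ)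
    (hl : 0 ≤ l) (hl1 : l ≤ 1) (x y : Fin n → ℝ)
    (hx : ∀ v ∈ V₁, ∀ w ∈ V₂, g ≤ ∑ i, (w i - v i) * x i)
    (hy : gr_mx V₁ h1 y - gr_mx V₂ h2 y ≤ s) :
    gr_mx V₁ h1 (l • x + (1 - l) • y) - gr_mx V₂ h2 (l • x + (1 - l) • y) ≤ (1 - l) * s - l * g := by
  obtain ⟨w, hw, hw'⟩ := gr_mx_ex V₂ h2 y
  have a1 : l * (∑ i, w i * x i) + (1 - l) * gr_mx V₂ h2 y ≤ gr_mx V₂ h2 (l • x + (1 - l) • y) := by
    rw [hw', ← gr_form_comb]
    exact gr_mx_ge V₂ h2 _ w hw
  have a2 : gr_mx V₁ h1 (l • x + (1 - l) • y) ≤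
      l * ((∑ i, w i * x i) - g) + (1 - l) * gr_mx V₁ h1 y := by
    refine gr_mx_le V₁ h1 _ _ fun v hv => ?_
    rw [gr_form_comb]
    have b1 : ∑ i, v i * x i ≤ (∑ i, w i * x i) - g := by
      have := hx v hv w hw
      simp only [sub_mul, Finset.sum_sub_distrib] at this
      linarith
    have b2 := gr_mx_ge V₁ h1 y v hv
    have c1 := mul_le_mul_of_nonneg_left b1 hl
    have c2 := mul_le_mul_of_nonneg_left b2 (by linarith : 0 ≤ 1 - l)
    linarith
  have a3 := mul_le_mul_of_nonneg_left hy (by linarith : 0 ≤ 1 - l)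
  nlinarith

lemma gr_numeric (q g e Δ : ℝ) (hq : 1 ≤ q) (hg : 0 < g) (he : 0 < e) (hΔ : 0 ≤ Δ)
    (H : ∀ l : ℝ, 0 < l → l ≤ 1 → 2 * (2 * (Δ + e)) / (g + 2 * (2 * (Δ + e))) ≤ l →
      l * g / 4 * Real.exp (-(q * l)) ≤ e) :
    Real.exp (-(30 * q / g * Δ)) ≤ 30 * q / g * e := by
  have hq0 : 0 < q := by linarith
  by_cases hc : g / (4 * q) ≤ e
  · have h1 : Real.exp (-(30 * q / g * Δ)) ≤ 1 := by
      apply Real.exp_le_one_iff.mpr
      have : 0 ≤ 30 * q / g * Δ := by positivity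
      linarith
    have h2 : 30 * q / g * (g / (4 * q)) ≤ 30 * q / g * e :=
      mul_le_mul_of_nonneg_left hc (by positivity)
    have h3 : 30 * q / g * (g / (4 * q)) = 30 / 4 := by field_simp
    linarith
  · push Not at hc
    set s := 2 * (Δ + e) with hs
    have hs0 : 0 < s := by positivity
    set l₀ := 2 * s / (g + 2 * s) with hl₀
    have hl₀p : 0 < l₀ := by positivity
    have hl₀1 : l₀ ≤ 1 := by
      rw [hl₀, div_le_one (by positivity)]
      linarith
    have hl₀s : l₀ ≤ 2 * s / g := by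
      rw [hl₀]
      apply div_le_div_of_nonneg_left (by positivity) hg
      linarith
    have hl := H (max l₀ (1 / q)) (lt_max_of_lt_left hl₀p)
      (max_le hl₀1 (by rw [div_le_one hq0]; exact hq)) (le_max_left _ _)
    set l := max l₀ (1 / q) with hldef
    have hlq : 1 / q ≤ l := le_max_right _ _
    have hlu : l ≤ l₀ + 1 / q := by
      apply max_le
      · have : 0 < 1 / q := by positivity
        linarith
      · linarith
    have hql : q * l ≤ 2 + 4 * q * Δ / g := by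
      have h1 : q * l ≤ q * (l₀ + 1 / q) := mul_le_mul_of_nonneg_left hlu hq0.le
      have h2 : q * (l₀ + 1 / q) = q * l₀ + 1 := by field_simp
      have h3 : q * l₀ ≤ q * (2 * s / g) := mul_le_mul_of_nonneg_left hl₀s hq0.le
      have h4 : q * (2 * s / g) ≤ q * ((4 * Δ + g / q) / g) := by
        apply mul_le_mul_of_nonneg_left _ hq0.le
        apply div_le_div_of_nonneg_right _ hg.le
        have h5 : 4 * (g / (4 * q)) = g / q := by field_simp
        have h6 : 2 * s = 4 * Δ + 4 * e := by rw [hs]; ring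
        rw [h6]
        linarith
      have h7 : q * ((4 * Δ + g / q) / g) = 4 * q * Δ / g + 1 := by field_simp
      linarith
    have h8 : g / (4 * q) * Real.exp (-(2 + 4 * q * Δ / g)) ≤ e := by
      refine le_trans ?_ hl
      apply mul_le_mul
      · have : l * g / 4 = l * (g / 4) := by ring
        rw [this]
        have h9 : g / (4 * q) = 1 / q * (g / 4) := by field_simp
        rw [h9]
        exact mul_le_mul_of_nonneg_right hlq (by positivity)
      · apply Real.exp_le_exp.mpr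
        linarith
      · positivity
      · have : 0 < l := lt_max_of_lt_left hl₀p
        positivity
    have h10 : 30 * q / g * (g / (4 * q) * Real.exp (-(2 + 4 * q * Δ / g))) ≤
        30 * q / g * e := mul_le_mul_of_nonneg_left h8 (by positivity)
    refine le_trans ?_ h10
    have h11 : 30 * q / g * (g / (4 * q) * Real.exp (-(2 + 4 * q * Δ / g))) =
        30 / 4 * Real.exp (-2) * Real.exp (-(4 * q * Δ / g)) := by
      have : -(2 + 4 * q * Δ / g) = -2 + -(4 * q * Δ / g) := by ring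
      rw [this, Real.exp_add]
      field_simp
    rw [h11]
    have h12 : 1 ≤ 30 / 4 * Real.exp (-2) := by
      have e1 : Real.exp 1 < 2.7182818286 := Real.exp_one_lt_d9
      have e2 : Real.exp 2 = Real.exp 1 * Real.exp 1 := by
        rw [← Real.exp_add]; norm_num
      have e3 : Real.exp 2 ≤ 30 / 4 := by
        rw [e2]
        nlinarith [Real.exp_pos 1]
      rw [Real.exp_neg]
      rw [← div_eq_mul_inv, le_div_iff₀ (Real.exp_pos 2)]
      linarith
    have h13 : Real.exp (-(30 * q / g * Δ)) ≤ Real.exp (-(4 * q * Δ / g)) := by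
      apply Real.exp_le_exp.mpr
      have : 4 * q * Δ / g ≤ 30 * q / g * Δ := by
        have h14 : 30 * q / g * Δ = 30 * (q * Δ / g) := by ring
        have h15 : 4 * q * Δ / g = 4 * (q * Δ / g) := by ring
        rw [h14, h15]
        have : 0 ≤ q * Δ / g := by positivity
        linarith
      linarith
    calc Real.exp (-(30 * q / g * Δ)) ≤ 1 * Real.exp (-(4 * q * Δ / g)) := by
          rw [one_mul]; exact h13
      _ ≤ _ := mul_le_mul_of_nonneg_right h12 (Real.exp_pos _).le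

lemma gr_meas_O (V₁ V₂ : Finset (Fin n → ℝ)) (g : ℝ) : MeasurableSet
    {x : Fin n → ℝ | ∀ v ∈ V₁, ∀ w ∈ V₂, g ≤ ∑ i, (w i - v i) * x i} := by
  have h : {x : Fin n → ℝ | ∀ v ∈ V₁, ∀ w ∈ V₂, g ≤ ∑ i, (w i - v i) * x i} =
      ⋂ v ∈ V₁, ⋂ w ∈ V₂, {x : Fin n → ℝ | g ≤ ∑ i, (w i - v i) * x i} := by
    ext x
    simp
  rw [h]
  refine Finset.measurableSet_biInter _ fun v _ => Finset.measurableSet_biInter _ fun w _ => ?_
  exact measurableSet_le measurable_const (by fun_prop)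

lemma gr_level (hf : UD f)
    (V₁ V₂ : Finset (Fin n → ℝ)) (h1 : V₁.Nonempty) (h2 : V₂.Nonempty)
    (q g s : ℝ)
    (hO : ENNReal.ofReal (Real.exp (-q)) ≤
      ∫⁻ x in {x : Fin n → ℝ | ∀ v ∈ V₁, ∀ w ∈ V₂, g ≤ ∑ i, (w i - v i) * x i}, f x)
    (hA : ENNReal.ofReal (1 / 2) ≤
      ∫⁻ x in {x : Fin n → ℝ | gr_mx V₁ h1 x - gr_mx V₂ h2 x ≤ s}, f x)
    (l : ℝ) (hl : 0 < l) (hl1 : l < 1) :
    ENNReal.ofReal (Real.exp (-(q * l)) / 2) ≤
      ∫⁻ x in {x : Fin n → ℝ | gr_mx V₁ h1 x - gr_mx V₂ h2 x ≤ (1 - l) * s - l * g}, f x := by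
  have mA : ∀ t : ℝ, MeasurableSet {x : Fin n → ℝ | gr_mx V₁ h1 x - gr_mx V₂ h2 x ≤ t} := fun t =>
    measurableSet_le ((gr_meas_mx V₁ h1).sub (gr_meas_mx V₂ h2)) measurable_const
  have hb := gr_bm hf l hl hl1 _ _ _ (gr_meas_O V₁ V₂ g) (mA s) (mA ((1 - l) * s - l * g))
    (fun x hx y hy => gr_incl V₁ V₂ h1 h2 g s l hl.le hl1.le x y hx hy)
  refine le_trans ?_ hb
  have c1 : ENNReal.ofReal (Real.exp (-q)) ^ l * ENNReal.ofReal (1 / 2) ^ (1 - l) ≤
      (∫⁻ x in {x : Fin n → ℝ | ∀ v ∈ V₁, ∀ w ∈ V₂, g ≤ ∑ i, (w i - v i) * x i}, f x) ^ l *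
      (∫⁻ x in {x : Fin n → ℝ | gr_mx V₁ h1 x - gr_mx V₂ h2 x ≤ s}, f x) ^ (1 - l) :=
    mul_le_mul' (ENNReal.rpow_le_rpow hO hl.le) (ENNReal.rpow_le_rpow hA (by linarith))
  refine le_trans ?_ c1
  rw [ENNReal.ofReal_rpow_of_pos (Real.exp_pos _), ENNReal.ofReal_rpow_of_pos (by norm_num),
    ← ENNReal.ofReal_mul (by positivity)]
  apply ENNReal.ofReal_le_ofReal
  have c2 : Real.exp (-q) ^ l = Real.exp (-(q * l)) := by
    rw [← Real.exp_mul]
    congr 1
    ring
  have c3 : (1 / 2 : ℝ) ≤ (1 / 2 : ℝ) ^ (1 - l) := by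
    have := Real.rpow_le_rpow_of_exponent_ge (x := 1 / 2) (by norm_num) (by norm_num)
      (by linarith : 1 - l ≤ 1)
    rwa [Real.rpow_one] at this
  rw [c2]
  have := mul_le_mul_of_nonneg_left c3 (Real.exp_pos (-(q * l))).le
  linarith

lemma gr_main (hf : UD f) (hi : ∀ i, ∫⁻ x, ENNReal.ofReal |x i| * f x < ⊤)
    (V₁ V₂ : Finset (Fin n → ℝ)) (h1 : V₁.Nonempty) (h2 : V₂.Nonempty)
    (q g : ℝ) (hq : 1 ≤ q) (hg : 0 < g)
    (hO : ENNReal.ofReal (Real.exp (-q)) ≤
      ∫⁻ x in {x : Fin n → ℝ | ∀ v ∈ V₁, ∀ w ∈ V₂, g ≤ ∑ i, (w i - v i) * x i}, f x)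
    (hle : S1 f V₂ h2 ≤ S1 f V₁ h1) :
    Real.exp (30 * q / g * S1 f V₁ h1) + Real.exp (30 * q / g * S1 f V₂ h2) ≤
      Real.exp (30 * q / g * S1 f (V₁ ∪ V₂) (h1.mono Finset.subset_union_left)) := by
  haveI := gr_prob_mu hf
  set μ := volume.withDensity f with hμ
  have i1 : Integrable (gr_mx V₁ h1) μ := gr_int_mx hf hi V₁ h1
  have i2 : Integrable (gr_mx V₂ h2) μ := gr_int_mx hf hi V₂ h2
  set D : (Fin n → ℝ) → ℝ := fun x => gr_mx V₁ h1 x - gr_mx V₂ h2 x with hD
  have iD : Integrable D μ := i1.sub i2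
  have mD : Measurable D := (gr_meas_mx V₁ h1).sub (gr_meas_mx V₂ h2)
  have iN : Integrable (fun x => max (-(D x)) 0) μ := iD.neg.pos_part
  have iP : Integrable (fun x => max (D x) 0) μ := iD.pos_part
  set e := ∫ x, max (-(D x)) 0 ∂μ with he
  have s1 : S1 f V₁ h1 = ∫ x, gr_mx V₁ h1 x ∂μ := rfl
  have s2 : S1 f V₂ h2 = ∫ x, gr_mx V₂ h2 x ∂μ := rfl
  have s3 : S1 f (V₁ ∪ V₂) (h1.mono Finset.subset_union_left) = S1 f V₁ h1 + e := by
    rw [s1, he, ← integral_add i1 iN]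
    refine integral_congr_ae (Filter.Eventually.of_forall fun x => ?_)
    change gr_mx (V₁ ∪ V₂) _ x = _
    have : gr_mx (V₁ ∪ V₂) (h1.mono Finset.subset_union_left) x = max (gr_mx V₁ h1 x) (gr_mx V₂ h2 x) :=
      Finset.sup'_union h1 h2 _
    rw [this]
    simp only [hD]
    rcases le_total (gr_mx V₁ h1 x) (gr_mx V₂ h2 x) with h | h
    · rw [max_eq_right h, max_eq_left (by linarith)]
      ring
    · rw [max_eq_left h, max_eq_right (by linarith)]
      ring
  set Δ := S1 f V₁ h1 - S1 f V₂ h2 with hΔ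
  have hΔ0 : 0 ≤ Δ := by rw [hΔ]; linarith
  have hΔD : Δ = ∫ x, D x ∂μ := by
    rw [hΔ, s1, s2, ← integral_sub i1 i2]
  have hP : ∫ x, max (D x) 0 ∂μ = Δ + e := by
    rw [hΔD, he, ← integral_add iD iN]
    refine integral_congr_ae (Filter.Eventually.of_forall fun x => ?_)
    change max (D x) 0 = D x + max (-(D x)) 0
    rcases le_total (D x) 0 with h | h
    · rw [max_eq_right h, max_eq_left (by linarith)]
      ring
    · rw [max_eq_left h, max_eq_right (by linarith)]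
      ring
  -- Markov for the negative part
  have mk : ∀ t c : ℝ, 0 ≤ t → ENNReal.ofReal c ≤ ∫⁻ x in {x : Fin n → ℝ | D x ≤ -t}, f x →
      t * c ≤ e := by
    intro t c ht hc
    have m1 := mul_meas_ge_le_integral_of_nonneg (μ := μ)
      (Filter.Eventually.of_forall fun x => le_max_right (-(D x)) 0) iN t
    refine le_trans ?_ m1
    apply mul_le_mul_of_nonneg_left _ ht
    have m2 : ∫⁻ x in {x : Fin n → ℝ | D x ≤ -t}, f x = μ {x : Fin n → ℝ | D x ≤ -t} := by
      rw [hμ, withDensity_apply _ (measurableSet_le mD measurable_const)]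
    rw [m2] at hc
    have m3 : c ≤ μ.real {x : Fin n → ℝ | D x ≤ -t} :=
      (ENNReal.ofReal_le_iff_le_toReal (measure_ne_top _ _)).mp hc
    refine le_trans m3 (measureReal_mono ?_)
    intro x hx
    simp only [Set.mem_setOf_eq] at hx ⊢
    exact le_max_of_le_left (by linarith)
  -- `D ≤ -g` on the given set
  have hl1' : g * Real.exp (-q) ≤ e := by
    apply mk g _ hg.le
    refine le_trans hO ?_
    apply lintegral_mono_set
    intro x hx
    simp only [Set.mem_setOf_eq] at hx ⊢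
    have : gr_mx V₁ h1 x ≤ gr_mx V₂ h2 x - g := by
      refine gr_mx_le V₁ h1 x _ fun v hv => ?_
      obtain ⟨w, hw, hw'⟩ := gr_mx_ex V₂ h2 x
      rw [hw']
      have := hx v hv w hw
      simp only [sub_mul, Finset.sum_sub_distrib] at this
      linarith
    simp only [hD]
    linarith
  have he0 : 0 < e := lt_of_lt_of_le (by positivity) hl1'
  have hA : ENNReal.ofReal (1 / 2) ≤
      ∫⁻ x in {x : Fin n → ℝ | gr_mx V₁ h1 x - gr_mx V₂ h2 x ≤ 2 * (Δ + e)}, f x := by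
    have m1 := mul_meas_ge_le_integral_of_nonneg (μ := μ)
      (Filter.Eventually.of_forall fun x => le_max_right (D x) 0) iP (2 * (Δ + e))
    rw [hP] at m1
    have m2 : μ.real {x | 2 * (Δ + e) ≤ max (D x) 0} ≤ 1 / 2 := by
      have : 0 < Δ + e := by linarith
      by_contra hcon
      push Not at hcon
      nlinarith
    have m3 : ∫⁻ x in {x : Fin n → ℝ | D x ≤ 2 * (Δ + e)}, f x =
        μ {x : Fin n → ℝ | D x ≤ 2 * (Δ + e)} := by
      rw [hμ, withDensity_apply _ (measurableSet_le mD measurable_const)]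
    change _ ≤ ∫⁻ x in {x : Fin n → ℝ | D x ≤ 2 * (Δ + e)}, f x
    rw [m3]
    rw [ENNReal.ofReal_le_iff_le_toReal (measure_ne_top _ _)]
    have m4 : μ.real {x : Fin n → ℝ | D x ≤ 2 * (Δ + e)} =
        1 - μ.real {x : Fin n → ℝ | D x ≤ 2 * (Δ + e)}ᶜ := by
      rw [probReal_compl_eq_one_sub (measurableSet_le mD measurable_const)]
      ring
    have m5 : μ.real {x : Fin n → ℝ | D x ≤ 2 * (Δ + e)}ᶜ ≤
        μ.real {x | 2 * (Δ + e) ≤ max (D x) 0} := by
      refine measureReal_mono ?_ (measure_ne_top _ _)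
      intro x hx
      simp only [Set.mem_compl_iff, Set.mem_setOf_eq, not_le] at hx ⊢
      exact le_max_of_le_left hx.le
    change 1 / 2 ≤ μ.real {x : Fin n → ℝ | D x ≤ 2 * (Δ + e)}
    linarith
  have hfin : Real.exp (-(30 * q / g * Δ)) ≤ 30 * q / g * e := by
    apply gr_numeric q g e Δ hq hg he0 hΔ0
    intro l hl hl1 hll
    rcases lt_or_eq_of_le hl1 with hlt | heq
    · have hlev := gr_level hf V₁ V₂ h1 h2 q g (2 * (Δ + e)) hO hA l hl hlt
      have hs0 : 0 < 2 * (Δ + e) := by linarith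
      have n1 : (1 - l) * (2 * (Δ + e)) - l * g ≤ -(l * g / 2) := by
        rw [div_le_iff₀ (by positivity)] at hll
        nlinarith
      have n2 := mk (l * g / 2) (Real.exp (-(q * l)) / 2) (by positivity) (by
        refine le_trans hlev ?_
        apply lintegral_mono_set
        intro x hx
        simp only [Set.mem_setOf_eq] at hx ⊢
        simp only [hD]
        linarith)
      have n3 : l * g / 4 * Real.exp (-(q * l)) =
          l * g / 2 * (Real.exp (-(q * l)) / 2) := by ring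
      rw [n3]
      exact n2
    · rw [heq]
      have : Real.exp (-(q * 1)) = Real.exp (-q) := by rw [mul_one]
      rw [this]
      have := Real.exp_pos (-q)
      have : 0 < g * Real.exp (-q) := by positivity
      linarith
  rw [s3]
  have t1 : S1 f V₂ h2 = S1 f V₁ h1 - Δ := by rw [hΔ]; ring
  have t2 : Real.exp (30 * q / g * S1 f V₂ h2) =
      Real.exp (30 * q / g * S1 f V₁ h1) * Real.exp (-(30 * q / g * Δ)) := by
    rw [← Real.exp_add, t1]
    congr 1
    ring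
  have t3 : Real.exp (30 * q / g * (S1 f V₁ h1 + e)) =
      Real.exp (30 * q / g * S1 f V₁ h1) * Real.exp (30 * q / g * e) := by
    rw [← Real.exp_add]
    congr 1
    ring
  rw [t2, t3]
  have t4 := Real.add_one_le_exp (30 * q / g * e)
  have t5 := Real.exp_pos (30 * q / g * S1 f V₁ h1)
  nlinarith

lemma gr_neg_O (hf : UD f) (V₁ V₂ : Finset (Fin n → ℝ)) (g : ℝ) :
    ∫⁻ x in {x : Fin n → ℝ | ∀ v ∈ V₁, ∀ w ∈ V₂, g ≤ ∑ i, (v i - w i) * x i}, f x =
    ∫⁻ x in {x : Fin n → ℝ | ∀ v ∈ V₁, ∀ w ∈ V₂, g ≤ ∑ i, (w i - v i) * x i}, f x := by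
  have mO := gr_meas_O V₁ V₂ g
  have mO' : MeasurableSet
      {x : Fin n → ℝ | ∀ v ∈ V₁, ∀ w ∈ V₂, g ≤ ∑ i, (v i - w i) * x i} := by
    have h : {x : Fin n → ℝ | ∀ v ∈ V₁, ∀ w ∈ V₂, g ≤ ∑ i, (v i - w i) * x i} =
        ⋂ v ∈ V₁, ⋂ w ∈ V₂, {x : Fin n → ℝ | g ≤ ∑ i, (v i - w i) * x i} := by
      ext x
      simp
    rw [h]
    refine Finset.measurableSet_biInter _ fun v _ => Finset.measurableSet_biInter _ fun w _ => ?_
    exact measurableSet_le measurable_const (by fun_prop)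
  rw [← lintegral_indicator mO, ← lintegral_indicator mO']
  have hp : MeasurePreserving (fun x : Fin n → ℝ => -x) volume volume :=
    Measure.measurePreserving_neg volume
  rw [← hp.lintegral_comp (hf.meas.indicator mO)]
  refine lintegral_congr fun x => ?_
  have key : ∀ v w : Fin n → ℝ, ∑ i, (w i - v i) * (-x) i = ∑ i, (v i - w i) * x i := by
    intro v w
    refine Finset.sum_congr rfl fun i _ => ?_
    simp only [Pi.neg_apply]
    ring
  by_cases hx : x ∈ {x : Fin n → ℝ | ∀ v ∈ V₁, ∀ w ∈ V₂, g ≤ ∑ i, (v i - w i) * x i}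
  · have hx' : -x ∈ {x : Fin n → ℝ | ∀ v ∈ V₁, ∀ w ∈ V₂, g ≤ ∑ i, (w i - v i) * x i} := by
      intro v hv w hw
      rw [key]
      exact hx v hv w hw
    rw [Set.indicator_of_mem hx, Set.indicator_of_mem hx', UD.gr_neg hf]
  · have hx' : -x ∉ {x : Fin n → ℝ | ∀ v ∈ V₁, ∀ w ∈ V₂, g ≤ ∑ i, (w i - v i) * x i} := by
      intro h
      apply hx
      intro v hv w hw
      rw [← key]
      exact h v hv w hw
    rw [Set.indicator_of_notMem hx, Set.indicator_of_notMem hx']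

theorem growth (hf : UD f) (hi : ∀ i, ∫⁻ x, ENNReal.ofReal |x i| * f x < ⊤)
    (V₁ V₂ : Finset (Fin n → ℝ)) (h1 : V₁.Nonempty) (h2 : V₂.Nonempty)
    (q g : ℝ) (hq : 1 ≤ q) (hg : 0 < g)
    (hO : ENNReal.ofReal (Real.exp (-q)) ≤
      ∫⁻ x in {x : Fin n → ℝ | ∀ v ∈ V₁, ∀ w ∈ V₂, g ≤ ∑ i, (v i - w i) * x i}, f x) :
    Real.exp (30 * q / g * S1 f V₁ h1) + Real.exp (30 * q / g * S1 f V₂ h2) ≤
      Real.exp (30 * q / g * S1 f (V₁ ∪ V₂) (h1.mono Finset.subset_union_left)) := by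
  rcases le_total (S1 f V₂ h2) (S1 f V₁ h1) with hle | hle
  · rw [gr_neg_O hf] at hO
    exact gr_main hf hi V₁ V₂ h1 h2 q g hq hg hO hle
  · have hO' : ENNReal.ofReal (Real.exp (-q)) ≤
        ∫⁻ x in {x : Fin n → ℝ | ∀ v ∈ V₂, ∀ w ∈ V₁, g ≤ ∑ i, (w i - v i) * x i}, f x := by
      refine le_trans hO (le_of_eq ?_)
      congr 2
      ext x
      simp only [Set.mem_setOf_eq]
      exact ⟨fun h v hv w hw => h w hw v hv, fun h v hv w hw => h w hw v hv⟩
    have := gr_main hf hi V₂ V₁ h2 h1 q g hq hg hO' hle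
    have hu : S1 f (V₂ ∪ V₁) (h2.mono Finset.subset_union_left) =
        S1 f (V₁ ∪ V₂) (h1.mono Finset.subset_union_left) := by
      congr 1
      exact Finset.union_comm _ _
    rw [hu] at this
    linarith

end Pool.Agent.Helper711SMP.K

namespace Pool.Agent.Helper711SMP

alias growth := Pool.Agent.Helper711SMP.K.growth

end Pool.Agent.Helper711SMP
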