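import Mathlib

/-!
# Counting lemma
-/

set_option autoImplicit false

namespace Pool.Agent.Helper711SMP.R1

open Finset

/-- class of agreement below `m` -/
def ssr_cl {ι A : Type*} [DecidableEq ι] [DecidableEq A] (W : Finset ι) {s : ℕ}
    (x : ι → Fin s → A) (m : ℕ) (v : ι) : Finset ι :=
  W.filter (fun w => ∀ j : Fin s, j.val < m → x w j = x v j)

/-- size of the class -/
def ssr_N {ι A : Type*} [DecidableEq ι] [DecidableEq A] (W : Finset ι) {s : ℕ}
    (x : ι → Fin s → A) (m : ℕ) (v : ι) : ℝ := ((ssr_cl W x m v).card : ℝ)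

/-- conditional probability -/
noncomputable def ssr_p {ι A : Type*} [DecidableEq ι] [DecidableEq A] (W : Finset ι) {s : ℕ}
    (x : ι → Fin s → A) (k : ℕ) (v : ι) : ℝ := ssr_N W x (k + 1) v / ssr_N W x k v

/-- product of the conditional probabilities outside `Q`, below `m` -/
noncomputable def ssr_pi {ι A : Type*} [DecidableEq ι] [DecidableEq A] (W : Finset ι) {s : ℕ}
    (x : ι → Fin s → A) (Q : Finset (Fin s)) (m : ℕ) (v : ι) : ℝ :=
  ∏ k ∈ (univ : Finset (Fin s)).filter (fun k => k.val < m ∧ k ∉ Q), ssr_p W x k.val v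

section
variable {ι A : Type*} [DecidableEq ι] [DecidableEq A] {W : Finset ι} {s : ℕ}
  {x : ι → Fin s → A}

theorem ssr_mem_self {v : ι} (hv : v ∈ W) (m : ℕ) : v ∈ ssr_cl W x m v :=
  Finset.mem_filter.2 ⟨hv, fun _ _ => rfl⟩

theorem ssr_N_pos {v : ι} (hv : v ∈ W) (m : ℕ) : 0 < ssr_N W x m v := by
  unfold ssr_N
  exact_mod_cast Finset.card_pos.2 ⟨v, ssr_mem_self hv m⟩

theorem ssr_cl_eq {v w : ι} {m : ℕ} (h : w ∈ ssr_cl W x m v) : ssr_cl W x m w = ssr_cl W x m v := by
  have h1 := (Finset.mem_filter.1 h).2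
  unfold ssr_cl
  ext u
  rw [Finset.mem_filter, Finset.mem_filter]
  constructor
  · rintro ⟨hu, h2⟩
    exact ⟨hu, fun j hj => (h2 j hj).trans (h1 j hj)⟩
  · rintro ⟨hu, h2⟩
    exact ⟨hu, fun j hj => (h2 j hj).trans (h1 j hj).symm⟩

theorem ssr_cl_mono {v : ι} {m n : ℕ} (h : m ≤ n) : ssr_cl W x n v ⊆ ssr_cl W x m v := by
  intro u hu
  rw [ssr_cl, Finset.mem_filter] at hu ⊢
  exact ⟨hu.1, fun j hj => hu.2 j (lt_of_lt_of_le hj h)⟩

theorem ssr_N_mono {v : ι} {m n : ℕ} (h : m ≤ n) : ssr_N W x n v ≤ ssr_N W x m v := by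
  unfold ssr_N
  exact Nat.cast_le.2 (Finset.card_le_card (ssr_cl_mono h))

theorem ssr_p_pos {v : ι} (hv : v ∈ W) (k : ℕ) : 0 < ssr_p W x k v :=
  div_pos (ssr_N_pos hv _) (ssr_N_pos hv _)

theorem ssr_p_le {v : ι} (hv : v ∈ W) (k : ℕ) : ssr_p W x k v ≤ 1 :=
  (div_le_one (ssr_N_pos hv _)).2 (ssr_N_mono (Nat.le_succ k))

theorem ssr_p_eq {v w : ι} {m k : ℕ} (h : w ∈ ssr_cl W x m v) (hk : k < m) :
    ssr_p W x k w = ssr_p W x k v := by
  unfold ssr_p ssr_N
  rw [ssr_cl_eq (ssr_cl_mono (Nat.succ_le_of_lt hk) h), ssr_cl_eq (ssr_cl_mono hk.le h)]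

theorem ssr_pi_eq {v w : ι} {m : ℕ} (Q : Finset (Fin s)) (h : w ∈ ssr_cl W x m v) :
    ssr_pi W x Q m w = ssr_pi W x Q m v := by
  unfold ssr_pi
  refine Finset.prod_congr rfl fun k hk => ?_
  exact ssr_p_eq h (Finset.mem_filter.1 hk).2.1

theorem ssr_pi_nonneg {v : ι} (hv : v ∈ W) (Q : Finset (Fin s)) (m : ℕ) :
    0 ≤ ssr_pi W x Q m v :=
  Finset.prod_nonneg fun k _ => (ssr_p_pos hv k.val).le

/-- the fibre bound -/
theorem ssr_fibre (Q : Finset (Fin s)) (y : Fin s → A) : ∀ m, m ≤ s →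
    ∑ v ∈ W.filter (fun v => ∀ j ∈ Q, j.val < m → x v j = y j),
      ssr_pi W x Q m v / ssr_N W x m v ≤ 1 := by
  intro m
  induction m with
  | zero =>
    intro _
    have h1 : ∀ v ∈ W.filter (fun v => ∀ j ∈ Q, j.val < 0 → x v j = y j),
        ssr_pi W x Q 0 v / ssr_N W x 0 v ≤ 1 / (W.card : ℝ) := by
      intro v _
      have h2 : ssr_pi W x Q 0 v = 1 := by
        unfold ssr_pi
        refine Finset.prod_eq_one fun k hk => ?_
        exact absurd (Finset.mem_filter.1 hk).2.1 (Nat.not_lt_zero _)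
      have h3 : ssr_cl W x 0 v = W := by
        unfold ssr_cl
        rw [Finset.filter_true_of_mem]
        intro w _ j hj
        exact absurd hj (Nat.not_lt_zero _)
      rw [h2, ssr_N, h3]
    refine (Finset.sum_le_sum h1).trans ?_
    rw [Finset.sum_const, nsmul_eq_mul, mul_one_div]
    refine div_le_one_of_le₀ ?_ (Nat.cast_nonneg _)
    exact_mod_cast Finset.card_filter_le _ _
  | succ m ih =>
    intro hm
    have hm' : m < s := hm
    have ih' := ih hm'.le
    set k0 : Fin s := ⟨m, hm'⟩ with hk0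
    by_cases hQ : k0 ∈ Q
    · -- restricted coordinate
      have hpi : ∀ v, ssr_pi W x Q (m + 1) v = ssr_pi W x Q m v := by
        intro v
        unfold ssr_pi
        refine Finset.prod_congr ?_ fun _ _ => rfl
        ext k
        simp only [Finset.mem_filter, Finset.mem_univ, true_and]
        constructor
        · rintro ⟨h1, h2⟩
          refine ⟨?_, h2⟩
          rcases Nat.lt_succ_iff_lt_or_eq.1 h1 with h3 | h3
          · exact h3
          · exfalso
            apply h2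
            have : k = k0 := Fin.ext h3
            rw [this]
            exact hQ
        · rintro ⟨h1, h2⟩
          exact ⟨Nat.lt_succ_of_lt h1, h2⟩
      refine le_trans ?_ ih'
      set T1 := W.filter (fun v => ∀ j ∈ Q, j.val < m + 1 → x v j = y j) with hT1
      set T0 := W.filter (fun v => ∀ j ∈ Q, j.val < m → x v j = y j) with hT0
      have e1 : ∀ v ∈ T1, ssr_pi W x Q (m + 1) v / ssr_N W x (m + 1) v =
          ∑ w ∈ ssr_cl W x m v, ssr_pi W x Q m w / ssr_N W x m w * (1 / ssr_N W x (m + 1) v) := by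
        intro v hv
        have hvW : v ∈ W := (Finset.mem_filter.1 hv).1
        have h1 : ∀ w ∈ ssr_cl W x m v,
            ssr_pi W x Q m w / ssr_N W x m w * (1 / ssr_N W x (m + 1) v) =
            ssr_pi W x Q m v / ssr_N W x m v * (1 / ssr_N W x (m + 1) v) := by
          intro w hw
          rw [ssr_pi_eq Q hw, ssr_N, ssr_cl_eq hw, ← ssr_N]
        rw [Finset.sum_congr rfl h1, Finset.sum_const, nsmul_eq_mul, hpi]
        have h2 : ((ssr_cl W x m v).card : ℝ) = ssr_N W x m v := rfl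
        rw [h2]
        have h3 := (ssr_N_pos (x := x) hvW m).ne'
        have h4 := (ssr_N_pos (x := x) hvW (m + 1)).ne'
        field_simp
      rw [Finset.sum_congr rfl e1]
      have e2 : ∀ v w, (v ∈ T1 ∧ w ∈ ssr_cl W x m v) ↔
          (v ∈ T1.filter (fun v => w ∈ ssr_cl W x m v) ∧ w ∈ T0) := by
        intro v w
        constructor
        · rintro ⟨h1, h2⟩
          refine ⟨Finset.mem_filter.2 ⟨h1, h2⟩, ?_⟩
          have h1' := (Finset.mem_filter.1 h1).2
          have h3 := Finset.mem_filter.1 h2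
          refine Finset.mem_filter.2 ⟨h3.1, fun j hj hjm => ?_⟩
          rw [h3.2 j hjm]
          exact h1' j hj (Nat.lt_succ_of_lt hjm)
        · rintro ⟨h1, _⟩
          exact Finset.mem_filter.1 h1
      rw [Finset.sum_comm' e2]
      refine Finset.sum_le_sum fun w hw => ?_
      have hwW : w ∈ W := (Finset.mem_filter.1 hw).1
      rw [← Finset.mul_sum]
      refine mul_le_of_le_one_right (div_nonneg (ssr_pi_nonneg hwW Q m) (ssr_N_pos hwW m).le) ?_
      set D := T1.filter (fun v => w ∈ ssr_cl W x m v) with hD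
      have h1 : ∀ v ∈ D, 1 / ssr_N W x (m + 1) v ≤ 1 / (D.card : ℝ) := by
        intro v hv
        have hsub : D ⊆ ssr_cl W x (m + 1) v := by
          intro u hu
          obtain ⟨hu1, hu2⟩ := Finset.mem_filter.1 hu
          obtain ⟨hv1, hv2⟩ := Finset.mem_filter.1 hv
          obtain ⟨hu3, hu4⟩ := Finset.mem_filter.1 hu1
          obtain ⟨hv3, hv4⟩ := Finset.mem_filter.1 hv1
          refine Finset.mem_filter.2 ⟨hu3, fun j hj => ?_⟩
          rcases Nat.lt_succ_iff_lt_or_eq.1 hj with h3 | h3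
          · have h4 := (Finset.mem_filter.1 hu2).2 j h3
            have h5 := (Finset.mem_filter.1 hv2).2 j h3
            rw [← h4, ← h5]
          · have h6 : j = k0 := Fin.ext h3
            rw [h6, hu4 k0 hQ (Nat.lt_succ_self m), hv4 k0 hQ (Nat.lt_succ_self m)]
        have hc : (D.card : ℝ) ≤ ssr_N W x (m + 1) v := by
          unfold ssr_N
          exact_mod_cast Finset.card_le_card hsub
        have hpos : (0 : ℝ) < D.card := by exact_mod_cast Finset.card_pos.2 ⟨v, hv⟩
        exact one_div_le_one_div_of_le hpos hc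
      refine (Finset.sum_le_sum h1).trans ?_
      rw [Finset.sum_const, nsmul_eq_mul, mul_one_div]
      exact div_self_le_one _
    · -- free coordinate
      have hT : W.filter (fun v => ∀ j ∈ Q, j.val < m + 1 → x v j = y j) =
          W.filter (fun v => ∀ j ∈ Q, j.val < m → x v j = y j) := by
        refine Finset.filter_congr fun v _ => ?_
        constructor
        · intro h j hj hjm
          exact h j hj (Nat.lt_succ_of_lt hjm)
        · intro h j hj hjm
          rcases Nat.lt_succ_iff_lt_or_eq.1 hjm with h3 | h3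
          · exact h j hj h3
          · exfalso
            apply hQ
            have h4 : j = k0 := Fin.ext h3
            rw [← h4]
            exact hj
      rw [hT]
      refine le_trans (le_of_eq ?_) ih'
      refine Finset.sum_congr rfl fun v hv => ?_
      have hvW : v ∈ W := (Finset.mem_filter.1 hv).1
      have hpi : ssr_pi W x Q (m + 1) v = ssr_p W x m v * ssr_pi W x Q m v := by
        unfold ssr_pi
        have h1 : (univ : Finset (Fin s)).filter (fun k => k.val < m + 1 ∧ k ∉ Q) =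
            insert k0 ((univ : Finset (Fin s)).filter (fun k => k.val < m ∧ k ∉ Q)) := by
          ext k
          simp only [Finset.mem_filter, Finset.mem_univ, true_and, Finset.mem_insert]
          constructor
          · rintro ⟨h1, h2⟩
            rcases Nat.lt_succ_iff_lt_or_eq.1 h1 with h3 | h3
            · exact Or.inr ⟨h3, h2⟩
            · exact Or.inl (Fin.ext h3)
          · rintro (h1 | ⟨h1, h2⟩)
            · rw [h1]
              exact ⟨Nat.lt_succ_self m, hQ⟩
            · exact ⟨Nat.lt_succ_of_lt h1, h2⟩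
        rw [h1, Finset.prod_insert]
        simp only [Finset.mem_filter, Finset.mem_univ, true_and, not_and]
        intro h2
        exact absurd h2 (lt_irrefl m)
      rw [hpi, ssr_p]
      have h3 := (ssr_N_pos (x := x) hvW m).ne'
      have h4 := (ssr_N_pos (x := x) hvW (m + 1)).ne'
      field_simp

/-- the last class is a singleton -/
theorem ssr_N_last (hinj : Set.InjOn x W) {v : ι} (hv : v ∈ W) : ssr_N W x s v = 1 := by
  have h1 : ssr_cl W x s v = {v} := by
    ext w
    rw [ssr_cl, Finset.mem_filter, Finset.mem_singleton]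
    constructor
    · rintro ⟨hw, h⟩
      exact hinj hw hv (funext fun j => h j j.isLt)
    · rintro rfl
      exact ⟨hv, fun _ _ => rfl⟩
  rw [ssr_N, h1]
  simp

theorem ssr_N_zero (v : ι) : ssr_N W x 0 v = W.card := by
  have h3 : ssr_cl W x 0 v = W := by
    unfold ssr_cl
    rw [Finset.filter_true_of_mem]
    intro w _ j hj
    exact absurd hj (Nat.not_lt_zero _)
  rw [ssr_N, h3]

/-- telescoping -/
theorem ssr_prod (hinj : Set.InjOn x W) {v : ι} (hv : v ∈ W) :
    ∏ k : Fin s, ssr_p W x k.val v = 1 / (W.card : ℝ) := by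
  have h1 : ∀ m, ∏ k ∈ range m, ssr_p W x k v = ssr_N W x m v / ssr_N W x 0 v := by
    intro m
    induction m with
    | zero =>
      rw [Finset.prod_range_zero, div_self (ssr_N_pos (x := x) hv 0).ne']
    | succ m ih =>
      rw [Finset.prod_range_succ, ih, ssr_p]
      have h3 := (ssr_N_pos (x := x) hv m).ne'
      have h4 := (ssr_N_pos (x := x) hv 0).ne'
      field_simp
  rw [Fin.prod_univ_eq_prod_range (fun k => ssr_p W x k v) s, h1 s, ssr_N_last hinj hv,
    ssr_N_zero]

/-- the selection -/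
theorem ssr_select (hinj : Set.InjOn x W) {v : ι} (hv : v ∈ W) (p : Finset (Fin s) → ℝ)
    (hP0 : ∀ Q, 0 ≤ p Q) (hP1 : ∑ Q : Finset (Fin s), p Q = 1)
    (hcov : ∀ k : Fin s,
      1 / 2 ≤ ∑ Q ∈ (univ : Finset (Finset (Fin s))).filter (fun Q => k ∈ Q), p Q) :
    ∃ Q, 0 < p Q ∧ Real.exp (-(1 / 2) * Real.log W.card) ≤ ssr_pi W x Q s v := by
  set L : Fin s → ℝ := fun k => -Real.log (ssr_p W x k.val v) with hL
  have hL0 : ∀ k, 0 ≤ L k := by
    intro k
    have := Real.log_nonpos (ssr_p_pos (x := x) hv k.val).le (ssr_p_le (x := x) hv k.val)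
    simp only [hL]
    linarith
  have hsum : ∑ k, L k = Real.log W.card := by
    have h1 := congrArg Real.log (ssr_prod (x := x) hinj hv)
    rw [Real.log_prod (fun k _ => (ssr_p_pos (x := x) hv k.val).ne'), one_div, Real.log_inv] at h1
    simp only [hL]
    rw [Finset.sum_neg_distrib, h1, neg_neg]
  have hkey : (1 / 2) * ∑ k, L k ≤ ∑ Q : Finset (Fin s), p Q * ∑ k ∈ Q, L k := by
    have h1 : ∑ Q : Finset (Fin s), p Q * ∑ k ∈ Q, L k =
        ∑ k, L k * ∑ Q ∈ (univ : Finset (Finset (Fin s))).filter (fun Q => k ∈ Q), p Q := by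
      have h2 : ∀ Q : Finset (Fin s), p Q * ∑ k ∈ Q, L k =
          ∑ k, if k ∈ Q then p Q * L k else 0 := by
        intro Q
        rw [Finset.mul_sum, ← Finset.sum_filter]
        refine Finset.sum_congr ?_ fun _ _ => rfl
        ext k
        simp
      simp only [h2]
      rw [Finset.sum_comm]
      refine Finset.sum_congr rfl fun k _ => ?_
      rw [Finset.mul_sum, Finset.sum_filter]
      refine Finset.sum_congr rfl fun Q _ => ?_
      split_ifs
      · ring
      · rfl
    rw [h1, Finset.mul_sum]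
    refine Finset.sum_le_sum fun k _ => ?_
    have := mul_le_mul_of_nonneg_left (hcov k) (hL0 k)
    linarith
  obtain ⟨Q, hQ0, hQ⟩ : ∃ Q, 0 < p Q ∧ (1 / 2) * ∑ k, L k ≤ ∑ k ∈ Q, L k := by
    by_contra hcon
    push Not at hcon
    have h1 : ∀ Q ∈ (univ : Finset (Finset (Fin s))), p Q * ∑ k ∈ Q, L k ≤
        p Q * ((1 / 2) * ∑ k, L k) := by
      intro Q _
      rcases (hP0 Q).lt_or_eq with h | h
      · exact mul_le_mul_of_nonneg_left (hcon Q h).le h.le
      · rw [← h]
        simp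
    obtain ⟨Q0, hQ0⟩ : ∃ Q, 0 < p Q := by
      by_contra hno
      push Not at hno
      have h2 : ∑ Q : Finset (Fin s), p Q ≤ 0 := Finset.sum_nonpos fun Q _ => hno Q
      linarith
    have h2 : ∑ Q : Finset (Fin s), p Q * ∑ k ∈ Q, L k <
        ∑ Q : Finset (Fin s), p Q * ((1 / 2) * ∑ k, L k) :=
      Finset.sum_lt_sum h1 ⟨Q0, Finset.mem_univ _, mul_lt_mul_of_pos_left (hcon Q0 hQ0) hQ0⟩
    rw [← Finset.sum_mul, hP1, one_mul] at h2
    linarith
  refine ⟨Q, hQ0, ?_⟩
  have h1 : ssr_pi W x Q s v = Real.exp (-∑ k ∈ Qᶜ, L k) := by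
    unfold ssr_pi
    have h2 : (univ : Finset (Fin s)).filter (fun k => k.val < s ∧ k ∉ Q) = Qᶜ := by
      ext k
      simp
    rw [h2, ← Finset.sum_neg_distrib, Real.exp_sum]
    refine Finset.prod_congr rfl fun k _ => ?_
    simp only [hL, neg_neg]
    rw [Real.exp_log (ssr_p_pos hv k.val)]
  rw [h1]
  refine Real.exp_le_exp.2 ?_
  have h2 : ∑ k ∈ Q, L k + ∑ k ∈ Qᶜ, L k = ∑ k, L k := Finset.sum_add_sum_compl Q L
  rw [← hsum]
  linarith

end

theorem shearer_sel {ι A : Type*} [DecidableEq ι] [DecidableEq A] (W : Finset ι) (s : ℕ)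
    (x : ι → Fin s → A) (hinj : Set.InjOn x W) (P : ι → Finset (Fin s) → ℝ)
    (hP0 : ∀ v ∈ W, ∀ Q, 0 ≤ P v Q) (hP1 : ∀ v ∈ W, ∑ Q : Finset (Fin s), P v Q = 1)
    (hcov : ∀ v ∈ W, ∀ k : Fin s,
      1 / 2 ≤ ∑ Q ∈ (univ : Finset (Finset (Fin s))).filter (fun Q => k ∈ Q), P v Q) :
    ∃ Q : ι → Finset (Fin s), (∀ v ∈ W, 0 < P v (Q v)) ∧
      ∀ v ∈ W, ((W.filter (fun w => Q w = Q v ∧ ∀ k ∈ Q v, x w k = x v k)).card : ℝ) ^ 2 ≤
        W.card := by
  have hsel : ∀ v, ∃ Q, v ∈ W → 0 < P v Q ∧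
      Real.exp (-(1 / 2) * Real.log W.card) ≤ ssr_pi W x Q s v := by
    intro v
    by_cases hv : v ∈ W
    · obtain ⟨Q, hQ⟩ := ssr_select (x := x) hinj hv (P v) (hP0 v hv) (hP1 v hv) (hcov v hv)
      exact ⟨Q, fun _ => hQ⟩
    · exact ⟨∅, fun h => absurd h hv⟩
  choose Q hQ using hsel
  refine ⟨Q, fun v hv => (hQ v hv).1, fun v hv => ?_⟩
  set θ : ℝ := Real.exp (-(1 / 2) * Real.log W.card) with hθ
  have hθ0 : 0 < θ := Real.exp_pos _
  have hW0 : (0 : ℝ) < W.card := by exact_mod_cast Finset.card_pos.2 ⟨v, hv⟩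
  have hθ2 : θ ^ 2 = 1 / (W.card : ℝ) := by
    rw [hθ, ← Real.exp_nat_mul]
    have h1 : ((2 : ℕ) : ℝ) * (-(1 / 2) * Real.log W.card) = -Real.log W.card := by
      push_cast
      ring
    rw [h1, Real.exp_neg, Real.exp_log hW0, one_div]
  set F := W.filter (fun w => Q w = Q v ∧ ∀ k ∈ Q v, x w k = x v k) with hF
  have h1 := ssr_fibre (W := W) (x := x) (Q v) (x v) s le_rfl
  have h2 : (F.card : ℝ) * θ ≤ 1 := by
    refine le_trans ?_ h1
    have h3 : (F.card : ℝ) * θ = ∑ w ∈ F, θ := by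
      rw [Finset.sum_const, nsmul_eq_mul]
    rw [h3]
    have h4 : ∑ w ∈ F, θ ≤ ∑ w ∈ F, ssr_pi W x (Q v) s w / ssr_N W x s w := by
      refine Finset.sum_le_sum fun w hw => ?_
      rw [hF, Finset.mem_filter] at hw
      rw [ssr_N_last hinj hw.1, div_one, ← hw.2.1]
      exact (hQ w hw.1).2
    refine h4.trans ?_
    refine Finset.sum_le_sum_of_subset_of_nonneg ?_ ?_
    · intro w hw
      rw [hF, Finset.mem_filter] at hw
      rw [Finset.mem_filter]
      exact ⟨hw.1, fun j hj _ => hw.2.2 j hj⟩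
    · intro w hw _
      have hwW : w ∈ W := (Finset.mem_filter.1 hw).1
      exact div_nonneg (ssr_pi_nonneg hwW _ _) (ssr_N_pos hwW _).le
  have h3 : ((F.card : ℝ) * θ) ^ 2 ≤ 1 := by
    have h4 : 0 ≤ (F.card : ℝ) * θ := by positivity
    nlinarith
  rw [mul_pow, hθ2, mul_one_div, div_le_one hW0] at h3
  exact h3

end Pool.Agent.Helper711SMP.R1

namespace Pool.Agent.Helper711SMP

alias shearer_sel := Pool.Agent.Helper711SMP.R1.shearer_sel

end Pool.Agent.Helper711SMP
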