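import Mathlib
import Pool.Agent.Helper711_SMP.R1

/-!
# Cover bound
-/

set_option autoImplicit false

namespace Pool.Agent.Helper711SMP.R1b

open Finset

namespace R1b_aux

variable {n : ℕ}

/-- the `k`-th element of `T` -/
def X (s : ℕ) (T : Finset (Fin n)) (k : Fin s) : Option (Fin n) :=
  if h : (k : ℕ) < T.card then some (T.orderEmbOfFin rfl ⟨k, h⟩) else none

theorem X_mem {s : ℕ} {T : Finset (Fin n)} {k : Fin s} {e : Fin n} (h : X s T k = some e) : e ∈ T := by
  unfold X at h
  split_ifs at h with hk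
  · rw [Option.some.injEq] at h
    rw [← h]
    exact T.orderEmbOfFin_mem rfl _

theorem X_lt_card {s : ℕ} {T : Finset (Fin n)} {k : Fin s} {e : Fin n} (h : X s T k = some e) :
    (k : ℕ) < T.card := by
  unfold X at h
  split_ifs at h with hk
  exact hk

theorem X_some {s : ℕ} {T : Finset (Fin n)} {k : Fin s} (h : (k : ℕ) < T.card) :
    X s T k = some (T.orderEmbOfFin rfl ⟨k, h⟩) := by
  unfold X
  rw [dif_pos h]

theorem X_surj {s : ℕ} {T : Finset (Fin n)} (hT : T.card ≤ s) {e : Fin n} (he : e ∈ T) :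
    ∃ k : Fin s, X s T k = some e := by
  have h1 : e ∈ Set.range (T.orderEmbOfFin rfl) := by
    rw [Finset.range_orderEmbOfFin]
    exact he
  obtain ⟨k, hk⟩ := h1
  refine ⟨⟨k, lt_of_lt_of_le k.2 hT⟩, ?_⟩
  rw [X_some (k := ⟨k, lt_of_lt_of_le k.2 hT⟩) k.2, ← hk]

theorem X_lt {s : ℕ} {T : Finset (Fin n)} {j k : Fin s} {e f : Fin n} (hj : X s T j = some f)
    (hk : X s T k = some e) : f < e ↔ j < k := by
  have hj' := X_lt_card hj
  have hk' := X_lt_card hk
  rw [X_some hj', Option.some.injEq] at hj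
  rw [X_some hk', Option.some.injEq] at hk
  rw [← hj, ← hk]
  rw [(T.orderEmbOfFin rfl).lt_iff_lt]
  rfl

theorem X_eq {s : ℕ} {T : Finset (Fin n)} {j k : Fin s} {e : Fin n} (hj : X s T j = some e)
    (hk : X s T k = some e) : j = k := by
  rcases lt_trichotomy j k with h | h | h
  · exact absurd ((X_lt hj hk).2 h) (lt_irrefl _)
  · exact h
  · exact absurd ((X_lt hk hj).2 h) (lt_irrefl _)

theorem X_of_lt {s : ℕ} {T : Finset (Fin n)} {j k : Fin s} {e : Fin n} (hk : X s T k = some e) (h : j < k) :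
    ∃ f, X s T j = some f :=
  ⟨_, X_some (lt_trans (Fin.lt_def.1 h) (X_lt_card hk))⟩

/-- the positions of the elements of `I`, and the empty positions -/
def Qf (s : ℕ) (T I : Finset (Fin n)) : Finset (Fin s) :=
  univ.filter (fun k => ∀ e, X s T k = some e → e ∈ I)

theorem mem_Qf {s : ℕ} {T I : Finset (Fin n)} {k : Fin s} :
    k ∈ Qf s T I ↔ ∀ e, X s T k = some e → e ∈ I := by
  unfold Qf
  rw [Finset.mem_filter]
  exact ⟨fun h => h.2, fun h => ⟨Finset.mem_univ _, h⟩⟩

theorem key {s : ℕ} {T I : Finset (Fin n)} (hT : T.card ≤ s) {k : Fin s} {e : Fin n}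
    (hk : X s T k = some e) :
    ((Qf s T I).filter (fun j => j < k)).card = ((I ∩ T).filter (fun f => f < e)).card := by
  refine Finset.card_nbij (fun j => (X s T j).getD e) ?_ ?_ ?_
  · intro j hj
    rw [Finset.mem_coe, Finset.mem_filter] at hj
    obtain ⟨f, hf⟩ := X_of_lt hk hj.2
    rw [Finset.mem_coe, Finset.mem_filter, Finset.mem_inter]
    show ((X s T j).getD e ∈ I ∧ (X s T j).getD e ∈ T) ∧ (X s T j).getD e < e
    rw [hf, Option.getD_some]
    exact ⟨⟨mem_Qf.1 hj.1 f hf, X_mem hf⟩, (X_lt hf hk).2 hj.2⟩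
  · intro j hj j' hj' h
    rw [Finset.mem_coe, Finset.mem_filter] at hj hj'
    obtain ⟨f, hf⟩ := X_of_lt hk hj.2
    obtain ⟨f', hf'⟩ := X_of_lt hk hj'.2
    have h' : (X s T j).getD e = (X s T j').getD e := h
    rw [hf, hf', Option.getD_some, Option.getD_some] at h'
    rw [← h'] at hf'
    exact X_eq hf hf'
  · intro f hf
    rw [Finset.mem_coe, Finset.mem_filter, Finset.mem_inter] at hf
    obtain ⟨⟨hfI, hfT⟩, hfe⟩ := hf
    obtain ⟨j, hj⟩ := X_surj hT hfT
    refine ⟨j, ?_, ?_⟩
    · rw [Finset.mem_coe, Finset.mem_filter]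
      refine ⟨mem_Qf.2 ?_, (X_lt hj hk).1 hfe⟩
      intro e' he'
      rw [hj, Option.some.injEq] at he'
      rw [← he']
      exact hfI
    · show (X s T j).getD e = f
      rw [hj, Option.getD_some]

theorem char {s : ℕ} {T I : Finset (Fin n)} (hT : T.card ≤ s) {k : Fin s} (hk : k ∈ Qf s T I) (e : Fin n) :
    X s T k = some e ↔ e ∈ I ∩ T ∧
      ((I ∩ T).filter (fun f => f < e)).card = ((Qf s T I).filter (fun j => j < k)).card := by
  constructor
  · intro h
    refine ⟨Finset.mem_inter.2 ⟨mem_Qf.1 hk e h, X_mem h⟩, (key hT h).symm⟩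
  · rintro ⟨he, hc⟩
    rw [Finset.mem_inter] at he
    obtain ⟨j, hj⟩ := X_surj hT he.2
    have hjQ : j ∈ Qf s T I := by
      refine mem_Qf.2 ?_
      intro e' he'
      rw [hj, Option.some.injEq] at he'
      rw [← he']
      exact he.1
    rw [← key hT hj] at hc
    have hjk : j = k := by
      rcases lt_trichotomy j k with h | h | h
      · exfalso
        have : ((Qf s T I).filter (fun i => i < j)).card < ((Qf s T I).filter (fun i => i < k)).card := by
          refine Finset.card_lt_card ?_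
          rw [Finset.ssubset_iff_of_subset]
          · exact ⟨j, Finset.mem_filter.2 ⟨hjQ, h⟩, fun h' => lt_irrefl _ (Finset.mem_filter.1 h').2⟩
          · intro i hi
            exact Finset.mem_filter.2 ⟨(Finset.mem_filter.1 hi).1, lt_trans (Finset.mem_filter.1 hi).2 h⟩
        omega
      · exact h
      · exfalso
        have : ((Qf s T I).filter (fun i => i < k)).card < ((Qf s T I).filter (fun i => i < j)).card := by
          refine Finset.card_lt_card ?_
          rw [Finset.ssubset_iff_of_subset]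
          · exact ⟨k, Finset.mem_filter.2 ⟨hk, h⟩, fun h' => lt_irrefl _ (Finset.mem_filter.1 h').2⟩
          · intro i hi
            exact Finset.mem_filter.2 ⟨(Finset.mem_filter.1 hi).1, lt_trans (Finset.mem_filter.1 hi).2 h⟩
        omega
    rw [← hjk]
    exact hj

/-- the positions and the set determine the restriction -/
theorem det {s : ℕ} {T I T' I' : Finset (Fin n)} (hT : T.card ≤ s) (hT' : T'.card ≤ s)
    (hQ : Qf s T I = Qf s T' I') (hJ : I ∩ T = I' ∩ T') {k : Fin s} (hk : k ∈ Qf s T I) :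
    X s T k = X s T' k := by
  ext e
  have h1 := char hT hk e
  have h2 := char hT' (hQ ▸ hk) e
  rw [← hQ, ← hJ] at h2
  have h3 : X s T k = some e ↔ X s T' k = some e := h1.trans h2.symm
  simpa using h3

end R1b_aux

theorem cover_bound {ι : Type*} [DecidableEq ι] {n : ℕ} (W : Finset ι)
    (F F' : ι → Finset (Fin n)) (s : ℕ) (hs : ∀ v ∈ W, (F v).card ≤ s)
    (hsub : ∀ v ∈ W, F' v ⊆ F v) (hinj : Set.InjOn F' W) (δ : ℝ) (hδ : 0 < δ)
    (P : ι → Finset (Fin n) → ℝ) (hP0 : ∀ v ∈ W, ∀ I ∈ (F v).powerset, 0 ≤ P v I)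
    (hP1 : ∀ v ∈ W, ∑ I ∈ (F v).powerset, P v I = 1)
    (hpop : ∀ v ∈ W, ∀ I ∈ (F v).powerset, 0 < P v I →
      δ * W.card ≤ ((W.filter (fun w => I ⊆ F w)).card : ℝ))
    (hcov : ∀ v ∈ W, ∀ e ∈ F' v,
      1 / 2 ≤ ∑ I ∈ (F v).powerset.filter (fun I => e ∈ I), P v I) :
    δ ^ 2 * (W.card : ℝ) ≤ 16 ^ s := by
  classical
  rcases Nat.eq_zero_or_pos W.card with hW0 | hW
  · rw [hW0]
    simp
  have hN : (0 : ℝ) < W.card := by exact_mod_cast hW
  have hF's : ∀ v ∈ W, (F' v).card ≤ s := fun v hv => (Finset.card_le_card (hsub v hv)).trans (hs v hv)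
  have hXinj : Set.InjOn (fun v => R1b_aux.X s (F' v)) W := by
    intro v hv w hw h
    refine hinj hv hw ?_
    have h' : R1b_aux.X s (F' v) = R1b_aux.X s (F' w) := h
    ext e
    constructor
    · intro he
      obtain ⟨k, hk⟩ := R1b_aux.X_surj (hF's v hv) he
      rw [h'] at hk
      exact R1b_aux.X_mem hk
    · intro he
      obtain ⟨k, hk⟩ := R1b_aux.X_surj (hF's w hw) he
      rw [← h'] at hk
      exact R1b_aux.X_mem hk
  obtain ⟨Q, hQpos, hQfib⟩ := shearer_sel W s (fun v => R1b_aux.X s (F' v)) hXinj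
    (fun v Q => ∑ I ∈ (F v).powerset.filter (fun I => R1b_aux.Qf s (F' v) I = Q), P v I)
    (fun v hv Q => Finset.sum_nonneg fun I hI => hP0 v hv I (Finset.mem_filter.1 hI).1)
    (fun v hv => by
      rw [← hP1 v hv]
      exact Finset.sum_fiberwise _ _ _)
    (fun v hv k => by
      have h1 : ∑ Q ∈ (univ : Finset (Finset (Fin s))).filter (fun Q => k ∈ Q),
          ∑ I ∈ (F v).powerset.filter (fun I => R1b_aux.Qf s (F' v) I = Q), P v I =
          ∑ I ∈ (F v).powerset.filter (fun I => k ∈ R1b_aux.Qf s (F' v) I), P v I := by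
        rw [← Finset.sum_fiberwise_of_maps_to (s := (F v).powerset.filter (fun I => k ∈ R1b_aux.Qf s (F' v) I))
          (t := (univ : Finset (Finset (Fin s))).filter (fun Q => k ∈ Q)) (g := fun I => R1b_aux.Qf s (F' v) I)
          (fun I hI => Finset.mem_filter.2 ⟨Finset.mem_univ _, (Finset.mem_filter.1 hI).2⟩)]
        refine Finset.sum_congr rfl fun Q hQ => ?_
        refine Finset.sum_congr ?_ fun _ _ => rfl
        ext I
        simp only [Finset.mem_filter]
        constructor
        · rintro ⟨h2, h3⟩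
          refine ⟨⟨h2, ?_⟩, h3⟩
          rw [h3]
          exact (Finset.mem_filter.1 hQ).2
        · rintro ⟨⟨h2, -⟩, h3⟩
          exact ⟨h2, h3⟩
      rw [h1]
      rcases hX : R1b_aux.X s (F' v) k with _ | e
      · have h2 : (F v).powerset.filter (fun I => k ∈ R1b_aux.Qf s (F' v) I) = (F v).powerset := by
          refine Finset.filter_true_of_mem fun I _ => ?_
          rw [R1b_aux.mem_Qf]
          intro e he
          rw [hX] at he
          exact absurd he (by simp)
        rw [h2, hP1 v hv]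
        norm_num
      · refine (hcov v hv e (R1b_aux.X_mem hX)).trans (le_of_eq ?_)
        refine Finset.sum_congr ?_ fun _ _ => rfl
        ext I
        simp only [Finset.mem_filter, R1b_aux.mem_Qf]
        constructor
        · rintro ⟨h2, h3⟩
          refine ⟨h2, ?_⟩
          intro e' he'
          rw [hX, Option.some.injEq] at he'
          rw [← he']
          exact h3
        · rintro ⟨h2, h3⟩
          exact ⟨h2, h3 e hX⟩)
  have hex : ∀ v ∈ W, ∃ I ∈ (F v).powerset, R1b_aux.Qf s (F' v) I = Q v ∧ 0 < P v I := by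
    intro v hv
    by_contra hno
    push Not at hno
    have h1 : ∑ I ∈ (F v).powerset.filter (fun I => R1b_aux.Qf s (F' v) I = Q v), P v I ≤ 0 := by
      refine Finset.sum_nonpos fun I hI => ?_
      rw [Finset.mem_filter] at hI
      exact hno I hI.1 hI.2
    exact absurd (hQpos v hv) (not_lt.2 h1)
  obtain ⟨I, hI⟩ : ∃ I : ι → Finset (Fin n), ∀ v ∈ W, I v ∈ (F v).powerset ∧ R1b_aux.Qf s (F' v) (I v) = Q v ∧ 0 < P v (I v) := by
    have hex' : ∀ v, ∃ K : Finset (Fin n), v ∈ W → K ∈ (F v).powerset ∧ R1b_aux.Qf s (F' v) K = Q v ∧ 0 < P v K := by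
      intro v
      by_cases hv : v ∈ W
      · obtain ⟨K, hK⟩ := hex v hv
        exact ⟨K, fun _ => hK⟩
      · exact ⟨∅, fun h => absurd h hv⟩
    choose I hI using hex'
    exact ⟨I, hI⟩
  -- the number of different sets
  obtain ⟨J, hJ⟩ : ∃ J : ι → Finset (Fin n), J = fun v => I v ∩ F' v := ⟨_, rfl⟩
  have hJpop : ∀ v ∈ W, δ * W.card ≤ ((W.filter (fun w => J v ⊆ F w)).card : ℝ) := by
    intro v hv
    refine (hpop v hv (I v) (hI v hv).1 (hI v hv).2.2).trans ?_
    refine Nat.cast_le.2 (Finset.card_le_card ?_)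
    intro w hw
    rw [Finset.mem_filter] at hw ⊢
    refine ⟨hw.1, ?_⟩
    rw [hJ]
    exact Finset.inter_subset_left.trans hw.2
  have hJcard : δ * ((W.image J).card : ℝ) ≤ 2 ^ s := by
    have h1 : ((W.image J).card : ℝ) * (δ * W.card) ≤ ∑ K ∈ W.image J, ((W.filter (fun w => K ⊆ F w)).card : ℝ) := by
      rw [← nsmul_eq_mul]
      refine Finset.card_nsmul_le_sum _ _ _ fun K hK => ?_
      obtain ⟨v, hv, rfl⟩ := Finset.mem_image.1 hK
      exact hJpop v hv
    have h2 : ∑ K ∈ W.image J, ((W.filter (fun w => K ⊆ F w)).card : ℝ) ≤ W.card * 2 ^ s := by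
      have h3 : ∑ K ∈ W.image J, (W.filter (fun w => K ⊆ F w)).card = ∑ w ∈ W, ((W.image J).filter (fun K => K ⊆ F w)).card :=
        Finset.sum_card_bipartiteAbove_eq_sum_card_bipartiteBelow (fun K w => K ⊆ F w)
      have h4 : ∑ w ∈ W, ((W.image J).filter (fun K => K ⊆ F w)).card ≤ ∑ w ∈ W, 2 ^ s := by
        refine Finset.sum_le_sum fun w hw => ?_
        calc ((W.image J).filter (fun K => K ⊆ F w)).card ≤ (F w).powerset.card := by
              refine Finset.card_le_card ?_
              intro K hK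
              exact Finset.mem_powerset.2 (Finset.mem_filter.1 hK).2
          _ = 2 ^ (F w).card := Finset.card_powerset _
          _ ≤ 2 ^ s := Nat.pow_le_pow_right (by norm_num) (hs w hw)
      rw [Finset.sum_const, smul_eq_mul] at h4
      rw [← h3] at h4
      exact_mod_cast h4
    have h5 := h1.trans h2
    have h6 : δ * ((W.image J).card : ℝ) * W.card ≤ 2 ^ s * W.card := by
      calc δ * ((W.image J).card : ℝ) * W.card = ((W.image J).card : ℝ) * (δ * W.card) := by ring
        _ ≤ W.card * 2 ^ s := h5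
        _ = 2 ^ s * W.card := mul_comm _ _
    exact le_of_mul_le_mul_right h6 hN
  -- the fibres
  have hfib : ∀ p ∈ (univ : Finset (Finset (Fin s))) ×ˢ (W.image J),
      ((W.filter (fun v => (Q v, J v) = p)).card : ℝ) ≤ Real.sqrt W.card := by
    intro p _
    refine Real.le_sqrt_of_sq_le ?_
    rcases (W.filter (fun v => (Q v, J v) = p)).eq_empty_or_nonempty with h0 | ⟨v, hv⟩
    · rw [h0]
      simp
    · rw [Finset.mem_filter] at hv
      obtain ⟨hv, hvp⟩ := hv
      refine le_trans ?_ (hQfib v hv)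
      refine pow_le_pow_left₀ (Nat.cast_nonneg _) (Nat.cast_le.2 (Finset.card_le_card ?_)) 2
      intro w hw
      rw [Finset.mem_filter] at hw ⊢
      obtain ⟨hw, hwp⟩ := hw
      rw [← hvp, Prod.mk.injEq] at hwp
      refine ⟨hw, hwp.1, fun k hk => ?_⟩
      have hQ1 := (hI v hv).2.1
      have hQ2 := (hI w hw).2.1
      have hJ1 : I w ∩ F' w = I v ∩ F' v := by
        have := hwp.2
        rw [hJ] at this
        exact this
      refine R1b_aux.det (I := I w) (I' := I v) (hF's w hw) (hF's v hv) ?_ hJ1 ?_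
      · rw [hQ1, hQ2, hwp.1]
      · rw [hQ2, hwp.1]
        exact hk
  have hcount : (W.card : ℝ) ≤ ((2 : ℝ) ^ s * ((W.image J).card : ℝ)) * Real.sqrt W.card := by
    have h1 : W.card = ∑ p ∈ (univ : Finset (Finset (Fin s))) ×ˢ (W.image J), (W.filter (fun v => (Q v, J v) = p)).card := by
      refine Finset.card_eq_sum_card_fiberwise ?_
      intro v hv
      exact Finset.mem_coe.2 (Finset.mem_product.2 ⟨Finset.mem_univ _, Finset.mem_image_of_mem _ hv⟩)
    have h2 : (W.card : ℝ) = ∑ p ∈ (univ : Finset (Finset (Fin s))) ×ˢ (W.image J), ((W.filter (fun v => (Q v, J v) = p)).card : ℝ) := by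
      exact_mod_cast h1
    have h3 := Finset.sum_le_card_nsmul _ _ _ hfib
    rw [← h2] at h3
    refine h3.trans (le_of_eq ?_)
    rw [nsmul_eq_mul, Finset.card_product, Finset.card_univ, Fintype.card_finset, Fintype.card_fin]
    push_cast
    ring
  have hsq : 0 < Real.sqrt W.card := Real.sqrt_pos.2 hN
  have hself : Real.sqrt W.card * Real.sqrt W.card = W.card := Real.mul_self_sqrt hN.le
  have h1 : δ * Real.sqrt W.card ≤ 4 ^ s := by
    have h2 : Real.sqrt W.card ≤ (2 : ℝ) ^ s * ((W.image J).card : ℝ) := by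
      have h3 : Real.sqrt W.card * Real.sqrt W.card ≤ ((2 : ℝ) ^ s * ((W.image J).card : ℝ)) * Real.sqrt W.card := by
        rw [hself]
        exact hcount
      exact le_of_mul_le_mul_right h3 hsq
    calc δ * Real.sqrt W.card ≤ δ * ((2 : ℝ) ^ s * ((W.image J).card : ℝ)) := mul_le_mul_of_nonneg_left h2 hδ.le
      _ = 2 ^ s * (δ * ((W.image J).card : ℝ)) := by ring
      _ ≤ 2 ^ s * 2 ^ s := mul_le_mul_of_nonneg_left hJcard (by positivity)
      _ = 4 ^ s := by rw [← mul_pow]; norm_num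
  calc δ ^ 2 * (W.card : ℝ) = (δ * Real.sqrt W.card) ^ 2 := by
        rw [mul_pow, Real.sq_sqrt hN.le]
    _ ≤ (4 ^ s) ^ 2 := pow_le_pow_left₀ (by positivity) h1 2
    _ = 16 ^ s := by rw [← pow_mul, mul_comm s 2, pow_mul]; norm_num

end Pool.Agent.Helper711SMP.R1b

namespace Pool.Agent.Helper711SMP

alias cover_bound := Pool.Agent.Helper711SMP.R1b.cover_bound

end Pool.Agent.Helper711SMP
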