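import Mathlib

/-!
# Minimax
-/

set_option autoImplicit false

namespace Pool.Agent.Helper711SMP.R2

theorem finite_minimax {α β : Type*} [Fintype α] [Fintype β] [Nonempty α] [Nonempty β]
    (a : α → β → ℝ) (g : ℝ)
    (h : ∀ ω : α → ℝ, (∀ i, 0 ≤ ω i) → ∑ i, ω i = 1 → ∃ j, ∑ i, ω i * a i j ≤ g) :
    ∃ P : β → ℝ, (∀ j, 0 ≤ P j) ∧ ∑ j, P j = 1 ∧ ∀ i, ∑ j, P j * a i j ≤ g := by
  classical
  by_contra hcon
  push Not at hcon
  let L : (β → ℝ) →ₗ[ℝ] (α → ℝ) :=
    { toFun := fun P i => ∑ j, P j * a i j
      map_add' := by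
        intro x y; funext i
        simp [add_mul, Finset.sum_add_distrib]
      map_smul' := by
        intro c x; funext i
        simp [Finset.mul_sum, mul_assoc] }
  have hLapp : ∀ P i, L P i = ∑ j, P j * a i j := fun P i => rfl
  have hLc : Continuous L := L.continuous_of_finiteDimensional
  have hK1c : IsCompact (L '' stdSimplex ℝ β) := (isCompact_stdSimplex ℝ β).image hLc
  have hK1v : Convex ℝ (L '' stdSimplex ℝ β) := (convex_stdSimplex ℝ β).linear_image L
  have hK2v : Convex ℝ {y : α → ℝ | ∀ i, y i ≤ g} := by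
    intro x hx y hy s t hs ht hst i
    have h1 := hx i
    have h2 := hy i
    simp only [Pi.add_apply, Pi.smul_apply, smul_eq_mul]
    have h3 := mul_le_mul_of_nonneg_left h1 hs
    have h4 := mul_le_mul_of_nonneg_left h2 ht
    have h5 : s * g + t * g = g := by rw [← add_mul, hst, one_mul]
    linarith
  have hK2c : IsClosed {y : α → ℝ | ∀ i, y i ≤ g} := by
    have : {y : α → ℝ | ∀ i, y i ≤ g} = ⋂ i, {y : α → ℝ | y i ≤ g} := by
      ext y; simp
    rw [this]
    exact isClosed_iInter fun i => isClosed_le (continuous_apply i) continuous_const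
  have hdis : Disjoint (L '' stdSimplex ℝ β) {y : α → ℝ | ∀ i, y i ≤ g} := by
    rw [Set.disjoint_left]
    rintro _ ⟨P, hP, rfl⟩ hy
    obtain ⟨i, hi⟩ := hcon P hP.1 hP.2
    have := hy i
    rw [hLapp] at this
    linarith
  obtain ⟨f, u, v, hf1, huv, hf2⟩ :=
    geometric_hahn_banach_compact_closed hK1v hK1c hK2v hK2c hdis
  have hfe : ∀ y : α → ℝ, f y = ∑ i, y i * f (Pi.single i 1) := by
    intro y
    have : y = ∑ i, y i • (Pi.single i (1 : ℝ) : α → ℝ) := by
      funext k
      simp [Finset.sum_apply, Pi.single_apply]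
    conv_lhs => rw [this]
    simp [map_sum, map_smul]
  set φ : α → ℝ := fun i => f (Pi.single i 1) with hφ
  have hφle : ∀ i, φ i ≤ 0 := by
    intro i
    by_contra hi
    push Not at hi
    have hc : v < f (fun _ => g) := hf2 _ (fun i => le_refl _)
    set t : ℝ := (f (fun _ => g) - v) / φ i with ht
    have ht0 : 0 ≤ t := div_nonneg (by linarith) hi.le
    have h1 : v < f ((fun _ => g) - t • (Pi.single i (1 : ℝ) : α → ℝ)) := by
      apply hf2
      intro k
      simp only [Pi.sub_apply, Pi.smul_apply, smul_eq_mul]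
      by_cases hk : k = i
      · subst hk; simp; exact ht0
      · simp [hk]
    rw [map_sub, map_smul, smul_eq_mul] at h1
    have h2 : t * f (Pi.single i (1:ℝ)) = f (fun _ => g) - v := by
      rw [ht]; exact div_mul_cancel₀ _ hi.ne'
    rw [h2] at h1
    linarith
  have hcg : v < g * ∑ i, φ i := by
    have hc : v < f (fun _ => g) := hf2 _ (fun i => le_refl _)
    rw [hfe, ← Finset.mul_sum] at hc
    exact hc
  have hja : ∀ j, ∑ i, a i j * φ i < u := by
    intro j
    have h1 := hf1 (L (Pi.single j 1)) ⟨Pi.single j 1, single_mem_stdSimplex ℝ j, rfl⟩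
    rw [hfe] at h1
    have h2 : ∀ i, L (Pi.single j 1) i = a i j := by
      intro i
      rw [hLapp]
      simp [Pi.single_apply]
    simpa [h2] using h1
  set S : ℝ := ∑ i, (-φ i) with hS
  have hSn : 0 ≤ S := Finset.sum_nonneg fun i _ => by linarith [hφle i]
  have hSφ : ∑ i, φ i = -S := by rw [hS, Finset.sum_neg_distrib, neg_neg]
  have hSpos : 0 < S := by
    rcases hSn.lt_or_eq with h0 | h0
    · exact h0
    · exfalso
      have h1 : ∀ i, -φ i = 0 := by
        intro i
        exact (Finset.sum_eq_zero_iff_of_nonneg (fun i _ => by linarith [hφle i])).1 h0.symm i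
          (Finset.mem_univ i)
      obtain ⟨j⟩ := (inferInstance : Nonempty β)
      have h2 := hja j
      have h3 : ∑ i, a i j * φ i = 0 := Finset.sum_eq_zero fun i _ => by
        have : φ i = 0 := by linarith [h1 i]
        rw [this, mul_zero]
      rw [h3] at h2
      rw [hSφ, ← h0] at hcg
      simp at hcg
      linarith
  obtain ⟨j, hj⟩ := h (fun i => -φ i / S) (fun i => div_nonneg (by linarith [hφle i]) hSn)
    (by rw [← Finset.sum_div]; exact div_self hSpos.ne')
  have h1 : ∑ i, -φ i / S * a i j = (-∑ i, a i j * φ i) / S := by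
    rw [← Finset.sum_neg_distrib, Finset.sum_div]
    exact Finset.sum_congr rfl fun i _ => by ring
  rw [h1, div_le_iff₀ hSpos] at hj
  have h2 := hja j
  rw [hSφ] at hcg
  linarith

end Pool.Agent.Helper711SMP.R2

namespace Pool.Agent.Helper711SMP

alias finite_minimax := Pool.Agent.Helper711SMP.R2.finite_minimax

end Pool.Agent.Helper711SMP
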