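import Mathlib
import Pool.Agent.Helper711_SMP.R1b
import Pool.Agent.Helper711_SMP.R2

/-!
# Existence of a cut
-/

set_option autoImplicit false

namespace Pool.Agent.Helper711SMP.R3

open Finset

theorem cut_exists_num {N : ℝ} (hN : 2 ≤ N) {s : ℕ} (hh : 10 * (s : ℝ) ≤ Real.log N) :
    (2 : ℝ) ^ s ≤ N ^ (3 / 40 : ℝ) := by
  have hN0 : 0 < N := by linarith
  rw [← Real.log_le_log_iff (by positivity) (by positivity), Real.log_pow, Real.log_rpow hN0]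
  have h2 := Real.log_two_lt_d9
  have h3 : 0 < Real.log 2 := Real.log_pos (by norm_num)
  have hs : 0 ≤ (s : ℝ) := by positivity
  have h4 : (s : ℝ) * Real.log 2 ≤ (Real.log N / 10) * Real.log 2 := by
    apply mul_le_mul_of_nonneg_right _ h3.le
    linarith
  have h5 : 0 ≤ Real.log N := by linarith
  nlinarith

/-- step (1) -/
theorem cut_exists_step {ι : Type*} [DecidableEq ι] {n : ℕ} (W : Finset ι)
    (F : ι → Finset (Fin n)) (s : ℕ) (hs : ∀ v ∈ W, (F v).card ≤ s)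
    (hW : 2 ≤ W.card) (hh : 10 * (s : ℝ) ≤ Real.log W.card) (δ : ℝ)
    (hδ : δ = (W.card : ℝ) ^ (-(1 / 5) : ℝ)) (v : ι) (hv : v ∈ W) (ζ : Fin n → ℝ)
    (hcon : ∀ τ : ℝ,
      (W.filter (fun w => τ + 1 / 10 ≤ ∑ i ∈ F w ∩ F v, ζ i)).Nonempty →
      (W.filter (fun w => ∑ i ∈ F w ∩ F v, ζ i ≤ τ)).Nonempty →
      ¬ (W.card : ℝ) ^ (1 / 8 : ℝ) ≤
        ((W.filter (fun w => τ + 1 / 10 ≤ ∑ i ∈ F w ∩ F v, ζ i)).card : ℝ) ^ (1 / 8 : ℝ) +
        ((W.filter (fun w => ∑ i ∈ F w ∩ F v, ζ i ≤ τ)).card : ℝ) ^ (1 / 8 : ℝ)) :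
    ∃ I ∈ (F v).powerset, δ * W.card ≤ ((W.filter (fun w => I ⊆ F w)).card : ℝ) ∧
      ∑ i ∈ F v \ I, ζ i ≤ 1 / 10 := by
  classical
  obtain ⟨N, hN⟩ : ∃ N : ℝ, N = (W.card : ℝ) := ⟨_, rfl⟩
  have hN2 : 2 ≤ N := by rw [hN]; exact_mod_cast hW
  have hN0 : 0 < N := by linarith
  have hN1 : 1 ≤ N := by linarith
  have hδ1 : δ ≤ 1 := by
    rw [hδ, ← hN]
    exact Real.rpow_le_one_of_one_le_of_nonpos hN1 (by norm_num)
  have hδ0 : 0 < δ := by rw [hδ, ← hN]; positivity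
  obtain ⟨PI, hPI⟩ : ∃ PI : Finset (Finset (Fin n)), PI = (F v).powerset.filter
    (fun I => δ * W.card ≤ ((W.filter (fun w => I ⊆ F w)).card : ℝ)) := ⟨_, rfl⟩
  have hne : PI.Nonempty := by
    refine ⟨∅, ?_⟩
    rw [hPI, mem_filter]
    refine ⟨empty_mem_powerset _, ?_⟩
    have : W.filter (fun w => (∅ : Finset (Fin n)) ⊆ F w) = W :=
      filter_true_of_mem fun w _ => empty_subset _
    rw [this, ← hN]
    nlinarith
  obtain ⟨I, hI, hmax⟩ := exists_max_image PI (fun I => ∑ i ∈ I, ζ i) hne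
  have hI' := hI
  rw [hPI, mem_filter] at hI'
  refine ⟨I, hI'.1, hI'.2, ?_⟩
  by_contra hlt
  push Not at hlt
  have hIv : I ⊆ F v := mem_powerset.mp hI'.1
  have hsum : ∑ i ∈ F v \ I, ζ i + ∑ i ∈ I, ζ i = ∑ i ∈ F v, ζ i := sum_sdiff hIv
  -- the upper part
  have hA : v ∈ W.filter (fun w => ∑ i ∈ I, ζ i + 1 / 10 ≤ ∑ i ∈ F w ∩ F v, ζ i) := by
    rw [mem_filter, inter_self]
    exact ⟨hv, by linarith⟩
  -- the lower part
  obtain ⟨BC, hBC⟩ : ∃ BC : Finset ι, BC = W.filter (fun w => ¬ ∑ i ∈ F w ∩ F v, ζ i ≤ ∑ i ∈ I, ζ i) :=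
    ⟨_, rfl⟩
  have hsplit : (W.filter (fun w => ∑ i ∈ F w ∩ F v, ζ i ≤ ∑ i ∈ I, ζ i)).card + BC.card = W.card := by
    rw [hBC]
    exact card_filter_add_card_filter_not _
  have hBCcard : (BC.card : ℝ) ≤ 2 ^ s * (δ * N) := by
    have hmaps : ∀ w ∈ BC, F w ∩ F v ∈ (F v).powerset \ PI := by
      intro w hw
      rw [hBC, mem_filter] at hw
      rw [mem_sdiff]
      refine ⟨mem_powerset.mpr inter_subset_right, fun h => ?_⟩
      exact hw.2 (hmax _ h)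
    have h1 : BC.card = ∑ J ∈ (F v).powerset \ PI, (BC.filter (fun w => F w ∩ F v = J)).card :=
      card_eq_sum_card_fiberwise hmaps
    rw [h1, Nat.cast_sum]
    have h2 : ∀ J ∈ (F v).powerset \ PI,
        ((BC.filter (fun w => F w ∩ F v = J)).card : ℝ) ≤ δ * N := by
      intro J hJ
      rw [mem_sdiff] at hJ
      have h3 : ¬ δ * W.card ≤ ((W.filter (fun w => J ⊆ F w)).card : ℝ) := by
        intro h
        apply hJ.2
        rw [hPI, mem_filter]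
        exact ⟨hJ.1, h⟩
      push Not at h3
      rw [← hN] at h3
      refine le_trans ?_ h3.le
      have h4 : BC.filter (fun w => F w ∩ F v = J) ⊆ W.filter (fun w => J ⊆ F w) := by
        intro w hw
        rw [mem_filter] at hw ⊢
        rw [hBC, mem_filter] at hw
        exact ⟨hw.1.1, by rw [← hw.2]; exact inter_subset_left⟩
      exact_mod_cast card_le_card h4
    refine (sum_le_card_nsmul _ _ _ h2).trans ?_
    rw [nsmul_eq_mul]
    apply mul_le_mul_of_nonneg_right _ (by positivity)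
    have h5 : ((F v).powerset \ PI).card ≤ 2 ^ s := by
      refine (card_le_card sdiff_subset).trans ?_
      rw [card_powerset]
      exact Nat.pow_le_pow_right (by norm_num) (hs v hv)
    exact_mod_cast h5
  have h2s := cut_exists_num hN2 (s := s) (by rw [hN]; exact hh)
  have hx : (2 : ℝ) ^ s * δ * N ^ (1 / 8 : ℝ) ≤ 1 := by
    have h6 : N ^ (3 / 40 : ℝ) * N ^ (-(1 / 5) : ℝ) * N ^ (1 / 8 : ℝ) = 1 := by
      rw [← Real.rpow_add hN0, ← Real.rpow_add hN0]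
      norm_num
    have h7 : (2 : ℝ) ^ s * δ * N ^ (1 / 8 : ℝ) ≤ N ^ (3 / 40 : ℝ) * N ^ (-(1 / 5) : ℝ) * N ^ (1 / 8 : ℝ) := by
      rw [hδ, ← hN]
      gcongr
    linarith
  have hN8 : 1 < N ^ (1 / 8 : ℝ) := Real.one_lt_rpow (by linarith) (by norm_num)
  have hx0 : 0 < (2 : ℝ) ^ s * δ := by positivity
  have hx1 : (2 : ℝ) ^ s * δ < 1 := by
    by_contra hge
    push Not at hge
    nlinarith
  obtain ⟨b, hb⟩ : ∃ b : ℝ, b = ((W.filter (fun w => ∑ i ∈ F w ∩ F v, ζ i ≤ ∑ i ∈ I, ζ i)).card : ℝ) :=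
    ⟨_, rfl⟩
  have hbN : N * (1 - 2 ^ s * δ) ≤ b := by
    have h8 : b + (BC.card : ℝ) = N := by
      rw [hb, hN]
      exact_mod_cast hsplit
    nlinarith
  have hbpos : 0 < b := lt_of_lt_of_le (mul_pos hN0 (by linarith)) hbN
  have hB : (W.filter (fun w => ∑ i ∈ F w ∩ F v, ζ i ≤ ∑ i ∈ I, ζ i)).Nonempty := by
    rw [← card_pos]
    rw [hb] at hbpos
    exact_mod_cast hbpos
  apply hcon (∑ i ∈ I, ζ i) ⟨v, hA⟩ hB
  rw [← hb, ← hN]
  have hA1 : (1 : ℝ) ≤ ((W.filter (fun w => ∑ i ∈ I, ζ i + 1 / 10 ≤ ∑ i ∈ F w ∩ F v, ζ i)).card : ℝ) ^ (1 / 8 : ℝ) := by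
    apply Real.one_le_rpow _ (by norm_num)
    exact_mod_cast card_pos.mpr ⟨v, hA⟩
  have hB1 : N ^ (1 / 8 : ℝ) * (1 - 2 ^ s * δ) ≤ b ^ (1 / 8 : ℝ) := by
    calc N ^ (1 / 8 : ℝ) * (1 - 2 ^ s * δ) ≤ N ^ (1 / 8 : ℝ) * (1 - 2 ^ s * δ) ^ (1 / 8 : ℝ) := by
          apply mul_le_mul_of_nonneg_left _ (by positivity)
          exact Real.self_le_rpow_of_le_one (by linarith) (by linarith) (by norm_num)
      _ = (N * (1 - 2 ^ s * δ)) ^ (1 / 8 : ℝ) := by
          rw [Real.mul_rpow hN0.le (by linarith)]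
      _ ≤ b ^ (1 / 8 : ℝ) := by
          apply Real.rpow_le_rpow (mul_nonneg hN0.le (by linarith)) hbN (by norm_num)
  nlinarith

theorem cut_exists {ι : Type*} [DecidableEq ι] {n : ℕ} (W : Finset ι)
    (F : ι → Finset (Fin n)) (s : ℕ) (hs : ∀ v ∈ W, (F v).card ≤ s)
    (Z : Finset (Fin n → ℝ)) (hZ0 : ∀ ζ ∈ Z, ∀ i, 0 ≤ ζ i)
    (hsep : ∀ v ∈ W, ∀ w ∈ W, v ≠ w → ∃ ζ ∈ Z, 1 ≤ ∑ i ∈ symmDiff (F v) (F w), ζ i)
    (hW : 2 ≤ W.card) (hh : 10 * (s : ℝ) ≤ Real.log W.card) :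
    ∃ v₀ ∈ W, ∃ ζ ∈ convexHull ℝ (Z : Set (Fin n → ℝ)), ∃ τ : ℝ,
      (W.filter (fun w => τ + 1 / 10 ≤ ∑ i ∈ F w ∩ F v₀, ζ i)).Nonempty ∧
      (W.filter (fun w => ∑ i ∈ F w ∩ F v₀, ζ i ≤ τ)).Nonempty ∧
      (W.card : ℝ) ^ (1 / 8 : ℝ) ≤
        ((W.filter (fun w => τ + 1 / 10 ≤ ∑ i ∈ F w ∩ F v₀, ζ i)).card : ℝ) ^ (1 / 8 : ℝ) +
        ((W.filter (fun w => ∑ i ∈ F w ∩ F v₀, ζ i ≤ τ)).card : ℝ) ^ (1 / 8 : ℝ) := by
  classical
  by_contra hcon
  push Not at hcon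
  obtain ⟨N, hN⟩ : ∃ N : ℝ, N = (W.card : ℝ) := ⟨_, rfl⟩
  have hN2 : 2 ≤ N := by rw [hN]; exact_mod_cast hW
  have hN0 : 0 < N := by linarith
  have hN1 : 1 ≤ N := by linarith
  obtain ⟨δ, hδ⟩ : ∃ δ : ℝ, δ = (W.card : ℝ) ^ (-(1 / 5) : ℝ) := ⟨_, rfl⟩
  have hδ0 : 0 < δ := by rw [hδ, ← hN]; positivity
  have hstep : ∀ v ∈ W, ∀ ζ ∈ convexHull ℝ (Z : Set (Fin n → ℝ)),
      ∃ I ∈ (F v).powerset, δ * W.card ≤ ((W.filter (fun w => I ⊆ F w)).card : ℝ) ∧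
      ∑ i ∈ F v \ I, ζ i ≤ 1 / 10 := by
    intro v hv ζ hζ
    apply cut_exists_step W F s hs hW hh δ hδ v hv ζ
    intro τ hA hB h
    exact absurd h (not_le.mpr (hcon v hv ζ hζ τ hA hB))
  -- `Z` is nonempty
  obtain ⟨v1, hv1, v2, hv2, hv12⟩ := one_lt_card.mp (by omega : 1 < W.card)
  obtain ⟨ζ1, hζ1, -⟩ := hsep v1 hv1 v2 hv2 hv12
  have hZne : Nonempty Z := ⟨⟨ζ1, hζ1⟩⟩
  -- step (2)
  have hP : ∀ v ∈ W, ∃ P : Finset (Fin n) → ℝ, (∀ I, 0 ≤ P I) ∧ (∑ I ∈ (F v).powerset, P I = 1) ∧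
      (∀ I ∈ (F v).powerset, 0 < P I → δ * W.card ≤ ((W.filter (fun w => I ⊆ F w)).card : ℝ)) ∧
      ∀ ζ ∈ Z, ∑ I ∈ (F v).powerset, P I * ∑ i ∈ F v \ I, ζ i ≤ 1 / 10 := by
    intro v hv
    obtain ⟨PI, hPI⟩ : ∃ PI : Finset (Finset (Fin n)), PI = (F v).powerset.filter
      (fun I => δ * W.card ≤ ((W.filter (fun w => I ⊆ F w)).card : ℝ)) := ⟨_, rfl⟩
    have hζc : ζ1 ∈ convexHull ℝ (Z : Set (Fin n → ℝ)) := subset_convexHull ℝ _ hζ1
    have hne : Nonempty PI := by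
      obtain ⟨I, hI1, hI2, -⟩ := hstep v hv ζ1 hζc
      exact ⟨⟨I, by rw [hPI, mem_filter]; exact ⟨hI1, hI2⟩⟩⟩
    obtain ⟨Q, hQ0, hQ1, hQ2⟩ := finite_minimax (α := Z) (β := PI)
      (fun ζ I => ∑ i ∈ F v \ I.1, ζ.1 i) (1 / 10) (by
        intro ω hω0 hω1
        have hmem : ∑ ζ : Z, ω ζ • ζ.1 ∈ convexHull ℝ (Z : Set (Fin n → ℝ)) :=
          (convex_convexHull ℝ _).sum_mem (fun ζ _ => hω0 ζ) hω1
            (fun ζ _ => subset_convexHull ℝ _ ζ.2)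
        obtain ⟨I, hI1, hI2, hI3⟩ := hstep v hv _ hmem
        refine ⟨⟨I, by rw [hPI, mem_filter]; exact ⟨hI1, hI2⟩⟩, ?_⟩
        refine le_trans (le_of_eq ?_) hI3
        simp only [Finset.sum_apply, Pi.smul_apply, smul_eq_mul, mul_sum]
        rw [sum_comm])
    refine ⟨fun I => if h : I ∈ PI then Q ⟨I, h⟩ else 0, ?_, ?_, ?_, ?_⟩
    · intro I
      simp only
      split_ifs with h
      · exact hQ0 _
      · exact le_rfl
    · rw [← hQ1]
      have h1 : ∑ I ∈ (F v).powerset, (if h : I ∈ PI then Q ⟨I, h⟩ else 0) =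
          ∑ I ∈ PI, (if h : I ∈ PI then Q ⟨I, h⟩ else 0) := by
        symm
        apply sum_subset
        · rw [hPI]; exact filter_subset _ _
        · intro I _ hI
          rw [dif_neg hI]
      rw [h1, ← sum_coe_sort PI]
      exact sum_congr rfl fun I _ => by rw [dif_pos I.2]
    · intro I hI hpos
      by_contra hnot
      have : I ∉ PI := by
        rw [hPI, mem_filter]
        exact fun h => hnot h.2
      simp only [this, dif_neg, not_false_eq_true] at hpos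
      exact lt_irrefl _ hpos
    · intro ζ hζ
      have h1 : ∑ I ∈ (F v).powerset, (if h : I ∈ PI then Q ⟨I, h⟩ else 0) * ∑ i ∈ F v \ I, ζ i =
          ∑ I ∈ PI, (if h : I ∈ PI then Q ⟨I, h⟩ else 0) * ∑ i ∈ F v \ I, ζ i := by
        symm
        apply sum_subset
        · rw [hPI]; exact filter_subset _ _
        · intro I _ hI
          rw [dif_neg hI, zero_mul]
      rw [h1, ← sum_coe_sort PI]
      refine le_trans (le_of_eq ?_) (hQ2 ⟨ζ, hζ⟩)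
      exact sum_congr rfl fun I _ => by rw [dif_pos I.2]
  choose! P hP0 hP1 hP2 hP3 using hP
  -- the exceptional sets
  obtain ⟨E, hE⟩ : ∃ E : ι → Finset (Fin n), ∀ v, E v = (F v).filter
    (fun e => 1 / 2 < ∑ I ∈ (F v).powerset.filter (fun I => e ∉ I), P v I) := ⟨_, fun v => rfl⟩
  have hEsum : ∀ v ∈ W, ∀ ζ ∈ Z, ∑ e ∈ E v, ζ e ≤ 2 / 10 := by
    intro v hv ζ hζ
    have h1 : ∑ e ∈ E v, ζ e ≤ ∑ e ∈ E v, 2 * (ζ e * ∑ I ∈ (F v).powerset.filter (fun I => e ∉ I), P v I) := by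
      apply sum_le_sum
      intro e he
      rw [hE, mem_filter] at he
      nlinarith [hZ0 ζ hζ e, he.2]
    have h2 : ∑ e ∈ E v, 2 * (ζ e * ∑ I ∈ (F v).powerset.filter (fun I => e ∉ I), P v I) ≤
        ∑ e ∈ F v, 2 * (ζ e * ∑ I ∈ (F v).powerset.filter (fun I => e ∉ I), P v I) := by
      apply sum_le_sum_of_subset_of_nonneg
      · rw [hE]; exact filter_subset _ _
      · intro e _ _
        have := sum_nonneg (s := (F v).powerset.filter (fun I => e ∉ I)) (f := fun I => P v I)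
          fun I _ => hP0 v hv I
        have h0 := hZ0 ζ hζ e
        positivity
    have h3 : ∑ e ∈ F v, 2 * (ζ e * ∑ I ∈ (F v).powerset.filter (fun I => e ∉ I), P v I) =
        2 * ∑ I ∈ (F v).powerset, P v I * ∑ i ∈ F v \ I, ζ i := by
      rw [← mul_sum]
      congr 1
      have e1 : ∀ e, ζ e * ∑ I ∈ (F v).powerset.filter (fun I => e ∉ I), P v I =
          ∑ I ∈ (F v).powerset, if e ∉ I then P v I * ζ e else 0 := by
        intro e
        rw [mul_sum, sum_filter]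
        exact sum_congr rfl fun I _ => by split_ifs <;> ring
      simp only [e1]
      rw [sum_comm]
      refine sum_congr rfl fun I _ => ?_
      rw [mul_sum, ← sum_filter]
      congr 1
      ext i
      simp [mem_sdiff]
    have h4 := hP3 v hv ζ hζ
    linarith
  have hinj : Set.InjOn (fun v => F v \ E v) W := by
    intro v hv w hw hvw
    by_contra hne
    obtain ⟨ζ, hζ, h1⟩ := hsep v hv w hw hne
    have hvw' : F v \ E v = F w \ E w := hvw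
    have h2 : symmDiff (F v) (F w) ⊆ E v ∪ E w := by
      intro e he
      rw [mem_symmDiff] at he
      rw [mem_union]
      by_contra hno
      push Not at hno
      rcases he with he | he
      · have : e ∈ F w \ E w := by rw [← hvw', mem_sdiff]; exact ⟨he.1, hno.1⟩
        exact he.2 (mem_sdiff.mp this).1
      · have : e ∈ F v \ E v := by rw [hvw', mem_sdiff]; exact ⟨he.1, hno.2⟩
        exact he.2 (mem_sdiff.mp this).1
    have h3 : ∑ i ∈ symmDiff (F v) (F w), ζ i ≤ ∑ i ∈ E v ∪ E w, ζ i :=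
      sum_le_sum_of_subset_of_nonneg h2 fun i _ _ => hZ0 ζ hζ i
    have h4 : ∑ i ∈ E v ∪ E w, ζ i ≤ ∑ i ∈ E v, ζ i + ∑ i ∈ E w, ζ i := by
      have := sum_union_inter (s₁ := E v) (s₂ := E w) (f := ζ)
      have h5 : 0 ≤ ∑ i ∈ E v ∩ E w, ζ i := sum_nonneg fun i _ => hZ0 ζ hζ i
      linarith
    have := hEsum v hv ζ hζ
    have := hEsum w hw ζ hζ
    linarith
  have hfin := cover_bound W F (fun v => F v \ E v) s hs (fun v _ => sdiff_subset) hinj δ hδ0 P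
    (fun v hv I _ => hP0 v hv I) hP1 hP2 (by
      intro v hv e he
      rw [mem_sdiff] at he
      have h1 : ¬ 1 / 2 < ∑ I ∈ (F v).powerset.filter (fun I => e ∉ I), P v I := by
        intro h
        apply he.2
        rw [hE, mem_filter]
        exact ⟨he.1, h⟩
      have h2 := sum_filter_add_sum_filter_not (F v).powerset (fun I => e ∈ I) (fun I => P v I)
      rw [hP1 v hv] at h2
      linarith)
  rw [← hN] at hfin
  have h1 : δ ^ 2 * N = N ^ (3 / 5 : ℝ) := by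
    rw [hδ, ← hN, ← Real.rpow_natCast (N ^ (-(1 / 5) : ℝ)) 2, ← Real.rpow_mul hN0.le]
    nth_rewrite 2 [← Real.rpow_one N]
    rw [← Real.rpow_add hN0]
    norm_num
  rw [h1] at hfin
  have h2 := Real.log_le_log (by positivity) hfin
  rw [Real.log_rpow hN0, Real.log_pow] at h2
  have h3 : Real.log 16 = 4 * Real.log 2 := by
    rw [show (16 : ℝ) = 2 ^ 4 by norm_num, Real.log_pow]
    norm_num
  rw [h3] at h2
  have h4 := Real.log_two_lt_d9
  have h5 : 0 < Real.log 2 := Real.log_pos (by norm_num)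
  have h6 : 0 < Real.log N := Real.log_pos (by linarith)
  rw [← hN] at hh
  have h7 : (s : ℝ) * (4 * Real.log 2) ≤ (Real.log N / 10) * (4 * Real.log 2) := by
    apply mul_le_mul_of_nonneg_right _ (by positivity)
    linarith
  nlinarith

end Pool.Agent.Helper711SMP.R3

namespace Pool.Agent.Helper711SMP

alias cut_exists := Pool.Agent.Helper711SMP.R3.cut_exists

end Pool.Agent.Helper711SMP
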