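import Mathlib

/-!
# Reduction to a binary structure
-/

set_option autoImplicit false

namespace Pool.Agent.Helper711SMP.R4

open Finset

theorem binary_red_nat (D : Finset ℕ) (hD : ∀ j ∈ D, 1 ≤ j) :
    ∑ j ∈ D, ((1 : ℚ) / 2) ^ (1 + j) ≤ 1 / 2 := by
  obtain ⟨m, hm⟩ : ∃ m : ℕ, D ⊆ Finset.Ico 1 (m + 1) := by
    refine ⟨D.sup _root_.id, fun j hj => ?_⟩
    have h1 := hD j hj
    have h2 : j ≤ D.sup _root_.id := Finset.le_sup (f := _root_.id) hj
    simp only [Finset.mem_Ico]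
    omega
  have hs : ∀ m : ℕ, ∑ j ∈ Finset.Ico 1 (m + 1), ((1 : ℚ) / 2) ^ (1 + j) =
      1 / 2 - (1 / 2) ^ (m + 1) := by
    intro m
    induction m with
    | zero => simp
    | succ m ih =>
      rw [Finset.sum_Ico_succ_top (by omega), ih]
      ring
  calc ∑ j ∈ D, ((1 : ℚ) / 2) ^ (1 + j) ≤ ∑ j ∈ Finset.Ico 1 (m + 1), ((1 : ℚ) / 2) ^ (1 + j) :=
        Finset.sum_le_sum_of_subset_of_nonneg hm (fun _ _ _ => by positivity)
    _ = 1 / 2 - (1 / 2) ^ (m + 1) := hs m
    _ ≤ 1 / 2 := by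
        have : (0 : ℚ) ≤ (1 / 2) ^ (m + 1) := by positivity
        linarith

theorem binary_red_int (C : Finset ℤ) (hC : ∀ c ∈ C, c ≠ 0) :
    ∑ c ∈ C, ((1 : ℚ) / 2) ^ (1 + c.natAbs) ≤ 1 := by
  have h1 : ∑ c ∈ C.filter (fun c => 0 < c), ((1 : ℚ) / 2) ^ (1 + c.natAbs) ≤ 1 / 2 := by
    rw [← Finset.sum_image (f := fun j : ℕ => ((1 : ℚ) / 2) ^ (1 + j)) (g := Int.natAbs)
      (s := C.filter (fun c => 0 < c))]
    · apply binary_red_nat
      intro j hj
      simp only [Finset.mem_image, Finset.mem_filter] at hj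
      obtain ⟨c, ⟨_, hc⟩, rfl⟩ := hj
      omega
    · intro x hx y hy hxy
      simp only [Finset.coe_filter, Set.mem_setOf_eq] at hx hy
      omega
  have h2 : ∑ c ∈ C.filter (fun c => ¬ 0 < c), ((1 : ℚ) / 2) ^ (1 + c.natAbs) ≤ 1 / 2 := by
    rw [← Finset.sum_image (f := fun j : ℕ => ((1 : ℚ) / 2) ^ (1 + j)) (g := Int.natAbs)
      (s := C.filter (fun c => ¬ 0 < c))]
    · apply binary_red_nat
      intro j hj
      simp only [Finset.mem_image, Finset.mem_filter] at hj
      obtain ⟨c, ⟨hc1, hc⟩, rfl⟩ := hj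
      have := hC c hc1
      omega
    · intro x hx y hy hxy
      simp only [Finset.coe_filter, Set.mem_setOf_eq] at hx hy
      omega
  rw [← Finset.sum_filter_add_sum_filter_not C (fun c => 0 < c)]
  linarith

theorem binary_red_step {ι : Type*} [DecidableEq ι] (W : Finset ι) (a : ι → ℕ) (f : ι → ℤ) :
    ∃ c : ℤ, c ≠ 0 ∧ ∑ v ∈ W, a v ≤ ∑ v ∈ W.filter (fun v => f v = 0 ∨ f v = c),
      a v * (if f v = 0 then 1 else 2 ^ (1 + (f v).natAbs)) := by
  by_contra hcon
  push Not at hcon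
  obtain ⟨K, hK⟩ : ∃ K : ℕ, K = ∑ v ∈ W.filter (fun v => ¬ f v = 0), a v := ⟨_, rfl⟩
  have hS : ∑ v ∈ W, a v = ∑ v ∈ W.filter (fun v => f v = 0), a v + K := by
    rw [hK, Finset.sum_filter_add_sum_filter_not]
  have hR : ∀ c : ℤ, c ≠ 0 → ∑ v ∈ W.filter (fun v => f v = 0 ∨ f v = c),
      a v * (if f v = 0 then 1 else 2 ^ (1 + (f v).natAbs)) =
      ∑ v ∈ W.filter (fun v => f v = 0), a v +
        (∑ v ∈ W.filter (fun v => f v = c), a v) * 2 ^ (1 + c.natAbs) := by
    intro c hc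
    rw [Finset.filter_or, Finset.sum_union]
    · congr 1
      · apply Finset.sum_congr rfl
        intro v hv
        simp only [Finset.mem_filter] at hv
        simp [hv.2]
      · rw [Finset.sum_mul]
        apply Finset.sum_congr rfl
        intro v hv
        simp only [Finset.mem_filter] at hv
        simp [hv.2, hc]
    · rw [Finset.disjoint_filter]
      intro v _ h1 h2
      exact hc (h2.symm.trans h1)
  have hlt : ∀ c : ℤ, c ≠ 0 →
      (∑ v ∈ W.filter (fun v => f v = c), a v) * 2 ^ (1 + c.natAbs) < K := by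
    intro c hc
    have := hcon c hc
    rw [hR c hc, hS] at this
    omega
  have hKpos : 0 < K := lt_of_le_of_lt (Nat.zero_le _) (hlt 1 one_ne_zero)
  obtain ⟨C, hCd⟩ : ∃ C : Finset ℤ, C = (W.filter (fun v => ¬ f v = 0)).image f := ⟨_, rfl⟩
  have hC0 : ∀ c ∈ C, c ≠ 0 := by
    intro c hc
    rw [hCd] at hc
    simp only [Finset.mem_image, Finset.mem_filter] at hc
    obtain ⟨v, ⟨_, hv⟩, rfl⟩ := hc
    exact hv
  have hKsum : K = ∑ c ∈ C, ∑ v ∈ W.filter (fun v => f v = c), a v := by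
    rw [hK, ← Finset.sum_fiberwise_of_maps_to (s := W.filter (fun v => ¬ f v = 0)) (t := C)
      (g := f) (fun v hv => by rw [hCd]; exact Finset.mem_image_of_mem f hv)]
    apply Finset.sum_congr rfl
    intro c hc
    have := hC0 c hc
    congr 1
    ext v
    simp only [Finset.mem_filter]
    constructor
    · rintro ⟨⟨h1, _⟩, h3⟩
      exact ⟨h1, h3⟩
    · rintro ⟨h1, h3⟩
      exact ⟨⟨h1, by rw [h3]; exact this⟩, h3⟩
  have hCne : C.Nonempty := by
    rw [Finset.nonempty_iff_ne_empty]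
    intro h
    rw [h, Finset.sum_empty] at hKsum
    omega
  have hq : ∀ c ∈ C, ((∑ v ∈ W.filter (fun v => f v = c), a v : ℕ) : ℚ) <
      K * (1 / 2) ^ (1 + c.natAbs) := by
    intro c hc
    have h1 := hlt c (hC0 c hc)
    have h2 : ((∑ v ∈ W.filter (fun v => f v = c), a v : ℕ) : ℚ) * 2 ^ (1 + c.natAbs) < K := by
      exact_mod_cast h1
    have h3 : (0 : ℚ) < 2 ^ (1 + c.natAbs) := by positivity
    rw [one_div, inv_pow, ← div_eq_mul_inv, lt_div_iff₀ h3]
    exact h2
  have h4 : (K : ℚ) < ∑ c ∈ C, (K : ℚ) * (1 / 2) ^ (1 + c.natAbs) := by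
    have : (K : ℚ) = ∑ c ∈ C, ((∑ v ∈ W.filter (fun v => f v = c), a v : ℕ) : ℚ) := by
      exact_mod_cast hKsum
    calc (K : ℚ) = ∑ c ∈ C, ((∑ v ∈ W.filter (fun v => f v = c), a v : ℕ) : ℚ) := this
      _ < ∑ c ∈ C, (K : ℚ) * (1 / 2) ^ (1 + c.natAbs) := Finset.sum_lt_sum_of_nonempty hCne hq
  rw [← Finset.mul_sum] at h4
  have h5 := binary_red_int C hC0
  have h6 : (K : ℚ) * ∑ c ∈ C, ((1 : ℚ) / 2) ^ (1 + c.natAbs) ≤ K * 1 := by
    apply mul_le_mul_of_nonneg_left h5 (by positivity)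
  linarith

theorem binary_red {ι : Type*} [DecidableEq ι] {n : ℕ} (V : Finset ι) (k : ι → Fin n → ℤ)
    (s : ℕ) (hk : ∀ v ∈ V, ∑ i, (k v i).natAbs ≤ s) :
    ∃ κ : Fin n → ℤ, (∀ i, κ i ≠ 0) ∧
      V.card ≤ 4 ^ s * (V.filter (fun v => ∀ i, k v i = 0 ∨ k v i = κ i)).card := by
  have claim : ∀ T : Finset (Fin n), ∃ κ : Fin n → ℤ, (∀ i, κ i ≠ 0) ∧
      V.card ≤ ∑ v ∈ V.filter (fun v => ∀ i ∈ T, k v i = 0 ∨ k v i = κ i),
        ∏ i ∈ T, (if k v i = 0 then 1 else 2 ^ (1 + (k v i).natAbs)) := by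
    intro T
    induction T using Finset.induction_on with
    | empty => exact ⟨fun _ => 1, fun _ => one_ne_zero, by simp⟩
    | insert i T hi ih =>
      obtain ⟨κ, hκ, hV⟩ := ih
      obtain ⟨c, hc, hstep⟩ := binary_red_step
        (V.filter (fun v => ∀ i ∈ T, k v i = 0 ∨ k v i = κ i))
        (fun v => ∏ i ∈ T, (if k v i = 0 then 1 else 2 ^ (1 + (k v i).natAbs))) (fun v => k v i)
      refine ⟨Function.update κ i c, ?_, ?_⟩
      · intro j
        by_cases hj : j = i
        · subst hj; simpa using hc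
        · simpa [Function.update_of_ne hj] using hκ j
      · refine hV.trans (hstep.trans (le_of_eq ?_))
        rw [Finset.filter_filter]
        apply Finset.sum_congr
        · ext v
          simp only [Finset.mem_filter, Finset.forall_mem_insert, Function.update_self]
          constructor
          · rintro ⟨h1, h2, h3⟩
            refine ⟨h1, h3, fun j hj => ?_⟩
            have : j ≠ i := fun h => hi (h ▸ hj)
            rw [Function.update_of_ne this]
            exact h2 j hj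
          · rintro ⟨h1, h2, h3⟩
            refine ⟨h1, fun j hj => ?_, h2⟩
            have hne : j ≠ i := fun h => hi (h ▸ hj)
            have h4 := h3 j hj
            rwa [Function.update_of_ne hne] at h4
        · intro v _
          rw [Finset.prod_insert hi, mul_comm]
  obtain ⟨κ, hκ, hV⟩ := claim Finset.univ
  refine ⟨κ, hκ, hV.trans ?_⟩
  have hfil : V.filter (fun v => ∀ i ∈ (Finset.univ : Finset (Fin n)), k v i = 0 ∨ k v i = κ i) =
      V.filter (fun v => ∀ i, k v i = 0 ∨ k v i = κ i) := by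
    apply Finset.filter_congr
    intro v _
    simp
  rw [hfil, mul_comm, ← smul_eq_mul]
  apply Finset.sum_le_card_nsmul
  intro v hv
  have hvV : v ∈ V := (Finset.mem_filter.mp hv).1
  calc ∏ i, (if k v i = 0 then 1 else 2 ^ (1 + (k v i).natAbs))
      ≤ ∏ i, 4 ^ (k v i).natAbs := by
        apply Finset.prod_le_prod' 
        intro i _
        split_ifs with h
        · simp [h]
        · have : 1 ≤ (k v i).natAbs := by omega
          calc 2 ^ (1 + (k v i).natAbs) ≤ 2 ^ (2 * (k v i).natAbs) :=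
                Nat.pow_le_pow_right (by norm_num) (by omega)
            _ = 4 ^ (k v i).natAbs := by rw [pow_mul]; norm_num
    _ = 4 ^ ∑ i, (k v i).natAbs := by rw [Finset.prod_pow_eq_pow_sum]
    _ ≤ 4 ^ s := Nat.pow_le_pow_right (by norm_num) (hk v hvV)

end Pool.Agent.Helper711SMP.R4

namespace Pool.Agent.Helper711SMP

alias binary_red := Pool.Agent.Helper711SMP.R4.binary_red

end Pool.Agent.Helper711SMP
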