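import Mathlib

/-!
# Tree bound
-/

set_option autoImplicit false

namespace Pool.Agent.Helper711SMP.R5

theorem tree_bound {E : Type*} [DecidableEq E] (Φ : Finset E → ℝ) (V₀ : Finset E)
    (θ M : ℝ) (hθ : 0 < θ) (hM : 0 < M)
    (hone : ∀ W ⊆ V₀, W.Nonempty → 1 ≤ Φ W)
    (hcut : ∀ W ⊆ V₀, W.Nonempty → M < (W.card : ℝ) → ∃ W₁ ⊆ W, ∃ W₂ ⊆ W,
      W₁.Nonempty ∧ W₂.Nonempty ∧ Disjoint W₁ W₂ ∧
      (W.card : ℝ) ^ θ ≤ (W₁.card : ℝ) ^ θ + (W₂.card : ℝ) ^ θ ∧ Φ W₁ + Φ W₂ ≤ Φ W)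
    (hV₀ : V₀.Nonempty) :
    ((V₀.card : ℝ) / M) ^ θ ≤ Φ V₀ := by
  have hMθ : 0 < M ^ θ := Real.rpow_pos_of_pos hM θ
  have key : ∀ n : ℕ, ∀ W ⊆ V₀, W.card ≤ n → W.Nonempty → ((W.card : ℝ) / M) ^ θ ≤ Φ W := by
    intro n
    induction n with
    | zero =>
      intro W _ hc hne
      exact absurd (Finset.card_pos.2 hne) (by omega)
    | succ n ih =>
      intro W hW hc hne
      by_cases hWM : (W.card : ℝ) ≤ M
      · refine le_trans ?_ (hone W hW hne)
        refine Real.rpow_le_one (by positivity) ?_ hθ.le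
        rw [div_le_one hM]
        exact hWM
      · rw [not_le] at hWM
        obtain ⟨W₁, h1, W₂, h2, n1, n2, hd, hc1, hc2⟩ := hcut W hW hne hWM
        have hle : W₁.card + W₂.card ≤ W.card := by
          rw [← Finset.card_union_of_disjoint hd]
          exact Finset.card_le_card (Finset.union_subset h1 h2)
        have p1 := Finset.card_pos.2 n1
        have p2 := Finset.card_pos.2 n2
        have i1 := ih W₁ (h1.trans hW) (by omega) n1
        have i2 := ih W₂ (h2.trans hW) (by omega) n2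
        rw [Real.div_rpow (Nat.cast_nonneg _) hM.le] at i1 i2 ⊢
        refine le_trans ?_ hc2
        refine le_trans ?_ (add_le_add i1 i2)
        rw [← add_div]
        exact div_le_div_of_nonneg_right hc1 hMθ.le
  exact key _ V₀ (Finset.Subset.refl _) le_rfl hV₀

end Pool.Agent.Helper711SMP.R5

namespace Pool.Agent.Helper711SMP

alias tree_bound := Pool.Agent.Helper711SMP.R5.tree_bound

end Pool.Agent.Helper711SMP
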