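import Mathlib
import Pool.Agent.Helper711_SMP.Basic
import Pool.Agent.Helper711_SMP.NV
import Pool.Agent.Helper711_SMP.K
import Pool.Agent.Helper711_SMP.R3
import Pool.Agent.Helper711_SMP.R4
import Pool.Agent.Helper711_SMP.R5

/-!
# Sparse theorem
-/

set_option autoImplicit false

namespace Pool.Agent.Helper711SMP.R6

open MeasureTheory
open scoped ENNReal

variable {n : ℕ} {f : (Fin n → ℝ) → ℝ≥0∞}

theorem r6_int_coord (hf : UD f) (hi : ∀ i, ∫⁻ x, ENNReal.ofReal |x i| * f x < ⊤) (i : Fin n) :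
    Integrable (fun x : Fin n → ℝ => x i) (volume.withDensity f) := by
  refine ⟨(measurable_pi_apply i).aestronglyMeasurable, ?_⟩
  unfold HasFiniteIntegral
  rw [lintegral_withDensity_eq_lintegral_mul volume hf.meas (measurable_pi_apply i).enorm]
  refine lt_of_eq_of_lt ?_ (hi i)
  refine lintegral_congr fun x => ?_
  simp only [Pi.mul_apply]
  rw [mul_comm, Real.enorm_eq_ofReal_abs]

theorem r6_int_lin (hf : UD f) (hi : ∀ i, ∫⁻ x, ENNReal.ofReal |x i| * f x < ⊤)
    (v : Fin n → ℝ) :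
    Integrable (fun x : Fin n → ℝ => ∑ i, v i * x i) (volume.withDensity f) :=
  integrable_finset_sum _ (fun i _ => (r6_int_coord hf hi i).const_mul (v i))

theorem r6_int_sup (hf : UD f) (hi : ∀ i, ∫⁻ x, ENNReal.ofReal |x i| * f x < ⊤)
    (V : Finset (Fin n → ℝ)) (hV : V.Nonempty) :
    Integrable (fun x : Fin n → ℝ => V.sup' hV (fun v => ∑ i, v i * x i))
      (volume.withDensity f) := by
  have h1 : (fun x : Fin n → ℝ => V.sup' hV (fun v => ∑ i, v i * x i)) =
      V.sup' hV (fun v => (fun x : Fin n → ℝ => ∑ i, v i * x i)) := by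
    ext x
    rw [Finset.sup'_apply]
  rw [h1]
  refine Finset.sup'_induction hV _ (p := fun g => Integrable g (volume.withDensity f)) ?_ ?_
  · intro a ha b hb
    exact ha.sup hb
  · intro v _
    exact r6_int_lin hf hi v

theorem r6_mono (hf : UD f) (hi : ∀ i, ∫⁻ x, ENNReal.ofReal |x i| * f x < ⊤)
    (V W : Finset (Fin n → ℝ)) (hV : V.Nonempty) (hW : W.Nonempty) (h : V ⊆ W) :
    S1 f V hV ≤ S1 f W hW := by
  unfold S1
  refine integral_mono (r6_int_sup hf hi V hV) (r6_int_sup hf hi W hW) fun x => ?_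
  exact Finset.sup'_mono _ h hV

theorem r6_lin_zero (hf : UD f) (hi : ∀ i, ∫⁻ x, ENNReal.ofReal |x i| * f x < ⊤)
    (v : Fin n → ℝ) : ∫ x, (∑ i, v i * x i) ∂(volume.withDensity f) = 0 := by
  have hmp : MeasurePreserving (fun x : Fin n → ℝ => -x) (volume.withDensity f)
      (volume.withDensity f) := by
    refine ⟨measurable_neg, ?_⟩
    ext A hA
    rw [Measure.map_apply measurable_neg hA, withDensity_apply _ (measurable_neg hA),
      withDensity_apply _ hA]
    have h0 : MeasurePreserving (fun x : Fin n → ℝ => -x) volume volume :=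
      Measure.measurePreserving_neg volume
    rw [← h0.setLIntegral_comp_preimage hA hf.meas]
    refine lintegral_congr fun x => ?_
    exact hf.eq_of_abs (fun i => by simp)
  have h1 := hmp.integral_comp (MeasurableEquiv.neg (Fin n → ℝ)).measurableEmbedding
    (fun x : Fin n → ℝ => ∑ i, v i * x i)
  have h2 : (fun x : Fin n → ℝ => ∑ i, v i * (-x) i) = fun x => -∑ i, v i * x i := by
    ext x
    rw [← Finset.sum_neg_distrib]
    exact Finset.sum_congr rfl (fun i _ => by simp)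
  simp only [h2] at h1
  rw [integral_neg] at h1
  linarith

theorem r6_nonneg (hf : UD f) (hi : ∀ i, ∫⁻ x, ENNReal.ofReal |x i| * f x < ⊤)
    (W : Finset (Fin n → ℝ)) (hW : W.Nonempty) : 0 ≤ S1 f W hW := by
  obtain ⟨v, hv⟩ := hW
  rw [← r6_lin_zero hf hi v]
  unfold S1
  refine integral_mono (r6_int_lin hf hi v) (r6_int_sup hf hi W ⟨v, hv⟩) fun x => ?_
  exact Finset.le_sup' (fun v => ∑ i, v i * x i) hv

theorem r6_NV (V : Finset (Fin n → ℝ)) (hV : V.Nonempty) (x : Fin n → ℝ) {v w : Fin n → ℝ}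
    (hv : v ∈ V) (hw : w ∈ V) : ∑ i, (v i - w i) * x i ≤ NV V hV x := by
  unfold NV
  exact (Finset.le_sup' (fun w => ∑ i, (v i - w i) * x i) hw).trans
    (Finset.le_sup' (fun v => V.sup' hV (fun w => ∑ i, (v i - w i) * x i)) hv)

theorem sparse_thm (hf : UD f) (hi : ∀ i, ∫⁻ x, ENNReal.ofReal |x i| * f x < ⊤)
    (V : Finset (Fin n → ℝ)) (hV : V.Nonempty) (hV2 : 2 ≤ V.card)
    (T : Set (Fin n → ℝ)) (h0 : ∀ t ∈ T, ∀ i, 0 ≤ t i) (hc : Convex ℝ T)
    (hd : ∀ t ∈ T, ∀ t' : Fin n → ℝ, (∀ i, 0 ≤ t' i ∧ t' i ≤ t i) → t' ∈ T)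
    (q lam r₀ θ δ A' : ℝ) (hq : 1 ≤ q) (hlam : 0 ≤ lam) (hr : 0 ≤ r₀) (hθ : 0 < θ)
    (hδ : 0 ≤ δ) (hA' : 0 < A')
    (s : ℕ) (k : (Fin n → ℝ) → Fin n → ℤ) (hk : ∀ v ∈ V, ∑ i, (k v i).natAbs ≤ s)
    (hshift : ∀ t ∈ T, (Finset.univ.filter (fun i => t i ≠ 0)).card ≤ s →
      ∀ σ : Fin n → ℝ, (∀ i, σ i = 1 ∨ σ i = -1) → ∃ ζ : Fin n → ℝ,
        (∀ i, 0 ≤ ζ i ∧ ζ i ≤ t i ∧ t i - r₀ ≤ ζ i) ∧
        ENNReal.ofReal (Real.exp (-q)) ≤
          ∫⁻ x in {x : Fin n → ℝ | NV V hV (fun i => x i - σ i * ζ i) ≤ lam}, f x)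
    (hE : ∀ v ∈ V, ∀ w ∈ V, ∀ z : Fin n → ℝ, (fun i => |z i|) ∈ T →
      |∑ i, ((v i - w i) - θ * ((k v i : ℝ) - (k w i : ℝ))) * z i| ≤ δ)
    (hsep : ∀ v ∈ V, ∀ w ∈ V, v ≠ w → ∃ t ∈ T, A' ≤ ∑ i, |v i - w i| * t i)
    (hnum : r₀ * θ * s + δ + lam ≤ A' / 100)
    (hs : 25 * (s : ℝ) ≤ Real.log V.card) :
    A' / (20000 * q) * Real.log V.card ≤ S1 f V hV := by
  classical
  obtain ⟨κ, hκ0, hκV⟩ := binary_red V k s hk
  obtain ⟨V', hV'⟩ : ∃ V', V' = V.filter (fun v => ∀ i, k v i = 0 ∨ k v i = κ i) := ⟨_, rfl⟩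
  rw [← hV'] at hκV
  have hsub : V' ⊆ V := by rw [hV']; exact Finset.filter_subset _ _
  have hkV' : ∀ v ∈ V', ∀ i, k v i = 0 ∨ k v i = κ i := by
    intro v hv
    rw [hV'] at hv
    exact (Finset.mem_filter.1 hv).2
  have hVpos : (0 : ℝ) < V.card := by exact_mod_cast (by omega : 0 < V.card)
  have hV'pos : 0 < V'.card := by
    rcases Nat.eq_zero_or_pos V'.card with h | h
    · rw [h] at hκV; omega
    · exact h
  have hV'ne : V'.Nonempty := Finset.card_pos.1 hV'pos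
  have hV'posR : (0 : ℝ) < V'.card := by exact_mod_cast hV'pos
  have hlog4 : Real.log 4 ≤ 1.4 := by
    have : (4 : ℝ) = 2 ^ 2 := by norm_num
    rw [this, Real.log_pow]
    have := Real.log_two_lt_d9
    norm_num
    linarith
  have hlog40 : 0 ≤ Real.log 4 := Real.log_nonneg (by norm_num)
  have hs0 : (0 : ℝ) ≤ s := Nat.cast_nonneg s
  have hlogV' : Real.log V.card ≤ s * Real.log 4 + Real.log V'.card := by
    have h1 : (V.card : ℝ) ≤ 4 ^ s * V'.card := by exact_mod_cast hκV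
    have h2 := Real.log_le_log hVpos h1
    rwa [Real.log_mul (by positivity) hV'posR.ne', Real.log_pow] at h2
  have hlogV'1 : 0.94 * Real.log V.card ≤ Real.log V'.card := by nlinarith
  have hlogV'2 : 23 * (s : ℝ) ≤ Real.log V'.card := by nlinarith
  have hlogV : 0 < Real.log V.card := Real.log_pos (by exact_mod_cast (by omega : 1 < V.card))
  have hlogV'0 : 0 < Real.log V'.card := by nlinarith
  -- the sets `F v`
  obtain ⟨F, hF⟩ : ∃ F : (Fin n → ℝ) → Finset (Fin n),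
      F = fun v => Finset.univ.filter (fun i => k v i ≠ 0) := ⟨_, rfl⟩
  have hFi : ∀ v i, i ∈ F v ↔ k v i ≠ 0 := by
    intro v i
    rw [hF]
    simp
  have hFs : ∀ v ∈ V, (F v).card ≤ s := by
    intro v hv
    refine le_trans ?_ (hk v hv)
    rw [Finset.card_eq_sum_ones, ← Finset.sum_subset (Finset.subset_univ (F v)) (f := fun i => (k v i).natAbs)]
    · refine Finset.sum_le_sum fun i hi => ?_
      have := (hFi v i).1 hi
      omega
    · intro i _ hi
      rw [hFi, not_not] at hi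
      simp [hi]
  obtain ⟨sg, hsg⟩ : ∃ sg : Fin n → ℝ, sg = fun i => if 0 < κ i then 1 else -1 := ⟨_, rfl⟩
  obtain ⟨a, ha⟩ : ∃ a : Fin n → ℝ, a = fun i => θ * |(κ i : ℝ)| := ⟨_, rfl⟩
  have hsg1 : ∀ i, sg i = 1 ∨ sg i = -1 := by
    intro i
    rw [hsg]
    by_cases h : 0 < κ i <;> simp [h]
  have hsg2 : ∀ i, sg i * sg i = 1 := by
    intro i
    rcases hsg1 i with h | h <;> rw [h] <;> norm_num
  have hsga : ∀ i, θ * (κ i : ℝ) = sg i * a i := by
    intro i
    rw [hsg, ha]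
    simp only
    by_cases h : 0 < κ i
    · have : (0 : ℝ) < κ i := by exact_mod_cast h
      rw [if_pos h, abs_of_pos this]; ring
    · have h' : κ i < 0 := lt_of_le_of_ne (not_lt.1 h) (hκ0 i)
      have : (κ i : ℝ) < 0 := by exact_mod_cast h'
      rw [if_neg h, abs_of_neg this]; ring
  have ha0 : ∀ i, 0 ≤ a i := by
    intro i
    rw [ha]
    positivity
  have hkF : ∀ v ∈ V', ∀ i, θ * (k v i : ℝ) = if i ∈ F v then sg i * a i else 0 := by
    intro v hv i
    by_cases h : i ∈ F v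
    · rw [if_pos h, ← hsga]
      have h1 := (hFi v i).1 h
      rcases hkV' v hv i with h2 | h2
      · exact absurd h2 h1
      · rw [h2]
    · rw [if_neg h]
      rw [hFi, not_not] at h
      rw [h]; simp
  have haF : ∀ v ∈ V', ∑ i ∈ F v, a i ≤ θ * s := by
    intro v hv
    have h1 : ∑ i ∈ F v, a i ≤ ∑ i, θ * ((k v i).natAbs : ℝ) := by
      calc ∑ i ∈ F v, a i = ∑ i ∈ F v, θ * ((k v i).natAbs : ℝ) := by
            refine Finset.sum_congr rfl fun i hi => ?_
            have h2 := (hFi v i).1 hi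
            rcases hkV' v hv i with h3 | h3
            · exact absurd h3 h2
            · rw [ha, h3, Nat.cast_natAbs, Int.cast_abs]
        _ ≤ _ := Finset.sum_le_sum_of_subset_of_nonneg (Finset.subset_univ _)
            (fun i _ _ => by positivity)
    rw [← Finset.mul_sum] at h1
    refine h1.trans ?_
    have h2 : ∑ i, ((k v i).natAbs : ℝ) ≤ s := by exact_mod_cast hk v (hsub hv)
    gcongr
  -- step (1)
  have hδA : δ ≤ A' / 2 := by
    have h1 : 0 ≤ r₀ * θ * s := by positivity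
    linarith
  obtain ⟨L, hL⟩ : ∃ L : (Fin n → ℝ) → (Fin n → ℝ), L = fun t i => (2 / A') * a i * t i := ⟨_, rfl⟩
  have hpair : ∀ v w : Fin n → ℝ, v ∈ V' → w ∈ V' → v ≠ w →
      ∃ t ∈ T, 1 ≤ ∑ i ∈ symmDiff (F v) (F w), L t i := by
    intro v w hv hw hvw
    obtain ⟨t, ht, hA⟩ := hsep v (hsub hv) w (hsub hw) hvw
    refine ⟨t, ht, ?_⟩
    obtain ⟨z, hz⟩ : ∃ z : Fin n → ℝ, z = fun i => if 0 ≤ v i - w i then t i else -t i := ⟨_, rfl⟩
    have hzabs : ∀ i, |z i| = t i := by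
      intro i
      rw [hz]
      simp only
      by_cases h : 0 ≤ v i - w i
      · rw [if_pos h, abs_of_nonneg (h0 t ht i)]
      · rw [if_neg h, abs_neg, abs_of_nonneg (h0 t ht i)]
    have hzT : (fun i => |z i|) ∈ T := by
      have : (fun i => |z i|) = t := funext hzabs
      rw [this]; exact ht
    have hzprod : ∀ i, (v i - w i) * z i = |v i - w i| * t i := by
      intro i
      rw [hz]
      simp only
      by_cases h : 0 ≤ v i - w i
      · rw [if_pos h, abs_of_nonneg h]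
      · rw [if_neg h, abs_of_neg (not_le.1 h)]; ring
    have h1 := hE v (hsub hv) w (hsub hw) z hzT
    have h2 : ∑ i, ((v i - w i) - θ * ((k v i : ℝ) - (k w i : ℝ))) * z i =
        ∑ i, |v i - w i| * t i - ∑ i, θ * ((k v i : ℝ) - (k w i : ℝ)) * z i := by
      rw [← Finset.sum_sub_distrib]
      refine Finset.sum_congr rfl fun i _ => ?_
      rw [← hzprod]; ring
    rw [h2] at h1
    have h3 := (abs_le.1 h1).2
    have h4 : ∑ i, θ * ((k v i : ℝ) - (k w i : ℝ)) * z i ≤ ∑ i ∈ symmDiff (F v) (F w), a i * t i := by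
      rw [← Finset.sum_filter_add_sum_filter_not Finset.univ (fun i => i ∈ symmDiff (F v) (F w))]
      have e1 : ∑ i ∈ Finset.univ.filter (fun i => i ∉ symmDiff (F v) (F w)),
          θ * ((k v i : ℝ) - (k w i : ℝ)) * z i = 0 := by
        refine Finset.sum_eq_zero fun i hi => ?_
        have hi' := (Finset.mem_filter.1 hi).2
        rw [mul_sub, hkF v hv i, hkF w hw i]
        rw [Finset.mem_symmDiff] at hi'
        by_cases hv1 : i ∈ F v <;> by_cases hw1 : i ∈ F w <;> simp [hv1, hw1] at hi' ⊢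
      rw [e1, add_zero]
      have e2 : Finset.univ.filter (fun i => i ∈ symmDiff (F v) (F w)) = symmDiff (F v) (F w) := by
        ext i; simp
      rw [e2]
      refine Finset.sum_le_sum fun i hi => ?_
      refine (le_abs_self _).trans ?_
      rw [abs_mul, hzabs]
      have ht0 := h0 t ht i
      refine mul_le_mul_of_nonneg_right ?_ ht0
      rw [mul_sub, hkF v hv i, hkF w hw i]
      rw [Finset.mem_symmDiff] at hi
      have habs : |sg i * a i| = a i := by
        rw [abs_mul, abs_of_nonneg (ha0 i)]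
        rcases hsg1 i with h | h <;> rw [h] <;> simp
      rcases hi with ⟨h5, h6⟩ | ⟨h5, h6⟩
      · rw [if_pos h5, if_neg h6, sub_zero, habs]
      · rw [if_pos h5, if_neg h6, zero_sub, abs_neg, habs]
    have h5 : A' / 2 ≤ ∑ i ∈ symmDiff (F v) (F w), a i * t i := by linarith
    rw [hL]
    simp only
    have h6 : ∑ i ∈ symmDiff (F v) (F w), 2 / A' * a i * t i =
        2 / A' * ∑ i ∈ symmDiff (F v) (F w), a i * t i := by
      rw [Finset.mul_sum]
      exact Finset.sum_congr rfl (fun i _ => by ring)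
    rw [h6]
    calc (1 : ℝ) = 2 / A' * (A' / 2) := by field_simp
      _ ≤ _ := by gcongr
  choose! tt htt1 htt2 using hpair
  obtain ⟨Z, hZ⟩ : ∃ Z : Finset (Fin n → ℝ), Z = ((V' ×ˢ V').filter (fun p => p.1 ≠ p.2)).image
      (fun p => L (tt p.1 p.2)) := ⟨_, rfl⟩
  have hZT : (Z : Set (Fin n → ℝ)) ⊆ L '' T := by
    intro ζ hζ
    rw [Finset.mem_coe, hZ, Finset.mem_image] at hζ
    obtain ⟨p, hp, rfl⟩ := hζ
    rw [Finset.mem_filter, Finset.mem_product] at hp
    exact ⟨_, htt1 _ _ hp.1.1 hp.1.2 hp.2, rfl⟩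
  have hLT : Convex ℝ (L '' T) := by
    intro x hx y hy p r hp hr hpr
    obtain ⟨t, ht, rfl⟩ := hx
    obtain ⟨u, hu, rfl⟩ := hy
    refine ⟨p • t + r • u, hc ht hu hp hr hpr, ?_⟩
    ext i
    rw [hL]
    simp only [Pi.add_apply, Pi.smul_apply, smul_eq_mul]
    ring
  have hZ0 : ∀ ζ ∈ Z, ∀ i, 0 ≤ ζ i := by
    intro ζ hζ i
    obtain ⟨t, ht, rfl⟩ := hZT hζ
    rw [hL]
    have := h0 t ht i
    have := ha0 i
    positivity
  have hZsep : ∀ v ∈ V', ∀ w ∈ V', v ≠ w → ∃ ζ ∈ Z, 1 ≤ ∑ i ∈ symmDiff (F v) (F w), ζ i := by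
    intro v hv w hw hvw
    refine ⟨L (tt v w), ?_, htt2 v w hv hw hvw⟩
    rw [hZ, Finset.mem_image]
    exact ⟨(v, w), Finset.mem_filter.2 ⟨Finset.mem_product.2 ⟨hv, hw⟩, hvw⟩, rfl⟩
  -- step (2)
  obtain ⟨b, hb⟩ : ∃ b, b = 30 * q / (A' / 25) := ⟨_, rfl⟩
  have hb0 : 0 < b := by rw [hb]; positivity
  obtain ⟨M, hM⟩ : ∃ M : ℝ, M = (V'.card : ℝ) ^ (1 / 2 : ℝ) := ⟨_, rfl⟩
  have hM1 : 1 ≤ M := by
    rw [hM]
    exact Real.one_le_rpow (by exact_mod_cast hV'pos) (by norm_num)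
  have hM0 : 0 < M := by linarith
  obtain ⟨Φ, hΦ⟩ : ∃ Φ : Finset (Fin n → ℝ) → ℝ,
      Φ = fun W => if h : W.Nonempty then Real.exp (b * S1 f W h) else 0 := ⟨_, rfl⟩
  have hΦW : ∀ (W : Finset (Fin n → ℝ)) (h : W.Nonempty), Φ W = Real.exp (b * S1 f W h) := by
    intro W h
    rw [hΦ]
    simp only
    rw [dif_pos h]
  have hone : ∀ W ⊆ V', W.Nonempty → 1 ≤ Φ W := by
    intro W _ hW
    rw [hΦW W hW]
    have := r6_nonneg hf hi W hW
    exact Real.one_le_exp (by positivity)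
  have hcut : ∀ W ⊆ V', W.Nonempty → M < (W.card : ℝ) → ∃ W₁ ⊆ W, ∃ W₂ ⊆ W,
      W₁.Nonempty ∧ W₂.Nonempty ∧ Disjoint W₁ W₂ ∧
      (W.card : ℝ) ^ (1 / 8 : ℝ) ≤ (W₁.card : ℝ) ^ (1 / 8 : ℝ) + (W₂.card : ℝ) ^ (1 / 8 : ℝ) ∧
      Φ W₁ + Φ W₂ ≤ Φ W := by
    intro W hWV hWne hMW
    have hW2 : 2 ≤ W.card := by
      have : (1 : ℝ) < W.card := by linarith
      exact_mod_cast this
    have hlogW : 10 * (s : ℝ) ≤ Real.log W.card := by
      have h1 : Real.log M ≤ Real.log W.card := Real.log_le_log hM0 hMW.le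
      rw [hM, Real.log_rpow hV'posR] at h1
      linarith
    obtain ⟨v₀, hv₀, ζ, hζ, τ, hW1ne, hW2ne, hcard⟩ := cut_exists W F s
      (fun v hv => hFs v (hsub (hWV hv))) Z hZ0
      (fun v hv w hw hvw => hZsep v (hWV hv) w (hWV hw) hvw) hW2 hlogW
    obtain ⟨t, ht, rfl⟩ := convexHull_min hZT hLT hζ
    obtain ⟨t', ht'⟩ : ∃ t' : Fin n → ℝ, t' = fun i => if i ∈ F v₀ then t i else 0 := ⟨_, rfl⟩
    have ht'b : ∀ i, 0 ≤ t' i ∧ t' i ≤ t i := by
      intro i
      rw [ht']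
      simp only
      have := h0 t ht i
      split_ifs
      · exact ⟨this, le_rfl⟩
      · exact ⟨le_rfl, this⟩
    have ht'T : t' ∈ T := hd t ht t' ht'b
    have ht'card : (Finset.univ.filter (fun i => t' i ≠ 0)).card ≤ s := by
      refine le_trans (Finset.card_le_card ?_) (hFs v₀ (hsub (hWV hv₀)))
      intro i hi
      have h1 := (Finset.mem_filter.1 hi).2
      by_contra h2
      apply h1
      rw [ht']
      simp only
      rw [if_neg h2]
    obtain ⟨ζ', hζ', hmeas⟩ := hshift t' ht'T ht'card sg hsg1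
    have hζ'0 : ∀ i, 0 ≤ ζ' i := fun i => (hζ' i).1
    have hζ'T : ζ' ∈ T := hd t' ht'T ζ' (fun i => ⟨(hζ' i).1, (hζ' i).2.1⟩)
    have hζ'F : ∀ i, i ∉ F v₀ → ζ' i = 0 := by
      intro i hi
      have h1 := (hζ' i).2.1
      rw [ht'] at h1
      simp only at h1
      rw [if_neg hi] at h1
      exact le_antisymm h1 (hζ'0 i)
    obtain ⟨z, hz⟩ : ∃ z : Fin n → ℝ, z = fun i => sg i * ζ' i := ⟨_, rfl⟩
    have hzT : (fun i => |z i|) ∈ T := by
      have : (fun i => |z i|) = ζ' := by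
        ext i
        rw [hz]
        simp only
        rw [abs_mul, abs_of_nonneg (hζ'0 i)]
        rcases hsg1 i with h | h <;> rw [h] <;> simp
      rw [this]; exact hζ'T
    have hkz : ∀ w ∈ V', ∑ i, θ * (k w i : ℝ) * z i = ∑ i ∈ F w ∩ F v₀, a i * ζ' i := by
      intro w hw
      rw [← Finset.sum_subset (Finset.subset_univ (F w ∩ F v₀))]
      · refine Finset.sum_congr rfl fun i hi => ?_
        rw [hkF w hw i, if_pos (Finset.mem_inter.1 hi).1, hz]
        simp only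
        calc sg i * a i * (sg i * ζ' i) = (sg i * sg i) * (a i * ζ' i) := by ring
          _ = _ := by rw [hsg2, one_mul]
      · intro i _ hi
        by_cases h1 : i ∈ F w
        · have h2 : i ∉ F v₀ := fun h => hi (Finset.mem_inter.2 ⟨h1, h⟩)
          rw [hz]
          simp only
          rw [hζ'F i h2]; ring
        · rw [hkF w hw i, if_neg h1, zero_mul]
    have hmain : ∀ w ∈ W.filter (fun w => τ + 1 / 10 ≤ ∑ i ∈ F w ∩ F v₀, L t i),
        ∀ w' ∈ W.filter (fun w => ∑ i ∈ F w ∩ F v₀, L t i ≤ τ),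
        A' / 20 - r₀ * θ * s - δ ≤ ∑ i, (w i - w' i) * z i := by
      intro w hw w' hw'
      obtain ⟨hwW, hwt⟩ := Finset.mem_filter.1 hw
      obtain ⟨hwW', hwt'⟩ := Finset.mem_filter.1 hw'
      have hwV := hWV hwW
      have hwV' := hWV hwW'
      have h1 := (abs_le.1 (hE w (hsub hwV) w' (hsub hwV') z hzT)).1
      have h2 : ∑ i, ((w i - w' i) - θ * ((k w i : ℝ) - (k w' i : ℝ))) * z i =
          ∑ i, (w i - w' i) * z i - (∑ i, θ * (k w i : ℝ) * z i - ∑ i, θ * (k w' i : ℝ) * z i) := by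
        rw [← Finset.sum_sub_distrib, ← Finset.sum_sub_distrib]
        exact Finset.sum_congr rfl (fun i _ => by ring)
      rw [h2, hkz w hwV, hkz w' hwV'] at h1
      have hLs : ∀ u : Fin n → ℝ, ∑ i ∈ F u ∩ F v₀, L t i =
          2 / A' * ∑ i ∈ F u ∩ F v₀, a i * t i := by
        intro u
        rw [Finset.mul_sum, hL]
        exact Finset.sum_congr rfl (fun i _ => by ring)
      rw [hLs] at hwt hwt'
      have h3 : ∑ i ∈ F w ∩ F v₀, a i * t i - r₀ * θ * s ≤ ∑ i ∈ F w ∩ F v₀, a i * ζ' i := by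
        have e1 : ∀ i ∈ F w ∩ F v₀, a i * t i - r₀ * a i ≤ a i * ζ' i := by
          intro i hi
          have e2 := (hζ' i).2.2
          rw [ht'] at e2
          simp only at e2
          rw [if_pos (Finset.mem_inter.1 hi).2] at e2
          have := ha0 i
          nlinarith
        have e3 := Finset.sum_le_sum e1
        rw [Finset.sum_sub_distrib, ← Finset.mul_sum] at e3
        have e4 : ∑ i ∈ F w ∩ F v₀, a i ≤ θ * s :=
          (Finset.sum_le_sum_of_subset_of_nonneg Finset.inter_subset_left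
            (fun i _ _ => ha0 i)).trans (haF w hwV)
        have e5 : r₀ * ∑ i ∈ F w ∩ F v₀, a i ≤ r₀ * (θ * s) := by gcongr
        linarith
      have h4 : ∑ i ∈ F w' ∩ F v₀, a i * ζ' i ≤ ∑ i ∈ F w' ∩ F v₀, a i * t i := by
        refine Finset.sum_le_sum fun i _ => ?_
        have e1 := (hζ' i).2.1
        have e2 := (ht'b i).2
        have := ha0 i
        gcongr
        exact e1.trans e2
      have h5 : A' / 20 ≤ ∑ i ∈ F w ∩ F v₀, a i * t i - ∑ i ∈ F w' ∩ F v₀, a i * t i := by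
        have e1 : (1 : ℝ) / 10 ≤ 2 / A' * (∑ i ∈ F w ∩ F v₀, a i * t i
            - ∑ i ∈ F w' ∩ F v₀, a i * t i) := by
          rw [mul_sub]; linarith
        rw [div_mul_eq_mul_div, le_div_iff₀ hA'] at e1
        linarith
      linarith
    have hset : {x : Fin n → ℝ | NV V hV (fun i => x i - sg i * ζ' i) ≤ lam} ⊆
        {x : Fin n → ℝ | ∀ v ∈ W.filter (fun w => τ + 1 / 10 ≤ ∑ i ∈ F w ∩ F v₀, L t i),
          ∀ w ∈ W.filter (fun w => ∑ i ∈ F w ∩ F v₀, L t i ≤ τ),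
            A' / 25 ≤ ∑ i, (v i - w i) * x i} := by
      intro x hx w hw w' hw'
      simp only [Set.mem_setOf_eq] at hx
      have h1 := hmain w hw w' hw'
      have h2 := r6_NV V hV (fun i => x i - sg i * ζ' i)
        (hsub (hWV (Finset.mem_filter.1 hw').1)) (hsub (hWV (Finset.mem_filter.1 hw).1))
      have h3 : ∑ i, (w' i - w i) * (x i - sg i * ζ' i) =
          ∑ i, (w i - w' i) * z i - ∑ i, (w i - w' i) * x i := by
        rw [hz, ← Finset.sum_sub_distrib]
        exact Finset.sum_congr rfl (fun i _ => by ring)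
      rw [h3] at h2
      linarith
    have hO : ENNReal.ofReal (Real.exp (-q)) ≤
        ∫⁻ x in {x : Fin n → ℝ | ∀ v ∈ W.filter (fun w => τ + 1 / 10 ≤ ∑ i ∈ F w ∩ F v₀, L t i),
          ∀ w ∈ W.filter (fun w => ∑ i ∈ F w ∩ F v₀, L t i ≤ τ),
            A' / 25 ≤ ∑ i, (v i - w i) * x i}, f x :=
      hmeas.trans (lintegral_mono_set hset)
    have hgr := growth hf hi _ _ hW1ne hW2ne q (A' / 25) hq (by positivity) hO
    refine ⟨_, ?_, _, ?_, hW1ne, hW2ne, ?_, hcard, ?_⟩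
    · exact Finset.filter_subset _ _
    · exact Finset.filter_subset _ _
    · rw [Finset.disjoint_left]
      intro w hw hw'
      simp only [Finset.mem_filter] at hw hw'
      linarith [hw.2, hw'.2]
    · rw [hΦW _ hW1ne, hΦW _ hW2ne, hΦW _ hWne]
      rw [← hb] at hgr
      refine hgr.trans (Real.exp_le_exp.2 ?_)
      have hss : W.filter (fun w => τ + 1 / 10 ≤ ∑ i ∈ F w ∩ F v₀, L t i) ∪
          W.filter (fun w => ∑ i ∈ F w ∩ F v₀, L t i ≤ τ) ⊆ W :=
        Finset.union_subset (Finset.filter_subset _ _) (Finset.filter_subset _ _)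
      have := r6_mono hf hi _ W (hW1ne.mono Finset.subset_union_left) hWne hss
      gcongr
  have hfin := tree_bound Φ V' (1 / 8) M (by norm_num) hM0 hone hcut hV'ne
  rw [hΦW V' hV'ne] at hfin
  have h1 : Real.exp (b * S1 f V' hV'ne) ≤ Real.exp (b * S1 f V hV) := by
    refine Real.exp_le_exp.2 ?_
    have := r6_mono hf hi V' V hV'ne hV hsub
    gcongr
  have h2 := hfin.trans h1
  have h3 := Real.log_le_log (by positivity) h2
  rw [Real.log_exp, Real.log_rpow (by positivity), Real.log_div hV'posR.ne' hM0.ne', hM,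
    Real.log_rpow hV'posR] at h3
  have h4 : 1 / 16 * (0.94 * Real.log V.card) ≤ b * S1 f V hV := by linarith
  have hbval : b = 750 * q / A' := by
    rw [hb]; field_simp; ring
  rw [hbval] at h4
  have hq0 : 0 < q := by linarith
  have h5 : A' / (20000 * q) * Real.log V.card ≤ (A' / (750 * q)) * (1 / 16 * (0.94 * Real.log V.card)) := by
    rw [div_mul_eq_mul_div, div_mul_eq_mul_div, div_le_div_iff₀ (by positivity) (by positivity)]
    have : 0 < A' * Real.log V.card * q := by positivity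
    nlinarith
  calc A' / (20000 * q) * Real.log V.card
      ≤ (A' / (750 * q)) * (1 / 16 * (0.94 * Real.log V.card)) := h5
    _ ≤ (A' / (750 * q)) * (750 * q / A' * S1 f V hV) := by gcongr
    _ = S1 f V hV := by field_simp

end Pool.Agent.Helper711SMP.R6

namespace Pool.Agent.Helper711SMP

alias sparse_thm := Pool.Agent.Helper711SMP.R6.sparse_thm

end Pool.Agent.Helper711SMP
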