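import Mathlib
import Pool.Agent.Helper711_SMP.Basic
import Pool.Agent.Helper711_SMP.Rad
import Pool.Agent.Helper711_SMP.Uni
import Pool.Agent.Helper711_SMP.NV
import Pool.Agent.Helper711_SMP.N0
import Pool.Agent.Helper711_SMP.J1
import Pool.Agent.Helper711_SMP.J2
import Pool.Agent.Helper711_SMP.Clip
import Pool.Agent.Helper711_SMP.R6

/-!
# Sparse case
-/

set_option autoImplicit false

namespace Pool.Agent.Helper711SMP.B3

open MeasureTheory
open scoped ENNReal

variable {n : ℕ} {f : (Fin n → ℝ) → ℝ≥0∞}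

/-- truncation of a real number towards zero -/
noncomputable def sc_tr (a : ℝ) : ℤ := if 0 ≤ a then ⌊a⌋ else ⌈a⌉

theorem sc_tr_abs (a : ℝ) : ((sc_tr a).natAbs : ℝ) ≤ |a| := by
  rw [Nat.cast_natAbs, Int.cast_abs]
  unfold sc_tr
  split_ifs with h
  · have h1 : (0 : ℝ) ≤ (⌊a⌋ : ℝ) := by exact_mod_cast Int.floor_nonneg.mpr h
    rw [abs_of_nonneg h1, abs_of_nonneg h]
    exact Int.floor_le a
  · push Not at h
    have h1 : ((⌈a⌉ : ℤ) : ℝ) ≤ 0 := by
      have : ⌈a⌉ ≤ 0 := Int.ceil_le.mpr (by simpa using h.le)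
      exact_mod_cast this
    rw [abs_of_nonpos h1, abs_of_neg h]
    have := Int.le_ceil a
    linarith

theorem sc_tr_dist (a : ℝ) : |a - (sc_tr a : ℝ)| ≤ 1 := by
  unfold sc_tr
  split_ifs with h
  · have h1 := Int.floor_le a
    have h2 := Int.lt_floor_add_one a
    rw [abs_le]
    constructor <;> linarith
  · have h1 := Int.le_ceil a
    have h2 := Int.ceil_lt_add_one a
    rw [abs_le]
    constructor <;> linarith

theorem sc_tr_zero : sc_tr 0 = 0 := by simp [sc_tr]

/-- the rounding error of the truncated part -/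
theorem sc_err {n : ℕ} (y z : Fin n → ℝ) (p A τ θ : ℝ) (hp : 8 ≤ p) (hA : 0 < A)
    (hθ : θ = 600 * A / p)
    (h1 : ((Finset.univ.filter (fun i => clip τ (y i) ≠ y i)).card : ℝ) ≤ 12 * p / 4800000)
    (hz : ∀ i, |z i| ≤ 1 / 3) :
    |∑ i, ((y i - clip τ (y i)) - θ * (sc_tr ((y i - clip τ (y i)) / θ) : ℝ)) * z i| ≤
      A / 2000 := by
  have hp0 : 0 < p := by linarith
  have hθ0 : 0 < θ := by rw [hθ]; positivity
  have hterm : ∀ i, |((y i - clip τ (y i)) - θ * (sc_tr ((y i - clip τ (y i)) / θ) : ℝ)) * z i| ≤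
      if clip τ (y i) ≠ y i then θ / 3 else 0 := by
    intro i
    split_ifs with h
    · have e1 : (y i - clip τ (y i)) - θ * (sc_tr ((y i - clip τ (y i)) / θ) : ℝ) =
          θ * ((y i - clip τ (y i)) / θ - (sc_tr ((y i - clip τ (y i)) / θ) : ℝ)) := by
        rw [mul_sub, mul_div_cancel₀ _ hθ0.ne']
      rw [e1, abs_mul, abs_mul, abs_of_pos hθ0]
      have e2 := sc_tr_dist ((y i - clip τ (y i)) / θ)
      calc θ * |(y i - clip τ (y i)) / θ - (sc_tr ((y i - clip τ (y i)) / θ) : ℝ)| * |z i|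
          ≤ θ * 1 * (1 / 3) := by
            gcongr
            exact hz i
        _ = θ / 3 := by ring
    · push Not at h
      have : y i - clip τ (y i) = 0 := by rw [h]; ring
      rw [this, zero_div, sc_tr_zero]
      simp
  calc |∑ i, ((y i - clip τ (y i)) - θ * (sc_tr ((y i - clip τ (y i)) / θ) : ℝ)) * z i|
      ≤ ∑ i, |((y i - clip τ (y i)) - θ * (sc_tr ((y i - clip τ (y i)) / θ) : ℝ)) * z i| :=
        Finset.abs_sum_le_sum_abs _ _
    _ ≤ ∑ i, if clip τ (y i) ≠ y i then θ / 3 else 0 := Finset.sum_le_sum fun i _ => hterm i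
    _ = ((Finset.univ.filter (fun i => clip τ (y i) ≠ y i)).card : ℝ) * (θ / 3) := by
        rw [← Finset.sum_filter, Finset.sum_const, nsmul_eq_mul]
    _ ≤ (12 * p / 4800000) * (θ / 3) := by gcongr
    _ = A / 2000 := by rw [hθ]; field_simp; ring

theorem sc_num (A p : ℝ) (hp : 8 ≤ p) (hA : 0 < A) :
    A / 160000 ≤ A / (20000 * (3 * p + 2)) * (p / 2) := by
  have h : 0 < 20000 * (3 * p + 2) := by linarith
  rw [div_mul_eq_mul_div, div_le_div_iff₀ (by norm_num) h]
  nlinarith

theorem sparse_case (V : Finset (Fin n → ℝ)) (hV : V.Nonempty) (u : Fin n → ℝ) (p A τ : ℝ)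
    (hp : 8 ≤ p) (hA : 0 < A) (hτ : τ = 4800000 * A / p)
    (hcl : ∀ v ∈ V,
      ((Finset.univ.filter (fun i => clip τ (v i - u i) ≠ v i - u i)).card : ℝ) ≤
          12 * p / 4800000 ∧
      ∑ i, |(v i - u i) - clip τ (v i - u i)| ≤ 12 * A)
    (hclose : ∀ v ∈ V, ∀ w ∈ V, ∀ z : Fin n → ℝ, (∀ i, |z i| ≤ 1 / 3) → ∑ i, z i ^ 2 ≤ p →
      ∑ i, (clip τ (v i - u i) - clip τ (w i - u i)) * z i ≤ 2 * A / 1000)
    (hsep : ∀ v ∈ V, ∀ w ∈ V, v ≠ w → ∃ z : Fin n → ℝ, (∀ i, |z i| ≤ 1 / 3) ∧
      ∑ i, z i ^ 2 ≤ p ∧ A ≤ ∑ i, (v i - w i) * z i)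
    (hcard : Real.exp (p / 2) ≤ (V.card : ℝ)) :
    A / 80000 ≤ rad (NV V hV) (fun _ => 1) := by
  by_contra hcon
  push Not at hcon
  obtain ⟨N, hN, hNV⟩ := (NV_facts V hV).1
  have hNfun : (fun x => N x) = NV V hV := funext hNV
  have hrad : rad (fun x => N x) (fun _ => 1) < A / 80000 := by rw [hNfun]; exact hcon
  have hrad0 : 0 ≤ rad (fun x => N x) (fun _ => (1 : ℝ)) := by
    unfold rad
    apply div_nonneg _ (by positivity)
    exact Finset.sum_nonneg fun e _ => apply_nonneg N _
  have hp0 : 0 < p := by linarith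
  obtain ⟨θ, hθd⟩ : ∃ θ : ℝ, θ = 600 * A / p := ⟨_, rfl⟩
  have hθ : 0 < θ := by rw [hθd]; positivity
  have hi : ∀ i, ∫⁻ x, ENNReal.ofReal |x i| * uni n x < ⊤ := fun i =>
    lt_of_le_of_lt ((uni_facts (n := n)).2.1 i) ENNReal.one_lt_top
  have hcard0 : 0 < (V.card : ℝ) := lt_of_lt_of_le (Real.exp_pos _) hcard
  have hlog : p / 2 ≤ Real.log V.card := by
    rw [Real.le_log_iff_exp_le hcard0]
    exact hcard
  have hV2 : 2 ≤ V.card := by
    have h1 : (p / 2 + 1 : ℝ) ≤ Real.exp (p / 2) := Real.add_one_le_exp _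
    have h2 : (2 : ℝ) ≤ V.card := by linarith
    exact_mod_cast h2
  have hfloor : ((⌊p / 50⌋₊ : ℕ) : ℝ) ≤ p / 50 := Nat.floor_le (by positivity)
  have main := sparse_thm (f := uni n) (uni_facts (n := n)).1 hi V hV hV2
    {t | (∀ i, 0 ≤ t i ∧ t i ≤ 1 / 3) ∧ ∑ i, t i ^ 2 ≤ p}
    (fun t ht i => (ht.1 i).1)
    (by
      intro x hx y hy a b ha hb hab
      refine ⟨fun i => ⟨?_, ?_⟩, ?_⟩
      · have h1 := (hx.1 i).1
        have h2 := (hy.1 i).1
        simp only [Pi.add_apply, Pi.smul_apply, smul_eq_mul]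
        positivity
      · have h1 := (hx.1 i).2
        have h2 := (hy.1 i).2
        simp only [Pi.add_apply, Pi.smul_apply, smul_eq_mul]
        calc a * x i + b * y i ≤ a * (1 / 3) + b * (1 / 3) := by gcongr
          _ = 1 / 3 := by rw [← add_mul, hab, one_mul]
      · have h1 := hx.2
        have h2 := hy.2
        simp only [Pi.add_apply, Pi.smul_apply, smul_eq_mul]
        calc ∑ i, (a * x i + b * y i) ^ 2 ≤ ∑ i, (a * x i ^ 2 + b * y i ^ 2) := by
              apply Finset.sum_le_sum
              intro i _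
              have hb' : b = 1 - a := by linarith
              subst hb'
              nlinarith [mul_nonneg (mul_nonneg ha hb) (sq_nonneg (x i - y i))]
          _ = a * ∑ i, x i ^ 2 + b * ∑ i, y i ^ 2 := by
              rw [Finset.sum_add_distrib, Finset.mul_sum, Finset.mul_sum]
          _ ≤ a * p + b * p := by gcongr
          _ = p := by rw [← add_mul, hab, one_mul])
    (by
      intro t ht t' ht'
      refine ⟨fun i => ⟨(ht' i).1, (ht' i).2.trans (ht.1 i).2⟩, ?_⟩
      refine le_trans (Finset.sum_le_sum fun i _ => ?_) ht.2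
      exact pow_le_pow_left₀ (ht' i).1 (ht' i).2 2)
    (3 * p + 2) (4 * (A / 80000)) 0 θ (3 * A / 1000) A (by linarith) (by positivity) le_rfl hθ
    (by positivity) hA ⌊p / 50⌋₊ (fun v i => sc_tr (((v i - u i) - clip τ (v i - u i)) / θ))
    (by
      intro v hv
      apply Nat.le_floor
      push_cast
      calc ∑ i, ((sc_tr (((v i - u i) - clip τ (v i - u i)) / θ)).natAbs : ℝ)
          ≤ ∑ i, |((v i - u i) - clip τ (v i - u i)) / θ| :=
            Finset.sum_le_sum fun i _ => sc_tr_abs _
        _ = (∑ i, |(v i - u i) - clip τ (v i - u i)|) / θ := by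
            rw [Finset.sum_div]
            apply Finset.sum_congr rfl
            intro i _
            rw [abs_div, abs_of_pos hθ]
        _ ≤ 12 * A / θ := by
            gcongr
            exact (hcl v hv).2
        _ = p / 50 := by rw [hθd]; field_simp; norm_num)
    (by
      intro t ht _ σ hσ
      refine ⟨t, fun i => ⟨(ht.1 i).1, le_rfl, by linarith⟩, ?_⟩
      have hσ1 : ∀ i, |σ i| = 1 := by
        intro i
        rcases hσ i with h | h <;> rw [h] <;> simp
      have h1 := uni_shift N hN (A / 80000) (by positivity) hrad.le (fun i => σ i * t i)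
        (fun i => by
          rw [abs_mul, hσ1 i, one_mul, abs_of_nonneg (ht.1 i).1]
          exact (ht.1 i).2) p (by
          refine le_trans (le_of_eq ?_) ht.2
          apply Finset.sum_congr rfl
          intro i _
          rw [mul_pow, ← sq_abs (σ i), hσ1 i]
          ring)
      have h2 : Real.exp (-(3 * p + 2)) ≤ Real.exp (-(3 * p)) / 4 := by
        have e1 : Real.exp (-(3 * p + 2)) = Real.exp (-(3 * p)) * Real.exp (-2) := by
          rw [← Real.exp_add]; congr 1; ring
        have e2 : Real.exp (-2) ≤ 1 / 4 := by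
          have e3 : Real.exp (-1) ≤ 1 / 2 := by
            have e4 : (2 : ℝ) ≤ Real.exp 1 := by
              have := Real.add_one_le_exp (1 : ℝ)
              linarith
            rw [Real.exp_neg, ← one_div]
            exact one_div_le_one_div_of_le (by norm_num) e4
          have e5 : Real.exp (-2) = Real.exp (-1) * Real.exp (-1) := by
            rw [← Real.exp_add]; norm_num
          rw [e5]
          have e6 := Real.exp_pos (-1)
          nlinarith
        rw [e1]
        have := Real.exp_pos (-(3 * p))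
        nlinarith
      refine le_trans (ENNReal.ofReal_le_ofReal h2) (h1.trans (le_of_eq ?_))
      have hset : {x : Fin n → ℝ | N (x - fun i => σ i * t i) ≤ 4 * (A / 80000)} =
          {x : Fin n → ℝ | NV V hV (fun i => x i - σ i * t i) ≤ 4 * (A / 80000)} := by
        ext x
        simp only [Set.mem_ofPred_eq]
        rw [hNV]
        rfl
      rw [hset])
    (by
      intro v hv w hw z hz
      have hz1 : ∀ i, |z i| ≤ 1 / 3 := fun i => (hz.1 i).2
      have hz2 : ∑ i, z i ^ 2 ≤ p := by
        have := hz.2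
        simpa only [sq_abs] using this
      have a1 := hclose v hv w hw z hz1 hz2
      have a2 := hclose v hv w hw (fun i => -z i) (fun i => by rw [abs_neg]; exact hz1 i)
        (by simpa only [neg_sq] using hz2)
      have a2' : -∑ i, (clip τ (v i - u i) - clip τ (w i - u i)) * z i ≤ 2 * A / 1000 := by
        rw [← Finset.sum_neg_distrib]
        refine le_trans (le_of_eq ?_) a2
        apply Finset.sum_congr rfl
        intro i _
        ring
      have a3 := sc_err (fun i => v i - u i) z p A τ θ hp hA hθd (hcl v hv).1 hz1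
      have a4 := sc_err (fun i => w i - u i) z p A τ θ hp hA hθd (hcl w hw).1 hz1
      have hsum : ∑ i, ((v i - w i) - θ * ((sc_tr (((v i - u i) - clip τ (v i - u i)) / θ) : ℝ) -
          (sc_tr (((w i - u i) - clip τ (w i - u i)) / θ) : ℝ))) * z i =
          ∑ i, (clip τ (v i - u i) - clip τ (w i - u i)) * z i +
          ∑ i, (((v i - u i) - clip τ (v i - u i)) -
            θ * (sc_tr (((v i - u i) - clip τ (v i - u i)) / θ) : ℝ)) * z i -
          ∑ i, (((w i - u i) - clip τ (w i - u i)) -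
            θ * (sc_tr (((w i - u i) - clip τ (w i - u i)) / θ) : ℝ)) * z i := by
        rw [← Finset.sum_add_distrib, ← Finset.sum_sub_distrib]
        apply Finset.sum_congr rfl
        intro i _
        ring
      rw [hsum]
      have b3 := abs_le.mp a3
      have b4 := abs_le.mp a4
      rw [abs_le]
      constructor <;> linarith [b3.1, b3.2, b4.1, b4.2])
    (by
      intro v hv w hw hvw
      obtain ⟨z, hz1, hz2, hz3⟩ := hsep v hv w hw hvw
      refine ⟨fun i => |z i|, ⟨fun i => ⟨abs_nonneg _, hz1 i⟩, ?_⟩, ?_⟩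
      · simpa only [sq_abs] using hz2
      · refine hz3.trans (Finset.sum_le_sum fun i _ => ?_)
        rw [← abs_mul]
        exact le_abs_self _)
    (by linarith)
    (by linarith)
  have hNV2 := (NV_facts V hV).2 (uni n) (uni_facts (n := n)).1 hi
  have h3 := (uni_facts (n := n)).2.2 N hN
  have h4 : ∫⁻ x, ENNReal.ofReal (N x) * uni n x =
      ENNReal.ofReal (2 * S1 (uni n) V hV) := by
    have e : (fun x => ENNReal.ofReal (N x) * uni n x) =
        fun x => ENNReal.ofReal (NV V hV x) * uni n x := by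
      funext x
      rw [hNV]
    rw [e, hNV2.2.2, hNV2.2.1]
  rw [h4, ENNReal.ofReal_le_ofReal_iff hrad0] at h3
  have h5 : A / (20000 * (3 * p + 2)) * (p / 2) ≤
      A / (20000 * (3 * p + 2)) * Real.log V.card := by
    apply mul_le_mul_of_nonneg_left hlog
    positivity
  have h6 := sc_num A p hp hA
  linarith

end Pool.Agent.Helper711SMP.B3

namespace Pool.Agent.Helper711SMP

alias sparse_case := Pool.Agent.Helper711SMP.B3.sparse_case

end Pool.Agent.Helper711SMP
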