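import Mathlib

/-!
# Nets
-/

set_option autoImplicit false

namespace Pool.Agent.Helper711SMP.B5

theorem net_pigeon {E : Type*} [DecidableEq E] (V : Finset E) (hV : V.Nonempty)
    (R : E → E → Prop) (hR : ∀ v w, R v w → R w v) :
    ∃ V₁ ⊆ V, (∀ v ∈ V₁, ∀ w ∈ V₁, v ≠ w → R v w) ∧ ∃ u ∈ V₁, ∃ V₂ ⊆ V,
      V.card ≤ V₁.card * V₂.card ∧ ∀ v ∈ V₂, v = u ∨ ¬ R v u := by
  classical
  set F : Finset (Finset E) := V.powerset.filter (fun S => ∀ v ∈ S, ∀ w ∈ S, v ≠ w → R v w)
    with hF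
  have hFne : F.Nonempty := ⟨∅, by simp [hF]⟩
  obtain ⟨V₁, hV₁, hmax⟩ := F.exists_max_image (fun S => S.card) hFne
  have hV₁V : V₁ ⊆ V := Finset.mem_powerset.1 (Finset.mem_filter.1 hV₁).1
  have hV₁R : ∀ v ∈ V₁, ∀ w ∈ V₁, v ≠ w → R v w := (Finset.mem_filter.1 hV₁).2
  have hex : ∀ v ∈ V, ∃ u ∈ V₁, v = u ∨ ¬ R v u := by
    intro v hv
    by_cases hv1 : v ∈ V₁
    · exact ⟨v, hv1, Or.inl rfl⟩
    · by_contra hcon
      push Not at hcon
      have hins : insert v V₁ ∈ F := by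
        refine Finset.mem_filter.2 ⟨Finset.mem_powerset.2 (Finset.insert_subset hv hV₁V), ?_⟩
        intro a ha b hb hab
        rcases Finset.mem_insert.1 ha with rfl | ha'
        · rcases Finset.mem_insert.1 hb with rfl | hb'
          · exact absurd rfl hab
          · exact (hcon b hb').2
        · rcases Finset.mem_insert.1 hb with rfl | hb'
          · exact hR _ _ (hcon a ha').2
          · exact hV₁R a ha' b hb' hab
      have := hmax _ hins
      rw [Finset.card_insert_of_notMem hv1] at this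
      omega
  obtain ⟨v0, hv0⟩ := hV
  have hV₁ne : V₁.Nonempty := by
    obtain ⟨u, hu, -⟩ := hex v0 hv0
    exact ⟨u, hu⟩
  choose! φ hφ1 hφ2 using hex
  have hsum : V.card = ∑ u ∈ V₁, (V.filter (fun v => φ v = u)).card :=
    Finset.card_eq_sum_card_fiberwise (fun v hv => hφ1 v hv)
  obtain ⟨u, hu, humax⟩ := V₁.exists_max_image (fun u => (V.filter (fun v => φ v = u)).card) hV₁ne
  refine ⟨V₁, hV₁V, hV₁R, u, hu, V.filter (fun v => φ v = u), Finset.filter_subset _ _, ?_, ?_⟩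
  · rw [hsum]
    calc ∑ x ∈ V₁, (V.filter (fun v => φ v = x)).card
        ≤ ∑ _x ∈ V₁, (V.filter (fun v => φ v = u)).card := Finset.sum_le_sum humax
      _ = V₁.card * (V.filter (fun v => φ v = u)).card := by simp
  · intro v hv
    obtain ⟨hvV, hvu⟩ := Finset.mem_filter.1 hv
    have := hφ2 v hvV
    rw [hvu] at this
    exact this

end Pool.Agent.Helper711SMP.B5

namespace Pool.Agent.Helper711SMP

alias net_pigeon := Pool.Agent.Helper711SMP.B5.net_pigeon

end Pool.Agent.Helper711SMP
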