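import Mathlib
import Pool.Agent.Helper711_SMP.Rad
import Pool.Agent.Helper711_SMP.NV
import Pool.Agent.Helper711_SMP.Clip
import Pool.Agent.Helper711_SMP.B0
import Pool.Agent.Helper711_SMP.B1
import Pool.Agent.Helper711_SMP.B2
import Pool.Agent.Helper711_SMP.B3
import Pool.Agent.Helper711_SMP.B5

/-!
# Sign vectors
-/

set_option autoImplicit false

namespace Pool.Agent.Helper711SMP.B4

open MeasureTheory
open scoped ENNReal

variable {n : ℕ}

theorem NV_mono_aux (V W : Finset (Fin n → ℝ)) (hV : V.Nonempty) (hW : W.Nonempty) (h : V ⊆ W)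
    (x : Fin n → ℝ) : NV V hV x ≤ NV W hW x := by
  unfold NV
  apply Finset.sup'_le
  intro v hv
  apply Finset.sup'_le
  intro w hw
  refine le_trans ?_ (Finset.le_sup' (s := W)
    (fun v : Fin n → ℝ => W.sup' hW (fun w => ∑ i, (v i - w i) * x i)) (h hv))
  exact Finset.le_sup' (s := W) (fun w : Fin n → ℝ => ∑ i, (v i - w i) * x i) (h hw)

theorem rad_mono_aux (N₁ N₂ : (Fin n → ℝ) → ℝ) (h : ∀ x, N₁ x ≤ N₂ x) (x : Fin n → ℝ) :
    rad N₁ x ≤ rad N₂ x := by
  unfold rad
  apply div_le_div_of_nonneg_right _ (by positivity)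
  exact Finset.sum_le_sum (fun e _ => h _)

theorem small_case_aux (p A : ℝ) (hA : 0 < A) (hp8 : p ≤ 8)
    (V : Finset (Fin n → ℝ)) (hV : V.Nonempty) (h2 : 2 ≤ V.card)
    (hsep : ∀ v ∈ V, ∀ w ∈ V, v ≠ w → ∃ z : Fin n → ℝ, (∀ i, |z i| ≤ 1 / 3) ∧
      ∑ i, z i ^ 2 ≤ p ∧ A ≤ ∑ i, (v i - w i) * z i) :
    A / 10 ^ 15 ≤ rad (NV V hV) (fun _ => 1) := by
  obtain ⟨v, hv, w, hw, hvw⟩ := Finset.one_lt_card.mp (by omega : 1 < V.card)
  obtain ⟨z, _, hz2, hz3⟩ := hsep v hv w hw hvw
  have hk := khin V hV v w hv hw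
  have hCS : (∑ i, (v i - w i) * z i) ^ 2 ≤ (∑ i, (v i - w i) ^ 2) * ∑ i, z i ^ 2 :=
    Finset.sum_mul_sq_le_sq_mul_sq _ _ _
  set D : ℝ := ∑ i, (v i - w i) ^ 2 with hD
  have hD0 : 0 ≤ D := Finset.sum_nonneg (fun i _ => sq_nonneg _)
  have h1 : A ^ 2 ≤ D * 8 := by
    have : A ^ 2 ≤ (∑ i, (v i - w i) * z i) ^ 2 := pow_le_pow_left₀ hA.le hz3 2
    have h3 : D * ∑ i, z i ^ 2 ≤ D * 8 := mul_le_mul_of_nonneg_left (le_trans hz2 hp8) hD0
    linarith
  have h4 : A ≤ 3 * √D := by
    apply le_of_sq_le_sq _ (by positivity)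
    rw [mul_pow, Real.sq_sqrt hD0]
    linarith
  have h5 : A ≤ 6 * rad (NV V hV) (fun _ => 1) := by linarith
  have h6 : A / 10 ^ 15 ≤ A / 6 := by
    apply div_le_div_of_nonneg_left hA.le (by norm_num) (by norm_num)
  linarith

theorem card_aux (a b c p q r : ℝ) (hb : 0 ≤ b) (h1 : Real.exp p ≤ c) (h2 : c ≤ a * b)
    (h3 : a < Real.exp q) (h4 : p = q + r) : Real.exp r ≤ b := by
  have h5 : Real.exp q * Real.exp r ≤ Real.exp q * b := by
    rw [← Real.exp_add, ← h4]
    calc Real.exp p ≤ a * b := le_trans h1 h2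
      _ ≤ Real.exp q * b := mul_le_mul_of_nonneg_right h3.le hb
  exact le_of_mul_le_mul_left h5 (Real.exp_pos q)

theorem bern_aux (k : ℕ) : ∀ (p A : ℝ) (_ : 0 < p) (_ : 0 < A) (_ : p ≤ 8 * 4 ^ k)
    (V : Finset (Fin n → ℝ)) (hV : V.Nonempty)
    (_ : 2 ≤ V.card) (_ : Real.exp p ≤ (V.card : ℝ))
    (_ : ∀ v ∈ V, ∀ w ∈ V, v ≠ w → ∃ z : Fin n → ℝ, (∀ i, |z i| ≤ 1 / 3) ∧
      ∑ i, z i ^ 2 ≤ p ∧ A ≤ ∑ i, (v i - w i) * z i),
    A / 10 ^ 15 ≤ rad (NV V hV) (fun _ => 1) := by
  classical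
  induction k with
  | zero =>
    intro p A hp hA hpk V hV h2 hcard hsep
    exact small_case_aux p A hA (by simpa using hpk) V hV h2 hsep
  | succ k ih =>
    intro p A hp hA hpk V hV h2 hcard hsep
    by_cases hp8 : p ≤ 8
    · exact small_case_aux p A hA hp8 V hV h2 hsep
    have hp8' : 8 < p := lt_of_not_ge hp8
    have hp8'' : 8 ≤ p := hp8'.le
    obtain ⟨V₁, hV₁, hR₁, u, hu, V₂, hV₂, hc, hn₁⟩ := net_pigeon V hV
      (fun v w => ∃ z : Fin n → ℝ, (∀ i, |z i| ≤ 1 / 3) ∧ ∑ i, z i ^ 2 ≤ p / 4 ∧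
        2 * A ≤ ∑ i, (v i - w i) * z i)
      (by
        rintro v w ⟨z, hz1, hz2, hz3⟩
        refine ⟨fun i => - z i, fun i => by simpa using hz1 i, by simpa using hz2, ?_⟩
        refine le_of_le_of_eq hz3 (Finset.sum_congr rfl (fun i _ => by ring)))
    by_cases hc1 : Real.exp (p / 4) ≤ (V₁.card : ℝ)
    · have hne : V₁.Nonempty := ⟨u, hu⟩
      have hcardge : 2 ≤ V₁.card := by
        have h1 : (2 : ℝ) < Real.exp (p / 4) := by
          have := Real.add_one_le_exp (p / 4)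
          linarith
        have h3 : (2 : ℝ) < (V₁.card : ℝ) := lt_of_lt_of_le h1 hc1
        have : 2 < V₁.card := by exact_mod_cast h3
        omega
      have hih := ih (p / 4) (2 * A) (by linarith) (by linarith)
        (by rw [pow_succ] at hpk; linarith) V₁ hne hcardge hc1
        (fun v hv w hw hvw => hR₁ v hv w hw hvw)
      have hm := rad_mono_aux (NV V₁ hne) (NV V hV)
        (fun x => NV_mono_aux V₁ V hne hV hV₁ x) (fun _ => 1)
      have : A / 10 ^ 15 ≤ 2 * A / 10 ^ 15 := by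
        apply div_le_div_of_nonneg_right _ (by positivity)
        linarith
      linarith
    · have hc1' : (V₁.card : ℝ) < Real.exp (p / 4) := lt_of_not_ge hc1
      have hcR : (V.card : ℝ) ≤ (V₁.card : ℝ) * (V₂.card : ℝ) := by exact_mod_cast hc
      have hV2c : Real.exp (3 * p / 4) ≤ (V₂.card : ℝ) :=
        card_aux _ _ _ p (p / 4) (3 * p / 4) (Nat.cast_nonneg _) hcard hcR hc1' (by ring)
      have hV2n : V₂.Nonempty := by
        rw [← Finset.card_pos]
        have : (0 : ℝ) < (V₂.card : ℝ) := lt_of_lt_of_le (Real.exp_pos _) hV2c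
        exact_mod_cast this
      have hq : ∀ v ∈ V₂, ∀ z : Fin n → ℝ, (∀ i, |z i| ≤ 1 / 3) → ∑ i, z i ^ 2 ≤ p →
          ∑ i, (v i - u i) * z i ≤ 4 * A := by
        intro v hv z hz1 hz2
        rcases hn₁ v hv with h | h
        · subst h
          simp
          linarith
        · have hz3 : ∑ i, (v i - u i) * (z i / 2) < 2 * A := by
            by_contra hcon
            apply h
            refine ⟨fun i => z i / 2, fun i => ?_, ?_, le_of_not_gt hcon⟩
            · have := hz1 i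
              rw [abs_div, abs_of_pos (by norm_num : (0 : ℝ) < 2)]
              have := abs_nonneg (z i)
              linarith
            · have : ∑ i, (z i / 2) ^ 2 = (∑ i, z i ^ 2) / 4 := by
                rw [Finset.sum_div]
                exact Finset.sum_congr rfl (fun i _ => by ring)
              rw [this]
              linarith
          have : ∑ i, (v i - u i) * (z i / 2) = (∑ i, (v i - u i) * z i) / 2 := by
            rw [Finset.sum_div]
            exact Finset.sum_congr rfl (fun i _ => by ring)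
          rw [this] at hz3
          linarith
      set τ : ℝ := 4800000 * A / p with hτ
      have hcf : ∀ v ∈ V₂, ∑ i, clip τ (v i - u i) ^ 2 ≤ 57600000 * A ^ 2 / p ∧
          ((Finset.univ.filter (fun i => clip τ (v i - u i) ≠ v i - u i)).card : ℝ) ≤
            12 * p / 4800000 ∧
          ∑ i, |(v i - u i) - clip τ (v i - u i)| ≤ 12 * A := by
        intro v hv
        exact clip_facts (fun i => v i - u i) p A τ hp8'' hA hτ (hq v hv)
      obtain ⟨V₃, hV₃, hR₃, u', hu', V₄, hV₄, hc', hn₃⟩ := net_pigeon V₂ hV2n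
        (fun v w => ∃ z : Fin n → ℝ, (∀ i, |z i| ≤ 1 / 3) ∧ ∑ i, z i ^ 2 ≤ p ∧
          A / 1000 ≤ ∑ i, (clip τ (v i - u i) - clip τ (w i - u i)) * z i)
        (by
          rintro v w ⟨z, hz1, hz2, hz3⟩
          refine ⟨fun i => - z i, fun i => by simpa using hz1 i, by simpa using hz2, ?_⟩
          refine le_of_le_of_eq hz3 (Finset.sum_congr rfl (fun i _ => by ring)))
      by_cases hc3 : Real.exp (p / 4) ≤ (V₃.card : ℝ)
      · have hne : V₃.Nonempty := ⟨u', hu'⟩
        have hres := tj_case V₃ hne u p A τ hp8'' hA hτ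
          (fun v hv => (hcf v (hV₃ hv)).1) (fun v hv w hw hvw => hR₃ v hv w hw hvw) hc3
        have hm := rad_mono_aux (NV V₃ hne) (NV V hV)
          (fun x => NV_mono_aux V₃ V hne hV (hV₃.trans hV₂) x) (fun _ => 1)
        linarith
      · have hc3' : (V₃.card : ℝ) < Real.exp (p / 4) := lt_of_not_ge hc3
        have hcR' : (V₂.card : ℝ) ≤ (V₃.card : ℝ) * (V₄.card : ℝ) := by exact_mod_cast hc'
        have hV4c : Real.exp (p / 2) ≤ (V₄.card : ℝ) :=
          card_aux _ _ _ (3 * p / 4) (p / 4) (p / 2) (Nat.cast_nonneg _) hV2c hcR' hc3' (by ring)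
        have hV4n : V₄.Nonempty := by
          rw [← Finset.card_pos]
          have : (0 : ℝ) < (V₄.card : ℝ) := lt_of_lt_of_le (Real.exp_pos _) hV4c
          exact_mod_cast this
        have hcl4 : ∀ v ∈ V₄, ∀ z : Fin n → ℝ, (∀ i, |z i| ≤ 1 / 3) → ∑ i, z i ^ 2 ≤ p →
            ∑ i, (clip τ (v i - u i) - clip τ (u' i - u i)) * z i ≤ A / 1000 := by
          intro v hv z hz1 hz2
          rcases hn₃ v hv with h | h
          · subst h
            simp
            positivity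
          · by_contra hcon
            exact h ⟨z, hz1, hz2, (lt_of_not_ge hcon).le⟩
        have hclose : ∀ v ∈ V₄, ∀ w ∈ V₄, ∀ z : Fin n → ℝ, (∀ i, |z i| ≤ 1 / 3) →
            ∑ i, z i ^ 2 ≤ p →
            ∑ i, (clip τ (v i - u i) - clip τ (w i - u i)) * z i ≤ 2 * A / 1000 := by
          intro v hv w hw z hz1 hz2
          have e1 := hcl4 v hv z hz1 hz2
          have e2 := hcl4 w hw (fun i => - z i) (fun i => by simpa using hz1 i)
            (by simpa using hz2)
          have e3 : ∑ i, (clip τ (v i - u i) - clip τ (w i - u i)) * z i =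
              ∑ i, (clip τ (v i - u i) - clip τ (u' i - u i)) * z i +
              ∑ i, (clip τ (w i - u i) - clip τ (u' i - u i)) * (- z i) := by
            rw [← Finset.sum_add_distrib]
            exact Finset.sum_congr rfl (fun i _ => by ring)
          rw [e3]
          calc _ ≤ A / 1000 + A / 1000 := add_le_add e1 e2
            _ = 2 * A / 1000 := by ring
        have hres := sparse_case V₄ hV4n u p A τ hp8'' hA hτ
          (fun v hv => (hcf v (hV₄ hv)).2) hclose
          (fun v hv w hw hvw => hsep v (hV₂ (hV₄ hv)) w (hV₂ (hV₄ hw)) hvw) hV4c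
        have hm := rad_mono_aux (NV V₄ hV4n) (NV V hV)
          (fun x => NV_mono_aux V₄ V hV4n hV (hV₄.trans hV₂) x) (fun _ => 1)
        have : A / 10 ^ 15 ≤ A / 80000 := by
          apply div_le_div_of_nonneg_left hA.le (by norm_num) (by norm_num)
        linarith

theorem bern_smp (p A : ℝ) (hp : 0 < p) (hA : 0 < A) (V : Finset (Fin n → ℝ)) (hV : V.Nonempty)
    (h2 : 2 ≤ V.card) (hcard : Real.exp p ≤ (V.card : ℝ))
    (hsep : ∀ v ∈ V, ∀ w ∈ V, v ≠ w → ∃ z : Fin n → ℝ, (∀ i, |z i| ≤ 1 / 3) ∧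
      ∑ i, z i ^ 2 ≤ p ∧ A ≤ ∑ i, (v i - w i) * z i) :
    A / 10 ^ 15 ≤ rad (NV V hV) (fun _ => 1) := by
  obtain ⟨k, hk⟩ := pow_unbounded_of_one_lt (p / 8) (by norm_num : (1 : ℝ) < 4)
  exact bern_aux k p A hp hA (by linarith) V hV h2 hcard hsep

end Pool.Agent.Helper711SMP.B4

namespace Pool.Agent.Helper711SMP

alias bern_smp := Pool.Agent.Helper711SMP.B4.bern_smp

end Pool.Agent.Helper711SMP
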