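import Mathlib

/-!
# Exponential moments
-/

set_option autoImplicit false

namespace Pool.Agent.Helper711SMP.C

open MeasureTheory
open scoped ENNReal

/-- layer-cake formula for `cosh`. -/
theorem expMoment_aux1 (s r : ℝ) (hs : 0 ≤ s) (hr : 0 ≤ r) :
    ENNReal.ofReal (Real.cosh (s * r)) =
      1 + ∫⁻ u in Set.Ioi (0:ℝ), ENNReal.ofReal (s * Real.sinh (s * u)) *
        Set.indicator {v : ℝ | v ≤ r} 1 u := by
  have h1 : ∫⁻ u in Set.Ioi (0:ℝ), ENNReal.ofReal (s * Real.sinh (s * u)) *
        Set.indicator {v : ℝ | v ≤ r} 1 u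
      = ∫⁻ u in Set.Ioc (0:ℝ) r, ENNReal.ofReal (s * Real.sinh (s * u)) := by
    rw [← lintegral_indicator measurableSet_Ioi, ← lintegral_indicator measurableSet_Ioc]
    congr 1
    ext u
    by_cases h0 : 0 < u <;> by_cases h1 : u ≤ r <;> simp [Set.indicator, h0, h1]
  have hcont : Continuous (fun u : ℝ => s * Real.sinh (s * u)) := by
    have := Real.continuous_sinh
    fun_prop
  have h2 : ∫ u in (0:ℝ)..r, s * Real.sinh (s * u) = Real.cosh (s * r) - Real.cosh (s * 0) := by
    apply intervalIntegral.integral_eq_sub_of_hasDerivAt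
    · intro x _
      have hd : HasDerivAt (fun u : ℝ => s * u) s x := by
        simpa using (hasDerivAt_id x).const_mul s
      have := (Real.hasDerivAt_cosh (s * x)).comp x hd
      simpa [mul_comm, Function.comp_def] using this
    · exact hcont.intervalIntegrable _ _
  rw [h1, ← ofReal_integral_eq_lintegral_ofReal]
  · rw [← intervalIntegral.integral_of_le hr, h2]
    simp only [mul_zero, Real.cosh_zero]
    rw [← ENNReal.ofReal_one, ← ENNReal.ofReal_add]
    · congr 1; ring
    · norm_num
    · have := Real.one_le_cosh (s * r)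
      linarith
  · exact (hcont.intervalIntegrable 0 r).1
  · rw [Filter.EventuallyLE, ae_restrict_iff' measurableSet_Ioc]
    refine Filter.Eventually.of_forall fun u hu => ?_
    have : 0 ≤ s * u := mul_nonneg hs hu.1.le
    exact mul_nonneg hs (Real.sinh_nonneg_iff.mpr this)

/-- the exponential integral. -/
theorem expMoment_aux2 (s c : ℝ) (hs : 0 ≤ s) (hsc : s < c) :
    1 + ∫⁻ u in Set.Ioi (0:ℝ), ENNReal.ofReal (s * Real.sinh (s * u)) *
        ENNReal.ofReal (Real.exp (-(c * u))) = ENNReal.ofReal (c ^ 2 / (c ^ 2 - s ^ 2)) := by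
  have hA : IntegrableOn (fun u : ℝ => Real.exp ((s - c) * u)) (Set.Ioi 0) :=
    integrableOn_exp_mul_Ioi (by linarith) 0
  have hB : IntegrableOn (fun u : ℝ => Real.exp ((-s - c) * u)) (Set.Ioi 0) :=
    integrableOn_exp_mul_Ioi (by linarith) 0
  have hIA : ∫ u in Set.Ioi (0:ℝ), Real.exp ((s - c) * u) = 1 / (c - s) := by
    rw [integral_exp_mul_Ioi (by linarith)]
    have : s - c ≠ 0 := by linarith
    have : c - s ≠ 0 := by linarith
    simp
    rw [← neg_sub s c]
    field_simp
  have hIB : ∫ u in Set.Ioi (0:ℝ), Real.exp ((-s - c) * u) = 1 / (c + s) := by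
    rw [integral_exp_mul_Ioi (by linarith)]
    have h1 : -s - c ≠ 0 := by linarith
    have h2 : c + s ≠ 0 := by linarith
    simp
    rw [show -s - c = -(c + s) by ring]
    field_simp
  have e : ∀ u : ℝ, s * Real.sinh (s * u) * Real.exp (-(c * u)) =
      (s / 2) * Real.exp ((s - c) * u) - (s / 2) * Real.exp ((-s - c) * u) := by
    intro u
    rw [Real.sinh_eq, show (s - c) * u = s * u + -(c * u) by ring,
      show (-s - c) * u = -(s * u) + -(c * u) by ring, Real.exp_add, Real.exp_add]
    ring
  have hint : IntegrableOn (fun u : ℝ => s * Real.sinh (s * u) * Real.exp (-(c * u)))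
      (Set.Ioi 0) := by
    simp_rw [e]
    exact (hA.const_mul _).sub (hB.const_mul _)
  have hval : ∫ u in Set.Ioi (0:ℝ), s * Real.sinh (s * u) * Real.exp (-(c * u)) =
      s ^ 2 / (c ^ 2 - s ^ 2) := by
    simp_rw [e]
    rw [integral_sub (hA.const_mul _) (hB.const_mul _), integral_const_mul, integral_const_mul,
      hIA, hIB]
    have h1 : c - s ≠ 0 := by linarith
    have h2 : c + s ≠ 0 := by linarith
    have h3 : c ^ 2 - s ^ 2 ≠ 0 := by
      rw [show c ^ 2 - s ^ 2 = (c - s) * (c + s) by ring]
      exact mul_ne_zero h1 h2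
    field_simp
    ring
  have hc2 : 0 < c ^ 2 - s ^ 2 := by
    have : c ^ 2 - s ^ 2 = (c - s) * (c + s) := by ring
    rw [this]
    exact mul_pos (by linarith) (by linarith)
  have hl : ∫⁻ u in Set.Ioi (0:ℝ), ENNReal.ofReal (s * Real.sinh (s * u)) *
        ENNReal.ofReal (Real.exp (-(c * u))) = ENNReal.ofReal (s ^ 2 / (c ^ 2 - s ^ 2)) := by
    rw [← hval, ofReal_integral_eq_lintegral_ofReal hint]
    · apply setLIntegral_congr_fun measurableSet_Ioi
      intro u hu
      have : 0 ≤ s * u := mul_nonneg hs (le_of_lt hu)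
      exact (ENNReal.ofReal_mul (mul_nonneg hs (Real.sinh_nonneg_iff.mpr this))).symm
    · rw [Filter.EventuallyLE, ae_restrict_iff' measurableSet_Ioi]
      refine Filter.Eventually.of_forall fun u hu => ?_
      have : 0 ≤ s * u := mul_nonneg hs (le_of_lt hu)
      exact mul_nonneg (mul_nonneg hs (Real.sinh_nonneg_iff.mpr this)) (Real.exp_pos _).le
  rw [hl, ← ENNReal.ofReal_one, ← ENNReal.ofReal_add (by norm_num) (by positivity)]
  congr 1
  field_simp
  ring

theorem expMoment {Ω : Type*} [MeasurableSpace Ω] (μ : Measure Ω) [IsFiniteMeasure μ] {n : ℕ}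
    (R : Fin n → Ω → ℝ) (hR : ∀ i, Measurable (R i)) (h0 : ∀ i ω, 0 ≤ R i ω)
    (c : ℝ) (hc : 0 < c)
    (htail : ∀ t : Fin n → ℝ, (∀ i, 0 ≤ t i) →
      μ {ω | ∀ i, t i ≤ R i ω} ≤ ENNReal.ofReal (Real.exp (-(c * ∑ i, t i))))
    (s : Fin n → ℝ) (hs : ∀ i, 0 ≤ s i) (hsc : ∀ i, s i < c) :
    ∫⁻ ω, ∏ i, ENNReal.ofReal (Real.cosh (s i * R i ω)) ∂μ ≤
      ENNReal.ofReal (∏ i, (c ^ 2 / (c ^ 2 - s i ^ 2))) := by
  classical
  have hpos : ∀ i, 0 < c ^ 2 - s i ^ 2 := by
    intro i
    have : c ^ 2 - s i ^ 2 = (c - s i) * (c + s i) := by ring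
    rw [this]
    exact mul_pos (by linarith [hsc i]) (by linarith [hsc i, hs i])
  have key : ∀ J : Finset (Fin n), ∀ t : Fin n → ℝ, (∀ i, 0 ≤ t i) →
      ∫⁻ ω, (∏ i ∈ J, ENNReal.ofReal (Real.cosh (s i * R i ω))) *
        Set.indicator {ω | ∀ i, i ∉ J → t i ≤ R i ω} 1 ω ∂μ ≤
      ENNReal.ofReal (∏ i ∈ J, (c ^ 2 / (c ^ 2 - s i ^ 2))) *
        ENNReal.ofReal (Real.exp (-(c * ∑ i ∈ Jᶜ, t i))) := by
    intro J
    induction J using Finset.induction_on with
    | empty =>
      intro t ht
      have hm : MeasurableSet {ω | ∀ i, t i ≤ R i ω} := by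
        have : {ω | ∀ i, t i ≤ R i ω} = ⋂ i, {ω | t i ≤ R i ω} := by
          ext; simp
        rw [this]
        exact MeasurableSet.iInter fun i => measurableSet_le measurable_const (hR i)
      simp only [Finset.prod_empty, Finset.notMem_empty, not_false_eq_true, forall_true_left,
        one_mul, ENNReal.ofReal_one, Finset.compl_empty]
      rw [lintegral_indicator_one hm]
      exact htail t ht
    | insert k J hk ih =>
      intro t ht
      set P : Ω → ℝ≥0∞ := fun ω => ∏ i ∈ J, ENNReal.ofReal (Real.cosh (s i * R i ω)) with hP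
      have hPm : Measurable P := by
        apply Finset.measurable_prod
        intro i _
        exact (Real.measurable_cosh.comp ((hR i).const_mul _)).ennreal_ofReal
      set D : Set Ω := {ω | ∀ i, i ∉ insert k J → t i ≤ R i ω} with hD
      have hDm : MeasurableSet D := by
        have : D = ⋂ i, ⋂ (_ : i ∉ insert k J), {ω | t i ≤ R i ω} := by
          ext; simp [hD]
        rw [this]
        exact MeasurableSet.iInter fun i => MeasurableSet.iInter fun _ =>
          measurableSet_le measurable_const (hR i)
      set S : ℝ := ∑ i ∈ (insert k J)ᶜ, t i with hS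
      have hsum : ∀ u : ℝ, ∑ i ∈ Jᶜ, Function.update t k u i = S + u := by
        intro u
        have hins : Jᶜ = insert k (insert k J)ᶜ := by
          ext i
          by_cases hik : i = k
          · subst hik; simp [hk]
          · simp [hik]
        rw [hins, Finset.sum_insert (by simp), Function.update_self, add_comm]
        congr 1
        apply Finset.sum_congr rfl
        intro i hi
        have : i ≠ k := by
          rintro rfl
          simp at hi
        rw [Function.update_of_ne this]
      have hset : ∀ u : ℝ, ∀ ω, Set.indicator {ω | ∀ i, i ∉ J → Function.update t k u i ≤ R i ω}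
          (1 : Ω → ℝ≥0∞) ω = Set.indicator D 1 ω * Set.indicator {v : ℝ | v ≤ R k ω} 1 u := by
        intro u ω
        have hiff : (ω ∈ {ω | ∀ i, i ∉ J → Function.update t k u i ≤ R i ω}) ↔
            (ω ∈ D ∧ u ≤ R k ω) := by
          constructor
          · intro h
            refine ⟨fun i hi => ?_, ?_⟩
            · rw [Finset.mem_insert, not_or] at hi
              have := h i hi.2
              rwa [Function.update_of_ne hi.1] at this
            · have := h k hk
              rwa [Function.update_self] at this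
          · rintro ⟨h1, h2⟩ i hi
            by_cases hik : i = k
            · subst hik
              rwa [Function.update_self]
            · rw [Function.update_of_ne hik]
              exact h1 i (by simp [hik, hi])
        by_cases h : ω ∈ {ω | ∀ i, i ∉ J → Function.update t k u i ≤ R i ω}
        · have h' := hiff.mp h
          rw [Set.indicator_of_mem h, Set.indicator_of_mem h'.1,
            Set.indicator_of_mem (show u ∈ {v : ℝ | v ≤ R k ω} from h'.2)]
          simp
        · rw [Set.indicator_of_notMem h]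
          by_cases hd : ω ∈ D
          · have : u ∉ {v : ℝ | v ≤ R k ω} := fun h2 => h (hiff.mpr ⟨hd, h2⟩)
            rw [Set.indicator_of_notMem this, mul_zero]
          · rw [Set.indicator_of_notMem hd, zero_mul]
      have ihu : ∀ u : ℝ, 0 ≤ u →
          ∫⁻ ω, P ω * (Set.indicator D 1 ω * Set.indicator {v : ℝ | v ≤ R k ω} 1 u) ∂μ ≤
          ENNReal.ofReal (∏ i ∈ J, (c ^ 2 / (c ^ 2 - s i ^ 2))) *
            (ENNReal.ofReal (Real.exp (-(c * S))) * ENNReal.ofReal (Real.exp (-(c * u)))) := by
        intro u hu
        have h1 := ih (Function.update t k u) (by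
          intro i
          by_cases hik : i = k
          · subst hik; rwa [Function.update_self]
          · rw [Function.update_of_ne hik]; exact ht i)
        rw [hsum u] at h1
        simp_rw [hset u] at h1
        refine h1.trans (le_of_eq ?_)
        congr 1
        rw [← ENNReal.ofReal_mul (Real.exp_pos _).le, ← Real.exp_add]
        congr 2
        ring
      set g : ℝ → ℝ≥0∞ := fun u => ENNReal.ofReal (s k * Real.sinh (s k * u)) with hg
      have hgm : Measurable g :=
        ((Real.measurable_sinh.comp (measurable_id.const_mul _)).const_mul _).ennreal_ofReal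
      set Q : Ω → ℝ≥0∞ := fun ω => P ω * Set.indicator D 1 ω with hQ
      have hQm : Measurable Q := hPm.mul (measurable_one.indicator hDm)
      have hI : Measurable (fun p : Ω × ℝ => Set.indicator {v : ℝ | v ≤ R k p.1}
          (1 : ℝ → ℝ≥0∞) p.2) := by
        have : (fun p : Ω × ℝ => Set.indicator {v : ℝ | v ≤ R k p.1} (1 : ℝ → ℝ≥0∞) p.2) =
            Set.indicator {p : Ω × ℝ | p.2 ≤ R k p.1} 1 := by
          ext p
          simp [Set.indicator]
        rw [this]
        exact measurable_one.indicator (measurableSet_le measurable_snd ((hR k).comp measurable_fst))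
      have hstep : ∀ ω, (∏ i ∈ insert k J, ENNReal.ofReal (Real.cosh (s i * R i ω))) *
          Set.indicator D 1 ω = Q ω + ∫⁻ u in Set.Ioi (0:ℝ), Q ω * (g u *
            Set.indicator {v : ℝ | v ≤ R k ω} 1 u) := by
        intro ω
        rw [Finset.prod_insert hk, expMoment_aux1 (s k) (R k ω) (hs k) (h0 k ω),
          lintegral_const_mul]
        · simp only [hQ, hP, hg]
          ring
        · exact hgm.mul (hI.comp (measurable_const.prodMk measurable_id))
      calc ∫⁻ ω, (∏ i ∈ insert k J, ENNReal.ofReal (Real.cosh (s i * R i ω))) *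
          Set.indicator D 1 ω ∂μ
          = ∫⁻ ω, (Q ω + ∫⁻ u in Set.Ioi (0:ℝ), Q ω * (g u *
            Set.indicator {v : ℝ | v ≤ R k ω} 1 u)) ∂μ := by
            simp_rw [hstep]
        _ = (∫⁻ ω, Q ω ∂μ) + ∫⁻ ω, (∫⁻ u in Set.Ioi (0:ℝ), Q ω * (g u *
            Set.indicator {v : ℝ | v ≤ R k ω} 1 u)) ∂μ := lintegral_add_left hQm _
        _ = (∫⁻ ω, Q ω ∂μ) + ∫⁻ u in Set.Ioi (0:ℝ), ∫⁻ ω, Q ω * (g u *
            Set.indicator {v : ℝ | v ≤ R k ω} 1 u) ∂μ := by
            congr 1
            apply lintegral_lintegral_swap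
            apply Measurable.aemeasurable
            exact (hQm.comp measurable_fst).mul ((hgm.comp measurable_snd).mul hI)
        _ ≤ ENNReal.ofReal (∏ i ∈ J, (c ^ 2 / (c ^ 2 - s i ^ 2))) *
            ENNReal.ofReal (Real.exp (-(c * S))) +
            ∫⁻ u in Set.Ioi (0:ℝ), ENNReal.ofReal (∏ i ∈ J, (c ^ 2 / (c ^ 2 - s i ^ 2))) *
            ENNReal.ofReal (Real.exp (-(c * S))) * (g u * ENNReal.ofReal (Real.exp (-(c * u)))) := by
            apply add_le_add
            · have h1 := ihu 0 le_rfl
              rw [mul_zero, neg_zero, Real.exp_zero, ENNReal.ofReal_one, mul_one] at h1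
              refine le_trans (lintegral_mono fun ω => ?_) h1
              rw [Set.indicator_of_mem (show (0:ℝ) ∈ {v : ℝ | v ≤ R k ω} from h0 k ω)]
              simp [hQ]
            · apply setLIntegral_mono'  measurableSet_Ioi
              intro u hu
              have h1 := ihu u (le_of_lt hu)
              calc ∫⁻ ω, Q ω * (g u * Set.indicator {v : ℝ | v ≤ R k ω} 1 u) ∂μ
                  = ∫⁻ ω, g u * (P ω * (Set.indicator D 1 ω *
                      Set.indicator {v : ℝ | v ≤ R k ω} 1 u)) ∂μ := by
                    apply lintegral_congr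
                    intro ω
                    simp only [hQ]
                    ring
                _ = g u * ∫⁻ ω, (P ω * (Set.indicator D 1 ω *
                      Set.indicator {v : ℝ | v ≤ R k ω} 1 u)) ∂μ := by
                    apply lintegral_const_mul
                    exact hPm.mul ((measurable_one.indicator hDm).mul
                      (hI.comp (measurable_id.prodMk measurable_const)))
                _ ≤ g u * (ENNReal.ofReal (∏ i ∈ J, (c ^ 2 / (c ^ 2 - s i ^ 2))) *
                    (ENNReal.ofReal (Real.exp (-(c * S))) *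
                      ENNReal.ofReal (Real.exp (-(c * u))))) := by
                    gcongr
                _ = _ := by ring
        _ = ENNReal.ofReal (∏ i ∈ J, (c ^ 2 / (c ^ 2 - s i ^ 2))) *
            ENNReal.ofReal (Real.exp (-(c * S))) *
            (1 + ∫⁻ u in Set.Ioi (0:ℝ), g u * ENNReal.ofReal (Real.exp (-(c * u)))) := by
            rw [lintegral_const_mul, mul_add, mul_one]
            exact hgm.mul ((Real.measurable_exp.comp
              (measurable_id.const_mul c).neg).ennreal_ofReal)
        _ = ENNReal.ofReal (∏ i ∈ insert k J, (c ^ 2 / (c ^ 2 - s i ^ 2))) *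
            ENNReal.ofReal (Real.exp (-(c * S))) := by
            simp only [hg]
            rw [expMoment_aux2 (s k) c (hs k) (hsc k), Finset.prod_insert hk,
              ENNReal.ofReal_mul (div_nonneg (sq_nonneg c) (hpos k).le)]
            ring
  have h := key Finset.univ (fun _ => 0) (fun _ => le_rfl)
  simpa using h

end Pool.Agent.Helper711SMP.C

namespace Pool.Agent.Helper711SMP

alias expMoment := Pool.Agent.Helper711SMP.C.expMoment

end Pool.Agent.Helper711SMP
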