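import Mathlib
import Pool.Agent.Helper711_SMP.Basic
import Pool.Agent.Helper711_SMP.Sign
import Pool.Agent.Helper711_SMP.B
import Pool.Agent.Helper711_SMP.C

/-!
# Moments of linear forms
-/

set_option autoImplicit false

namespace Pool.Agent.Helper711SMP.D1

open MeasureTheory
open scoped ENNReal

variable {n : ℕ} {f : (Fin n → ℝ) → ℝ≥0∞}

namespace cosh_exp_moment_aux

/-- the sign of a boolean -/
def sg (b : Bool) : ℝ := if b then 1 else -1

theorem sg_cases (b : Bool) : sg b = 1 ∨ sg b = -1 := by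
  cases b
  · right; rfl
  · left; rfl

theorem sum_exp (a : Fin n → ℝ) :
    ∑ e : Fin n → Bool, Real.exp (∑ i, sg (e i) * a i) = 2 ^ n * ∏ i, Real.cosh (a i) := by
  have h1 : ∀ e : Fin n → Bool, Real.exp (∑ i, sg (e i) * a i) = ∏ i, Real.exp (sg (e i) * a i) := by
    intro e
    rw [Real.exp_sum]
  simp only [h1]
  have h2 := Finset.prod_univ_sum (fun _ : Fin n => (Finset.univ : Finset Bool))
    (fun i b => Real.exp (sg b * a i))
  rw [Fintype.piFinset_univ] at h2
  rw [← h2]
  have h3 : ∀ i, ∑ b : Bool, Real.exp (sg b * a i) = 2 * Real.cosh (a i) := by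
    intro i
    rw [Fintype.sum_bool, Real.cosh_eq]
    simp [sg]
    ring
  simp only [h3]
  rw [Finset.prod_mul_distrib]
  simp

theorem sum_cosh (a : Fin n → ℝ) :
    ∑ e : Fin n → Bool, Real.cosh (∑ i, sg (e i) * a i) = 2 ^ n * ∏ i, Real.cosh (a i) := by
  have h1 := sum_exp a
  have h2 := sum_exp (fun i => -a i)
  have h3 : ∀ e : Fin n → Bool, Real.cosh (∑ i, sg (e i) * a i) =
      (Real.exp (∑ i, sg (e i) * a i) + Real.exp (∑ i, sg (e i) * (fun i => -a i) i)) / 2 := by
    intro e
    rw [Real.cosh_eq]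
    congr 3
    simp
  simp only [h3]
  rw [← Finset.sum_div, Finset.sum_add_distrib, h1, h2]
  simp only [Real.cosh_neg]
  ring

theorem average (hf : UD f) (s : Fin n → ℝ) :
    ∫⁻ x, ENNReal.ofReal (Real.cosh (∑ i, s i * x i)) * f x =
      ∫⁻ x, ENNReal.ofReal (∏ i, Real.cosh (s i * x i)) * f x := by
  set F : (Fin n → ℝ) → ℝ≥0∞ := fun x => ENNReal.ofReal (Real.cosh (∑ i, s i * x i)) * f x with hF
  have hFm : Measurable F := by
    apply Measurable.mul _ hf.meas
    fun_prop
  have h1 : ∀ e : Fin n → Bool, ∫⁻ x, F x =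
      ∫⁻ x, ENNReal.ofReal (Real.cosh (∑ i, sg (e i) * (s i * x i))) * f x := by
    intro e
    have hmp := sign_mp (fun i => sg (e i)) (fun i => sg_cases (e i))
    rw [← hmp.lintegral_comp hFm]
    congr 1
    ext x
    simp only [hF]
    have h5 : f (fun i => sg (e i) * x i) = f x := by
      apply hf.eq_of_abs
      intro i
      rcases sg_cases (e i) with h | h <;> simp [h]
    rw [h5]
    congr 3
    apply Finset.sum_congr rfl
    intro i _
    ring
  have hcard : (Fintype.card (Fin n → Bool) : ℝ≥0∞) = 2 ^ n := by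
    simp
  have h2 : (2 : ℝ≥0∞) ^ n * ∫⁻ x, F x =
      2 ^ n * ∫⁻ x, ENNReal.ofReal (∏ i, Real.cosh (s i * x i)) * f x := by
    calc (2 : ℝ≥0∞) ^ n * ∫⁻ x, F x = ∑ e : Fin n → Bool, ∫⁻ x, F x := by
          rw [Finset.sum_const, Finset.card_univ, nsmul_eq_mul, hcard]
      _ = ∑ e : Fin n → Bool, ∫⁻ x, ENNReal.ofReal (Real.cosh (∑ i, sg (e i) * (s i * x i))) * f x := by
          apply Finset.sum_congr rfl
          intro e _
          exact h1 e
      _ = ∫⁻ x, ∑ e : Fin n → Bool, ENNReal.ofReal (Real.cosh (∑ i, sg (e i) * (s i * x i))) * f x := by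
          rw [lintegral_finsetSum]
          intro e _
          apply Measurable.mul _ hf.meas
          fun_prop
      _ = ∫⁻ x, 2 ^ n * (ENNReal.ofReal (∏ i, Real.cosh (s i * x i)) * f x) := by
          congr 1
          ext x
          rw [← Finset.sum_mul, ← ENNReal.ofReal_sum_of_nonneg (fun e _ => (Real.cosh_pos _).le),
            sum_cosh, ENNReal.ofReal_mul (by positivity), ENNReal.ofReal_pow (by norm_num)]
          simp [mul_assoc]
      _ = 2 ^ n * ∫⁻ x, ENNReal.ofReal (∏ i, Real.cosh (s i * x i)) * f x := by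
          rw [lintegral_const_mul]
          apply Measurable.mul _ hf.meas
          fun_prop
  exact (ENNReal.mul_right_inj (by simp) (by simp)).1 h2

theorem moment (hf : UD f) (hm : ∀ i, ∫⁻ x, ENNReal.ofReal |x i| * f x ≤ 1) (s : Fin n → ℝ)
    (hs : ∀ i, 0 ≤ s i) (hs' : ∀ i, s i ≤ 1 / 80) :
    ∫⁻ x, ENNReal.ofReal (∏ i, Real.cosh (s i * |x i|)) * f x ≤
      ENNReal.ofReal (∏ i, ((1 / 40) ^ 2 / ((1 / 40) ^ 2 - s i ^ 2))) := by
  set μ : Measure (Fin n → ℝ) := volume.withDensity f with hμ
  have hfin : IsFiniteMeasure μ := by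
    refine ⟨?_⟩
    rw [hμ, withDensity_apply _ MeasurableSet.univ, Measure.restrict_univ, hf.mass]
    exact ENNReal.one_lt_top
  have h1 := expMoment μ (fun i (x : Fin n → ℝ) => |x i|) (fun i => by fun_prop) (fun i x => abs_nonneg _)
    (1 / 40) (by norm_num) (fun t ht => by
      have hS : MeasurableSet {x : Fin n → ℝ | ∀ i, t i ≤ |x i|} := by
        have : {x : Fin n → ℝ | ∀ i, t i ≤ |x i|} = ⋂ i, {x : Fin n → ℝ | t i ≤ |x i|} := by
          ext x
          simp
        rw [this]
        apply MeasurableSet.iInter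
        intro i
        exact measurableSet_le measurable_const (by fun_prop)
      rw [hμ, withDensity_apply _ hS]
      exact tail_bound hf hm t ht) s hs (fun i => (hs' i).trans_lt (by norm_num))
  refine le_trans (le_of_eq ?_) h1
  rw [hμ, lintegral_withDensity_eq_lintegral_mul _ hf.meas]
  · congr 1
    ext x
    rw [Pi.mul_apply, mul_comm, ENNReal.ofReal_prod_of_nonneg (fun i _ => (Real.cosh_pos _).le)]
  · apply Finset.measurable_prod
    intro i _
    fun_prop

end cosh_exp_moment_aux

open cosh_exp_moment_aux in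
theorem cosh_exp_moment (hf : UD f) (hm : ∀ i, ∫⁻ x, ENNReal.ofReal |x i| * f x ≤ 1) :
    (∀ s : Fin n → ℝ, (∀ i, |s i| ≤ 1 / 80) →
      ∫⁻ x, ENNReal.ofReal (Real.cosh (∑ i, s i * x i)) * f x ≤
        ENNReal.ofReal (Real.exp (3200 * ∑ i, s i ^ 2))) ∧
    (∀ I : Finset (Fin n),
      ∫⁻ x, ENNReal.ofReal (Real.exp ((∑ i ∈ I, |x i|) / 80)) * f x ≤ 3 ^ I.card) := by
  constructor
  · intro s hs
    rw [average hf s]
    have h1 := moment hf hm (fun i => |s i|) (fun i => abs_nonneg _) hs
    have h2 : ∀ x : Fin n → ℝ, ∏ i, Real.cosh (|s i| * |x i|) = ∏ i, Real.cosh (s i * x i) := by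
      intro x
      apply Finset.prod_congr rfl
      intro i _
      rw [← abs_mul, Real.cosh_abs]
    simp only [h2] at h1
    refine h1.trans (ENNReal.ofReal_le_ofReal ?_)
    rw [Finset.mul_sum, Real.exp_sum]
    apply Finset.prod_le_prod
    · intro i _
      have h3 := hs i
      have h4 : |s i| ^ 2 ≤ (1 / 80) ^ 2 := pow_le_pow_left₀ (abs_nonneg _) h3 2
      apply div_nonneg (by norm_num)
      nlinarith
    · intro i _
      have h3 := hs i
      have h4 : |s i| ^ 2 ≤ (1 / 80) ^ 2 := pow_le_pow_left₀ (abs_nonneg _) h3 2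
      rw [sq_abs] at h4 ⊢
      rw [div_le_iff₀ (by nlinarith)]
      have h5 := Real.add_one_le_exp (3200 * s i ^ 2)
      have h6 : 0 ≤ s i ^ 2 := sq_nonneg _
      have h7 : (3200 * s i ^ 2 + 1) * ((1 / 40) ^ 2 - s i ^ 2) ≤
          Real.exp (3200 * s i ^ 2) * ((1 / 40) ^ 2 - s i ^ 2) :=
        mul_le_mul_of_nonneg_right h5 (by nlinarith)
      refine le_trans ?_ h7
      nlinarith
  · intro I
    classical
    set s : Fin n → ℝ := fun i => if i ∈ I then 1 / 80 else 0 with hs
    have h1 := moment hf hm s (fun i => by simp only [hs]; split_ifs <;> norm_num)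
      (fun i => by simp only [hs]; split_ifs <;> norm_num)
    have h2 : ∏ i, ((1 / 40 : ℝ) ^ 2 / ((1 / 40) ^ 2 - s i ^ 2)) = (4 / 3) ^ I.card := by
      have : ∀ i, ((1 / 40 : ℝ) ^ 2 / ((1 / 40) ^ 2 - s i ^ 2)) = if i ∈ I then 4 / 3 else 1 := by
        intro i
        simp only [hs]
        split_ifs <;> norm_num
      simp only [this]
      rw [Finset.prod_ite_mem, Finset.univ_inter, Finset.prod_const]
    rw [h2] at h1
    have h3 : ∀ x : Fin n → ℝ, Real.exp ((∑ i ∈ I, |x i|) / 80) ≤ 2 ^ I.card * ∏ i, Real.cosh (s i * |x i|) := by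
      intro x
      have h4 : ∏ i, Real.cosh (s i * |x i|) = ∏ i ∈ I, Real.cosh (|x i| / 80) := by
        have : ∀ i, Real.cosh (s i * |x i|) = if i ∈ I then Real.cosh (|x i| / 80) else 1 := by
          intro i
          simp only [hs]
          split_ifs
          · congr 1
            ring
          · simp
        simp only [this]
        rw [Finset.prod_ite_mem, Finset.univ_inter]
      rw [h4, Finset.sum_div, Real.exp_sum, ← Finset.prod_const, ← Finset.prod_mul_distrib]
      apply Finset.prod_le_prod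
      · intro i _
        exact (Real.exp_pos _).le
      · intro i _
        rw [Real.cosh_eq]
        have := Real.exp_pos (-(|x i| / 80))
        linarith
    calc ∫⁻ x, ENNReal.ofReal (Real.exp ((∑ i ∈ I, |x i|) / 80)) * f x
        ≤ ∫⁻ x, 2 ^ I.card * (ENNReal.ofReal (∏ i, Real.cosh (s i * |x i|)) * f x) := by
          apply lintegral_mono
          intro x
          simp only
          rw [← mul_assoc]
          apply mul_le_mul_left
          refine (ENNReal.ofReal_le_ofReal (h3 x)).trans (le_of_eq ?_)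
          rw [ENNReal.ofReal_mul (by positivity), ENNReal.ofReal_pow (by norm_num)]
          simp
      _ = 2 ^ I.card * ∫⁻ x, ENNReal.ofReal (∏ i, Real.cosh (s i * |x i|)) * f x := by
          rw [lintegral_const_mul]
          apply Measurable.mul _ hf.meas
          fun_prop
      _ ≤ 2 ^ I.card * ENNReal.ofReal ((4 / 3) ^ I.card) := by gcongr
      _ ≤ 3 ^ I.card := by
          rw [ENNReal.ofReal_pow (by norm_num), ← mul_pow]
          apply pow_le_pow_left'
          have : (2 : ℝ≥0∞) = ENNReal.ofReal 2 := by simp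
          rw [this, ← ENNReal.ofReal_mul (by norm_num)]
          have : (3 : ℝ≥0∞) = ENNReal.ofReal 3 := by simp
          rw [this]
          apply ENNReal.ofReal_le_ofReal
          norm_num

end Pool.Agent.Helper711SMP.D1

namespace Pool.Agent.Helper711SMP

alias cosh_exp_moment := Pool.Agent.Helper711SMP.D1.cosh_exp_moment

end Pool.Agent.Helper711SMP
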