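import Mathlib
import Pool.Agent.Helper711_SMP.Basic
import Pool.Agent.Helper711_SMP.D1

/-!
# Moment bound
-/

set_option autoImplicit false

namespace Pool.Agent.Helper711SMP.D2

open MeasureTheory
open scoped ENNReal

variable {n : ℕ} {f : (Fin n → ℝ) → ℝ≥0∞}

lemma rpow_le_cosh_aux (p l t : ℝ) (hp : 1 ≤ p) (hl : 0 < l) :
    |t| ^ p ≤ (2 * (p / l) ^ p * Real.exp (-p)) * Real.cosh (l * t) := by
  have hp0 : 0 < p := by linarith
  have h1 : (l * |t| / p) ^ p ≤ Real.exp (l * |t| - p) := by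
    have hu : l * |t| / p ≤ Real.exp (l * |t| / p - 1) := by
      have := Real.add_one_le_exp (l * |t| / p - 1)
      linarith
    have hu0 : 0 ≤ l * |t| / p := by positivity
    calc (l * |t| / p) ^ p ≤ (Real.exp (l * |t| / p - 1)) ^ p :=
          Real.rpow_le_rpow hu0 hu hp0.le
      _ = Real.exp (l * |t| - p) := by
          rw [← Real.exp_mul]; congr 1; field_simp
  have h2 : |t| = (p / l) * (l * |t| / p) := by field_simp
  have h3 : |t| ^ p = (p / l) ^ p * (l * |t| / p) ^ p := by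
    conv_lhs => rw [h2]
    rw [Real.mul_rpow (by positivity) (by positivity)]
  have h4 : Real.exp (l * |t|) ≤ 2 * Real.cosh (l * t) := by
    rw [Real.cosh_eq]
    have ha := Real.exp_pos (l * t)
    have hb := Real.exp_pos (-(l * t))
    rcases abs_cases t with ⟨h, _⟩ | ⟨h, _⟩
    · rw [h]; linarith
    · rw [h, show l * -t = -(l * t) by ring]; linarith
  have hK : 0 ≤ (p / l) ^ p := by positivity
  rw [h3]
  calc (p / l) ^ p * (l * |t| / p) ^ p ≤ (p / l) ^ p * Real.exp (l * |t| - p) :=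
        mul_le_mul_of_nonneg_left h1 hK
    _ = (p / l) ^ p * Real.exp (-p) * Real.exp (l * |t|) := by
        rw [sub_eq_add_neg, Real.exp_add]; ring
    _ ≤ (p / l) ^ p * Real.exp (-p) * (2 * Real.cosh (l * t)) := by
        apply mul_le_mul_of_nonneg_left h4; positivity
    _ = _ := by ring

theorem moment_bound (hf : UD f) (hm : ∀ i, ∫⁻ x, ENNReal.ofReal |x i| * f x ≤ 1)
    (y : Fin n → ℝ) (p m b : ℝ) (hp : 1 ≤ p) (hm0 : 0 < m) (hb0 : 0 < b)
    (hy : ∀ i, |y i| ≤ m) (hb : ∑ i, y i ^ 2 ≤ b ^ 2) :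
    ∫⁻ x, ENNReal.ofReal (|∑ i, y i * x i| ^ p) * f x ≤
      ENNReal.ofReal ((2 * max (80 * p * m) (60 * √p * b)) ^ p) := by
  have hp0 : 0 < p := by linarith
  have hsp : 0 < √p := Real.sqrt_pos.mpr hp0
  have hsq : √p * √p = p := Real.mul_self_sqrt hp0.le
  set l : ℝ := min (1 / (80 * m)) (√p / (60 * b)) with hl
  have hl0 : 0 < l := by
    rw [hl]; apply lt_min <;> positivity
  have hl1 : l * m ≤ 1 / 80 := by
    have : l ≤ 1 / (80 * m) := min_le_left _ _
    calc l * m ≤ 1 / (80 * m) * m := mul_le_mul_of_nonneg_right this hm0.le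
      _ = 1 / 80 := by field_simp
  have hl2 : l * b ≤ √p / 60 := by
    have : l ≤ √p / (60 * b) := min_le_right _ _
    calc l * b ≤ √p / (60 * b) * b := mul_le_mul_of_nonneg_right this hb0.le
      _ = √p / 60 := by field_simp
  have hpl : p / l ≤ max (80 * p * m) (60 * √p * b) := by
    rcases min_cases (1 / (80 * m)) (√p / (60 * b)) with ⟨h, _⟩ | ⟨h, _⟩
    · rw [hl, h]
      refine le_trans (le_of_eq ?_) (le_max_left _ _)
      field_simp
    · rw [hl, h]
      refine le_trans (le_of_eq ?_) (le_max_right _ _)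
      rw [div_div_eq_mul_div, div_eq_iff hsp.ne']
      nlinarith [hsq]
  have hpl0 : 0 < p / l := by positivity
  set C : ℝ := 2 * (p / l) ^ p * Real.exp (-p) with hC
  have hC0 : 0 ≤ C := by rw [hC]; positivity
  have hmain := (cosh_exp_moment hf hm).1 (fun i => l * y i) (by
    intro i
    rw [abs_mul, abs_of_pos hl0]
    exact le_trans (mul_le_mul_of_nonneg_left (hy i) hl0.le) hl1)
  have hexp : 3200 * ∑ i, (l * y i) ^ 2 ≤ p := by
    have h1 : ∑ i, (l * y i) ^ 2 = l ^ 2 * ∑ i, y i ^ 2 := by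
      rw [Finset.mul_sum]; exact Finset.sum_congr rfl (fun i _ => by ring)
    rw [h1]
    have h2 : l ^ 2 * ∑ i, y i ^ 2 ≤ (l * b) ^ 2 := by
      rw [mul_pow]; exact mul_le_mul_of_nonneg_left hb (by positivity)
    have h3 : (l * b) ^ 2 ≤ (√p / 60) ^ 2 := by
      apply pow_le_pow_left₀ (by positivity) hl2
    have h4 : (√p / 60) ^ 2 = p / 3600 := by
      rw [div_pow, Real.sq_sqrt hp0.le]; norm_num
    rw [h4] at h3
    linarith
  have hsum : ∀ x : Fin n → ℝ, ∑ i, (l * y i) * x i = l * ∑ i, y i * x i := by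
    intro x; rw [Finset.mul_sum]; exact Finset.sum_congr rfl (fun i _ => by ring)
  calc ∫⁻ x, ENNReal.ofReal (|∑ i, y i * x i| ^ p) * f x
      ≤ ∫⁻ x, ENNReal.ofReal C * (ENNReal.ofReal (Real.cosh (∑ i, (l * y i) * x i)) * f x) := by
        apply lintegral_mono
        intro x
        dsimp only
        rw [← mul_assoc, ← ENNReal.ofReal_mul hC0, hsum x]
        gcongr
        exact rpow_le_cosh_aux p l _ hp hl0
    _ = ENNReal.ofReal C * ∫⁻ x, ENNReal.ofReal (Real.cosh (∑ i, (l * y i) * x i)) * f x := by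
        rw [lintegral_const_mul' _ _ ENNReal.ofReal_ne_top]
    _ ≤ ENNReal.ofReal C * ENNReal.ofReal (Real.exp (3200 * ∑ i, (l * y i) ^ 2)) := by
        gcongr
    _ ≤ ENNReal.ofReal C * ENNReal.ofReal (Real.exp p) := by
        gcongr
    _ = ENNReal.ofReal (C * Real.exp p) := (ENNReal.ofReal_mul hC0).symm
    _ ≤ _ := by
        apply ENNReal.ofReal_le_ofReal
        have h5 : C * Real.exp p = 2 * (p / l) ^ p := by
          rw [hC, mul_assoc, ← Real.exp_add]; simp
        rw [h5]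
        calc 2 * (p / l) ^ p ≤ 2 ^ p * (p / l) ^ p := by
              gcongr
              calc (2:ℝ) = 2 ^ (1:ℝ) := by simp
                _ ≤ 2 ^ p := Real.rpow_le_rpow_of_exponent_le (by norm_num) hp
          _ = (2 * (p / l)) ^ p := by rw [Real.mul_rpow (by norm_num) hpl0.le]
          _ ≤ _ := by
              apply Real.rpow_le_rpow (by positivity) _ hp0.le
              gcongr

end Pool.Agent.Helper711SMP.D2

namespace Pool.Agent.Helper711SMP

alias moment_bound := Pool.Agent.Helper711SMP.D2.moment_bound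

end Pool.Agent.Helper711SMP
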