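import Mathlib
import Pool.Agent.Helper711_SMP.Basic
import Pool.Agent.Helper711_SMP.PLx
import Pool.Agent.Helper711_SMP.Sign

/-!
# Reverse Hoelder
-/

set_option autoImplicit false

namespace Pool.Agent.Helper711SMP.E

open MeasureTheory
open scoped ENNReal

variable {n : ℕ} {f : (Fin n → ℝ) → ℝ≥0∞}

namespace RevH

/-- the linear statistic -/
noncomputable def TT {n : ℕ} (I : Finset (Fin n)) (a : Fin n → ℝ) (x : Fin n → ℝ) : ℝ :=
  ∑ i ∈ I, a i * |x i|

lemma TT_meas {n : ℕ} (I : Finset (Fin n)) (a : Fin n → ℝ) : Measurable (TT I a) := by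
  unfold TT
  fun_prop

lemma TT_nonneg {n : ℕ} (I : Finset (Fin n)) {a : Fin n → ℝ} (ha : ∀ i, 0 ≤ a i) (x : Fin n → ℝ) :
    0 ≤ TT I a x := Finset.sum_nonneg fun i _ => mul_nonneg (ha i) (abs_nonneg _)

lemma TT_even {n : ℕ} (I : Finset (Fin n)) (a : Fin n → ℝ) (i : Fin n) (x : Fin n → ℝ) :
    TT I a (Function.update x i (-x i)) = TT I a x := by
  unfold TT
  refine Finset.sum_congr rfl fun j _ => ?_
  by_cases h : j = i
  · subst h
    simp
  · rw [Function.update_of_ne h]

/-- the orthant -/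
def OO (n : ℕ) : Set (Fin n → ℝ) := {x | ∀ i, 0 ≤ x i}

lemma OO_meas (n : ℕ) : MeasurableSet (OO n) := by
  have : OO n = ⋂ i, {x : Fin n → ℝ | 0 ≤ x i} := by
    ext x
    simp [OO]
  rw [this]
  exact MeasurableSet.iInter fun i => measurableSet_le measurable_const (measurable_pi_apply i)

/-- level sets -/
def SS {n : ℕ} (I : Finset (Fin n)) (a : Fin n → ℝ) (t : ℝ) : Set (Fin n → ℝ) := {x | t ≤ TT I a x}

lemma SS_meas {n : ℕ} (I : Finset (Fin n)) (a : Fin n → ℝ) (t : ℝ) : MeasurableSet (SS I a t) :=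
  measurableSet_le measurable_const (TT_meas I a)

lemma u_eq {n : ℕ} {f : (Fin n → ℝ) → ℝ≥0∞} (hf : UD f) (I : Finset (Fin n)) (a : Fin n → ℝ) (t : ℝ) :
    ∫⁻ x in SS I a t, f x = 2 ^ n * ∫⁻ x, (OO n ∩ SS I a t).indicator f x := by
  rw [← lintegral_indicator (SS_meas I a t)]
  rw [lintegral_even _ (hf.meas.indicator (SS_meas I a t))]
  · rw [show {x : Fin n → ℝ | ∀ i, 0 ≤ x i} = OO n from rfl, ← lintegral_indicator (OO_meas n)]
    congr 1
    refine lintegral_congr fun x => ?_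
    rw [Set.indicator_indicator]
  · intro i x
    have h1 : Function.update x i (-x i) ∈ SS I a t ↔ x ∈ SS I a t := by
      simp only [SS, Set.mem_setOf_eq, TT_even]
    by_cases h : x ∈ SS I a t
    · rw [Set.indicator_of_mem h, Set.indicator_of_mem (h1.2 h), hf.even]
    · rw [Set.indicator_of_notMem h, Set.indicator_of_notMem (fun h' => h (h1.1 h'))]

lemma TT_lin {n : ℕ} (I : Finset (Fin n)) (a : Fin n → ℝ) {x y : Fin n → ℝ} (hx : x ∈ OO n)
    (hy : y ∈ OO n) {s : ℝ} (hs : 0 < s) (hs1 : s < 1) :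
    TT I a (s • x + (1 - s) • y) = s * TT I a x + (1 - s) * TT I a y := by
  unfold TT
  rw [Finset.mul_sum, Finset.mul_sum, ← Finset.sum_add_distrib]
  refine Finset.sum_congr rfl fun i _ => ?_
  have h1 := hx i
  have h2 := hy i
  have h3 : 0 ≤ s * x i + (1 - s) * y i := add_nonneg (mul_nonneg hs.le h1) (mul_nonneg (by linarith) h2)
  simp only [Pi.add_apply, Pi.smul_apply, smul_eq_mul]
  rw [abs_of_nonneg h1, abs_of_nonneg h2, abs_of_nonneg h3]
  ring

/-- the tail inequality -/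
lemma tail {n : ℕ} {f : (Fin n → ℝ) → ℝ≥0∞} (hf : UD f) (I : Finset (Fin n)) (a : Fin n → ℝ)
    (ha : ∀ i, 0 ≤ a i) {t : ℝ} (ht : 0 < t) {j : ℕ} (hj : 1 ≤ j) :
    ∫⁻ x in SS I a (j * t), f x ≤ (∫⁻ x in SS I a t, f x) ^ j := by
  rcases hj.eq_or_lt with rfl | hj
  · simp
  have hj0 : (0 : ℝ) < j := by positivity
  have hj1 : (1 : ℝ) < j := by exact_mod_cast hj
  set s : ℝ := 1 / j with hs
  have hs0 : 0 < s := by positivity
  have hs1 : s < 1 := by
    rw [hs, div_lt_one hj0]
    exact hj1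
  have hsj : s * j = 1 := by
    rw [hs]
    field_simp
  have hpl := pl n s hs0 hs1 ((OO n ∩ SS I a (j * t)).indicator f) ((OO n ∩ SS I a 0).indicator f)
    ((OO n ∩ SS I a t).indicator f) (hf.meas.indicator ((OO_meas n).inter (SS_meas I a _)))
    (hf.meas.indicator ((OO_meas n).inter (SS_meas I a _)))
    (hf.meas.indicator ((OO_meas n).inter (SS_meas I a _))) (fun x y => by
      by_cases hx : x ∈ OO n ∩ SS I a (j * t)
      · by_cases hy : y ∈ OO n ∩ SS I a 0
        · have hxy : s • x + (1 - s) • y ∈ OO n ∩ SS I a t := by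
            constructor
            · intro i
              simp only [Pi.add_apply, Pi.smul_apply, smul_eq_mul]
              exact add_nonneg (mul_nonneg hs0.le (hx.1 i)) (mul_nonneg (by linarith) (hy.1 i))
            · change t ≤ TT I a _
              rw [TT_lin I a hx.1 hy.1 hs0 hs1]
              have h1 : j * t ≤ TT I a x := hx.2
              have h2 : 0 ≤ TT I a y := hy.2
              have h3 : s * (j * t) ≤ s * TT I a x := mul_le_mul_of_nonneg_left h1 hs0.le
              have h4 : s * (j * t) = t := by rw [← mul_assoc, hsj, one_mul]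
              have h5 : 0 ≤ (1 - s) * TT I a y := mul_nonneg (by linarith) h2
              linarith
          rw [Set.indicator_of_mem hx, Set.indicator_of_mem hy, Set.indicator_of_mem hxy]
          exact hf.logc s hs0 hs1 x y
        · rw [Set.indicator_of_notMem hy, ENNReal.zero_rpow_of_pos (by linarith), mul_zero]
          exact zero_le
      · rw [Set.indicator_of_notMem hx, ENNReal.zero_rpow_of_pos hs0, zero_mul]
        exact zero_le)
  have h0 : ∫⁻ x in SS I a 0, f x = 1 := by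
    have : SS I a 0 = Set.univ := by
      ext x
      simp only [SS, Set.mem_setOf_eq, Set.mem_univ, iff_true]
      exact TT_nonneg I ha x
    rw [this, setLIntegral_univ, hf.mass]
  have e0 := u_eq hf I a 0
  have e1 := u_eq hf I a (j * t)
  have e2 := u_eq hf I a t
  rw [h0] at e0
  have h2n : (2 ^ n : ℝ≥0∞) ≠ 0 := by positivity
  have h2t : (2 ^ n : ℝ≥0∞) ≠ ⊤ := by finiteness
  have hkey : (∫⁻ x in SS I a (j * t), f x) ^ s ≤ ∫⁻ x in SS I a t, f x := by
    calc (∫⁻ x in SS I a (j * t), f x) ^ s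
        = (∫⁻ x in SS I a (j * t), f x) ^ s * (1 : ℝ≥0∞) ^ (1 - s) := by rw [ENNReal.one_rpow, mul_one]
      _ = (2 ^ n * ∫⁻ x, (OO n ∩ SS I a (j * t)).indicator f x) ^ s *
          (2 ^ n * ∫⁻ x, (OO n ∩ SS I a 0).indicator f x) ^ (1 - s) := by rw [← e1, ← e0]
      _ = 2 ^ n * ((∫⁻ x, (OO n ∩ SS I a (j * t)).indicator f x) ^ s *
          (∫⁻ x, (OO n ∩ SS I a 0).indicator f x) ^ (1 - s)) := by
          rw [ENNReal.mul_rpow_of_nonneg _ _ hs0.le, ENNReal.mul_rpow_of_nonneg _ _ (by linarith)]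
          have : (2 ^ n : ℝ≥0∞) ^ s * (2 ^ n : ℝ≥0∞) ^ (1 - s) = 2 ^ n := by
            rw [← ENNReal.rpow_add _ _ h2n h2t]
            simp
          calc _ = ((2 ^ n : ℝ≥0∞) ^ s * (2 ^ n : ℝ≥0∞) ^ (1 - s)) *
              ((∫⁻ x, (OO n ∩ SS I a (j * t)).indicator f x) ^ s *
              (∫⁻ x, (OO n ∩ SS I a 0).indicator f x) ^ (1 - s)) := by ring
            _ = _ := by rw [this]
      _ ≤ 2 ^ n * ∫⁻ x, (OO n ∩ SS I a t).indicator f x := by gcongr
      _ = ∫⁻ x in SS I a t, f x := e2.symm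
  calc ∫⁻ x in SS I a (j * t), f x = ((∫⁻ x in SS I a (j * t), f x) ^ s) ^ (j : ℝ) := by
        rw [← ENNReal.rpow_mul, hsj, ENNReal.rpow_one]
    _ ≤ (∫⁻ x in SS I a t, f x) ^ (j : ℝ) := ENNReal.rpow_le_rpow hkey hj0.le
    _ = _ := ENNReal.rpow_natCast _ _

end RevH

theorem rev_hoelder (hf : UD f) (I : Finset (Fin n)) (a : Fin n → ℝ) (ha : ∀ i, 0 ≤ a i)
    (p B : ℝ) (hp : 1 ≤ p) (hB : 0 < B)
    (hmom : ENNReal.ofReal (B ^ p) ≤
      ∫⁻ x, ENNReal.ofReal ((∑ i ∈ I, a i * |x i|) ^ p) * f x) :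
    ENNReal.ofReal (Real.exp (-(4 * p))) ≤
      ∫⁻ x in {x : Fin n → ℝ | B / 4 ≤ ∑ i ∈ I, a i * |x i|}, f x := by
  by_contra hcon
  push Not at hcon
  have hp0 : 0 < p := by linarith
  set t : ℝ := B / 4 with ht
  have ht0 : 0 < t := by positivity
  change ∫⁻ x in RevH.SS I a t, f x < _ at hcon
  -- pointwise bound
  have hpt : ∀ x : Fin n → ℝ, ENNReal.ofReal ((∑ i ∈ I, a i * |x i|) ^ p) * f x ≤
      ENNReal.ofReal (t ^ p) * ∑' j : ℕ, ENNReal.ofReal (((j : ℝ) + 1) ^ p) *
        (RevH.SS I a (j * t)).indicator f x := by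
    intro x
    change ENNReal.ofReal ((RevH.TT I a x) ^ p) * f x ≤ _
    have hT := RevH.TT_nonneg I ha x
    set j : ℕ := ⌊RevH.TT I a x / t⌋₊ with hj
    have h1 : (j : ℝ) ≤ RevH.TT I a x / t := Nat.floor_le (by positivity)
    have h2 : RevH.TT I a x / t < j + 1 := Nat.lt_floor_add_one _
    have h3 : x ∈ RevH.SS I a (j * t) := by
      change (j : ℝ) * t ≤ _
      rwa [le_div_iff₀ ht0] at h1
    have h4 : RevH.TT I a x ≤ (j + 1) * t := by
      rw [div_lt_iff₀ ht0] at h2
      exact h2.le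
    have h5 : RevH.TT I a x ^ p ≤ t ^ p * ((j : ℝ) + 1) ^ p := by
      rw [mul_comm, ← Real.mul_rpow (by positivity) ht0.le]
      exact Real.rpow_le_rpow hT h4 hp0.le
    calc ENNReal.ofReal ((RevH.TT I a x) ^ p) * f x
        ≤ ENNReal.ofReal (t ^ p * ((j : ℝ) + 1) ^ p) * f x := by
          gcongr
      _ = ENNReal.ofReal (t ^ p) * (ENNReal.ofReal (((j : ℝ) + 1) ^ p) *
          (RevH.SS I a (j * t)).indicator f x) := by
          rw [ENNReal.ofReal_mul (by positivity), Set.indicator_of_mem h3, mul_assoc]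
      _ ≤ _ := by
          gcongr
          exact ENNReal.le_tsum (f := fun j : ℕ => ENNReal.ofReal (((j : ℝ) + 1) ^ p) *
            (RevH.SS I a (j * t)).indicator f x) j
  have hint : ∫⁻ x, ENNReal.ofReal ((∑ i ∈ I, a i * |x i|) ^ p) * f x ≤
      ENNReal.ofReal (t ^ p) * ∑' j : ℕ, ENNReal.ofReal (((j : ℝ) + 1) ^ p) *
        ∫⁻ x in RevH.SS I a (j * t), f x := by
    refine (lintegral_mono hpt).trans (le_of_eq ?_)
    have hm : ∀ j : ℕ, Measurable fun x => ENNReal.ofReal (((j : ℝ) + 1) ^ p) *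
        (RevH.SS I a (j * t)).indicator f x := fun j =>
      (hf.meas.indicator (RevH.SS_meas I a _)).const_mul _
    rw [lintegral_const_mul _ (Measurable.ennreal_tsum hm), lintegral_tsum fun j => (hm j).aemeasurable]
    congr 1
    refine tsum_congr fun j => ?_
    rw [lintegral_const_mul _ (hf.meas.indicator (RevH.SS_meas I a _)),
      lintegral_indicator (RevH.SS_meas I a _)]
  have hterm : ∀ j : ℕ, ENNReal.ofReal (((j : ℝ) + 1) ^ p) * ∫⁻ x in RevH.SS I a (j * t), f x ≤
      (2⁻¹ : ℝ≥0∞) ^ j := by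
    intro j
    rcases Nat.eq_zero_or_pos j with rfl | hj
    · simp only [CharP.cast_eq_zero, zero_add, Real.one_rpow, ENNReal.ofReal_one, one_mul, pow_zero]
      exact (setLIntegral_le_lintegral _ _).trans hf.mass.le
    · have h1 := RevH.tail hf I a ha ht0 hj
      have h2 : (∫⁻ x in RevH.SS I a t, f x) ^ j ≤ ENNReal.ofReal (Real.exp (-(4 * p))) ^ j := by
        gcongr
      have h3 : ((j : ℝ) + 1) ^ p ≤ Real.exp (j * p) := by
        rw [Real.exp_mul]
        exact Real.rpow_le_rpow (by positivity) (Real.add_one_le_exp _) hp0.le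
      calc ENNReal.ofReal (((j : ℝ) + 1) ^ p) * ∫⁻ x in RevH.SS I a (j * t), f x
          ≤ ENNReal.ofReal (Real.exp (j * p)) * ENNReal.ofReal (Real.exp (-(4 * p))) ^ j := by
            gcongr
            exact h1.trans h2
        _ = ENNReal.ofReal (Real.exp (j * p) * Real.exp (-(4 * p)) ^ j) := by
            rw [ENNReal.ofReal_mul (by positivity), ENNReal.ofReal_pow (by positivity)]
        _ ≤ ENNReal.ofReal ((1 / 2) ^ j) := by
            apply ENNReal.ofReal_le_ofReal
            rw [mul_comm (j : ℝ) p, Real.exp_mul, Real.rpow_natCast, ← mul_pow]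
            apply pow_le_pow_left₀ (by positivity)
            rw [← Real.exp_add]
            have h4 : p + -(4 * p) ≤ -1 := by linarith
            have h5 := Real.exp_neg_one_lt_d9
            have h6 := Real.exp_le_exp.2 h4
            linarith
        _ = _ := by
            rw [ENNReal.ofReal_pow (by norm_num)]
            congr 1
            rw [one_div, ENNReal.ofReal_inv_of_pos (by norm_num)]
            norm_num
  have hsum : ∑' j : ℕ, ENNReal.ofReal (((j : ℝ) + 1) ^ p) * ∫⁻ x in RevH.SS I a (j * t), f x ≤ 2 := by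
    refine (ENNReal.tsum_le_tsum hterm).trans ?_
    rw [ENNReal.tsum_geometric, ENNReal.one_sub_inv_two, inv_inv]
  have hfin : ENNReal.ofReal (B ^ p) ≤ ENNReal.ofReal (t ^ p * 2) := by
    refine (hmom.trans hint).trans ?_
    rw [ENNReal.ofReal_mul (by positivity)]
    gcongr
    refine hsum.trans ?_
    norm_num
  have h1 : B ^ p = 4 ^ p * t ^ p := by
    rw [← Real.mul_rpow (by norm_num) ht0.le]
    congr 1
    rw [ht]
    ring
  have h2 : (4 : ℝ) ≤ 4 ^ p := by
    calc (4 : ℝ) = 4 ^ (1 : ℝ) := by rw [Real.rpow_one]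
      _ ≤ 4 ^ p := Real.rpow_le_rpow_of_exponent_le (by norm_num) hp
  have h3 : 0 < t ^ p := by positivity
  rw [ENNReal.ofReal_le_ofReal_iff (by positivity), h1] at hfin
  nlinarith

end Pool.Agent.Helper711SMP.E

namespace Pool.Agent.Helper711SMP

alias rev_hoelder := Pool.Agent.Helper711SMP.E.rev_hoelder

end Pool.Agent.Helper711SMP
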