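import Mathlib
import Pool.Agent.Helper711_SMP.Basic
import Pool.Agent.Helper711_SMP.D2

/-!
# Head moment
-/

set_option autoImplicit false

namespace Pool.Agent.Helper711SMP.F1

open MeasureTheory
open scoped ENNReal

variable {n : ℕ} {f : (Fin n → ℝ) → ℝ≥0∞}

lemma sign_mul_self_real_aux (t : ℝ) : ((SignType.sign t : SignType) : ℝ) * t = |t| := by
  rcases lt_trichotomy t 0 with h | h | h
  · simp [h, abs_of_neg h]
  · simp [h]
  · simp [h, abs_of_pos h]

lemma hm_top (y : Fin n → ℝ) (k : ℕ) (hk : k ≤ n) : ∃ I : Finset (Fin n), I.card = k ∧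
    ∀ i ∈ I, ∀ j, j ∉ I → |y j| ≤ |y i| := by
  classical
  induction k with
  | zero => exact ⟨∅, rfl, fun i hi => absurd hi (Finset.notMem_empty i)⟩
  | succ k ih =>
    obtain ⟨I, hI, hIy⟩ := ih (by omega)
    have hne : (Iᶜ : Finset (Fin n)).Nonempty := by
      rw [← Finset.card_pos, Finset.card_compl, Fintype.card_fin, hI]
      omega
    obtain ⟨j, hj, hmax⟩ := Finset.exists_max_image Iᶜ (fun j => |y j|) hne
    have hjI : j ∉ I := Finset.mem_compl.1 hj
    refine ⟨insert j I, ?_, ?_⟩
    · rw [Finset.card_insert_of_notMem hjI, hI]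
    · intro i hi j' hj'
      have hj'I : j' ∉ I := fun h => hj' (Finset.mem_insert_of_mem h)
      rcases Finset.mem_insert.1 hi with rfl | hi
      · exact hmax j' (Finset.mem_compl.2 hj'I)
      · exact hIy i hi j' hj'I

lemma hm_sum (y : Fin n → ℝ) (p A : ℝ)
    (hB : ∀ z : Fin n → ℝ, (∀ i, |z i| ≤ 1 / 3) → ∑ i, z i ^ 2 ≤ p →
      ∑ i, y i * z i ≤ A / 4320) (I : Finset (Fin n)) (hI : (I.card : ℝ) ≤ p) :
    ∑ i ∈ I, |y i| ≤ A / 1440 := by
  classical
  let z : Fin n → ℝ := fun i => if i ∈ I then SignType.sign (y i) / 3 else 0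
  have hsg : ∀ t : ℝ, |((SignType.sign t : SignType) : ℝ)| ≤ 1 := by
    intro t
    rcases lt_trichotomy t 0 with h | h | h
    · simp [h]
    · simp [h]
    · simp [h]
  have hz1 : ∀ i, |z i| ≤ 1 / 3 := by
    intro i
    simp only [z]
    split_ifs
    · rw [abs_div]
      have := hsg (y i)
      rw [abs_of_pos (by norm_num : (0:ℝ) < 3)]
      linarith
    · simp
  have hz2 : ∑ i, z i ^ 2 ≤ p := by
    have h1 : ∑ i, z i ^ 2 ≤ ∑ i, (if i ∈ I then (1 : ℝ) else 0) := by
      apply Finset.sum_le_sum
      intro i _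
      split_ifs with hi
      · have := hz1 i
        rw [← sq_abs]
        nlinarith [abs_nonneg (z i)]
      · simp [z, hi]
    rw [Finset.sum_ite_mem, Finset.univ_inter, Finset.sum_const, nsmul_eq_mul, mul_one] at h1
    linarith
  have h3 := hB z hz1 hz2
  have h4 : ∑ i, y i * z i = (∑ i ∈ I, |y i|) / 3 := by
    have h5 : ∀ i, y i * z i = if i ∈ I then |y i| / 3 else 0 := by
      intro i
      simp only [z]
      split_ifs
      · have : |y i| = y i * ((SignType.sign (y i) : SignType) : ℝ) := by
          rw [mul_comm]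
          exact (sign_mul_self_real_aux (y i)).symm
        rw [this]
        ring
      · ring
    rw [Finset.sum_congr rfl (fun i _ => h5 i), Finset.sum_ite_mem, Finset.univ_inter,
      Finset.sum_div]
  rw [h4] at h3
  linarith

theorem head_moment (hf : UD f) (hm : ∀ i, ∫⁻ x, ENNReal.ofReal |x i| * f x ≤ 1)
    (y : Fin n → ℝ) (p A : ℝ) (hp : 1 ≤ p) (hA : 0 < A)
    (hmom : ENNReal.ofReal (A ^ p) ≤ ∫⁻ x, ENNReal.ofReal (|∑ i, y i * x i| ^ p) * f x)
    (hB : ∀ z : Fin n → ℝ, (∀ i, |z i| ≤ 1 / 3) → ∑ i, z i ^ 2 ≤ p →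
      ∑ i, y i * z i ≤ A / 4320) :
    ∃ I : Finset (Fin n), (I.card : ℝ) ≤ p ∧ ∑ i ∈ I, |y i| ≤ A / 1440 ∧
      ENNReal.ofReal ((A / 2) ^ p) ≤
        ∫⁻ x, ENNReal.ofReal ((∑ i ∈ I, |y i| * |x i|) ^ p) * f x := by
  classical
  have hp0 : 0 < p := by linarith
  have hp0' : 0 ≤ p := hp0.le
  rcases Nat.lt_or_ge ⌊p⌋₊ n with hn | hn
  swap
  · -- few coordinates
    have hcard : ((Finset.univ : Finset (Fin n)).card : ℝ) ≤ p := by
      rw [Finset.card_univ, Fintype.card_fin]
      exact (Nat.cast_le.2 hn).trans (Nat.floor_le hp0')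
    refine ⟨Finset.univ, hcard, hm_sum y p A hB _ hcard, ?_⟩
    calc ENNReal.ofReal ((A / 2) ^ p) ≤ ENNReal.ofReal (A ^ p) := by
          apply ENNReal.ofReal_le_ofReal
          apply Real.rpow_le_rpow (by linarith) (by linarith) hp0'
      _ ≤ ∫⁻ x, ENNReal.ofReal (|∑ i, y i * x i| ^ p) * f x := hmom
      _ ≤ _ := by
          apply lintegral_mono
          intro x
          apply mul_le_mul_left
          apply ENNReal.ofReal_le_ofReal
          apply Real.rpow_le_rpow (abs_nonneg _) _ hp0'
          refine (Finset.abs_sum_le_sum_abs _ _).trans (le_of_eq ?_)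
          exact Finset.sum_congr rfl (fun i _ => abs_mul _ _)
  · obtain ⟨I, hIc, hIy⟩ := hm_top y ⌊p⌋₊ hn.le
    have hcard : (I.card : ℝ) ≤ p := by
      rw [hIc]
      exact Nat.floor_le hp0'
    have hsum := hm_sum y p A hB I hcard
    refine ⟨I, hcard, hsum, ?_⟩
    set k : ℕ := ⌊p⌋₊ with hk
    have hk1 : 1 ≤ k := Nat.le_floor (by exact_mod_cast hp)
    have hk2 : p / 2 ≤ k := by
      have h1 := Nat.lt_floor_add_one p
      have h2 : (1 : ℝ) ≤ k := by exact_mod_cast hk1
      linarith
    set m : ℝ := A / (720 * p) with hm'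
    set b : ℝ := A / (240 * √p) with hb'
    have hsp : 0 < √p := Real.sqrt_pos.2 hp0
    have hsq : √p * √p = p := Real.mul_self_sqrt hp0'
    have hm0 : 0 < m := by positivity
    have hb0 : 0 < b := by positivity
    set y' : Fin n → ℝ := fun i => if i ∈ I then 0 else y i with hy'
    have hym : ∀ i, |y' i| ≤ m := by
      intro j
      simp only [hy']
      split_ifs with hj
      · rw [abs_zero]
        exact hm0.le
      · have h1 : (k : ℝ) * |y j| ≤ ∑ i ∈ I, |y i| := by
          rw [← hIc, ← nsmul_eq_mul, ← Finset.sum_const]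
          exact Finset.sum_le_sum (fun i hi => hIy i hi j hj)
        have h2 : p / 2 * |y j| ≤ A / 1440 :=
          (mul_le_mul_of_nonneg_right hk2 (abs_nonneg _)).trans (h1.trans hsum)
        rw [hm', le_div_iff₀ (by positivity)]
        nlinarith
    have hyb : ∑ i, y' i ^ 2 ≤ b ^ 2 := by
      set β2 : ℝ := ∑ i, y' i ^ 2 with hβ2
      have hβ0 : 0 ≤ β2 := Finset.sum_nonneg (fun i _ => sq_nonneg _)
      rcases hβ0.eq_or_lt with h0 | hpos
      · rw [← h0]
        positivity
      · set β : ℝ := √β2 with hβ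
        have hβpos : 0 < β := Real.sqrt_pos.2 hpos
        have hββ : β * β = β2 := Real.mul_self_sqrt hβ0
        have hbb : b ^ 2 = A ^ 2 / (57600 * p) := by
          rw [hb', div_pow, mul_pow, sq (√p), hsq]
          norm_num
        -- the test vector
        have key : ∀ t : ℝ, 0 ≤ t → t ≤ 1 / (3 * m) → t ≤ √p / β → t * β2 ≤ A / 4320 := by
          intro t ht0 ht1 ht2
          have h1 := hB (fun i => t * y' i) (by
            intro i
            rw [abs_mul, abs_of_nonneg ht0]
            calc t * |y' i| ≤ 1 / (3 * m) * m :=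
                  mul_le_mul ht1 (hym i) (abs_nonneg _) (by positivity)
              _ = 1 / 3 := by field_simp) (by
            have h2 : ∑ i, (t * y' i) ^ 2 = t ^ 2 * β2 := by
              rw [hβ2, Finset.mul_sum]
              exact Finset.sum_congr rfl (fun i _ => by ring)
            rw [h2]
            have h3 : t * β ≤ √p := by
              rwa [le_div_iff₀ hβpos] at ht2
            have h4 : t ^ 2 * β2 = (t * β) * (t * β) := by
              rw [← hββ]
              ring
            rw [h4, ← hsq]
            exact mul_le_mul h3 h3 (by positivity) (by positivity))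
          have h5 : ∑ i, y i * (t * y' i) = t * β2 := by
            rw [hβ2, Finset.mul_sum]
            apply Finset.sum_congr rfl
            intro i _
            simp only [hy']
            split_ifs
            · ring
            · ring
          rw [h5] at h1
          exact h1
        rcases le_total (1 / (3 * m)) (√p / β) with hc | hc
        · have h1 := key (1 / (3 * m)) (by positivity) le_rfl hc
          have h2 : β2 ≤ A / 4320 * (3 * m) := by
            rw [one_div, inv_mul_le_iff₀ (by positivity)] at h1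
            linarith
          rw [hbb]
          refine h2.trans ?_
          rw [hm']
          rw [show A / 4320 * (3 * (A / (720 * p))) = A ^ 2 / (1036800 * p) by
            field_simp
            norm_num]
          apply div_le_div_of_nonneg_left (sq_nonneg _) (by positivity)
          linarith
        · have h1 := key (√p / β) (by positivity) hc le_rfl
          have h2 : √p / β * β2 = √p * β := by
            rw [← hββ]
            field_simp
          rw [h2] at h1
          rw [← hββ, ← sq]
          apply pow_le_pow_left₀ hβpos.le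
          rw [hb', le_div_iff₀ (by positivity)]
          nlinarith
    have hmb := moment_bound hf hm y' p m b hp hm0 hb0 hym hyb
    have hval : 2 * max (80 * p * m) (60 * √p * b) = A / 2 := by
      have e1 : 80 * p * m = A / 9 := by
        rw [hm']
        field_simp
        norm_num
      have e2 : 60 * √p * b = A / 4 := by
        rw [hb']
        field_simp
        norm_num
      rw [e1, e2, max_eq_right (by linarith)]
      ring
    rw [hval] at hmb
    set μ : Measure (Fin n → ℝ) := volume.withDensity f with hμ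
    set F : (Fin n → ℝ) → ℝ≥0∞ := fun x => ENNReal.ofReal (∑ i ∈ I, |y i| * |x i|) with hF
    set G : (Fin n → ℝ) → ℝ≥0∞ := fun x => ENNReal.ofReal |∑ i, y' i * x i| with hG
    have hFm : Measurable F := by
      rw [hF]
      fun_prop
    have hGm : Measurable G := by
      rw [hG]
      fun_prop
    have hconv : ∀ H : (Fin n → ℝ) → ℝ≥0∞, Measurable H →
        ∫⁻ x, H x ∂μ = ∫⁻ x, H x * f x := by
      intro H hH
      rw [hμ, lintegral_withDensity_eq_lintegral_mul _ hf.meas hH]
      apply lintegral_congr
      intro x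
      rw [Pi.mul_apply, mul_comm]
    have hmink := ENNReal.lintegral_Lp_add_le (μ := μ) hFm.aemeasurable hGm.aemeasurable hp
    have hFval : ∫⁻ x, F x ^ p ∂μ = ∫⁻ x, ENNReal.ofReal ((∑ i ∈ I, |y i| * |x i|) ^ p) * f x := by
      rw [hconv _ (hFm.pow_const p)]
      apply lintegral_congr
      intro x
      simp only [hF]
      rw [ENNReal.ofReal_rpow_of_nonneg
        (Finset.sum_nonneg (fun i _ => mul_nonneg (abs_nonneg _) (abs_nonneg _))) hp0']
    have hGval : ∫⁻ x, G x ^ p ∂μ ≤ ENNReal.ofReal ((A / 2) ^ p) := by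
      rw [hconv _ (hGm.pow_const p)]
      refine le_trans (le_of_eq ?_) hmb
      apply lintegral_congr
      intro x
      simp only [hG]
      rw [ENNReal.ofReal_rpow_of_nonneg (abs_nonneg _) hp0']
    have hAval : ENNReal.ofReal (A ^ p) ≤ ∫⁻ x, (F + G) x ^ p ∂μ := by
      rw [hconv _ ((hFm.add hGm).pow_const p)]
      refine hmom.trans ?_
      apply lintegral_mono
      intro x
      apply mul_le_mul_left
      rw [← ENNReal.ofReal_rpow_of_nonneg (abs_nonneg _) hp0']
      apply ENNReal.rpow_le_rpow _ hp0'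
      rw [Pi.add_apply]
      simp only [hF, hG]
      rw [← ENNReal.ofReal_add
        (Finset.sum_nonneg (fun i _ => mul_nonneg (abs_nonneg _) (abs_nonneg _))) (abs_nonneg _)]
      apply ENNReal.ofReal_le_ofReal
      have h1 : ∑ i, y i * x i = ∑ i ∈ I, y i * x i + ∑ i, y' i * x i := by
        have h2 : ∀ i, y i * x i = (if i ∈ I then y i * x i else 0) + y' i * x i := by
          intro i
          simp only [hy']
          split_ifs <;> ring
        rw [Finset.sum_congr rfl (fun i _ => h2 i), Finset.sum_add_distrib, Finset.sum_ite_mem,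
          Finset.univ_inter]
      rw [h1]
      refine (abs_add_le _ _).trans ?_
      apply add_le_add _ le_rfl
      refine (Finset.abs_sum_le_sum_abs _ _).trans (le_of_eq ?_)
      exact Finset.sum_congr rfl (fun i _ => abs_mul _ _)
    have hroot : ∀ t : ℝ, 0 ≤ t → ENNReal.ofReal (t ^ p) ^ (1 / p) = ENNReal.ofReal t := by
      intro t ht
      rw [← ENNReal.ofReal_rpow_of_nonneg ht hp0', ← ENNReal.rpow_mul, mul_one_div_cancel hp0.ne',
        ENNReal.rpow_one]
    have h1 : ENNReal.ofReal A ≤ (∫⁻ x, F x ^ p ∂μ) ^ (1 / p) + ENNReal.ofReal (A / 2) := by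
      rw [← hroot A hA.le]
      refine (ENNReal.rpow_le_rpow hAval (by positivity)).trans (hmink.trans ?_)
      apply add_le_add le_rfl
      rw [← hroot (A / 2) (by linarith)]
      exact ENNReal.rpow_le_rpow hGval (by positivity)
    have h2 : ENNReal.ofReal (A / 2) ≤ (∫⁻ x, F x ^ p ∂μ) ^ (1 / p) := by
      have h3 : ENNReal.ofReal A = ENNReal.ofReal (A / 2) + ENNReal.ofReal (A / 2) := by
        rw [← ENNReal.ofReal_add (by linarith) (by linarith)]
        congr 1
        ring
      rw [h3] at h1
      exact (ENNReal.add_le_add_iff_right ENNReal.ofReal_ne_top).1 h1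
    have h4 := ENNReal.rpow_le_rpow h2 hp0'
    rw [← ENNReal.rpow_mul, one_div_mul_cancel hp0.ne', ENNReal.rpow_one,
      ENNReal.ofReal_rpow_of_nonneg (by linarith) hp0', hFval] at h4
    exact h4

end Pool.Agent.Helper711SMP.F1

namespace Pool.Agent.Helper711SMP

alias head_moment := Pool.Agent.Helper711SMP.F1.head_moment

end Pool.Agent.Helper711SMP
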