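import Mathlib
import Pool.Agent.Helper711_SMP.Basic
import Pool.Agent.Helper711_SMP.D1
import Pool.Agent.Helper711_SMP.E

/-!
# Choice of a box
-/

set_option autoImplicit false

namespace Pool.Agent.Helper711SMP.F3

open MeasureTheory
open scoped ENNReal

variable {n : ℕ} {f : (Fin n → ℝ) → ℝ≥0∞}

lemma F3.three_le : (3 : ℝ) ≤ Real.exp (5 / 4) := by
  have h1 : Real.exp (5 / 4) = Real.exp 1 * Real.exp (1 / 4) := by
    rw [← Real.exp_add]; norm_num
  have h2 := Real.exp_one_gt_d9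
  have h3 : (1 / 4 : ℝ) + 1 ≤ Real.exp (1 / 4) := Real.add_one_le_exp _
  rw [h1]
  nlinarith

lemma F3.three_pow (c : ℕ) (p : ℝ) (hc : (c : ℝ) ≤ p) : (3 : ℝ) ^ c ≤ Real.exp (5 / 4 * p) := by
  calc (3 : ℝ) ^ c ≤ (Real.exp (5 / 4)) ^ c :=
        pow_le_pow_left₀ (by norm_num) F3.three_le c
    _ = Real.exp (c * (5 / 4)) := (Real.exp_nat_mul _ _).symm
    _ ≤ Real.exp (5 / 4 * p) := Real.exp_le_exp.2 (by linarith)

lemma F3.two_pow (c : ℕ) (p : ℝ) (hc : (c : ℝ) ≤ 1001 * p) :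
    (2 : ℝ) ^ c ≤ Real.exp (694 * p) := by
  have h2 := Real.log_two_lt_d9
  have hc0 : (0 : ℝ) ≤ c := Nat.cast_nonneg c
  calc (2 : ℝ) ^ c = (Real.exp (Real.log 2)) ^ c := by rw [Real.exp_log (by norm_num)]
    _ = Real.exp (c * Real.log 2) := (Real.exp_nat_mul _ _).symm
    _ ≤ Real.exp (694 * p) := Real.exp_le_exp.2 (by nlinarith)

/-- the number of `k` supported in `I` with sum at most `m` -/
lemma F3.count (I : Finset (Fin n)) (m : ℕ) (S : Finset (Fin n → ℕ))
    (h0 : ∀ k ∈ S, ∀ i, i ∉ I → k i = 0) (h1 : ∀ k ∈ S, ∑ i, k i ≤ m) :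
    (S.card : ℝ) ≤ 2 ^ (m + I.card) := by
  classical
  let t : Fin n → Finset ℕ := fun i => if i ∈ I then Finset.range (m + 1) else {0}
  have hsub : S ⊆ Fintype.piFinset t := by
    intro k hk
    rw [Fintype.mem_piFinset]
    intro i
    by_cases hi : i ∈ I
    · simp only [t, hi, if_true, Finset.mem_range]
      have : k i ≤ ∑ i, k i := Finset.single_le_sum (fun _ _ => Nat.zero_le _) (Finset.mem_univ i)
      have := h1 k hk
      omega
    · simp [t, hi, h0 k hk i hi]
  have hprod : ∏ i, ∑ j ∈ t i, (1 / 2 : ℝ) ^ j = ∑ k ∈ Fintype.piFinset t, ∏ i, (1 / 2 : ℝ) ^ k i :=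
    Finset.prod_univ_sum t _
  have hle : ∏ i, ∑ j ∈ t i, (1 / 2 : ℝ) ^ j ≤ 2 ^ I.card := by
    have : ∀ i, ∑ j ∈ t i, (1 / 2 : ℝ) ^ j ≤ if i ∈ I then 2 else 1 := by
      intro i
      by_cases hi : i ∈ I
      · simp only [t, hi, if_true]
        rw [geom_sum_eq (by norm_num)]
        have : (0 : ℝ) < (1 / 2) ^ (m + 1) := by positivity
        rw [div_le_iff_of_neg (by norm_num)]
        linarith
      · simp [t, hi]
    calc ∏ i, ∑ j ∈ t i, (1 / 2 : ℝ) ^ j ≤ ∏ i, (if i ∈ I then (2 : ℝ) else 1) :=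
          Finset.prod_le_prod (fun i _ => Finset.sum_nonneg fun _ _ => by positivity)
            (fun i _ => this i)
      _ = 2 ^ I.card := by
          rw [Finset.prod_ite_mem]
          simp
  have hS : (S.card : ℝ) * (1 / 2) ^ m ≤ 2 ^ I.card := by
    calc (S.card : ℝ) * (1 / 2) ^ m = ∑ k ∈ S, (1 / 2 : ℝ) ^ m := by simp
      _ ≤ ∑ k ∈ S, ∏ i, (1 / 2 : ℝ) ^ k i := by
          apply Finset.sum_le_sum
          intro k hk
          rw [Finset.prod_pow_eq_pow_sum]
          exact pow_le_pow_of_le_one (by norm_num) (by norm_num) (h1 k hk)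
      _ ≤ ∑ k ∈ Fintype.piFinset t, ∏ i, (1 / 2 : ℝ) ^ k i :=
          Finset.sum_le_sum_of_subset_of_nonneg hsub (fun _ _ _ => by positivity)
      _ ≤ 2 ^ I.card := by rw [← hprod]; exact hle
  have h2 : (1 / 2 : ℝ) ^ m * 2 ^ m = 1 := by rw [← mul_pow]; norm_num
  have h3 : (0 : ℝ) < 2 ^ m := by positivity
  calc (S.card : ℝ) = (S.card : ℝ) * ((1 / 2) ^ m * 2 ^ m) := by rw [h2, mul_one]
    _ = ((S.card : ℝ) * (1 / 2) ^ m) * 2 ^ m := by ring
    _ ≤ 2 ^ I.card * 2 ^ m := mul_le_mul_of_nonneg_right hS h3.le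
    _ = 2 ^ (m + I.card) := by rw [pow_add]; ring

/-- Markov -/
lemma F3.tail (hf : UD f) (hm : ∀ i, ∫⁻ x, ENNReal.ofReal |x i| * f x ≤ 1)
    (I : Finset (Fin n)) (p : ℝ) (hcard : (I.card : ℝ) ≤ p) :
    volume.withDensity f {x : Fin n → ℝ | 500 * p < ∑ i ∈ I, |x i|} ≤
      ENNReal.ofReal (Real.exp (-(5 * p))) := by
  have hmeas : Measurable fun x : Fin n → ℝ =>
      ENNReal.ofReal (Real.exp ((∑ i ∈ I, |x i|) / 80)) := by fun_prop
  have h1 := (cosh_exp_moment hf hm).2 I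
  have h2 : ∫⁻ x, ENNReal.ofReal (Real.exp ((∑ i ∈ I, |x i|) / 80)) ∂(volume.withDensity f) =
      ∫⁻ x, ENNReal.ofReal (Real.exp ((∑ i ∈ I, |x i|) / 80)) * f x := by
    rw [lintegral_withDensity_eq_lintegral_mul _ hf.meas hmeas]
    simp only [Pi.mul_apply, mul_comm]
  have h3 := mul_meas_ge_le_lintegral (μ := volume.withDensity f) hmeas
    (ENNReal.ofReal (Real.exp (25 / 4 * p)))
  rw [h2] at h3
  have h4 : volume.withDensity f {x : Fin n → ℝ | 500 * p < ∑ i ∈ I, |x i|} ≤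
      volume.withDensity f {x : Fin n → ℝ | ENNReal.ofReal (Real.exp (25 / 4 * p)) ≤
        ENNReal.ofReal (Real.exp ((∑ i ∈ I, |x i|) / 80))} := by
    apply measure_mono
    intro x hx
    simp only [Set.mem_setOf_eq] at hx ⊢
    apply ENNReal.ofReal_le_ofReal
    apply Real.exp_le_exp.2
    linarith
  refine h4.trans ?_
  set M := volume.withDensity f {x : Fin n → ℝ | ENNReal.ofReal (Real.exp (25 / 4 * p)) ≤
        ENNReal.ofReal (Real.exp ((∑ i ∈ I, |x i|) / 80))}
  have h5 : ENNReal.ofReal (Real.exp (25 / 4 * p)) * M ≤ ENNReal.ofReal (Real.exp (5 / 4 * p)) := by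
    refine (h3.trans h1).trans ?_
    have : (3 : ℝ≥0∞) ^ I.card = ENNReal.ofReal ((3 : ℝ) ^ I.card) := by
      rw [ENNReal.ofReal_pow (by norm_num)]
      norm_num
    rw [this]
    exact ENNReal.ofReal_le_ofReal (F3.three_pow _ _ hcard)
  calc M = ENNReal.ofReal (Real.exp (-(25 / 4 * p))) *
        (ENNReal.ofReal (Real.exp (25 / 4 * p)) * M) := by
        rw [← mul_assoc, ← ENNReal.ofReal_mul (Real.exp_pos _).le, ← Real.exp_add]
        simp
    _ ≤ ENNReal.ofReal (Real.exp (-(25 / 4 * p))) * ENNReal.ofReal (Real.exp (5 / 4 * p)) :=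
        mul_le_mul_right h5 _
    _ = ENNReal.ofReal (Real.exp (-(5 * p))) := by
        rw [← ENNReal.ofReal_mul (Real.exp_pos _).le, ← Real.exp_add]
        congr 2
        ring

theorem box_from_T (hf : UD f) (hm : ∀ i, ∫⁻ x, ENNReal.ofReal |x i| * f x ≤ 1)
    (I : Finset (Fin n)) (a : Fin n → ℝ) (ha : ∀ i, 0 ≤ a i)
    (p A : ℝ) (hp : 1 ≤ p) (hA : 0 < A) (hcard : (I.card : ℝ) ≤ p)
    (hsum : ∑ i ∈ I, a i ≤ A / 8)
    (hmom : ENNReal.ofReal ((A / 2) ^ p) ≤
      ∫⁻ x, ENNReal.ofReal ((∑ i ∈ I, a i * |x i|) ^ p) * f x) :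
    ∃ J ⊆ I, ∃ w : Fin n → ℝ, (∀ i ∈ J, 1 / 2 ≤ w i) ∧ A / 16 ≤ ∑ i ∈ J, a i * w i ∧
      ENNReal.ofReal (Real.exp (-(700 * p))) ≤
        ∫⁻ x in {x : Fin n → ℝ | ∀ i ∈ J, w i ≤ |x i| ∧ |x i| < w i + 1 / 2}, f x := by
  classical
  set μ := volume.withDensity f with hμ
  have hlow := rev_hoelder hf I a ha p (A / 2) hp (by positivity) hmom
  set E1 : Set (Fin n → ℝ) := {x : Fin n → ℝ | A / 2 / 4 ≤ ∑ i ∈ I, a i * |x i|} with hE1
  set E2 : Set (Fin n → ℝ) := {x : Fin n → ℝ | 500 * p < ∑ i ∈ I, |x i|} with hE2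
  have hlow' : ENNReal.ofReal (Real.exp (-(4 * p))) ≤ μ E1 :=
    hlow.trans (withDensity_apply_le _ _)
  have htail : μ E2 ≤ ENNReal.ofReal (Real.exp (-(5 * p))) := F3.tail hf hm I p hcard
  -- the finite family of boxes
  set m : ℕ := ⌊1000 * p⌋₊ with hm'
  let t : Fin n → Finset ℕ := fun i => if i ∈ I then Finset.range (m + 1) else {0}
  let S : Finset (Fin n → ℕ) := (Fintype.piFinset t).filter
    (fun k => ∑ i, k i ≤ m ∧ A / 16 ≤ ∑ i ∈ I, a i * ((k i : ℝ) / 2))
  let Box : (Fin n → ℕ) → Set (Fin n → ℝ) := fun k =>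
    {x : Fin n → ℝ | ∀ i ∈ I, (k i : ℝ) / 2 ≤ |x i| ∧ |x i| < (k i : ℝ) / 2 + 1 / 2}
  have hcover : E1 ⊆ E2 ∪ ⋃ k ∈ S, Box k := by
    intro x hx
    by_cases hx2 : x ∈ E2
    · exact Or.inl hx2
    right
    simp only [hE2, Set.mem_setOf_eq, not_lt] at hx2
    simp only [hE1, Set.mem_setOf_eq] at hx
    set k : Fin n → ℕ := fun i => if i ∈ I then ⌊2 * |x i|⌋₊ else 0 with hk
    have hk1 : ∀ i ∈ I, (k i : ℝ) ≤ 2 * |x i| := by
      intro i hi
      simp only [hk, hi, if_true]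
      exact Nat.floor_le (by positivity)
    have hk2 : ∀ i ∈ I, 2 * |x i| < (k i : ℝ) + 1 := by
      intro i hi
      simp only [hk, hi, if_true]
      exact Nat.lt_floor_add_one _
    have hk0 : ∀ i, i ∉ I → k i = 0 := fun i hi => by simp [hk, hi]
    have hsumk : ((∑ i, k i : ℕ) : ℝ) ≤ 1000 * p := by
      have e1 : (∑ i, k i) = ∑ i ∈ I, k i := by
        symm
        apply Finset.sum_subset (Finset.subset_univ I)
        intro i _ hi
        exact hk0 i hi
      rw [e1]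
      push_cast
      calc ∑ i ∈ I, (k i : ℝ) ≤ ∑ i ∈ I, 2 * |x i| := Finset.sum_le_sum hk1
        _ = 2 * ∑ i ∈ I, |x i| := (Finset.mul_sum _ _ _).symm
        _ ≤ 1000 * p := by linarith
    have hsumm : ∑ i, k i ≤ m := Nat.le_floor hsumk
    simp only [Set.mem_iUnion]
    refine ⟨k, ?_, ?_⟩
    · simp only [S, Finset.mem_filter, Fintype.mem_piFinset]
      refine ⟨fun i => ?_, hsumm, ?_⟩
      · by_cases hi : i ∈ I
        · simp only [t, hi, if_true, Finset.mem_range]
          have : k i ≤ ∑ i, k i :=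
            Finset.single_le_sum (fun _ _ => Nat.zero_le _) (Finset.mem_univ i)
          omega
        · simp [t, hi, hk0 i hi]
      · have h1 : ∑ i ∈ I, a i * |x i| ≤ ∑ i ∈ I, (a i * ((k i : ℝ) / 2) + a i * (1 / 2)) := by
          apply Finset.sum_le_sum
          intro i hi
          rw [← mul_add]
          apply mul_le_mul_of_nonneg_left _ (ha i)
          have := hk2 i hi
          linarith
        rw [Finset.sum_add_distrib, ← Finset.sum_mul] at h1
        linarith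
    · intro i hi
      have := hk1 i hi
      have := hk2 i hi
      constructor <;> linarith
  have hex : ∃ k ∈ S, ENNReal.ofReal (Real.exp (-(700 * p))) ≤ μ (Box k) := by
    by_contra hcon
    push Not at hcon
    have h1 : μ E1 ≤ μ E2 + ∑ k ∈ S, μ (Box k) := by
      refine (measure_mono hcover).trans ((measure_union_le _ _).trans ?_)
      gcongr
      exact measure_biUnion_finset_le _ _
    have h2 : ∑ k ∈ S, μ (Box k) ≤ ENNReal.ofReal (S.card * Real.exp (-(700 * p))) := by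
      calc ∑ k ∈ S, μ (Box k) ≤ ∑ k ∈ S, ENNReal.ofReal (Real.exp (-(700 * p))) :=
            Finset.sum_le_sum fun k hk => (hcon k hk).le
        _ = ENNReal.ofReal (S.card * Real.exp (-(700 * p))) := by
            rw [Finset.sum_const, nsmul_eq_mul, ENNReal.ofReal_mul (Nat.cast_nonneg _),
              ENNReal.ofReal_natCast]
    have h3 : ENNReal.ofReal (Real.exp (-(4 * p))) ≤
        ENNReal.ofReal (Real.exp (-(5 * p)) + S.card * Real.exp (-(700 * p))) := by
      rw [ENNReal.ofReal_add (Real.exp_pos _).le (by positivity)]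
      exact hlow'.trans (h1.trans (add_le_add htail h2))
    rw [ENNReal.ofReal_le_ofReal_iff (by positivity)] at h3
    have h4 : (S.card : ℝ) ≤ 2 ^ (m + I.card) := by
      apply F3.count I m S
      · intro k hk i hi
        simp only [S, Finset.mem_filter, Fintype.mem_piFinset] at hk
        have := hk.1 i
        simpa [t, hi] using this
      · intro k hk
        simp only [S, Finset.mem_filter] at hk
        exact hk.2.1
    have hmle : (m : ℝ) ≤ 1000 * p := Nat.floor_le (by positivity)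
    have h5 : (S.card : ℝ) ≤ Real.exp (694 * p) :=
      h4.trans (F3.two_pow _ p (by push_cast; linarith))
    have h6 : (S.card : ℝ) * Real.exp (-(700 * p)) ≤ Real.exp (-(5 * p)) := by
      calc (S.card : ℝ) * Real.exp (-(700 * p)) ≤ Real.exp (694 * p) * Real.exp (-(700 * p)) :=
            mul_le_mul_of_nonneg_right h5 (Real.exp_pos _).le
        _ = Real.exp (694 * p + -(700 * p)) := (Real.exp_add _ _).symm
        _ ≤ Real.exp (-(5 * p)) := Real.exp_le_exp.2 (by linarith)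
    have h7 : Real.exp (-(5 * p)) = Real.exp (-(4 * p)) * Real.exp (-p) := by
      rw [← Real.exp_add]; congr 1; ring
    have h8 : Real.exp (-p) ≤ Real.exp (-1) := Real.exp_le_exp.2 (by linarith)
    have h9 : Real.exp (-1) < 1 / 2 := by
      rw [Real.exp_neg, inv_eq_one_div]
      apply one_div_lt_one_div_of_lt (by norm_num)
      have := Real.exp_one_gt_d9
      linarith
    have h10 := Real.exp_pos (-(4 * p))
    rw [h7] at h6 h3
    nlinarith
  obtain ⟨k, hkS, hk⟩ := hex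
  simp only [S, Finset.mem_filter, Fintype.mem_piFinset] at hkS
  obtain ⟨hk1, hk2, hk3⟩ := hkS
  refine ⟨I.filter (fun i => 1 ≤ k i), Finset.filter_subset _ _, fun i => (k i : ℝ) / 2, ?_, ?_, ?_⟩
  · intro i hi
    have : 1 ≤ k i := (Finset.mem_filter.1 hi).2
    have : (1 : ℝ) ≤ k i := by exact_mod_cast this
    linarith
  · refine hk3.trans (le_of_eq ?_)
    symm
    apply Finset.sum_subset (Finset.filter_subset _ _)
    intro i hi hi'
    have : k i = 0 := by
      by_contra h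
      exact hi' (Finset.mem_filter.2 ⟨hi, by omega⟩)
    simp [this]
  · refine hk.trans ?_
    set J := I.filter (fun i => 1 ≤ k i)
    have hmeasJ : MeasurableSet {x : Fin n → ℝ | ∀ i ∈ J, (k i : ℝ) / 2 ≤ |x i| ∧
        |x i| < (k i : ℝ) / 2 + 1 / 2} := by
      have : {x : Fin n → ℝ | ∀ i ∈ J, (k i : ℝ) / 2 ≤ |x i| ∧
          |x i| < (k i : ℝ) / 2 + 1 / 2} = ⋂ i ∈ J, ({x : Fin n → ℝ | (k i : ℝ) / 2 ≤ |x i|} ∩
          {x : Fin n → ℝ | |x i| < (k i : ℝ) / 2 + 1 / 2}) := by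
        ext x
        simp only [Set.mem_setOf_eq, Set.mem_iInter, Set.mem_inter_iff]
      rw [this]
      apply Finset.measurableSet_biInter
      intro i _
      apply MeasurableSet.inter
      · exact measurableSet_le measurable_const (by fun_prop)
      · exact measurableSet_lt (by fun_prop) measurable_const
    rw [← withDensity_apply _ hmeasJ]
    apply measure_mono
    intro x hx i hi
    exact hx i (Finset.filter_subset _ _ hi)

end Pool.Agent.Helper711SMP.F3

namespace Pool.Agent.Helper711SMP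

alias box_from_T := Pool.Agent.Helper711SMP.F3.box_from_T

end Pool.Agent.Helper711SMP
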