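import Mathlib
import Pool.Agent.Helper711_SMP.Basic
import Pool.Agent.Helper711_SMP.Sign

/-!
# Small box
-/

set_option autoImplicit false

namespace Pool.Agent.Helper711SMP.G

open MeasureTheory
open scoped ENNReal

variable {n : ℕ} {f : (Fin n → ℝ) → ℝ≥0∞}

lemma sb_abs_update (i : Fin n) (x : Fin n → ℝ) (j : Fin n) :
    |Function.update x i (-x i) j| = |x j| := by
  by_cases h : j = i
  · subst h
    simp
  · rw [Function.update_of_ne h]

lemma sb_even (hf : UD f) {S : Set (Fin n → ℝ)}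
    (hS : ∀ x y : Fin n → ℝ, (∀ i, |x i| = |y i|) → x ∈ S → y ∈ S) (i : Fin n) (x : Fin n → ℝ) :
    S.indicator f (Function.update x i (-x i)) = S.indicator f x := by
  have h1 : ∀ j, |Function.update x i (-x i) j| = |x j| := sb_abs_update i x
  by_cases hx : x ∈ S
  · rw [Set.indicator_of_mem hx, Set.indicator_of_mem (hS _ _ (fun j => (h1 j).symm) hx), hf.even]
  · rw [Set.indicator_of_notMem hx, Set.indicator_of_notMem fun h => hx (hS _ _ h1 h)]

lemma sb_step (hf : UD f) (I : Finset (Fin n)) (K : Set (Fin n → ℝ)) (hK : MeasurableSet K)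
    (hdown : ∀ x y : Fin n → ℝ, (∀ i, i ∉ I → |x i| ≤ |y i|) → y ∈ K → x ∈ K) (k : I → ℕ) :
    ∫⁻ x in {x : Fin n → ℝ | x ∈ K ∧ ∀ i : I, ⌊2 * |x i|⌋₊ = k i}, f x ≤
      ∫⁻ x in {x : Fin n → ℝ | x ∈ K ∧ ∀ i ∈ I, |x i| < 1 / 2}, f x := by
  set A := {x : Fin n → ℝ | x ∈ K ∧ ∀ i : I, ⌊2 * |x i|⌋₊ = k i} with hA
  set B := {x : Fin n → ℝ | x ∈ K ∧ ∀ i ∈ I, |x i| < 1 / 2} with hB
  have hAm : MeasurableSet A := by
    have h1 : A = K ∩ ⋂ i : I, {x : Fin n → ℝ | ⌊2 * |x i|⌋₊ = k i} := by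
      ext x
      simp [hA]
    rw [h1]
    refine hK.inter (MeasurableSet.iInter fun i => ?_)
    have h2 : Measurable fun x : Fin n → ℝ => ⌊2 * |x i|⌋₊ := by
      refine Nat.measurable_floor.comp ?_
      exact ((measurable_pi_apply (i : Fin n)).abs).const_mul 2
    exact h2 (measurableSet_singleton (k i))
  have hBm : MeasurableSet B := by
    have h1 : B = K ∩ ⋂ i ∈ I, {x : Fin n → ℝ | |x i| < 1 / 2} := by
      ext x
      simp [hB]
    rw [h1]
    refine hK.inter (MeasurableSet.biInter I.countable_toSet fun i _ => ?_)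
    exact measurableSet_lt ((measurable_pi_apply i).abs) measurable_const
  have evA := sb_even hf (S := A) (fun x y h hx =>
    ⟨hdown y x (fun i _ => (h i).ge) hx.1, fun i => by rw [← h i]; exact hx.2 i⟩)
  have evB := sb_even hf (S := B) (fun x y h hx =>
    ⟨hdown y x (fun i _ => (h i).ge) hx.1, fun i hi => by rw [← h i]; exact hx.2 i hi⟩)
  rw [← lintegral_indicator hAm, ← lintegral_indicator hBm,
    lintegral_even _ (hf.meas.indicator hAm) evA, lintegral_even _ (hf.meas.indicator hBm) evB]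
  refine mul_le_mul_right ?_ _
  set P := {x : Fin n → ℝ | ∀ i, 0 ≤ x i} with hP
  have hPm : MeasurableSet P := by
    have h1 : P = ⋂ i, {x : Fin n → ℝ | 0 ≤ x i} := by
      ext x
      simp [hP]
    rw [h1]
    exact MeasurableSet.iInter fun i => measurableSet_le measurable_const (measurable_pi_apply i)
  rw [← lintegral_indicator hPm, ← lintegral_indicator hPm]
  set c : Fin n → ℝ := fun i => if h : i ∈ I then (k ⟨i, h⟩ : ℝ) / 2 else 0 with hc
  have hcI : ∀ i : I, c i = (k i : ℝ) / 2 := by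
    intro i
    rw [hc]
    simp
  have hcO : ∀ i, i ∉ I → c i = 0 := by
    intro i hi
    rw [hc]
    simp [hi]
  rw [← lintegral_add_right_eq_self _ c]
  refine lintegral_mono fun y => ?_
  by_cases hyP : y + c ∈ P
  · rw [Set.indicator_of_mem hyP]
    by_cases hyA : y + c ∈ A
    · rw [Set.indicator_of_mem hyA]
      have hI : ∀ i : I, 0 ≤ y i ∧ y i < 1 / 2 := by
        intro i
        have h1 := hyA.2 i
        have h2 := hyP i
        have h3 : (y + c) i = y i + (k i : ℝ) / 2 := by rw [Pi.add_apply, hcI]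
        rw [h3] at h1 h2
        rw [abs_of_nonneg h2] at h1
        have h4 := (Nat.floor_eq_iff (by linarith)).1 h1
        constructor <;> linarith [h4.1, h4.2]
      have hO : ∀ i, i ∉ I → (y + c) i = y i := by
        intro i hi
        rw [Pi.add_apply, hcO i hi, add_zero]
      have hy0 : ∀ i, 0 ≤ y i := by
        intro i
        by_cases hi : i ∈ I
        · exact (hI ⟨i, hi⟩).1
        · rw [← hO i hi]
          exact hyP i
      have hyB : y ∈ B := by
        refine ⟨hdown y (y + c) (fun i hi => by rw [hO i hi]) hyA.1, fun i hi => ?_⟩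
        rw [abs_of_nonneg (hy0 i)]
        exact (hI ⟨i, hi⟩).2
      have hyP' : y ∈ P := hy0
      rw [Set.indicator_of_mem hyP', Set.indicator_of_mem hyB]
      refine hf.anti fun i => ?_
      rw [abs_of_nonneg (hy0 i), abs_of_nonneg (hyP i), Pi.add_apply]
      have : 0 ≤ c i := by
        by_cases hi : i ∈ I
        · rw [hcI ⟨i, hi⟩]
          positivity
        · rw [hcO i hi]
      linarith
    · rw [Set.indicator_of_notMem hyA]
      exact zero_le
  · rw [Set.indicator_of_notMem hyP]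
    exact zero_le

lemma sb_count {ι : Type*} [Fintype ι] [DecidableEq ι] (m : ℕ) :
    (((Fintype.piFinset fun _ : ι => Finset.range (m + 1)).filter
      fun k : ι → ℕ => ∑ i, k i ≤ m).card : ℝ) ≤ 2 ^ (m + Fintype.card ι) := by
  set S := (Fintype.piFinset fun _ : ι => Finset.range (m + 1)).filter
    fun k : ι → ℕ => ∑ i, k i ≤ m with hS
  have h1 : ∀ k ∈ S, (1 : ℝ) ≤ 2 ^ m * ∏ i, (1 / 2 : ℝ) ^ k i := by
    intro k hk
    have h2 : ∑ i, k i ≤ m := (Finset.mem_filter.1 hk).2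
    rw [Finset.prod_pow_eq_pow_sum]
    have h3 : (1 / 2 : ℝ) ^ m ≤ (1 / 2 : ℝ) ^ ∑ i, k i :=
      pow_le_pow_of_le_one (by norm_num) (by norm_num) h2
    calc (1 : ℝ) = 2 ^ m * (1 / 2 : ℝ) ^ m := by rw [← mul_pow]; norm_num
      _ ≤ _ := by gcongr
  have h4 : ∀ k : ι → ℕ, (0 : ℝ) ≤ ∏ i, (1 / 2 : ℝ) ^ k i := fun k =>
    Finset.prod_nonneg fun i _ => by positivity
  have h5 : ∑ j ∈ Finset.range (m + 1), (1 / 2 : ℝ) ^ j ≤ 2 := by
    have := geom_sum_eq (x := (1 / 2 : ℝ)) (by norm_num) (m + 1)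
    rw [this]
    have : (0 : ℝ) < (1 / 2) ^ (m + 1) := by positivity
    rw [div_le_iff_of_neg (by norm_num)]
    linarith
  calc (S.card : ℝ) = ∑ k ∈ S, (1 : ℝ) := by simp
    _ ≤ ∑ k ∈ S, 2 ^ m * ∏ i, (1 / 2 : ℝ) ^ k i := Finset.sum_le_sum h1
    _ ≤ ∑ k ∈ Fintype.piFinset (fun _ : ι => Finset.range (m + 1)),
        2 ^ m * ∏ i, (1 / 2 : ℝ) ^ k i :=
        Finset.sum_le_sum_of_subset_of_nonneg (Finset.filter_subset _ _)
          fun k _ _ => mul_nonneg (by positivity) (h4 k)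
    _ = 2 ^ m * ∏ _i : ι, ∑ j ∈ Finset.range (m + 1), (1 / 2 : ℝ) ^ j := by
        rw [← Finset.mul_sum, Finset.prod_univ_sum]
    _ ≤ 2 ^ m * ∏ _i : ι, (2 : ℝ) := by
        gcongr
    _ = 2 ^ (m + Fintype.card ι) := by
        rw [Finset.prod_const, Finset.card_univ, pow_add]

theorem small_box (hf : UD f) (hm : ∀ i, ∫⁻ x, ENNReal.ofReal |x i| * f x ≤ 1)
    (I : Finset (Fin n)) (K : Set (Fin n → ℝ)) (hK : MeasurableSet K)
    (hdown : ∀ x y : Fin n → ℝ, (∀ i, i ∉ I → |x i| ≤ |y i|) → y ∈ K → x ∈ K)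
    (hKm : 3 / 4 ≤ ∫⁻ x in K, f x) :
    (1 / 2 : ℝ≥0∞) ^ (9 * I.card + 1) ≤
      ∫⁻ x in {x : Fin n → ℝ | x ∈ K ∧ ∀ i ∈ I, |x i| < 1 / 2}, f x := by
  classical
  rcases Nat.eq_zero_or_pos I.card with hd | hd
  · have hI : I = ∅ := Finset.card_eq_zero.1 hd
    subst hI
    simp only [Finset.card_empty, mul_zero, zero_add, pow_one, Finset.notMem_empty,
      IsEmpty.forall_iff, implies_true, and_true, Set.ofPred_mem_eq]
    refine le_trans ?_ hKm
    rw [ENNReal.div_le_iff (by norm_num) (by norm_num), mul_comm, ← mul_div_assoc,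
      ENNReal.le_div_iff_mul_le (by norm_num) (by norm_num)]
    norm_num
  set d := I.card with hd'
  set B := {x : Fin n → ℝ | x ∈ K ∧ ∀ i ∈ I, |x i| < 1 / 2} with hB
  set μ : Measure (Fin n → ℝ) := volume.withDensity f with hμ
  have hμS : ∀ S : Set (Fin n → ℝ), MeasurableSet S → μ S = ∫⁻ x in S, f x := fun S hS =>
    withDensity_apply f hS
  set G : (Fin n → ℝ) → ℝ≥0∞ := fun x => ∑ i ∈ I, ENNReal.ofReal |x i| with hG
  have hGi : ∀ i : Fin n, Measurable fun x : Fin n → ℝ => ENNReal.ofReal |x i| := fun i =>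
    ((measurable_pi_apply i).abs).ennreal_ofReal
  have hGm : Measurable G := Finset.measurable_sum _ fun i _ => hGi i
  have hGint : ∫⁻ x, G x ∂μ ≤ d := by
    rw [hG, lintegral_finsetSum _ fun i _ => hGi i]
    calc ∑ i ∈ I, ∫⁻ x, ENNReal.ofReal |x i| ∂μ ≤ ∑ i ∈ I, (1 : ℝ≥0∞) := by
          refine Finset.sum_le_sum fun i _ => ?_
          rw [hμ, lintegral_withDensity_eq_lintegral_mul _ hf.meas (hGi i)]
          refine le_trans (le_of_eq ?_) (hm i)
          refine lintegral_congr fun x => ?_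
          rw [Pi.mul_apply, mul_comm]
      _ = d := by simp [hd']
  have hdE : (d : ℝ≥0∞) ≠ 0 := by exact_mod_cast hd.ne'
  have hmark : μ {x | (4 * d : ℝ≥0∞) ≤ G x} ≤ 1 / 4 := by
    have h1 := mul_meas_ge_le_lintegral (μ := μ) hGm (4 * d : ℝ≥0∞)
    have h2 := h1.trans hGint
    rw [ENNReal.le_div_iff_mul_le (by norm_num) (by norm_num)]
    have h3 : (d : ℝ≥0∞) * (μ {x | (4 * d : ℝ≥0∞) ≤ G x} * 4) ≤ d * 1 := by
      rw [mul_one]
      refine le_trans (le_of_eq ?_) h2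
      ring
    exact (ENNReal.mul_le_mul_iff_right hdE (ENNReal.natCast_ne_top d)).1 h3
  have hKG : (1 / 2 : ℝ≥0∞) ≤ μ (K ∩ {x | G x < (4 * d : ℝ≥0∞)}) := by
    have h1 : K ⊆ (K ∩ {x | G x < (4 * d : ℝ≥0∞)}) ∪ {x | (4 * d : ℝ≥0∞) ≤ G x} := by
      intro x hx
      by_cases h : G x < (4 * d : ℝ≥0∞)
      · exact Or.inl ⟨hx, h⟩
      · exact Or.inr (not_lt.1 h)
    have h2 : (3 / 4 : ℝ≥0∞) ≤ μ (K ∩ {x | G x < (4 * d : ℝ≥0∞)}) + 1 / 4 := by
      calc (3 / 4 : ℝ≥0∞) ≤ μ K := by rw [hμS K hK]; exact hKm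
        _ ≤ _ := measure_mono h1
        _ ≤ _ := measure_union_le _ _
        _ ≤ _ := by gcongr
    have h3 : (3 / 4 : ℝ≥0∞) = 1 / 2 + 1 / 4 := by
      rw [← ENNReal.toReal_eq_toReal_iff' (by norm_num [ENNReal.div_eq_top])
        (by simp [ENNReal.add_eq_top])]
      rw [ENNReal.toReal_add (by simp) (by simp)]
      simp
      norm_num
    rw [h3] at h2
    exact (ENNReal.add_le_add_iff_right (by simp)).1 h2
  set S := (Fintype.piFinset fun _ : I => Finset.range (8 * d + 1)).filter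
    fun k : I → ℕ => ∑ i, k i ≤ 8 * d with hS
  have hcover : K ∩ {x | G x < (4 * d : ℝ≥0∞)} ⊆
      ⋃ k ∈ S, {x : Fin n → ℝ | x ∈ K ∧ ∀ i : I, ⌊2 * |x i|⌋₊ = k i} := by
    rintro x ⟨hxK, hxG⟩
    have h1 : ∑ i ∈ I, |x i| < 4 * d := by
      have h2 : G x = ENNReal.ofReal (∑ i ∈ I, |x i|) := by
        rw [ENNReal.ofReal_sum_of_nonneg fun i _ => abs_nonneg _]
      have h3 : (4 * d : ℝ≥0∞) = ENNReal.ofReal (4 * d) := by
        rw [ENNReal.ofReal_mul (by norm_num), ENNReal.ofReal_natCast]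
        norm_num
      rw [Set.mem_ofPred_eq, h2, h3] at hxG
      exact (ENNReal.ofReal_lt_ofReal_iff (by positivity)).1 hxG
    have h2 : ∑ i : I, ⌊2 * |x i|⌋₊ ≤ 8 * d := by
      have h3 : ((∑ i : I, ⌊2 * |x i|⌋₊ : ℕ) : ℝ) ≤ (8 * d : ℕ) := by
        push_cast
        calc ∑ i : I, (⌊2 * |x i|⌋₊ : ℝ) ≤ ∑ i : I, 2 * |x i| :=
              Finset.sum_le_sum fun i _ => Nat.floor_le (by positivity)
          _ = 2 * ∑ i ∈ I, |x i| := by
              rw [← Finset.mul_sum, Finset.sum_coe_sort I fun i => |x i|]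
          _ ≤ 8 * d := by linarith
      exact_mod_cast h3
    refine Set.mem_iUnion₂.2 ⟨fun i => ⌊2 * |x i|⌋₊, ?_, hxK, fun i => rfl⟩
    rw [hS, Finset.mem_filter]
    refine ⟨?_, h2⟩
    rw [Fintype.mem_piFinset]
    intro i
    rw [Finset.mem_range, Nat.lt_succ_iff]
    exact (Finset.single_le_sum (f := fun i : I => ⌊2 * |x i|⌋₊) (fun _ _ => Nat.zero_le _)
      (Finset.mem_univ i)).trans h2
  have hBm : MeasurableSet B := by
    have h1 : B = K ∩ ⋂ i ∈ I, {x : Fin n → ℝ | |x i| < 1 / 2} := by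
      ext x
      simp [hB]
    rw [h1]
    refine hK.inter (MeasurableSet.biInter I.countable_toSet fun i _ => ?_)
    exact measurableSet_lt ((measurable_pi_apply i).abs) measurable_const
  have hAm : ∀ k : I → ℕ, MeasurableSet {x : Fin n → ℝ | x ∈ K ∧ ∀ i : I, ⌊2 * |x i|⌋₊ = k i} := by
    intro k
    have h1 : {x : Fin n → ℝ | x ∈ K ∧ ∀ i : I, ⌊2 * |x i|⌋₊ = k i} =
        K ∩ ⋂ i : I, {x : Fin n → ℝ | ⌊2 * |x i|⌋₊ = k i} := by
      ext x
      simp
    rw [h1]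
    refine hK.inter (MeasurableSet.iInter fun i => ?_)
    have h2 : Measurable fun x : Fin n → ℝ => ⌊2 * |x i|⌋₊ := by
      refine Nat.measurable_floor.comp ?_
      exact ((measurable_pi_apply (i : Fin n)).abs).const_mul 2
    exact h2 (measurableSet_singleton (k i))
  have hbound : (1 / 2 : ℝ≥0∞) ≤ S.card * μ B := by
    calc (1 / 2 : ℝ≥0∞) ≤ _ := hKG
      _ ≤ _ := measure_mono hcover
      _ ≤ ∑ k ∈ S, μ {x : Fin n → ℝ | x ∈ K ∧ ∀ i : I, ⌊2 * |x i|⌋₊ = k i} :=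
          measure_biUnion_finset_le _ _
      _ ≤ ∑ k ∈ S, μ B := by
          refine Finset.sum_le_sum fun k _ => ?_
          rw [hμS _ (hAm k), hμS _ hBm]
          exact sb_step hf I K hK hdown k
      _ = S.card * μ B := by rw [Finset.sum_const, nsmul_eq_mul]
  have hcard : (S.card : ℝ≥0∞) ≤ 2 ^ (9 * d) := by
    have h1 := sb_count (ι := I) (8 * d)
    rw [Fintype.card_coe, ← hd', show 8 * d + d = 9 * d by ring] at h1
    have h2 : S.card ≤ 2 ^ (9 * d) := by exact_mod_cast h1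
    exact_mod_cast h2
  rw [← hμS B hBm, pow_succ]
  calc (1 / 2 : ℝ≥0∞) ^ (9 * d) * (1 / 2) ≤ (1 / 2 : ℝ≥0∞) ^ (9 * d) * (2 ^ (9 * d) * μ B) := by
        refine mul_le_mul_right (hbound.trans ?_) _
        exact mul_le_mul_left hcard _
    _ = μ B := by
        rw [← mul_assoc, ← mul_pow, one_div, ENNReal.inv_mul_cancel (by norm_num) (by norm_num),
          one_pow, one_mul]

end Pool.Agent.Helper711SMP.G

namespace Pool.Agent.Helper711SMP

alias small_box := Pool.Agent.Helper711SMP.G.small_box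

end Pool.Agent.Helper711SMP
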