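import Mathlib
import Pool.Agent.Helper711_SMP.Basic
import Pool.Agent.Helper711_SMP.Sign
import Pool.Agent.Helper711_SMP.A2

/-!
# Shifted box
-/

set_option autoImplicit false

namespace Pool.Agent.Helper711SMP.H

open MeasureTheory
open scoped ENNReal

variable {n : ℕ} {f : (Fin n → ℝ) → ℝ≥0∞}

lemma shb_key (hf : UD f) (I : Finset (Fin n)) (S : Set (Fin n → ℝ)) (hS : MeasurableSet S)
    (hSd : ∀ x y : Fin n → ℝ, (∀ i, i ∉ I → |x i| = |y i|) → y ∈ S → x ∈ S)
    (w : Fin n → ℝ) (hw : ∀ i ∈ I, 0 ≤ w i) :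
    ∫⁻ x in {x : Fin n → ℝ | x ∈ S ∧ ∀ i ∈ I, w i ≤ |x i| ∧ |x i| < w i + 1 / 2}, f x =
      2 ^ n * ∫⁻ x in {x : Fin n → ℝ | ∀ i, 0 ≤ x i},
        Set.indicator {m : Fin n → ℝ | m ∈ S ∧ ∀ i ∈ I, |m i| < 1 / 2}
          (fun m => f (fun i => (if i ∈ I then w i else 0) + m i)) x := by
  classical
  set T : Set (Fin n → ℝ) := {x : Fin n → ℝ | x ∈ S ∧ ∀ i ∈ I, w i ≤ |x i| ∧ |x i| < w i + 1 / 2}
    with hT
  have hTm : MeasurableSet T := by
    have h1 : T = S ∩ ⋂ i ∈ I, {x : Fin n → ℝ | w i ≤ |x i| ∧ |x i| < w i + 1 / 2} := by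
      ext x
      simp [hT]
    rw [h1]
    refine hS.inter (Finset.measurableSet_biInter _ fun i _ => ?_)
    have h2 : Measurable (fun x : Fin n → ℝ => |x i|) := (measurable_pi_apply i).abs
    exact (measurableSet_le (measurable_const (a := w i)) h2).inter
      (measurableSet_lt h2 (measurable_const (a := w i + 1 / 2)))
  have hPm : MeasurableSet {x : Fin n → ℝ | ∀ i, 0 ≤ x i} := by
    have h1 : {x : Fin n → ℝ | ∀ i, 0 ≤ x i} = ⋂ i : Fin n, {x : Fin n → ℝ | 0 ≤ x i} := by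
      ext x
      simp
    rw [h1]
    refine MeasurableSet.iInter fun i => ?_
    exact measurableSet_le (α := ℝ) measurable_const (measurable_pi_apply i)
  have hupd : ∀ (i : Fin n) (x : Fin n → ℝ) (j : Fin n), |Function.update x i (-x i) j| = |x j| := by
    intro i x j
    by_cases h : j = i
    · subst h
      simp
    · rw [Function.update_of_ne h]
  have hTe : ∀ (i : Fin n) (x : Fin n → ℝ), Function.update x i (-x i) ∈ T ↔ x ∈ T := by
    intro i x
    simp only [hT, Set.mem_ofPred_eq, hupd]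
    refine and_congr_left fun _ => ⟨fun h => hSd _ _ (fun j _ => (hupd i x j).symm) h,
      fun h => hSd _ _ (fun j _ => (hupd i x j)) h⟩
  rw [← lintegral_indicator hTm, lintegral_even _ (hf.meas.indicator hTm)]
  · congr 1
    rw [← lintegral_indicator hPm, ← lintegral_indicator hPm]
    rw [← lintegral_add_left_eq_self _ (fun i => if i ∈ I then w i else 0 : Fin n → ℝ)]
    congr 1
    funext y
    have e1 : (fun i => if i ∈ I then w i else 0 : Fin n → ℝ) + y =
        fun i => (if i ∈ I then w i else 0) + y i := rfl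
    rw [e1]
    have key : ((fun i => (if i ∈ I then w i else 0) + y i) ∈ {x : Fin n → ℝ | ∀ i, 0 ≤ x i} ∧
        (fun i => (if i ∈ I then w i else 0) + y i) ∈ T) ↔
        (y ∈ {x : Fin n → ℝ | ∀ i, 0 ≤ x i} ∧
          y ∈ {m : Fin n → ℝ | m ∈ S ∧ ∀ i ∈ I, |m i| < 1 / 2}) := by
      simp only [hT, Set.mem_ofPred_eq]
      constructor
      · rintro ⟨h1, h2, h3⟩
        have hy : ∀ i, 0 ≤ y i := by
          intro i
          have h4 := h1 i
          by_cases hi : i ∈ I
          · have h5 := h3 i hi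
            rw [if_pos hi] at h4 h5
            rw [abs_of_nonneg h4] at h5
            linarith [h5.1]
          · rw [if_neg hi] at h4
            linarith
        refine ⟨hy, hSd _ _ (fun j hj => ?_) h2, fun i hi => ?_⟩
        · rw [if_neg hj, zero_add]
        · have h4 := h1 i
          have h5 := h3 i hi
          rw [if_pos hi] at h4 h5
          rw [abs_of_nonneg h4] at h5
          rw [abs_of_nonneg (hy i)]
          linarith [h5.2]
      · rintro ⟨h1, h2, h3⟩
        refine ⟨fun i => ?_, hSd _ _ (fun j hj => ?_) h2, fun i hi => ?_⟩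
        · by_cases hi : i ∈ I
          · rw [if_pos hi]
            linarith [h1 i, hw i hi]
          · rw [if_neg hi]
            linarith [h1 i]
        · rw [if_neg hj, zero_add]
        · have h4 := h3 i hi
          rw [abs_of_nonneg (h1 i)] at h4
          rw [if_pos hi, abs_of_nonneg (by linarith [h1 i, hw i hi])]
          exact ⟨by linarith [h1 i], by linarith⟩
    by_cases h1 : y ∈ {x : Fin n → ℝ | ∀ i, 0 ≤ x i} ∧
          y ∈ {m : Fin n → ℝ | m ∈ S ∧ ∀ i ∈ I, |m i| < 1 / 2}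
    · have h2 := key.2 h1
      rw [Set.indicator_of_mem h2.1, Set.indicator_of_mem h2.2, Set.indicator_of_mem h1.1,
        Set.indicator_of_mem h1.2]
    · have h2 := fun h => h1 (key.1 h)
      have h3 : Set.indicator {x : Fin n → ℝ | ∀ i, 0 ≤ x i} (T.indicator f)
          (fun i => (if i ∈ I then w i else 0) + y i) = 0 := by
        by_cases h4 : (fun i => (if i ∈ I then w i else 0) + y i) ∈ {x : Fin n → ℝ | ∀ i, 0 ≤ x i}
        · rw [Set.indicator_of_mem h4, Set.indicator_of_notMem (fun h5 => h2 ⟨h4, h5⟩)]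
        · rw [Set.indicator_of_notMem h4]
      have h4 : Set.indicator {x : Fin n → ℝ | ∀ i, 0 ≤ x i}
          (Set.indicator {m : Fin n → ℝ | m ∈ S ∧ ∀ i ∈ I, |m i| < 1 / 2}
          (fun m => f (fun i => (if i ∈ I then w i else 0) + m i))) y = 0 := by
        by_cases h5 : y ∈ {x : Fin n → ℝ | ∀ i, 0 ≤ x i}
        · rw [Set.indicator_of_mem h5, Set.indicator_of_notMem (fun h6 => h1 ⟨h5, h6⟩)]
        · rw [Set.indicator_of_notMem h5]
      rw [h3, h4]
  · intro i x
    by_cases hx : x ∈ T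
    · rw [Set.indicator_of_mem hx, Set.indicator_of_mem ((hTe i x).2 hx), hf.even]
    · rw [Set.indicator_of_notMem hx, Set.indicator_of_notMem (fun h => hx ((hTe i x).1 h))]

theorem shifted_box (hf : UD f) (I : Finset (Fin n)) (K : Set (Fin n → ℝ)) (hK : MeasurableSet K)
    (hdown : ∀ x y : Fin n → ℝ, (∀ i, i ∉ I → |x i| ≤ |y i|) → y ∈ K → x ∈ K)
    (w : Fin n → ℝ) (hw : ∀ i ∈ I, 0 ≤ w i) :
    (∫⁻ x in {x : Fin n → ℝ | x ∈ K ∧ ∀ i ∈ I, |x i| < 1 / 2}, f x) ^ 2 *
        (∫⁻ x in {x : Fin n → ℝ | ∀ i ∈ I, w i ≤ |x i| ∧ |x i| < w i + 1 / 2}, f x) ^ 3 ≤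
      ∫⁻ x in {x : Fin n → ℝ | (fun i => x i / 2) ∈ K ∧
        ∀ i ∈ I, w i ≤ |x i| ∧ |x i| < w i + 1 / 2}, f x := by
  classical
  set w' : Fin n → ℝ := fun i => if i ∈ I then w i else 0 with hw'
  have hw'0 : ∀ i, 0 ≤ w' i := by
    intro i
    simp only [hw']
    split_ifs with h
    · exact hw i h
    · exact le_rfl
  have hSd : ∀ x y : Fin n → ℝ, (∀ i, i ∉ I → |x i| = |y i|) → y ∈ K → x ∈ K :=
    fun x y h hy => hdown x y (fun i hi => (h i hi).le) hy
  -- the second set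
  set S2 : Set (Fin n → ℝ) := {x : Fin n → ℝ | (fun i => x i / 2) ∈ K} with hS2
  have hS2m : MeasurableSet S2 := by
    have : Measurable (fun (x : Fin n → ℝ) (i : Fin n) => x i / 2) :=
      measurable_pi_lambda _ fun i => (measurable_pi_apply i).div_const 2
    exact this hK
  have hS2d : ∀ x y : Fin n → ℝ, (∀ i, i ∉ I → |x i| = |y i|) → y ∈ S2 → x ∈ S2 := by
    intro x y h hy
    refine hdown _ _ (fun i hi => ?_) hy
    rw [abs_div, abs_div, h i hi]
  have hboxm : MeasurableSet {m : Fin n → ℝ | ∀ i ∈ I, |m i| < 1 / 2} := by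
    have h1 : {m : Fin n → ℝ | ∀ i ∈ I, |m i| < 1 / 2} =
        ⋂ i ∈ I, {x : Fin n → ℝ | |x i| < 1 / 2} := by
      ext x
      simp
    rw [h1]
    exact Finset.measurableSet_biInter _ fun i _ =>
      measurableSet_lt (measurable_pi_apply i).abs measurable_const
  have htr : ∀ v : Fin n → ℝ, Measurable (fun m : Fin n → ℝ => f (fun i => v i + m i)) := by
    intro v
    exact hf.meas.comp (measurable_pi_lambda _ fun i => measurable_const.add (measurable_pi_apply i))
  have eA := shb_key hf I K hK hSd (fun _ => 0) (fun _ _ => le_rfl)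
  have eB := shb_key hf I Set.univ MeasurableSet.univ (fun _ _ _ _ => Set.mem_univ _) w hw
  have eC := shb_key hf I S2 hS2m hS2d w hw
  have e0 : {x : Fin n → ℝ | x ∈ K ∧ ∀ i ∈ I, (0 : ℝ) ≤ |x i| ∧ |x i| < 0 + 1 / 2} =
      {x : Fin n → ℝ | x ∈ K ∧ ∀ i ∈ I, |x i| < 1 / 2} := by
    ext x
    simp
  rw [e0] at eA
  have e1 : {x : Fin n → ℝ | x ∈ Set.univ ∧ ∀ i ∈ I, w i ≤ |x i| ∧ |x i| < w i + 1 / 2} =
      {x : Fin n → ℝ | ∀ i ∈ I, w i ≤ |x i| ∧ |x i| < w i + 1 / 2} := by
    ext x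
    simp
  rw [e1] at eB
  have hD := lintegral_even f hf.meas hf.even
  rw [hf.mass] at hD
  have main := ffn n _ _ f _
    ((htr (fun i => if i ∈ I then (0 : ℝ) else 0)).indicator (hK.inter hboxm))
    ((htr w').indicator (MeasurableSet.univ.inter hboxm)) hf.meas
    ((htr w').indicator (hS2m.inter hboxm)) ?_
  · change (∫⁻ x in {x : Fin n → ℝ | x ∈ K ∧ ∀ i ∈ I, |x i| < 1 / 2}, f x) ^ 2 *
        (∫⁻ x in {x : Fin n → ℝ | ∀ i ∈ I, w i ≤ |x i| ∧ |x i| < w i + 1 / 2}, f x) ^ 3 ≤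
      ∫⁻ x in {x : Fin n → ℝ | x ∈ S2 ∧ ∀ i ∈ I, w i ≤ |x i| ∧ |x i| < w i + 1 / 2}, f x
    rw [eA, eB, eC]
    set a := ∫⁻ x in {x : Fin n → ℝ | ∀ i, 0 ≤ x i},
        Set.indicator {m : Fin n → ℝ | m ∈ K ∧ ∀ i ∈ I, |m i| < 1 / 2}
          (fun m => f (fun i => (if i ∈ I then (0 : ℝ) else 0) + m i)) x with ha
    set b := ∫⁻ x in {x : Fin n → ℝ | ∀ i, 0 ≤ x i},
        Set.indicator {m : Fin n → ℝ | m ∈ Set.univ ∧ ∀ i ∈ I, |m i| < 1 / 2}
          (fun m => f (fun i => (if i ∈ I then w i else 0) + m i)) x with hb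
    set d := ∫⁻ x in {x : Fin n → ℝ | ∀ i, 0 ≤ x i},
        Set.indicator {m : Fin n → ℝ | m ∈ S2 ∧ ∀ i ∈ I, |m i| < 1 / 2}
          (fun m => f (fun i => (if i ∈ I then w i else 0) + m i)) x with hd
    set e := ∫⁻ x in {x : Fin n → ℝ | ∀ i, 0 ≤ x i}, f x with he
    have main' : a ^ 2 * b ^ 3 ≤ d * e ^ 4 := main
    calc (2 ^ n * a) ^ 2 * (2 ^ n * b) ^ 3 = (2 ^ n) ^ 5 * (a ^ 2 * b ^ 3) := by ring
      _ ≤ (2 ^ n) ^ 5 * (d * e ^ 4) := mul_le_mul_right main' _
      _ = 2 ^ n * d * (2 ^ n * e) ^ 4 := by ring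
      _ = 2 ^ n * d := by rw [← hD]; ring
  · intro x y hx hy
    by_cases h1 : x ∈ K ∩ {m : Fin n → ℝ | ∀ i ∈ I, |m i| < 1 / 2}
    swap
    · rw [Set.indicator_of_notMem h1]
      simp
    by_cases h2 : y ∈ Set.univ ∩ {m : Fin n → ℝ | ∀ i ∈ I, |m i| < 1 / 2}
    swap
    · rw [Set.indicator_of_notMem h2]
      simp
    have hmin0 : ∀ i, 0 ≤ min (y i) (2 * x i) := fun i => le_min (hy i) (by linarith [hx i])
    have h3 : (fun i => min (y i) (2 * x i)) ∈ S2 ∩ {m : Fin n → ℝ | ∀ i ∈ I, |m i| < 1 / 2} := by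
      refine ⟨?_, fun i hi => ?_⟩
      · refine hdown _ x (fun i _ => ?_) h1.1
        have h4 := hmin0 i
        have h5 := min_le_right (y i) (2 * x i)
        rw [abs_of_nonneg (hx i), abs_of_nonneg (by linarith)]
        linarith
      · have h4 := h2.2 i hi
        have h5 := min_le_left (y i) (2 * x i)
        rw [abs_of_nonneg (hy i)] at h4
        change |min (y i) (2 * x i)| < 1 / 2
        rw [abs_of_nonneg (hmin0 i)]
        linarith
    rw [Set.indicator_of_mem h1, Set.indicator_of_mem h2, Set.indicator_of_mem h3]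
    have q0 : (fun i => (if i ∈ I then (0 : ℝ) else 0) + x i) = x := by
      funext i
      simp
    rw [q0]
    have q1 := hf.mid x (fun i => w' i + y i)
    have q2 : f (fun i => (x i + (w' i + y i)) / 2) ≤ f (fun i => (x i + y i) / 2) := by
      refine hf.anti fun i => ?_
      have := hx i
      have := hy i
      have := hw'0 i
      rw [abs_of_nonneg (by linarith), abs_of_nonneg (by linarith)]
      linarith
    have q3 : f (fun i => w' i + y i) ≤ f (fun i => w' i + min (y i) (2 * x i)) := by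
      refine hf.anti fun i => ?_
      have := hmin0 i
      have := hy i
      have := hw'0 i
      have := min_le_left (y i) (2 * x i)
      rw [abs_of_nonneg (by linarith), abs_of_nonneg (by linarith)]
      linarith
    calc f x ^ 2 * f (fun i => w' i + y i) ^ 3
        = (f x * f (fun i => w' i + y i)) ^ 2 * f (fun i => w' i + y i) := by ring
      _ ≤ (f (fun i => (x i + y i) / 2) ^ 2) ^ 2 * f (fun i => w' i + min (y i) (2 * x i)) := by
          refine mul_le_mul' (pow_le_pow_left' (q1.trans (pow_le_pow_left' q2 2)) 2) q3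
      _ = f (fun i => w' i + min (y i) (2 * x i)) * f (fun i => (x i + y i) / 2) ^ 4 := by ring

end Pool.Agent.Helper711SMP.H

namespace Pool.Agent.Helper711SMP

alias shifted_box := Pool.Agent.Helper711SMP.H.shifted_box

end Pool.Agent.Helper711SMP
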