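import Mathlib
import Pool.Agent.Helper711_SMP.Basic
import Pool.Agent.Helper711_SMP.Rad
import Pool.Agent.Helper711_SMP.I1

/-!
# Jensen
-/

set_option autoImplicit false

namespace Pool.Agent.Helper711SMP.I2

open MeasureTheory
open scoped ENNReal

variable {n : ℕ} {f : (Fin n → ℝ) → ℝ≥0∞}

theorem rad_convexOn (N : Seminorm ℝ (Fin n → ℝ)) :
    ConvexOn ℝ Set.univ (rad (fun x => N x)) := by
  refine ⟨convex_univ, fun x _ y _ a b ha hb hab => ?_⟩
  unfold rad
  have h1 : ∀ e : Fin n → Bool, N (fun i => sg (e i) * (a • x + b • y) i) ≤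
      a * N (fun i => sg (e i) * x i) + b * N (fun i => sg (e i) * y i) := by
    intro e
    have h2 : (fun i => sg (e i) * (a • x + b • y) i) =
        a • (fun i => sg (e i) * x i) + b • (fun i => sg (e i) * y i) := by
      ext i
      simp only [Pi.add_apply, Pi.smul_apply, smul_eq_mul]
      ring
    rw [h2]
    refine (map_add_le_add N _ _).trans ?_
    rw [map_smul_eq_mul, map_smul_eq_mul, Real.norm_of_nonneg ha, Real.norm_of_nonneg hb]
  have h3 := Finset.sum_le_sum fun e (_ : e ∈ Finset.univ) => h1 e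
  rw [Finset.sum_add_distrib, ← Finset.mul_sum, ← Finset.mul_sum] at h3
  have h4 : (0 : ℝ) < 2 ^ n := by positivity
  simp only [smul_eq_mul]
  rw [div_le_iff₀ h4]
  have h5 : (a * ((∑ e : Fin n → Bool, N (fun i => sg (e i) * x i)) / 2 ^ n) +
      b * ((∑ e : Fin n → Bool, N (fun i => sg (e i) * y i)) / 2 ^ n)) * 2 ^ n =
      a * (∑ e : Fin n → Bool, N (fun i => sg (e i) * x i)) +
      b * (∑ e : Fin n → Bool, N (fun i => sg (e i) * y i)) := by
    field_simp
  rw [h5]
  exact h3

theorem rad_nonneg (N : Seminorm ℝ (Fin n → ℝ)) (x : Fin n → ℝ) :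
    0 ≤ rad (fun x => N x) x := by
  unfold rad
  have : (0 : ℝ) ≤ ∑ e : Fin n → Bool, N (fun i => sg (e i) * x i) :=
    Finset.sum_nonneg fun e _ => apply_nonneg N _
  positivity

theorem rad_one_le (hf : UD f) (hm : ∀ i, ∫⁻ x, ENNReal.ofReal |x i| * f x = 1)
    (N : Seminorm ℝ (Fin n → ℝ)) (hN : Continuous N) (S : ℝ) (hS : 0 ≤ S)
    (hNS : ∫⁻ x, ENNReal.ofReal (N x) * f x ≤ ENNReal.ofReal S) :
    rad (fun x => N x) (fun _ => 1) ≤ S := by
  obtain ⟨hc, hmono, hint, -⟩ := rad_facts N hN
  set R : (Fin n → ℝ) → ℝ := rad (fun x => N x) with hR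
  let μ : Measure (Fin n → ℝ) := volume.withDensity f
  have hμ : IsProbabilityMeasure μ := ⟨by
    rw [withDensity_apply _ MeasurableSet.univ]
    simpa using hf.mass⟩
  have hlin : ∀ g : (Fin n → ℝ) → ℝ≥0∞, Measurable g →
      ∫⁻ x, g x ∂μ = ∫⁻ x, g x * f x := by
    intro g hg
    rw [lintegral_withDensity_eq_lintegral_mul _ hf.meas hg]
    simp only [Pi.mul_apply, mul_comm]
  have haes : ∀ i, AEStronglyMeasurable (fun x : Fin n → ℝ => |x i|) μ := fun i =>
    (continuous_abs.comp (continuous_apply i)).aestronglyMeasurable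
  -- integrability of the coordinates
  have habs : ∀ i, Integrable (fun x : Fin n → ℝ => |x i|) μ := by
    intro i
    refine ⟨haes i, ?_⟩
    rw [hasFiniteIntegral_iff_ofReal (Filter.Eventually.of_forall fun x => abs_nonneg _),
      hlin _ (by fun_prop), hm i]
    exact ENNReal.one_lt_top
  have hI : ∀ i, ∫ x : Fin n → ℝ, |x i| ∂μ = 1 := by
    intro i
    rw [integral_eq_lintegral_of_nonneg_ae (Filter.Eventually.of_forall fun x => abs_nonneg _)
      (haes i), hlin _ (by fun_prop), hm i]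
    simp
  have hA : Integrable (fun x : Fin n → ℝ => (fun i => |x i| : Fin n → ℝ)) μ :=
    Integrable.of_eval habs
  have hAI : ∫ x : Fin n → ℝ, (fun i => |x i| : Fin n → ℝ) ∂μ = fun _ => 1 := by
    ext i
    rw [eval_integral habs]
    exact hI i
  have hRabs : ∀ x : Fin n → ℝ, R (fun i => |x i|) = R x := fun x =>
    le_antisymm (hmono _ _ fun i => by simp) (hmono _ _ fun i => by simp)
  have hRint : ∫⁻ x, ENNReal.ofReal (R x) ∂μ ≤ ENNReal.ofReal S := by
    rw [hlin _ (by fun_prop), hint f hf.meas hf.even]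
    exact hNS
  have hRi : Integrable R μ := by
    refine ⟨hc.aestronglyMeasurable, ?_⟩
    rw [hasFiniteIntegral_iff_ofReal (Filter.Eventually.of_forall fun x => rad_nonneg N x)]
    exact hRint.trans_lt ENNReal.ofReal_lt_top
  have hJ := (rad_convexOn N).map_integral_le (μ := μ) hc.continuousOn isClosed_univ
    (Filter.Eventually.of_forall fun x => Set.mem_univ _) hA
    (by
      refine hRi.congr (Filter.Eventually.of_forall fun x => ?_)
      exact (hRabs x).symm)
  rw [hAI] at hJ
  refine hJ.trans ?_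
  have h1 : ∫ x, R (fun i => |x i|) ∂μ = ∫ x, R x ∂μ := by simp only [hRabs]
  refine (le_of_eq h1).trans ?_
  rw [integral_eq_lintegral_of_nonneg_ae (Filter.Eventually.of_forall fun x => rad_nonneg N x)
    hc.aestronglyMeasurable]
  exact (ENNReal.toReal_mono ENNReal.ofReal_ne_top hRint).trans_eq (ENNReal.toReal_ofReal hS)

end Pool.Agent.Helper711SMP.I2

namespace Pool.Agent.Helper711SMP

alias rad_one_le := Pool.Agent.Helper711SMP.I2.rad_one_le

end Pool.Agent.Helper711SMP
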