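import Mathlib
import Pool.Agent.Helper711_SMP.Sign

/-!
# Box transfer
-/

set_option autoImplicit false

namespace Pool.Agent.Helper711SMP.I3

-- box_transfer done; sign_mp and lintegral_even were not needed (they keep their sorry, you may delete them)

open MeasureTheory
open scoped ENNReal

variable {n : ℕ}

namespace BoxTransfer

variable (p : Fin n → Prop) [DecidablePred p]

/-- separation of the coordinates -/
noncomputable abbrev e :
    (Fin n → ℝ) ≃ᵐ ({i : Fin n // p i} → ℝ) × ({i : Fin n // ¬ p i} → ℝ) :=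
  MeasurableEquiv.piEquivPiSubtypeProd (fun _ : Fin n => ℝ) p

theorem e_mp : MeasurePreserving (e p) volume volume :=
  volume_preserving_piEquivPiSubtypeProd (fun _ : Fin n => ℝ) p

theorem e_symm_mem (a : {i : Fin n // p i} → ℝ)
    (b : {i : Fin n // ¬ p i} → ℝ) (i : Fin n) (hi : p i) :
    (e p).symm (a, b) i = a ⟨i, hi⟩ := by
  have := congrFun (congrArg Prod.fst ((e p).apply_symm_apply (a, b))) ⟨i, hi⟩
  exact this

theorem e_symm_notMem (a : {i : Fin n // p i} → ℝ)
    (b : {i : Fin n // ¬ p i} → ℝ) (i : Fin n) (hi : ¬ p i) :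
    (e p).symm (a, b) i = b ⟨i, hi⟩ := by
  have := congrFun (congrArg Prod.snd ((e p).apply_symm_apply (a, b))) ⟨i, hi⟩
  exact this

/-- the partial integral -/
noncomputable def H (G : (Fin n → ℝ) → ℝ≥0∞) (a : {i : Fin n // p i} → ℝ) : ℝ≥0∞ :=
  ∫⁻ b, G ((e p).symm (a, b))

theorem split (G : (Fin n → ℝ) → ℝ≥0∞) (hG : Measurable G)
    (S : Set ({i : Fin n // p i} → ℝ)) (hS : MeasurableSet S) :
    ∫⁻ x in {x : Fin n → ℝ | (e p x).1 ∈ S}, G x = ∫⁻ a in S, H p G a := by
  have h1 := (e_mp p).setLIntegral_comp_preimage (hS.prod MeasurableSet.univ)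
    (f := fun y => G ((e p).symm y)) (hG.comp (e p).symm.measurable)
  simp only [MeasurableEquiv.symm_apply_apply] at h1
  have h2 : {x : Fin n → ℝ | (e p x).1 ∈ S} = (e p) ⁻¹' (S ×ˢ Set.univ) := by
    ext x
    simp
  have h3 := setLIntegral_prod (μ := (volume : Measure ({i : Fin n // p i} → ℝ)))
    (ν := (volume : Measure ({i : Fin n // ¬ p i} → ℝ))) (s := S) (t := Set.univ)
    (fun y => G ((e p).symm y)) (hG.comp (e p).symm.measurable).aemeasurable
  rw [h2, h1, Measure.volume_eq_prod, h3]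
  simp only [Measure.restrict_univ]
  rfl

theorem H_anti (G : (Fin n → ℝ) → ℝ≥0∞)
    (hdec : ∀ x y : Fin n → ℝ, (∀ i, p i → |x i| ≤ |y i|) → (∀ i, ¬ p i → x i = y i) → G y ≤ G x)
    (a a' : {i : Fin n // p i} → ℝ) (h : ∀ i, |a i| ≤ |a' i|) : H p G a' ≤ H p G a := by
  refine lintegral_mono fun b => hdec _ _ (fun i hi => ?_) (fun i hi => ?_)
  · rw [e_symm_mem p a b i hi, e_symm_mem p a' b i hi]
    exact h _
  · rw [e_symm_notMem p a b i hi, e_symm_notMem p a' b i hi]

omit [DecidablePred p] in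
theorem vol1 (w : ℝ) : volume {t : ℝ | w ≤ |t| ∧ |t| < w + 1 / 2} ≤ 1 := by
  have h : {t : ℝ | w ≤ |t| ∧ |t| < w + 1 / 2} ⊆
      Set.Ico w (w + 1 / 2) ∪ Set.Ioc (-(w + 1 / 2)) (-w) := by
    rintro t ⟨h1, h2⟩
    rcases le_total 0 t with h3 | h3
    · rw [abs_of_nonneg h3] at h1 h2
      exact Or.inl ⟨h1, h2⟩
    · rw [abs_of_nonpos h3] at h1 h2
      exact Or.inr ⟨by linarith, by linarith⟩
  refine (measure_mono h).trans ((measure_union_le _ _).trans ?_)
  rw [Real.volume_Ico, Real.volume_Ioc, ← ENNReal.ofReal_add (by norm_num) (by norm_num)]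
  norm_num

theorem volC :
    volume {b : {i : Fin n // ¬ p i} → ℝ | ∀ i, |b i| ≤ 1} =
      2 ^ (Fintype.card {i : Fin n // ¬ p i}) := by
  have h : {b : {i : Fin n // ¬ p i} → ℝ | ∀ i, |b i| ≤ 1} =
      Set.pi Set.univ fun _ => Set.Icc (-1) 1 := by
    ext b
    constructor
    · intro h i _
      exact abs_le.1 (h i)
    · intro h i
      exact abs_le.2 (h i (Set.mem_univ i))
  rw [h, volume_pi_pi]
  simp only [Real.volume_Icc, Finset.prod_const, Finset.card_univ]
  norm_num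

theorem main (G : (Fin n → ℝ) → ℝ≥0∞) (hG : Measurable G)
    (hdec : ∀ x y : Fin n → ℝ, (∀ i, p i → |x i| ≤ |y i|) → (∀ i, ¬ p i → x i = y i) → G y ≤ G x)
    (w : Fin n → ℝ) (hw : ∀ i, p i → 1 / 2 ≤ w i)
    (σ : Fin n → ℝ) (hσ : ∀ i, σ i = 1 ∨ σ i = -1)
    (B : Set (Fin n → ℝ)) (hB : MeasurableSet B)
    (hBI : ∀ x y : Fin n → ℝ, (∀ i, p i → x i = y i) → (x ∈ B ↔ y ∈ B)) :
    (1 / 2 : ℝ≥0∞) ^ (n + Fintype.card {i : Fin n // p i}) *
        volume ({u : Fin n → ℝ | ∀ i, |u i| ≤ 1} ∩ B) *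
        ∫⁻ x in {x : Fin n → ℝ | ∀ i, p i → w i ≤ |x i| ∧ |x i| < w i + 1 / 2}, G x ≤
      ∫⁻ x in {x : Fin n → ℝ | (∀ i, p i → |x i - σ i * (w i - 1 / 4)| ≤ 1 / 4) ∧
        (fun i => 4 * (x i - σ i * (w i - 1 / 4))) ∈ B}, G x := by
  set d := Fintype.card {i : Fin n // p i} with hd
  have hdn : Fintype.card {i : Fin n // ¬ p i} = n - d := by
    rw [Fintype.card_subtype_compl, Fintype.card_fin]
  have hdn' : d ≤ n := by
    have := Fintype.card_subtype_le p
    rwa [Fintype.card_fin] at this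
  -- the pieces
  set S : Set ({i : Fin n // p i} → ℝ) :=
    {a | ∀ i : {i : Fin n // p i}, w i ≤ |a i| ∧ |a i| < w i + 1 / 2} with hS
  set D : Set ({i : Fin n // p i} → ℝ) := {a | (∀ i, |a i| ≤ 1) ∧ (e p).symm (a, 0) ∈ B} with hD
  set z : {i : Fin n // p i} → ℝ := fun i => σ i * (w i - 1 / 4) with hz
  set T : Set ({i : Fin n // p i} → ℝ) := (fun a => a + -z) ⁻¹' ((fun a => (4:ℝ) • a) ⁻¹' D)
    with hT
  have habs : ∀ i : {i : Fin n // p i},
      Measurable fun a : {i : Fin n // p i} → ℝ => |a i| := fun i =>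
    (continuous_abs.comp (continuous_apply i)).measurable
  have hSm : MeasurableSet S := by
    have : S = ⋂ i : {i : Fin n // p i},
        {a : {i : Fin n // p i} → ℝ | w i ≤ |a i| ∧ |a i| < w i + 1 / 2} := by
      ext a
      rw [Set.mem_iInter]
      rfl
    rw [this]
    exact MeasurableSet.iInter fun i => (measurableSet_le measurable_const (habs i)).inter
      (measurableSet_lt (habs i) measurable_const)
  have hDm : MeasurableSet D := by
    have h0 : MeasurableSet {a : {i : Fin n // p i} → ℝ | ∀ i, |a i| ≤ 1} := by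
      have : {a : {i : Fin n // p i} → ℝ | ∀ i, |a i| ≤ 1} =
          ⋂ i, {a : {i : Fin n // p i} → ℝ | |a i| ≤ 1} := by
        ext a
        rw [Set.mem_iInter]
        rfl
      rw [this]
      exact MeasurableSet.iInter fun i => measurableSet_le (habs i) measurable_const
    have h2 : Measurable fun a : {i : Fin n // p i} → ℝ =>
        (e p).symm (a, (0 : {i : Fin n // ¬ p i} → ℝ)) :=
      (e p).symm.measurable.comp (measurable_id.prodMk measurable_const)
    exact h0.inter (h2 hB)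
  have hTm : MeasurableSet T := by
    rw [hT]
    exact (measurable_id.add_const _) ((measurable_id.const_smul (4:ℝ)) hDm)
  have hBD : ∀ x : Fin n → ℝ, x ∈ B ↔ (e p).symm ((e p x).1, 0) ∈ B := by
    intro x
    apply hBI
    intro i hi
    rw [e_symm_mem p _ _ i hi]
    rfl
  -- left integral
  have hL : ∫⁻ x in {x : Fin n → ℝ | ∀ i, p i → w i ≤ |x i| ∧ |x i| < w i + 1 / 2}, G x ≤
      H p G (fun i => w i) := by
    have h1 : {x : Fin n → ℝ | ∀ i, p i → w i ≤ |x i| ∧ |x i| < w i + 1 / 2} =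
        {x : Fin n → ℝ | (e p x).1 ∈ S} := by
      ext x
      constructor
      · intro h i
        exact h i i.2
      · intro h i hi
        exact h ⟨i, hi⟩
    rw [h1, split p G hG S hSm]
    calc ∫⁻ a in S, H p G a ≤ ∫⁻ _a in S, H p G (fun i => w i) := by
          refine setLIntegral_mono' hSm fun a ha => ?_
          refine H_anti p G hdec _ _ fun i => ?_
          have h2 := hw i i.2
          rw [abs_of_nonneg (by linarith)]
          exact (ha i).1
      _ = H p G (fun i => w i) * volume S := setLIntegral_const _ _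
      _ ≤ H p G (fun i => w i) * 1 := by
          have h3 : S = Set.pi Set.univ fun i : {i : Fin n // p i} =>
              {t : ℝ | w i ≤ |t| ∧ |t| < w i + 1 / 2} := by
            ext a
            rw [Set.mem_univ_pi]
            rfl
          have h4 : volume S ≤ 1 := by
            rw [h3, volume_pi_pi]
            exact Finset.prod_le_one' fun i _ => vol1 _
          gcongr
      _ = _ := mul_one _
  -- right integral
  have hR : H p G (fun i => w i) * volume T ≤
      ∫⁻ x in {x : Fin n → ℝ | (∀ i, p i → |x i - σ i * (w i - 1 / 4)| ≤ 1 / 4) ∧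
        (fun i => 4 * (x i - σ i * (w i - 1 / 4))) ∈ B}, G x := by
    have h1 : {x : Fin n → ℝ | (∀ i, p i → |x i - σ i * (w i - 1 / 4)| ≤ 1 / 4) ∧
        (fun i => 4 * (x i - σ i * (w i - 1 / 4))) ∈ B} = {x : Fin n → ℝ | (e p x).1 ∈ T} := by
      ext x
      have h2 : (fun i => 4 * (x i - σ i * (w i - 1 / 4))) ∈ B ↔
          (e p).symm ((4:ℝ) • ((e p x).1 + -z), 0) ∈ B := by
        apply hBI
        intro i hi
        rw [e_symm_mem p _ _ i hi]
        change 4 * (x i - σ i * (w i - 1 / 4)) = 4 * (x i + -(σ i * (w i - 1 / 4)))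
        ring
      have h3 : (∀ i, p i → |x i - σ i * (w i - 1 / 4)| ≤ 1 / 4) ↔
          ∀ i : {i : Fin n // p i}, |((4:ℝ) • ((e p x).1 + -z)) i| ≤ 1 := by
        have h4 : ∀ i : {i : Fin n // p i}, |((4:ℝ) • ((e p x).1 + -z)) i| =
            4 * |x i - σ i * (w i - 1 / 4)| := by
          intro i
          have h5 : ((4:ℝ) • ((e p x).1 + -z)) i = 4 * (x i - σ i * (w i - 1 / 4)) := by
            change 4 * (x i + -(σ i * (w i - 1 / 4))) = _
            ring
          rw [h5, abs_mul, abs_of_pos (by norm_num : (0:ℝ) < 4)]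
        constructor
        · intro h i
          rw [h4]
          have := h i i.2
          linarith
        · intro h i hi
          have := h ⟨i, hi⟩
          rw [h4] at this
          linarith
      change (_ ∧ _) ↔ (_ ∧ _)
      rw [h2, h3]
    rw [h1, split p G hG T hTm]
    calc H p G (fun i => w i) * volume T = ∫⁻ _a in T, H p G (fun i => w i) :=
          (setLIntegral_const _ _).symm
      _ ≤ ∫⁻ a in T, H p G a := by
          refine setLIntegral_mono' hTm fun a ha => ?_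
          refine H_anti p G hdec _ _ fun i => ?_
          have h5 : |4 * (a i + -(σ i * (w i - 1 / 4)))| ≤ 1 := ha.1 i
          rw [abs_mul, abs_of_pos (by norm_num : (0:ℝ) < 4)] at h5
          have h6 := hw i i.2
          have h7 : |σ i * (w i - 1 / 4)| = w i - 1 / 4 := by
            rw [abs_mul, abs_of_nonneg (by linarith : (0:ℝ) ≤ w i - 1 / 4)]
            rcases hσ i with h | h <;> rw [h] <;> norm_num
          have h8 : |a i| ≤ |a i + -(σ i * (w i - 1 / 4))| + |σ i * (w i - 1 / 4)| := by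
            have := abs_add_le (a i + -(σ i * (w i - 1 / 4))) (σ i * (w i - 1 / 4))
            rwa [neg_add_cancel_right] at this
          rw [abs_of_nonneg (by linarith : (0:ℝ) ≤ w i)]
          linarith
  -- volumes
  have hvT : volume T = ENNReal.ofReal (|((4:ℝ) ^ d)⁻¹|) * volume D := by
    rw [hT, measure_preimage_add_right, Measure.addHaar_preimage_smul volume (by norm_num) D,
      Module.finrank_fintype_fun_eq_card]
  have hvB : volume ({u : Fin n → ℝ | ∀ i, |u i| ≤ 1} ∩ B) = volume D * 2 ^ (n - d) := by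
    have h1 : ({u : Fin n → ℝ | ∀ i, |u i| ≤ 1} ∩ B) =
        (e p) ⁻¹' (D ×ˢ {b : {i : Fin n // ¬ p i} → ℝ | ∀ i, |b i| ≤ 1}) := by
      ext x
      constructor
      · rintro ⟨h2, h3⟩
        exact ⟨⟨fun i => h2 i, (hBD x).1 h3⟩, fun i => h2 i⟩
      · rintro ⟨⟨h2, h3⟩, h4⟩
        refine ⟨fun i => ?_, (hBD x).2 h3⟩
        by_cases hi : p i
        · exact h2 ⟨i, hi⟩
        · exact h4 ⟨i, hi⟩
    rw [h1, (e_mp p).measure_preimage_equiv, Measure.volume_eq_prod, Measure.prod_prod, volC, hdn]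
  have hc : (1 / 2 : ℝ≥0∞) ^ (n + d) * 2 ^ (n - d) = ENNReal.ofReal (|((4:ℝ) ^ d)⁻¹|) := by
    have h1 : n + d = (n - d) + 2 * d := by omega
    have h2 : (1 / 2 : ℝ≥0∞) * 2 = 1 := by
      rw [one_div]
      exact ENNReal.inv_mul_cancel (by norm_num) (by norm_num)
    have h3 : (1 / 2 : ℝ≥0∞) ^ 2 = ENNReal.ofReal (4⁻¹) := by
      rw [ENNReal.ofReal_inv_of_pos (by norm_num), one_div, ← ENNReal.inv_pow]
      norm_num
    rw [h1, pow_add, mul_right_comm, ← mul_pow, h2, one_pow, one_mul, pow_mul, h3,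
      ← ENNReal.ofReal_pow (by norm_num), inv_pow, abs_of_nonneg (by positivity)]
  calc (1 / 2 : ℝ≥0∞) ^ (n + d) * volume ({u : Fin n → ℝ | ∀ i, |u i| ≤ 1} ∩ B) *
        ∫⁻ x in {x : Fin n → ℝ | ∀ i, p i → w i ≤ |x i| ∧ |x i| < w i + 1 / 2}, G x
      ≤ (1 / 2 : ℝ≥0∞) ^ (n + d) * volume ({u : Fin n → ℝ | ∀ i, |u i| ≤ 1} ∩ B) *
        H p G (fun i => w i) := by gcongr
    _ = H p G (fun i => w i) * volume T := by
        rw [hvB, hvT, ← hc]
        ring
    _ ≤ _ := hR

end BoxTransfer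

theorem box_transfer (G : (Fin n → ℝ) → ℝ≥0∞) (hG : Measurable G) (I : Finset (Fin n))
    (hdec : ∀ x y : Fin n → ℝ, (∀ i ∈ I, |x i| ≤ |y i|) → (∀ i, i ∉ I → x i = y i) → G y ≤ G x)
    (w : Fin n → ℝ) (hw : ∀ i ∈ I, 1 / 2 ≤ w i)
    (σ : Fin n → ℝ) (hσ : ∀ i, σ i = 1 ∨ σ i = -1)
    (B : Set (Fin n → ℝ)) (hB : MeasurableSet B)
    (hBI : ∀ x y : Fin n → ℝ, (∀ i ∈ I, x i = y i) → (x ∈ B ↔ y ∈ B)) :
    (1 / 2 : ℝ≥0∞) ^ (n + I.card) * volume ({u : Fin n → ℝ | ∀ i, |u i| ≤ 1} ∩ B) *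
        ∫⁻ x in {x : Fin n → ℝ | ∀ i ∈ I, w i ≤ |x i| ∧ |x i| < w i + 1 / 2}, G x ≤
      ∫⁻ x in {x : Fin n → ℝ | (∀ i ∈ I, |x i - σ i * (w i - 1 / 4)| ≤ 1 / 4) ∧
        (fun i => 4 * (x i - σ i * (w i - 1 / 4))) ∈ B}, G x := by
  have h := BoxTransfer.main (fun i => i ∈ I) G hG hdec w hw σ hσ B hB hBI
  have hc : ∀ inst : Fintype {i : Fin n // i ∈ I}, @Fintype.card _ inst = I.card := fun inst =>
    @Fintype.card_of_subtype _ _ I (fun _ => Iff.rfl) inst
  rw [hc] at h
  exact h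

end Pool.Agent.Helper711SMP.I3

namespace Pool.Agent.Helper711SMP

alias box_transfer := Pool.Agent.Helper711SMP.I3.box_transfer

end Pool.Agent.Helper711SMP
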