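import Mathlib
import Pool.Agent.Helper711_SMP.Basic
import Pool.Agent.Helper711_SMP.Rad
import Pool.Agent.Helper711_SMP.Sign
import Pool.Agent.Helper711_SMP.I1
import Pool.Agent.Helper711_SMP.I3

/-!
# Noise shift
-/

set_option autoImplicit false

namespace Pool.Agent.Helper711SMP.I4

open MeasureTheory
open scoped ENNReal

variable {n : ℕ} {f : (Fin n → ℝ) → ℝ≥0∞}

namespace NoiseShift

/-- put the coordinates outside `I` to zero -/
def onI (I : Finset (Fin n)) (x : Fin n → ℝ) : Fin n → ℝ := fun i => if i ∈ I then x i else 0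

theorem cont_offI (I : Finset (Fin n)) : Continuous (offI (n := n) I) := by
  refine continuous_pi fun i => ?_
  unfold offI
  split_ifs
  · exact continuous_const
  · exact continuous_apply i

theorem cont_onI (I : Finset (Fin n)) : Continuous (onI (n := n) I) := by
  refine continuous_pi fun i => ?_
  unfold onI
  split_ifs
  · exact continuous_apply i
  · exact continuous_const

/-- `onI` as a linear map -/
def onL (I : Finset (Fin n)) : (Fin n → ℝ) →ₗ[ℝ] (Fin n → ℝ) where
  toFun := onI I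
  map_add' x y := by
    funext i
    simp only [onI, Pi.add_apply]
    split_ifs <;> simp
  map_smul' c x := by
    funext i
    simp only [onI, Pi.smul_apply, RingHom.id_apply]
    split_ifs <;> simp

theorem abs_sg (b : Bool) : |sg b| = 1 := by
  cases b <;> simp [sg]

theorem sg_or (b : Bool) : sg b = 1 ∨ sg b = -1 := by
  cases b <;> simp [sg]

theorem offI_sg (I : Finset (Fin n)) (e : Fin n → Bool) (x : Fin n → ℝ) :
    offI I (fun i => sg (e i) * x i) = fun i => sg (e i) * offI I x i := by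
  funext i
  unfold offI
  split_ifs <;> simp

theorem onI_sg (I : Finset (Fin n)) (e : Fin n → Bool) (x : Fin n → ℝ) :
    onI I (fun i => sg (e i) * x i) = fun i => sg (e i) * onI I x i := by
  funext i
  unfold onI
  split_ifs <;> simp

theorem rad_abs (N : Seminorm ℝ (Fin n → ℝ)) (hN : Continuous N) {x y : Fin n → ℝ}
    (h : ∀ i, |x i| = |y i|) : rad (fun x => N x) x = rad (fun x => N x) y := by
  obtain ⟨-, h2, -, -⟩ := rad_facts N hN
  exact le_antisymm (h2 x y fun i => (h i).le) (h2 y x fun i => (h i).ge)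

/-- the set `W` -/
def WW (N : Seminorm ℝ (Fin n → ℝ)) (S : ℝ) (I : Finset (Fin n)) (w : Fin n → ℝ) :
    Set (Fin n → ℝ) := {x | rad (fun x => N x) (offI I x) ≤ 8 * S ∧
          ∀ i ∈ I, w i ≤ |x i| ∧ |x i| < w i + 1 / 2}

/-- the box -/
def BB (I : Finset (Fin n)) (w : Fin n → ℝ) : Set (Fin n → ℝ) :=
  {x | ∀ i ∈ I, w i ≤ |x i| ∧ |x i| < w i + 1 / 2}

/-- the set `C` -/
def CC (N : Seminorm ℝ (Fin n → ℝ)) (S : ℝ) (I : Finset (Fin n)) : Set (Fin n → ℝ) :=
  {x | N (offI I x) ≤ 16 * S}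

theorem meas_BB (I : Finset (Fin n)) (w : Fin n → ℝ) : MeasurableSet (BB I w) := by
  have h : BB I w = ⋂ i ∈ I, {x : Fin n → ℝ | w i ≤ |x i| ∧ |x i| < w i + 1 / 2} := by
    ext x
    simp [BB]
  rw [h]
  refine Finset.measurableSet_biInter I fun i _ => ?_
  have hm : Measurable fun x : Fin n → ℝ => |x i| := (measurable_pi_apply i).abs
  exact (measurableSet_le measurable_const hm).inter (measurableSet_lt hm measurable_const)

theorem meas_CC (N : Seminorm ℝ (Fin n → ℝ)) (hN : Continuous N) (S : ℝ) (I : Finset (Fin n)) :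
    MeasurableSet (CC N S I) :=
  (isClosed_le (hN.comp (cont_offI I)) continuous_const).measurableSet

theorem meas_WW (N : Seminorm ℝ (Fin n → ℝ)) (hN : Continuous N) (S : ℝ) (I : Finset (Fin n))
    (w : Fin n → ℝ) : MeasurableSet (WW N S I w) := by
  obtain ⟨h1, -, -, -⟩ := rad_facts N hN
  have h2 : MeasurableSet {x : Fin n → ℝ | rad (fun x => N x) (offI I x) ≤ 8 * S} :=
    (isClosed_le (h1.comp (cont_offI I)) continuous_const).measurableSet
  exact h2.inter (meas_BB I w)

theorem step1 (hf : UD f) (N : Seminorm ℝ (Fin n → ℝ)) (hN : Continuous N) (S : ℝ)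
    (I : Finset (Fin n)) (w : Fin n → ℝ) :
    ∫⁻ x in WW N S I w, f x ≤ 2 * ∫⁻ x in WW N S I w ∩ CC N S I, f x := by
  classical
  have hW := meas_WW N hN S I w
  have hC := meas_CC N hN S I
  set W := WW N S I w with hWdef
  set C := CC N S I with hCdef
  set h : (Fin n → ℝ) → ℝ≥0∞ := (W ∩ C).indicator f with hh
  have hmeas : Measurable h := hf.meas.indicator (hW.inter hC)
  have hWe : ∀ (e : Fin n → Bool) (x : Fin n → ℝ),
      (fun i => sg (e i) * x i) ∈ W ↔ x ∈ W := by
    intro e x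
    have ha : ∀ i, |sg (e i) * x i| = |x i| := fun i => by rw [abs_mul, abs_sg, one_mul]
    have hr : rad (fun x => N x) (offI I fun i => sg (e i) * x i) =
        rad (fun x => N x) (offI I x) := by
      apply rad_abs N hN
      intro i
      rw [offI_sg, abs_mul, abs_sg, one_mul]
    change (rad (fun x => N x) (offI I fun i => sg (e i) * x i) ≤ 8 * S ∧
      ∀ i ∈ I, w i ≤ |sg (e i) * x i| ∧ |sg (e i) * x i| < w i + 1 / 2) ↔
      (rad (fun x => N x) (offI I x) ≤ 8 * S ∧ ∀ i ∈ I, w i ≤ |x i| ∧ |x i| < w i + 1 / 2)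
    rw [hr]
    simp only [ha]
  have hfe : ∀ (e : Fin n → Bool) (x : Fin n → ℝ), f (fun i => sg (e i) * x i) = f x := by
    intro e x
    exact hf.eq_of_abs fun i => by rw [abs_mul, abs_sg, one_mul]
  have hsum : ∑ e : Fin n → Bool, ∫⁻ x : Fin n → ℝ, h (fun i => sg (e i) * x i) =
      2 ^ n * ∫⁻ x in W ∩ C, f x := by
    have h1 : ∀ e : Fin n → Bool, ∫⁻ x : Fin n → ℝ, h (fun i => sg (e i) * x i) =
        ∫⁻ x in W ∩ C, f x := by
      intro e
      rw [(sign_mp (fun i => sg (e i)) fun i => sg_or _).lintegral_comp hmeas,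
        lintegral_indicator (hW.inter hC)]
    rw [Finset.sum_congr rfl fun e _ => h1 e, Finset.sum_const, Finset.card_univ,
      Fintype.card_fun, Fintype.card_bool, Fintype.card_fin, nsmul_eq_mul]
    push_cast
    rfl
  have hpt : ∀ x, 2 ^ n * W.indicator f x ≤
      2 * ∑ e : Fin n → Bool, h (fun i => sg (e i) * x i) := by
    intro x
    by_cases hx : x ∈ W
    · rw [Set.indicator_of_mem hx]
      have h1 : ∀ e : Fin n → Bool, h (fun i => sg (e i) * x i) =
          if N (fun i => sg (e i) * offI I x i) ≤ 2 * (8 * S) then f x else 0 := by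
        intro e
        have hCe : (fun i => sg (e i) * x i) ∈ C ↔
            N (fun i => sg (e i) * offI I x i) ≤ 2 * (8 * S) := by
          change N (offI I fun i => sg (e i) * x i) ≤ 16 * S ↔ _
          rw [offI_sg, show 2 * (8 * S) = 16 * S by ring]
        split_ifs with hc
        · have hm : (fun i => sg (e i) * x i) ∈ W ∩ C := ⟨(hWe e x).2 hx, hCe.2 hc⟩
          rw [hh, Set.indicator_of_mem hm, hfe]
        · have hm : (fun i => sg (e i) * x i) ∉ W ∩ C := fun hm => hc (hCe.1 hm.2)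
          rw [hh, Set.indicator_of_notMem hm]
      rw [Finset.sum_congr rfl fun e _ => h1 e, ← Finset.sum_filter, Finset.sum_const,
        nsmul_eq_mul, ← mul_assoc]
      obtain ⟨-, -, -, h4⟩ := rad_facts N hN
      have h5 := h4 (8 * S) (offI I x) hx.1
      gcongr
      exact_mod_cast h5
    · rw [Set.indicator_of_notMem hx, mul_zero]
      exact zero_le
  have hint : 2 ^ n * ∫⁻ x in W, f x ≤ 2 ^ n * (2 * ∫⁻ x in W ∩ C, f x) := by
    calc (2 : ℝ≥0∞) ^ n * ∫⁻ x in W, f x = ∫⁻ x, 2 ^ n * W.indicator f x := by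
          rw [lintegral_const_mul _ (hf.meas.indicator hW), lintegral_indicator hW]
      _ ≤ ∫⁻ x : Fin n → ℝ, 2 * ∑ e : Fin n → Bool, h (fun i => sg (e i) * x i) :=
          lintegral_mono hpt
      _ = 2 * ∑ e : Fin n → Bool, ∫⁻ x : Fin n → ℝ, h (fun i => sg (e i) * x i) := by
          have hm : ∀ e : Fin n → Bool, Measurable fun x : Fin n → ℝ =>
              h (fun i => sg (e i) * x i) := fun e =>
            hmeas.comp (sign_mp (fun i => sg (e i)) fun i => sg_or _).measurable
          rw [lintegral_const_mul _ (Finset.measurable_fun_sum _ fun e _ => hm e),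
            lintegral_finsetSum _ fun e _ => hm e]
      _ = 2 ^ n * (2 * ∫⁻ x in W ∩ C, f x) := by rw [hsum]; ring
  have hn0 : (2 : ℝ≥0∞) ^ n ≠ 0 := pow_ne_zero _ two_ne_zero
  have hnt : (2 : ℝ≥0∞) ^ n ≠ ⊤ := ENNReal.pow_ne_top ENNReal.ofNat_ne_top
  exact (ENNReal.mul_le_mul_iff_right hn0 hnt).1 hint

theorem vol_cube : volume {u : Fin n → ℝ | ∀ i, |u i| ≤ 1} = 2 ^ n := by
  have h : {u : Fin n → ℝ | ∀ i, |u i| ≤ 1} = Set.pi Set.univ fun _ => Set.Icc (-1 : ℝ) 1 := by
    ext u
    exact ⟨fun h i _ => abs_le.1 (h i), fun h i => abs_le.2 (h i trivial)⟩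
  rw [h, volume_pi_pi]
  simp only [Real.volume_Icc, Finset.prod_const, Finset.card_univ, Fintype.card_fin]
  norm_num

theorem meas_cube : MeasurableSet {u : Fin n → ℝ | ∀ i, |u i| ≤ 1} := by
  have h : {u : Fin n → ℝ | ∀ i, |u i| ≤ 1} = Set.pi Set.univ fun _ => Set.Icc (-1 : ℝ) 1 := by
    ext u
    exact ⟨fun h i _ => abs_le.1 (h i), fun h i => abs_le.2 (h i trivial)⟩
  rw [h]
  exact MeasurableSet.univ_pi fun _ => measurableSet_Icc

theorem step2 (N : Seminorm ℝ (Fin n → ℝ)) (hN : Continuous N) (S : ℝ) (hS : 0 < S)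
    (hrad : rad (fun x => N x) (fun _ => 1) ≤ S) (I : Finset (Fin n)) :
    2 ^ n ≤ 2 * volume ({u : Fin n → ℝ | ∀ i, |u i| ≤ 1} ∩ {u | N (onI I u) ≤ 4 * S}) := by
  classical
  set Q : Set (Fin n → ℝ) := {u | ∀ i, |u i| ≤ 1} with hQ
  set B : Set (Fin n → ℝ) := {u | N (onI I u) ≤ 4 * S} with hB
  have hQm : MeasurableSet Q := meas_cube
  have hBm : MeasurableSet B :=
    (isClosed_le (hN.comp (cont_onI I)) continuous_const).measurableSet
  set N' : Seminorm ℝ (Fin n → ℝ) := N.comp (onL I) with hN'def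
  have hN'a : ∀ x, N' x = N (onI I x) := fun x => rfl
  have hN' : Continuous N' := hN.comp (cont_onI I)
  obtain ⟨-, -, h3, -⟩ := rad_facts N' hN'
  obtain ⟨-, h2, -, -⟩ := rad_facts N hN
  have hradN' : ∀ x, rad (fun x => N' x) x = rad (fun x => N x) (onI I x) := by
    intro x
    unfold rad
    congr 1
    refine Finset.sum_congr rfl fun e _ => ?_
    change N' (fun i => sg (e i) * x i) = N (fun i => sg (e i) * onI I x i)
    rw [hN'a, onI_sg]
  have hle : ∀ x ∈ Q, rad (fun x => N' x) x ≤ S := by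
    intro x hx
    rw [hradN']
    refine (h2 _ _ fun i => ?_).trans hrad
    unfold onI
    split_ifs
    · rw [abs_one]; exact hx i
    · rw [abs_zero, abs_one]; exact zero_le_one
  have hF := h3 (Q.indicator fun _ => 1) (measurable_const.indicator hQm) (by
    intro i x
    have : Function.update x i (-x i) ∈ Q ↔ x ∈ Q := by
      have ha : ∀ j, |Function.update x i (-x i) j| = |x j| := by
        intro j
        by_cases hj : j = i
        · subst hj; rw [Function.update_self, abs_neg]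
        · rw [Function.update_of_ne hj]
      simp only [hQ, Set.mem_ofPred_eq, ha]
    by_cases hx : x ∈ Q
    · rw [Set.indicator_of_mem hx, Set.indicator_of_mem (this.2 hx)]
    · rw [Set.indicator_of_notMem hx, Set.indicator_of_notMem fun h => hx (this.1 h)])
  have hup : ∫⁻ x, ENNReal.ofReal (N' x) * Q.indicator (fun _ => 1) x ≤
      ENNReal.ofReal S * 2 ^ n := by
    rw [← hF]
    calc ∫⁻ x, ENNReal.ofReal (rad (fun x => N' x) x) * Q.indicator (fun _ => 1) x
        ≤ ∫⁻ x, ENNReal.ofReal S * Q.indicator (fun _ => 1) x := by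
          refine lintegral_mono fun x => ?_
          by_cases hx : x ∈ Q
          · simp only [Set.indicator_of_mem hx]
            gcongr
            exact hle x hx
          · simp only [Set.indicator_of_notMem hx, mul_zero]
            exact le_rfl
      _ = ENNReal.ofReal S * 2 ^ n := by
          rw [lintegral_const_mul _ (measurable_const.indicator hQm), lintegral_indicator hQm,
            setLIntegral_const, one_mul, ← vol_cube]
  have hlow : ENNReal.ofReal (4 * S) * volume (Q \ B) ≤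
      ∫⁻ x, ENNReal.ofReal (N' x) * Q.indicator (fun _ => 1) x := by
    calc ENNReal.ofReal (4 * S) * volume (Q \ B) =
        ∫⁻ x, ENNReal.ofReal (4 * S) * (Q \ B).indicator (fun _ => 1) x := by
          rw [lintegral_const_mul _ (measurable_const.indicator (hQm.diff hBm)),
            lintegral_indicator (hQm.diff hBm), setLIntegral_const, one_mul]
      _ ≤ _ := by
          refine lintegral_mono fun x => ?_
          by_cases hx : x ∈ Q \ B
          · simp only [Set.indicator_of_mem hx, Set.indicator_of_mem hx.1]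
            gcongr
            have : ¬ N (onI I x) ≤ 4 * S := hx.2
            rw [hN'a]
            exact (not_le.1 this).le
          · simp only [Set.indicator_of_notMem hx, mul_zero]
            exact zero_le
  have hSpos : ENNReal.ofReal S ≠ 0 := by
    rw [Ne, ENNReal.ofReal_eq_zero, not_le]; exact hS
  have h4 : ENNReal.ofReal (4 * S) = ENNReal.ofReal S * 4 := by
    rw [mul_comm, ENNReal.ofReal_mul hS.le]
    norm_num
  have hdiff : 4 * volume (Q \ B) ≤ 2 ^ n := by
    have h5 := hlow.trans hup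
    rw [h4, mul_assoc] at h5
    exact (ENNReal.mul_le_mul_iff_right hSpos ENNReal.ofReal_ne_top).1 h5
  have hsplit : volume (Q ∩ B) + volume (Q \ B) = 2 ^ n := by
    rw [measure_inter_add_sdiff Q hBm, ← vol_cube]
  have hQf : (2 : ℝ≥0∞) ^ n ≠ ⊤ := ENNReal.pow_ne_top ENNReal.ofNat_ne_top
  have hf1 : volume (Q ∩ B) ≠ ⊤ := ne_top_of_le_ne_top hQf (hsplit ▸ le_self_add)
  have hf2 : volume (Q \ B) ≠ ⊤ := ne_top_of_le_ne_top hQf (hsplit ▸ le_add_self)
  rw [← hsplit] at hdiff ⊢
  lift volume (Q ∩ B) to NNReal using hf1 with a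
  lift volume (Q \ B) to NNReal using hf2 with b
  norm_cast at hdiff ⊢
  have h6 : (4 : ℝ) * b ≤ a + b := by exact_mod_cast hdiff
  have h7 : (a : ℝ) + b ≤ 2 * a := by
    have : (0 : ℝ) ≤ b := b.2
    linarith
  exact_mod_cast h7

end NoiseShift

open NoiseShift in
theorem noise_shift (hf : UD f) (N : Seminorm ℝ (Fin n → ℝ)) (hN : Continuous N)
    (S : ℝ) (hS : 0 < S) (hrad : rad (fun x => N x) (fun _ => 1) ≤ S)
    (I : Finset (Fin n)) (w : Fin n → ℝ) (hw : ∀ i ∈ I, 1 / 2 ≤ w i)
    (σ : Fin n → ℝ) (hσ : ∀ i, σ i = 1 ∨ σ i = -1) :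
    (1 / 2 : ℝ≥0∞) ^ (I.card + 2) *
        ∫⁻ x in {x : Fin n → ℝ | rad (fun x => N x) (offI I x) ≤ 8 * S ∧
          ∀ i ∈ I, w i ≤ |x i| ∧ |x i| < w i + 1 / 2}, f x ≤
      ∫⁻ x in {x : Fin n → ℝ |
        N (fun i => x i - if i ∈ I then σ i * (w i - 1 / 4) else 0) ≤ 17 * S}, f x := by
  classical
  have hC := meas_CC N hN S I
  have hBm : MeasurableSet {u : Fin n → ℝ | N (onI I u) ≤ 4 * S} :=
    (isClosed_le (hN.comp (cont_onI I)) continuous_const).measurableSet
  have h1 := step1 hf N hN S I w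
  have h2 := step2 N hN S hS hrad I
  have h3 := box_transfer ((CC N S I).indicator f) (hf.meas.indicator hC) I (by
      intro x y hxy hoff
      have ho : offI I x = offI I y := by
        funext i
        unfold offI
        split_ifs with hi
        · rfl
        · exact hoff i hi
      have hmem : x ∈ CC N S I ↔ y ∈ CC N S I := by
        change N (offI I x) ≤ 16 * S ↔ N (offI I y) ≤ 16 * S
        rw [ho]
      by_cases hy : y ∈ CC N S I
      · rw [Set.indicator_of_mem hy, Set.indicator_of_mem (hmem.2 hy)]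
        refine hf.anti fun i => ?_
        by_cases hi : i ∈ I
        · exact hxy i hi
        · rw [hoff i hi]
      · rw [Set.indicator_of_notMem hy]
        exact zero_le)
    w hw σ hσ {u : Fin n → ℝ | N (onI I u) ≤ 4 * S} hBm (by
      intro x y hxy
      have ho : onI I x = onI I y := by
        funext i
        unfold onI
        split_ifs with hi
        · exact hxy i hi
        · rfl
      simp only [Set.mem_ofPred_eq, ho])
  -- the right hand side
  have hR : ∫⁻ x in {x : Fin n → ℝ | (∀ i ∈ I, |x i - σ i * (w i - 1 / 4)| ≤ 1 / 4) ∧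
        (fun i => 4 * (x i - σ i * (w i - 1 / 4))) ∈ {u : Fin n → ℝ | N (onI I u) ≤ 4 * S}},
        (CC N S I).indicator f x ≤ ∫⁻ x in {x : Fin n → ℝ |
        N (fun i => x i - if i ∈ I then σ i * (w i - 1 / 4) else 0) ≤ 17 * S}, f x := by
    rw [lintegral_indicator hC, Measure.restrict_restrict hC]
    apply lintegral_mono_set
    rintro x ⟨hx1, -, hx2⟩
    have hx1' : N (offI I x) ≤ 16 * S := hx1
    have hx2' : N (onI I fun i => 4 * (x i - σ i * (w i - 1 / 4))) ≤ 4 * S := hx2
    have e1 : (onI I fun i => 4 * (x i - σ i * (w i - 1 / 4))) =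
        (4 : ℝ) • (onI I fun i => x i - σ i * (w i - 1 / 4)) := by
      funext i
      simp only [onI, Pi.smul_apply, smul_eq_mul]
      split_ifs <;> simp
    have e2 : (fun i => x i - if i ∈ I then σ i * (w i - 1 / 4) else 0) =
        (onI I fun i => x i - σ i * (w i - 1 / 4)) + offI I x := by
      funext i
      simp only [onI, offI, Pi.add_apply]
      split_ifs <;> simp
    rw [e1, map_smul_eq_mul, Real.norm_eq_abs, abs_of_pos (by norm_num : (0 : ℝ) < 4)] at hx2'
    change N (fun i => x i - if i ∈ I then σ i * (w i - 1 / 4) else 0) ≤ 17 * S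
    rw [e2]
    have h5 := map_add_le_add N (onI I fun i => x i - σ i * (w i - 1 / 4)) (offI I x)
    linarith
  have hL : ∫⁻ x in WW N S I w ∩ CC N S I, f x ≤
      ∫⁻ x in {x : Fin n → ℝ | ∀ i ∈ I, w i ≤ |x i| ∧ |x i| < w i + 1 / 2},
        (CC N S I).indicator f x := by
    rw [lintegral_indicator hC, Measure.restrict_restrict hC]
    apply lintegral_mono_set
    rintro x ⟨hx1, hx2⟩
    exact ⟨hx2, hx1.2⟩
  set V := volume ({u : Fin n → ℝ | ∀ i, |u i| ≤ 1} ∩ {u | N (onI I u) ≤ 4 * S}) with hV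
  set a := ∫⁻ x in WW N S I w ∩ CC N S I, f x with ha
  have hkey : (1 / 2 : ℝ≥0∞) ^ (I.card + 1) ≤ (1 / 2 : ℝ≥0∞) ^ (n + I.card) * V := by
    have hh : (1 / 2 : ℝ≥0∞) ^ n * 2 ^ n = 1 := by
      rw [← mul_pow, one_div, ENNReal.inv_mul_cancel two_ne_zero ENNReal.ofNat_ne_top, one_pow]
    have hh2 : (1 / 2 : ℝ≥0∞) * 2 = 1 := by
      rw [one_div, ENNReal.inv_mul_cancel two_ne_zero ENNReal.ofNat_ne_top]
    calc (1 / 2 : ℝ≥0∞) ^ (I.card + 1) = (1 / 2 : ℝ≥0∞) ^ (I.card + 1) * ((1 / 2 : ℝ≥0∞) ^ n * 2 ^ n) := by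
          rw [hh, mul_one]
      _ ≤ (1 / 2 : ℝ≥0∞) ^ (I.card + 1) * ((1 / 2 : ℝ≥0∞) ^ n * (2 * V)) := by gcongr
      _ = (1 / 2 : ℝ≥0∞) ^ (n + I.card) * V * ((1 / 2 : ℝ≥0∞) * 2) := by ring
      _ = _ := by rw [hh2, mul_one]
  calc (1 / 2 : ℝ≥0∞) ^ (I.card + 2) * ∫⁻ x in WW N S I w, f x
      ≤ (1 / 2 : ℝ≥0∞) ^ (I.card + 2) * (2 * a) := by gcongr
    _ = (1 / 2 : ℝ≥0∞) ^ (I.card + 1) * a * ((1 / 2 : ℝ≥0∞) * 2) := by ring
    _ = (1 / 2 : ℝ≥0∞) ^ (I.card + 1) * a := by
        rw [one_div, ENNReal.inv_mul_cancel two_ne_zero ENNReal.ofNat_ne_top, mul_one]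
    _ ≤ (1 / 2 : ℝ≥0∞) ^ (n + I.card) * V *
        ∫⁻ x in {x : Fin n → ℝ | ∀ i ∈ I, w i ≤ |x i| ∧ |x i| < w i + 1 / 2},
          (CC N S I).indicator f x := by gcongr
    _ ≤ _ := h3
    _ ≤ _ := hR

end Pool.Agent.Helper711SMP.I4

namespace Pool.Agent.Helper711SMP

alias noise_shift := Pool.Agent.Helper711SMP.I4.noise_shift

end Pool.Agent.Helper711SMP
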