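import Mathlib
import Pool.Agent.Helper711_SMP.Basic
import Pool.Agent.Helper711_SMP.Rad
import Pool.Agent.Helper711_SMP.I1
import Pool.Agent.Helper711_SMP.I2
import Pool.Agent.Helper711_SMP.G
import Pool.Agent.Helper711_SMP.H
import Pool.Agent.Helper711_SMP.I4

/-!
# Shift probability
-/

set_option autoImplicit false

namespace Pool.Agent.Helper711SMP.I5

open MeasureTheory
open scoped ENNReal

variable {n : ℕ} {f : (Fin n → ℝ) → ℝ≥0∞}

/-- the averaged norm scales -/
private lemma rad_half (N : Seminorm ℝ (Fin n → ℝ)) (y : Fin n → ℝ) :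
    rad (fun x => N x) (fun i => y i / 2) = rad (fun x => N x) y / 2 := by
  unfold rad
  have h : ∀ e : Fin n → Bool, N (fun i => sg (e i) * (y i / 2)) =
      (1 / 2) * N (fun i => sg (e i) * y i) := by
    intro e
    have h1 : (fun i => sg (e i) * (y i / 2)) = (1 / 2 : ℝ) • (fun i => sg (e i) * y i) := by
      funext i
      simp only [Pi.smul_apply, smul_eq_mul]
      ring
    rw [h1, map_smul_eq_mul, Real.norm_eq_abs, abs_of_pos (by norm_num : (0:ℝ) < 1 / 2)]
  simp only [h]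
  rw [← Finset.mul_sum]
  ring

private lemma offI_half (I : Finset (Fin n)) (x : Fin n → ℝ) :
    offI I (fun i => x i / 2) = fun i => offI I x i / 2 := by
  funext i
  unfold offI
  split_ifs <;> simp

private lemma offI_cont (I : Finset (Fin n)) : Continuous (offI I : (Fin n → ℝ) → (Fin n → ℝ)) := by
  refine continuous_pi fun i => ?_
  unfold offI
  split_ifs
  · exact continuous_const
  · exact continuous_apply i

private lemma offI_abs (I : Finset (Fin n)) {x y : Fin n → ℝ} (h : ∀ i, i ∉ I → |x i| ≤ |y i|) :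
    ∀ i, |offI I x i| ≤ |offI I y i| := by
  intro i
  unfold offI
  by_cases hi : i ∈ I
  · simp [hi]
  · simpa [hi] using h i hi

theorem shift_prob (hf : UD f) (hm : ∀ i, ∫⁻ x, ENNReal.ofReal |x i| * f x = 1)
    (N : Seminorm ℝ (Fin n → ℝ)) (hN : Continuous N) (S : ℝ) (hS : 0 < S)
    (hNS : ∫⁻ x, ENNReal.ofReal (N x) * f x ≤ ENNReal.ofReal S)
    (I : Finset (Fin n)) (w : Fin n → ℝ) (hw : ∀ i ∈ I, 1 / 2 ≤ w i)
    (σ : Fin n → ℝ) (hσ : ∀ i, σ i = 1 ∨ σ i = -1) (β : ℝ≥0∞)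
    (hβ : β ≤ ∫⁻ x in {x : Fin n → ℝ | ∀ i ∈ I, w i ≤ |x i| ∧ |x i| < w i + 1 / 2}, f x) :
    (1 / 2 : ℝ≥0∞) ^ (19 * I.card + 4) * β ^ 3 ≤
      ∫⁻ x in {x : Fin n → ℝ |
        N (fun i => x i - if i ∈ I then σ i * (w i - 1 / 4) else 0) ≤ 17 * S}, f x := by
  obtain ⟨hc, hmono, hint, -⟩ := rad_facts N hN
  set K : Set (Fin n → ℝ) := {x | rad (fun x => N x) (offI I x) ≤ 4 * S} with hKdef
  have hcr : Continuous fun x : Fin n → ℝ => rad (fun x => N x) (offI I x) :=
    hc.comp (offI_cont I)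
  have hK : MeasurableSet K := measurableSet_le hcr.measurable measurable_const
  have hdown : ∀ x y : Fin n → ℝ, (∀ i, i ∉ I → |x i| ≤ |y i|) → y ∈ K → x ∈ K := by
    intro x y h hy
    exact (hmono _ _ (offI_abs I h)).trans hy
  have hKc : ∫⁻ x in Kᶜ, f x ≤ 1 / 4 := by
    have h1 : ENNReal.ofReal (4 * S) * ∫⁻ x in Kᶜ, f x ≤ ENNReal.ofReal S := by
      calc ENNReal.ofReal (4 * S) * ∫⁻ x in Kᶜ, f x
          = ∫⁻ x in Kᶜ, ENNReal.ofReal (4 * S) * f x := by
            rw [lintegral_const_mul _ hf.meas]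
        _ ≤ ∫⁻ x in Kᶜ, ENNReal.ofReal (rad (fun x => N x) x) * f x := by
            refine setLIntegral_mono' hK.compl ?_
            intro x hx
            refine mul_le_mul' (ENNReal.ofReal_le_ofReal ?_) le_rfl
            have h2 : 4 * S < rad (fun x => N x) (offI I x) := not_le.1 hx
            refine h2.le.trans (hmono _ _ ?_)
            intro i
            unfold offI
            split_ifs
            · simp
            · exact le_rfl
        _ ≤ ∫⁻ x, ENNReal.ofReal (rad (fun x => N x) x) * f x := setLIntegral_le_lintegral _ _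
        _ = ∫⁻ x, ENNReal.ofReal (N x) * f x := hint f hf.meas hf.even
        _ ≤ ENNReal.ofReal S := hNS
    have h4 : ENNReal.ofReal (4 * S) = 4 * ENNReal.ofReal S := by
      rw [ENNReal.ofReal_mul (by norm_num)]
      norm_num
    rw [h4] at h1
    have hS0 : ENNReal.ofReal S ≠ 0 := by
      simpa using hS
    have hSt : ENNReal.ofReal S ≠ ⊤ := ENNReal.ofReal_ne_top
    have h5 : ENNReal.ofReal S * (4 * ∫⁻ x in Kᶜ, f x) ≤ ENNReal.ofReal S * 1 := by
      calc ENNReal.ofReal S * (4 * ∫⁻ x in Kᶜ, f x)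
          = 4 * ENNReal.ofReal S * ∫⁻ x in Kᶜ, f x := by ring
        _ ≤ ENNReal.ofReal S := h1
        _ = ENNReal.ofReal S * 1 := (mul_one _).symm
    have h6 : 4 * ∫⁻ x in Kᶜ, f x ≤ 1 := (ENNReal.mul_le_mul_iff_right hS0 hSt).1 h5
    rw [ENNReal.le_div_iff_mul_le (Or.inl (by norm_num)) (Or.inl (by norm_num)), mul_comm]
    exact h6
  have hKm : 3 / 4 ≤ ∫⁻ x in K, f x := by
    have hsum : (∫⁻ x in K, f x) + (∫⁻ x in Kᶜ, f x) = 1 :=
      (lintegral_add_compl f hK).trans hf.mass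
    by_contra hcon
    have hlt : ∫⁻ x in K, f x < 3 / 4 := not_le.1 hcon
    have h7 : (1 : ℝ≥0∞) < 3 / 4 + 1 / 4 :=
      hsum.symm.trans_lt
        (ENNReal.add_lt_add_of_lt_of_le (ne_top_of_le_ne_top (by norm_num) hKc) hlt hKc)
    have h8 : (3 / 4 + 1 / 4 : ℝ≥0∞) = 1 := by
      rw [← ENNReal.add_div, show (3 + 1 : ℝ≥0∞) = 4 by norm_num]
      exact ENNReal.div_self (by norm_num) (by norm_num)
    rw [h8] at h7
    exact lt_irrefl _ h7
  have hA := small_box hf (fun i => (hm i).le) I K hK hdown hKm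
  have hB := shifted_box hf I K hK hdown w (fun i hi => by linarith [hw i hi])
  have hset : {x : Fin n → ℝ | (fun i => x i / 2) ∈ K ∧
        ∀ i ∈ I, w i ≤ |x i| ∧ |x i| < w i + 1 / 2} =
      {x : Fin n → ℝ | rad (fun x => N x) (offI I x) ≤ 8 * S ∧
          ∀ i ∈ I, w i ≤ |x i| ∧ |x i| < w i + 1 / 2} := by
    ext x
    simp only [Set.mem_ofPred_eq, hKdef]
    rw [offI_half, rad_half]
    constructor
    · rintro ⟨h1, h2⟩
      exact ⟨by linarith, h2⟩
    · rintro ⟨h1, h2⟩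
      exact ⟨by linarith, h2⟩
  rw [hset] at hB
  have hrad := rad_one_le hf hm N hN S hS.le hNS
  have hC := noise_shift hf N hN S hS hrad I w hw σ hσ
  refine le_trans ?_ hC
  calc (1 / 2 : ℝ≥0∞) ^ (19 * I.card + 4) * β ^ 3
      = (1 / 2 : ℝ≥0∞) ^ (I.card + 2) * (((1 / 2 : ℝ≥0∞) ^ (9 * I.card + 1)) ^ 2 * β ^ 3) := by
        rw [← mul_assoc, ← pow_mul, ← pow_add]
        congr 2
        ring
    _ ≤ _ := by
        refine mul_le_mul' le_rfl (le_trans ?_ hB)
        exact mul_le_mul' (pow_le_pow_left' hA 2) (pow_le_pow_left' hβ 3)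

end Pool.Agent.Helper711SMP.I5

namespace Pool.Agent.Helper711SMP

alias shift_prob := Pool.Agent.Helper711SMP.I5.shift_prob

end Pool.Agent.Helper711SMP
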