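import Pool.Agent.Helper711_SMP.X4

/-!
# Normalised densities, existential form
-/

set_option autoImplicit false

namespace Pool.Agent.Helper711SMP

open MeasureTheory
open scoped ENNReal

theorem main_norm3 : ∃ c : ℝ, 0 < c ∧ ∀ (n : ℕ) (f : (Fin n → ℝ) → ℝ≥0∞), UD f →
    (∀ i, ∫⁻ x, ENNReal.ofReal |x i| * f x = 1) →
    ∀ p : ℝ, 1 ≤ p → ∀ (V : Finset (Fin n → ℝ)) (hV : V.Nonempty),
      Real.exp p ≤ (V.card : ℝ) → ∀ A : ℝ, 0 < A →
      (∀ v ∈ V, ∀ w ∈ V, v ≠ w →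
        ENNReal.ofReal (A ^ p) ≤ ∫⁻ x, ENNReal.ofReal (|∑ i, (v i - w i) * x i| ^ p) * f x) →
      c * A ≤ ∫ x, NV V hV x ∂(volume.withDensity f) := by
  refine ⟨1 / 10 ^ 28, by positivity, fun n f hf hm p hp V hV hcard A hA hsep => ?_⟩
  have := main_norm2 hf hm p A hp hA V hV hcard hsep
  calc 1 / 10 ^ 28 * A = A / 10 ^ 28 := by ring
    _ ≤ _ := this

end Pool.Agent.Helper711SMP
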