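import Mathlib
import Pool.Agent.Helper711_SMP.Basic
import Pool.Agent.Helper711_SMP.NV
import Pool.Agent.Helper711_SMP.X6

/-!
# Densities
-/

set_option autoImplicit false

namespace Pool.Agent.Helper711SMP.O3

open MeasureTheory
open scoped ENNReal

variable {n : ℕ} {f : (Fin n → ℝ) → ℝ≥0∞}

lemma md_toLin' (a : Fin n → ℝ) : (Matrix.toLin' (Matrix.diagonal a) : (Fin n → ℝ) → (Fin n → ℝ)) =
    fun x i => a i * x i := by
  funext x i
  simp [Matrix.toLin'_apply, Matrix.mulVec_diagonal]

lemma md_measT (a : Fin n → ℝ) : Measurable (fun (x : Fin n → ℝ) (i : Fin n) => a i * x i) := by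
  refine measurable_pi_lambda _ (fun i => ?_)
  exact (measurable_pi_apply i).const_mul _

lemma md_scale (a : Fin n → ℝ) (ha : ∀ i, 0 < a i) (F : (Fin n → ℝ) → ℝ≥0∞) (hF : Measurable F) :
    ∫⁻ x : Fin n → ℝ, ENNReal.ofReal (∏ i, a i) * F (fun i => a i * x i) = ∫⁻ x : Fin n → ℝ, F x := by
  have hprod : 0 < ∏ i, a i := Finset.prod_pos (fun i _ => ha i)
  have hdet : (Matrix.diagonal a).det ≠ 0 := by
    rw [Matrix.det_diagonal]; exact hprod.ne'
  have h := Real.smul_map_diagonal_volume_pi hdet
  rw [Matrix.det_diagonal, abs_of_pos hprod, md_toLin'] at h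
  conv_rhs => rw [← h]
  have hm : Measurable (fun x : Fin n → ℝ => F (fun i => a i * x i)) := hF.comp (md_measT a)
  rw [lintegral_smul_measure, lintegral_map hF (md_measT a), lintegral_const_mul _ hm]
  rfl

lemma md_pos (hf : UD f) (i : Fin n) : ∫⁻ x, ENNReal.ofReal |x i| * f x ≠ 0 := by
  intro h0
  have hm : Measurable (fun x : Fin n → ℝ => ENNReal.ofReal |x i| * f x) :=
    (((measurable_pi_apply i).abs).ennreal_ofReal).mul hf.meas
  rw [lintegral_eq_zero_iff hm] at h0
  have hz : (volume : Measure (Fin n → ℝ)) {x | x i = 0} = 0 := by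
    have hset : {x : Fin n → ℝ | x i = 0} = Set.pi Set.univ
        (fun j => if j = i then ({0} : Set ℝ) else Set.univ) := by
      ext x
      simp only [Set.mem_ofPred_eq, Set.mem_pi, Set.mem_univ, true_implies]
      constructor
      · intro hx j
        by_cases hj : j = i
        · subst hj; simp [hx]
        · simp [hj]
      · intro hx
        have := hx i
        simpa using this
    rw [hset, volume_pi_pi]
    apply Finset.prod_eq_zero (Finset.mem_univ i)
    simp
  have hne : ∀ᵐ x : Fin n → ℝ, x i ≠ 0 := by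
    rw [ae_iff]; simpa using hz
  have hf0 : f =ᵐ[volume] 0 := by
    filter_upwards [h0, hne] with x hx hxi
    simp only [Pi.zero_apply, mul_eq_zero, ENNReal.ofReal_eq_zero] at hx ⊢
    rcases hx with hx | hx
    · exact absurd (abs_nonpos_iff.mp hx) hxi
    · exact hx
  have := hf.mass
  rw [lintegral_congr_ae hf0] at this
  simp at this

lemma md_UD (hf : UD f) (a : Fin n → ℝ) (ha : ∀ i, 0 < a i) :
    UD (fun x : Fin n → ℝ => ENNReal.ofReal (∏ i, a i) * f (fun i => a i * x i)) := by
  have hprod : 0 < ∏ i, a i := Finset.prod_pos (fun i _ => ha i)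
  refine ⟨?_, ?_, ?_, ?_⟩
  · exact (hf.meas.comp (md_measT a)).const_mul _
  · rw [md_scale a ha f hf.meas]; exact hf.mass
  · intro s hs0 hs1 x y
    have h1 := hf.logc s hs0 hs1 (fun i => a i * x i) (fun i => a i * y i)
    have h2 : (s • (fun i => a i * x i) + (1 - s) • (fun i => a i * y i) : Fin n → ℝ) =
        fun i => a i * (s • x + (1 - s) • y) i := by
      funext i
      simp only [Pi.add_apply, Pi.smul_apply, smul_eq_mul]; ring
    rw [h2] at h1
    set C := ENNReal.ofReal (∏ i, a i) with hC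
    have hC0 : C ≠ 0 := by rw [hC]; simpa using hprod
    have hCt : C ≠ ⊤ := ENNReal.ofReal_ne_top
    rw [ENNReal.mul_rpow_of_nonneg _ _ hs0.le, ENNReal.mul_rpow_of_nonneg _ _ (by linarith : (0:ℝ) ≤ 1 - s)]
    calc C ^ s * f (fun i => a i * x i) ^ s * (C ^ (1 - s) * f (fun i => a i * y i) ^ (1 - s))
        = (C ^ s * C ^ (1 - s)) * (f (fun i => a i * x i) ^ s * f (fun i => a i * y i) ^ (1 - s)) := by ring
      _ = C * (f (fun i => a i * x i) ^ s * f (fun i => a i * y i) ^ (1 - s)) := by
          rw [← ENNReal.rpow_add _ _ hC0 hCt]; simp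
      _ ≤ _ := by gcongr
  · intro i x
    have h := hf.even i (fun j => a j * x j)
    have h2 : Function.update (fun j => a j * x j) i (-(a i * x i)) =
        fun j => a j * (Function.update x i (-x i)) j := by
      funext j
      by_cases hj : j = i
      · subst hj; simp
      · simp [Function.update_of_ne hj]
    rw [← h2, h]

lemma md_withDensity (hf : UD f) (a : Fin n → ℝ) (ha : ∀ i, 0 < a i) :
    (volume.withDensity (fun x : Fin n → ℝ => ENNReal.ofReal (∏ i, a i) * f (fun i => a i * x i))).map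
      (fun (x : Fin n → ℝ) (i : Fin n) => a i * x i) = volume.withDensity f := by
  ext s hs
  rw [Measure.map_apply (md_measT a) hs, withDensity_apply _ hs,
    withDensity_apply _ ((md_measT a) hs), ← lintegral_indicator hs,
    ← lintegral_indicator ((md_measT a) hs), ← md_scale a ha _ (hf.meas.indicator hs)]
  refine lintegral_congr (fun x => ?_)
  by_cases hx : (fun i => a i * x i) ∈ s
  · rw [Set.indicator_of_mem hx, Set.indicator_of_mem (by exact hx)]
  · rw [Set.indicator_of_notMem hx, Set.indicator_of_notMem (by exact hx), mul_zero]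

lemma md_NV_cont (V : Finset (Fin n → ℝ)) (hV : V.Nonempty) : Continuous (NV V hV) := by
  unfold NV
  refine Continuous.finset_sup'_apply _ (fun v _ => ?_)
  refine Continuous.finset_sup'_apply _ (fun w _ => ?_)
  fun_prop

theorem main_dens3 : ∃ c : ℝ, 0 < c ∧ ∀ (n : ℕ) (f : (Fin n → ℝ) → ℝ≥0∞), UD f →
    (∀ i, ∫⁻ x, ENNReal.ofReal |x i| * f x < ⊤) →
    ∀ p : ℝ, 1 ≤ p → ∀ (V : Finset (Fin n → ℝ)) (hV : V.Nonempty),
      Real.exp p ≤ (V.card : ℝ) → ∀ A : ℝ, 0 < A →
      (∀ v ∈ V, ∀ w ∈ V, v ≠ w →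
        ENNReal.ofReal (A ^ p) ≤ ∫⁻ x, ENNReal.ofReal (|∑ i, (v i - w i) * x i| ^ p) * f x) →
      c * A ≤
        ∫ x, NV V hV x ∂(volume.withDensity f) := by
  obtain ⟨c, hc, H⟩ := main_norm3
  refine ⟨c, hc, ?_⟩
  intro n f hf hfin p hp V hV hcard A hA hsep
  classical
  set a : Fin n → ℝ := fun i => (∫⁻ x, ENNReal.ofReal |x i| * f x).toReal with ha_def
  have ha : ∀ i, 0 < a i := fun i => ENNReal.toReal_pos (md_pos hf i) (hfin i).ne
  have haI : ∀ i, ∫⁻ x, ENNReal.ofReal |x i| * f x = ENNReal.ofReal (a i) := fun i => by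
    rw [ha_def]; exact (ENNReal.ofReal_toReal (hfin i).ne).symm
  set g : (Fin n → ℝ) → ℝ≥0∞ := fun x => ENNReal.ofReal (∏ i, a i) * f (fun i => a i * x i) with hg
  have hgU : UD g := md_UD hf a ha
  -- change of variables
  have hcv : ∀ Φ : (Fin n → ℝ) → ℝ≥0∞, Measurable Φ →
      ∫⁻ x, Φ (fun i => a i * x i) * g x = ∫⁻ x, Φ x * f x := by
    intro Φ hΦ
    have hm : Measurable (fun x : Fin n → ℝ => Φ x * f x) := hΦ.mul hf.meas
    rw [← md_scale a ha _ hm]
    refine lintegral_congr (fun x => ?_)
    simp only [hg]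
    ring
  have hg1 : ∀ i, ∫⁻ x, ENNReal.ofReal |x i| * g x = 1 := by
    intro i
    have h1 := hcv (fun x => ENNReal.ofReal (|x i| / a i))
      ((((measurable_pi_apply i).abs).div_const _).ennreal_ofReal)
    have h2 : ∀ x : Fin n → ℝ, ENNReal.ofReal (|a i * x i| / a i) = ENNReal.ofReal |x i| := by
      intro x
      rw [abs_mul, abs_of_pos (ha i), mul_div_cancel_left₀ _ (ha i).ne']
    simp only [h2] at h1
    rw [h1]
    have h3 : ∀ x : Fin n → ℝ, ENNReal.ofReal (|x i| / a i) * f x =
        ENNReal.ofReal (1 / a i) * (ENNReal.ofReal |x i| * f x) := by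
      intro x
      rw [← mul_assoc, ← ENNReal.ofReal_mul (by have := ha i; positivity)]
      congr 2
      ring
    simp only [h3]
    have hm : Measurable (fun x : Fin n → ℝ => ENNReal.ofReal |x i| * f x) :=
      (((measurable_pi_apply i).abs).ennreal_ofReal).mul hf.meas
    rw [lintegral_const_mul _ hm, haI i,
      ← ENNReal.ofReal_mul (by have := ha i; positivity)]
    rw [one_div, inv_mul_cancel₀ (ha i).ne']
    simp
  -- the rescaled set
  set T : (Fin n → ℝ) → (Fin n → ℝ) := fun v i => a i * v i with hT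
  have hTinj : Function.Injective T := by
    intro v w hvw
    funext i
    have := congrFun hvw i
    exact mul_left_cancel₀ (ha i).ne' this
  have hsum : ∀ v w x : Fin n → ℝ, ∑ i, (T v i - T w i) * x i = ∑ i, (v i - w i) * (a i * x i) := by
    intro v w x
    refine Finset.sum_congr rfl (fun i _ => ?_)
    simp only [hT]; ring
  have hV' : (V.image T).Nonempty := hV.image T
  have hcard' : Real.exp p ≤ ((V.image T).card : ℝ) := by
    rw [Finset.card_image_of_injective _ hTinj]; exact hcard
  have hNV : ∀ x, NV (V.image T) hV' x = NV V hV (fun i => a i * x i) := by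
    intro x
    unfold NV
    rw [Finset.sup'_image]
    refine Finset.sup'_congr hV rfl (fun v _ => ?_)
    simp only [Function.comp]
    rw [Finset.sup'_image]
    refine Finset.sup'_congr hV rfl (fun w _ => ?_)
    simp only [Function.comp]
    exact hsum v w x
  have hres := H n g hgU hg1 p hp (V.image T) hV' hcard' A hA (by
    intro v' hv' w' hw' hne
    rw [Finset.mem_image] at hv' hw'
    obtain ⟨v, hv, rfl⟩ := hv'
    obtain ⟨w, hw, rfl⟩ := hw'
    have hvw : v ≠ w := fun h => hne (by rw [h])
    refine (hsep v hv w hw hvw).trans (le_of_eq ?_)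
    have h1 := hcv (fun x => ENNReal.ofReal (|∑ i, (v i - w i) * x i| ^ p)) (by
      refine Measurable.ennreal_ofReal ?_
      refine Measurable.pow_const ?_ p
      have : Continuous (fun x : Fin n → ℝ => |∑ i, (v i - w i) * x i|) := by fun_prop
      exact this.measurable)
    rw [← h1]
    refine lintegral_congr (fun x => ?_)
    rw [hsum v w x])
  refine hres.trans (le_of_eq ?_)
  rw [← md_withDensity hf a ha, integral_map (md_measT a).aemeasurable
    (md_NV_cont V hV).measurable.aestronglyMeasurable]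
  exact integral_congr_ae (Filter.Eventually.of_forall (fun x => hNV x))

end Pool.Agent.Helper711SMP.O3

namespace Pool.Agent.Helper711SMP

alias main_dens3 := Pool.Agent.Helper711SMP.O3.main_dens3

end Pool.Agent.Helper711SMP
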