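import Mathlib

/-!
# First moments
-/

set_option autoImplicit false

namespace Pool.Agent.Helper711SMP.P0

open MeasureTheory
open scoped ENNReal Pointwise

namespace Borell

variable {n : ℕ}

theorem exists_ball (μ : Measure (Fin n → ℝ)) [IsProbabilityMeasure μ] :
    ∃ R : ℝ, 0 < R ∧ (3 / 4 : ℝ≥0∞) < μ (Metric.closedBall 0 R) := by
  have hmono : Monotone fun k : ℕ => Metric.closedBall (0 : Fin n → ℝ) (k : ℝ) := fun a b h =>
    Metric.closedBall_subset_closedBall (by exact_mod_cast h)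
  have h1 := tendsto_measure_iUnion_atTop (μ := μ) hmono
  have h2 : (⋃ k : ℕ, Metric.closedBall (0 : Fin n → ℝ) (k : ℝ)) = Set.univ :=
    Metric.iUnion_closedBall_nat 0
  rw [h2, measure_univ] at h1
  have h3 : (3 / 4 : ℝ≥0∞) < 1 := by
    rw [ENNReal.div_lt_iff (by simp) (by simp)]
    norm_num
  have h4 := (h1.eventually (lt_mem_nhds h3)).and (Filter.eventually_gt_atTop 0)
  obtain ⟨k, hk1, hk2⟩ := h4.exists
  exact ⟨k, by exact_mod_cast hk2, hk1⟩

theorem compact_bound (μ : Measure (Fin n → ℝ)) [IsProbabilityMeasure μ]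
    (hB : ∀ K L : Set (Fin n → ℝ), IsCompact K → IsCompact L →
      ∀ t : ℝ, t ∈ Set.Ioo (0 : ℝ) 1 → μ K ^ t * μ L ^ (1 - t) ≤ μ (t • K + (1 - t) • L))
    {R : ℝ} (hR : 0 < R) (hμ : (3 / 4 : ℝ≥0∞) < μ (Metric.closedBall 0 R))
    (k : ℕ) (L : Set (Fin n → ℝ)) (hL : IsCompact L)
    (hLR : L ⊆ (Metric.closedBall 0 ((2 * k + 1) * R))ᶜ) : μ L ≤ (1 / 3 : ℝ≥0∞) ^ k := by
  rcases Nat.eq_zero_or_pos k with rfl | hk
  · simpa using prob_le_one
  have hk' : (0 : ℝ) < k := by exact_mod_cast hk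
  set s : ℝ := 1 / (k + 1) with hs
  have hs0 : 0 < s := by positivity
  have hs1 : s < 1 := by
    rw [hs, div_lt_one (by positivity)]
    linarith
  have h1 := hB L (Metric.closedBall 0 R) hL (isCompact_closedBall 0 R) s ⟨hs0, hs1⟩
  have hsub : s • L + (1 - s) • Metric.closedBall (0 : Fin n → ℝ) R ⊆ (Metric.closedBall 0 R)ᶜ := by
    intro y hy hyR
    obtain ⟨a, ha, b, hb, rfl⟩ := Set.mem_add.1 hy
    obtain ⟨l, hl, rfl⟩ := Set.mem_smul_set.1 ha
    obtain ⟨c, hc, rfl⟩ := Set.mem_smul_set.1 hb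
    have h2 := hLR hl
    apply h2
    rw [mem_closedBall_zero_iff] at hc hyR ⊢
    have h3 : ‖s • l‖ ≤ R + (1 - s) * R := by
      have h4 : s • l = (s • l + (1 - s) • c) - (1 - s) • c := by abel
      rw [h4]
      refine (norm_sub_le _ _).trans ?_
      have h5 : ‖(1 - s) • c‖ ≤ (1 - s) * R := by
        rw [norm_smul, Real.norm_eq_abs, abs_of_pos (by linarith)]
        exact mul_le_mul_of_nonneg_left hc (by linarith)
      linarith
    rw [norm_smul, Real.norm_eq_abs, abs_of_pos hs0] at h3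
    have h6 : ‖l‖ = (k + 1) * (s * ‖l‖) := by
      rw [hs]
      field_simp
    rw [h6]
    have h7 : (k + 1 : ℝ) * (s * ‖l‖) ≤ (k + 1) * (R + (1 - s) * R) :=
      mul_le_mul_of_nonneg_left h3 (by positivity)
    refine h7.trans (le_of_eq ?_)
    rw [hs]
    field_simp
    ring
  have hc : μ ((Metric.closedBall (0 : Fin n → ℝ) R)ᶜ) ≤ 1 / 4 := by
    rw [measure_compl Metric.isClosed_closedBall.measurableSet (measure_ne_top _ _), measure_univ]
    rw [tsub_le_iff_left]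
    have : (1 : ℝ≥0∞) = 3 / 4 + 1 / 4 := by
      rw [← ENNReal.add_div]
      norm_num
      rw [ENNReal.div_self] <;> simp
    calc (1 : ℝ≥0∞) = 3 / 4 + 1 / 4 := this
      _ ≤ _ := by gcongr
  have h8 : μ L ^ s * (3 / 4 : ℝ≥0∞) ^ (1 - s) ≤ 1 / 4 := by
    refine le_trans ?_ ((h1.trans (measure_mono hsub)).trans hc)
    gcongr
  -- raise to the power `k + 1`
  have h9 : (μ L ^ s * (3 / 4 : ℝ≥0∞) ^ (1 - s)) ^ (k + 1) ≤ (1 / 4 : ℝ≥0∞) ^ (k + 1) := by
    gcongr
  rw [mul_pow, ← ENNReal.rpow_natCast (μ L ^ s), ← ENNReal.rpow_mul,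
    ← ENNReal.rpow_natCast ((3 / 4 : ℝ≥0∞) ^ (1 - s)), ← ENNReal.rpow_mul] at h9
  have e1 : s * ((k + 1 : ℕ) : ℝ) = 1 := by
    rw [hs]
    push_cast
    field_simp
  have e2 : (1 - s) * ((k + 1 : ℕ) : ℝ) = (k : ℕ) := by
    rw [sub_mul, e1]
    push_cast
    ring
  rw [e1, e2, ENNReal.rpow_one, ENNReal.rpow_natCast] at h9
  have e3 : (3 / 4 : ℝ≥0∞) ^ k * (1 / 3) ^ k = (1 / 4) ^ k := by
    rw [← mul_pow]
    congr 1
    rw [div_eq_mul_inv, div_eq_mul_inv, div_eq_mul_inv, one_mul, one_mul, mul_comm (3 : ℝ≥0∞),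
      mul_assoc, ENNReal.mul_inv_cancel (by simp) (by simp), mul_one]
  have h10 : μ L * (3 / 4 : ℝ≥0∞) ^ k ≤ (1 / 3) ^ k * (3 / 4) ^ k := by
    refine h9.trans ?_
    rw [mul_comm ((1 / 3 : ℝ≥0∞) ^ k), e3, pow_succ]
    calc (1 / 4 : ℝ≥0∞) ^ k * (1 / 4) ≤ (1 / 4) ^ k * 1 := by
          gcongr
          rw [ENNReal.div_le_iff (by simp) (by simp)]
          norm_num
      _ = _ := mul_one _
  have h11 : (3 / 4 : ℝ≥0∞) ^ k ≠ 0 := by
    apply pow_ne_zero
    simp
  have h12 : (3 / 4 : ℝ≥0∞) ^ k ≠ ⊤ := by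
    apply ENNReal.pow_ne_top
    exact ENNReal.div_ne_top (by simp) (by simp)
  exact (ENNReal.mul_le_mul_iff_left h11 h12).1 h10

end Borell

open Borell

theorem borell_moment {n : ℕ} (μ : Measure (Fin n → ℝ)) [IsProbabilityMeasure μ]
    (hB : ∀ K L : Set (Fin n → ℝ), IsCompact K → IsCompact L →
      ∀ t : ℝ, t ∈ Set.Ioo (0 : ℝ) 1 → μ K ^ t * μ L ^ (1 - t) ≤ μ (t • K + (1 - t) • L))
    (i : Fin n) :
    ∫⁻ x, ENNReal.ofReal |x i| ∂μ < ⊤ := by
  obtain ⟨R, hR, hμ⟩ := exists_ball μ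
  have htail : ∀ k : ℕ, μ ((Metric.closedBall (0 : Fin n → ℝ) ((2 * k + 1) * R))ᶜ) ≤
      (1 / 3 : ℝ≥0∞) ^ k := by
    intro k
    have ho : IsOpen ((Metric.closedBall (0 : Fin n → ℝ) ((2 * k + 1) * R))ᶜ) :=
      Metric.isClosed_closedBall.isOpen_compl
    rw [ho.measure_eq_iSup_isCompact μ]
    refine iSup_le fun K => iSup_le fun hK => iSup_le fun hKc => ?_
    exact compact_bound μ hB hR hμ k K hKc hK
  let A : ℕ → Set (Fin n → ℝ) := fun k =>
    Metric.closedBall 0 ((2 * k + 3) * R) \ Metric.closedBall 0 ((2 * k + 1) * R)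
  have hcover : (Set.univ : Set (Fin n → ℝ)) ⊆ Metric.closedBall 0 R ∪ ⋃ k, A k := by
    intro x _
    by_cases hx : ‖x‖ ≤ R
    · exact Or.inl (by rwa [mem_closedBall_zero_iff])
    · right
      rw [not_le] at hx
      -- least `k` with `‖x‖ ≤ (2 k + 3) R`
      have hex : ∃ k : ℕ, ‖x‖ ≤ (2 * k + 3) * R := by
        obtain ⟨k, hk⟩ := exists_nat_gt (‖x‖ / R)
        refine ⟨k, ?_⟩
        rw [div_lt_iff₀ hR] at hk
        nlinarith [(Nat.cast_nonneg k : (0 : ℝ) ≤ k)]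
      classical
      have h1 := Nat.find_spec hex
      refine Set.mem_iUnion.2 ⟨Nat.find hex, ?_, ?_⟩
      · rwa [mem_closedBall_zero_iff]
      · rw [mem_closedBall_zero_iff, not_le]
        rcases Nat.eq_zero_or_pos (Nat.find hex) with h2 | h2
        · rw [h2]
          simpa using hx
        · have h3 := Nat.find_min hex (m := Nat.find hex - 1) (by omega)
          rw [not_le] at h3
          have h4 : ((Nat.find hex - 1 : ℕ) : ℝ) = (Nat.find hex : ℝ) - 1 := by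
            rw [Nat.cast_sub h2]
            simp
          rw [h4] at h3
          refine lt_of_eq_of_lt ?_ h3
          ring
  have hi : ∀ (x : Fin n → ℝ) (r : ℝ), x ∈ Metric.closedBall (0 : Fin n → ℝ) r →
      ENNReal.ofReal |x i| ≤ ENNReal.ofReal r := by
    intro x r hx
    apply ENNReal.ofReal_le_ofReal
    rw [mem_closedBall_zero_iff] at hx
    exact (norm_le_pi_norm x i).trans hx
  have hb : ∀ (S : Set (Fin n → ℝ)) (r : ℝ), S ⊆ Metric.closedBall (0 : Fin n → ℝ) r →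
      ∫⁻ x in S, ENNReal.ofReal |x i| ∂μ ≤ ENNReal.ofReal r * μ S := by
    intro S r hS
    calc ∫⁻ x in S, ENNReal.ofReal |x i| ∂μ ≤ ∫⁻ x in S, ENNReal.ofReal r ∂μ := by
          apply setLIntegral_mono measurable_const
          intro x hx
          exact hi x r (hS hx)
      _ = _ := by rw [setLIntegral_const]
  calc ∫⁻ x, ENNReal.ofReal |x i| ∂μ = ∫⁻ x in Set.univ, ENNReal.ofReal |x i| ∂μ := by
        rw [setLIntegral_univ]
    _ ≤ ∫⁻ x in (Metric.closedBall 0 R ∪ ⋃ k, A k), ENNReal.ofReal |x i| ∂μ :=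
        lintegral_mono_set hcover
    _ ≤ ∫⁻ x in Metric.closedBall 0 R, ENNReal.ofReal |x i| ∂μ +
          ∫⁻ x in ⋃ k, A k, ENNReal.ofReal |x i| ∂μ := lintegral_union_le _ _ _
    _ ≤ ENNReal.ofReal R * μ (Metric.closedBall 0 R) +
          ∑' k, ∫⁻ x in A k, ENNReal.ofReal |x i| ∂μ := by
        gcongr
        · exact hb _ _ subset_rfl
        · exact lintegral_iUnion_le _ _
    _ ≤ ENNReal.ofReal R * 1 + ∑' k : ℕ, ENNReal.ofReal ((2 * k + 3) * R * (1 / 3) ^ k) := by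
        gcongr with k
        · exact prob_le_one
        · refine (hb (A k) ((2 * k + 3) * R) Set.sdiff_subset).trans ?_
          have h1 : μ (A k) ≤ (1 / 3 : ℝ≥0∞) ^ k :=
            (measure_mono (fun x hx => hx.2)).trans (htail k)
          rw [ENNReal.ofReal_mul (p := (2 * (k : ℝ) + 3) * R) (by positivity)]
          refine mul_le_mul' le_rfl (h1.trans (le_of_eq ?_))
          rw [ENNReal.ofReal_pow (by norm_num), ENNReal.ofReal_div_of_pos (by norm_num)]
          simp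
    _ < ⊤ := by
        have hsum : Summable fun k : ℕ => ((2 * k + 3) * R * (1 / 3) ^ k : ℝ) := by
          have h1 := summable_pow_mul_geometric_of_norm_lt_one 1 (r := (1 / 3 : ℝ)) (by norm_num)
          have h2 := summable_geometric_of_lt_one (r := (1 / 3 : ℝ)) (by norm_num) (by norm_num)
          refine ((h1.mul_left (2 * R)).add (h2.mul_left (3 * R))).congr ?_
          intro k
          ring
        rw [← ENNReal.ofReal_tsum_of_nonneg (fun k => by positivity) hsum]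
        simp

end Pool.Agent.Helper711SMP.P0

namespace Pool.Agent.Helper711SMP

alias borell_moment := Pool.Agent.Helper711SMP.P0.borell_moment

end Pool.Agent.Helper711SMP
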