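import Mathlib
import Pool.Agent.Helper711_SMP.Basic
import Pool.Agent.Helper711_SMP.NV
import Pool.Agent.Helper711_SMP.O3

/-!
# Measures
-/

set_option autoImplicit false

namespace Pool.Agent.Helper711SMP.P13

open MeasureTheory
open scoped ENNReal Pointwise

variable {n : ℕ} {f : (Fin n → ℝ) → ℝ≥0∞}

namespace Smooth

/-- the cube of half-width `ε` around `x` -/
def Q (ε : ℝ) (x : Fin n → ℝ) : Set (Fin n → ℝ) := {y | ∀ i, |y i - x i| ≤ ε}

lemma Q_eq (ε : ℝ) (x : Fin n → ℝ) :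
    Q ε x = Set.Icc (fun i => x i - ε) (fun i => x i + ε) := by
  ext y
  constructor
  · intro h
    exact ⟨fun i => by have := abs_le.1 (h i); simp only; linarith [this.1],
      fun i => by have := abs_le.1 (h i); simp only; linarith [this.2]⟩
  · rintro ⟨h1, h2⟩ i
    have a := h1 i
    have b := h2 i
    simp only at a b
    rw [abs_le]
    constructor <;> linarith

lemma Q_symm (ε : ℝ) (x y : Fin n → ℝ) : y ∈ Q ε x ↔ x ∈ Q ε y := by
  constructor
  · intro h i
    rw [abs_sub_comm]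
    exact h i
  · intro h i
    rw [abs_sub_comm]
    exact h i

lemma meas_Q (ε : ℝ) (x : Fin n → ℝ) : MeasurableSet (Q ε x) := by
  rw [Q_eq]
  exact measurableSet_Icc

lemma compact_Q (ε : ℝ) (x : Fin n → ℝ) : IsCompact (Q ε x) := by
  rw [Q_eq]
  exact isCompact_Icc

lemma vol_Q {ε : ℝ} (x : Fin n → ℝ) : volume (Q ε x) = ENNReal.ofReal (2 * ε) ^ n := by
  rw [Q_eq, Real.volume_Icc_pi]
  have : ∀ i : Fin n, ENNReal.ofReal (x i + ε - (x i - ε)) = ENNReal.ofReal (2 * ε) := by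
    intro i
    congr 1
    ring
  simp only [this, Finset.prod_const, Finset.card_univ, Fintype.card_fin]

/-- the normalising constant -/
noncomputable def kap (n : ℕ) (ε : ℝ) : ℝ≥0∞ := (ENNReal.ofReal (2 * ε) ^ n)⁻¹

lemma kap_mul {ε : ℝ} (hε : 0 < ε) : kap n ε * ENNReal.ofReal (2 * ε) ^ n = 1 := by
  unfold kap
  apply ENNReal.inv_mul_cancel
  · exact pow_ne_zero _ (by simpa using hε)
  · exact ENNReal.pow_ne_top ENNReal.ofReal_ne_top

lemma kap_ne_zero (ε : ℝ) : kap n ε ≠ 0 := by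
  unfold kap
  exact ENNReal.inv_ne_zero.2 (ENNReal.pow_ne_top ENNReal.ofReal_ne_top)

lemma kap_ne_top {ε : ℝ} (hε : 0 < ε) : kap n ε ≠ ⊤ := by
  unfold kap
  exact ENNReal.inv_ne_top.2 (pow_ne_zero _ (by simpa using hε))

/-- the incidence set -/
def S (n : ℕ) (ε : ℝ) : Set ((Fin n → ℝ) × (Fin n → ℝ)) := {p | ∀ i, |p.2 i - p.1 i| ≤ ε}

lemma meas_S (ε : ℝ) : MeasurableSet (S n ε) := by
  have : S n ε = ⋂ i, {p | |p.2 i - p.1 i| ≤ ε} := by
    ext p
    simp [S]
  rw [this]
  refine MeasurableSet.iInter fun i => measurableSet_le ?_ measurable_const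
  fun_prop

lemma key (μ : Measure (Fin n → ℝ)) [IsProbabilityMeasure μ] (ε : ℝ)
    (Φ : (Fin n → ℝ) → ℝ≥0∞) (hΦ : Measurable Φ) :
    ∫⁻ x, Φ x * (kap n ε * μ (Q ε x)) =
      ∫⁻ y, kap n ε * (∫⁻ x in Q ε y, Φ x) ∂μ := by
  have h1 : ∀ x, Φ x * (kap n ε * μ (Q ε x)) =
      ∫⁻ y, kap n ε * ((S n ε).indicator (fun p => Φ p.1) (x, y)) ∂μ := by
    intro x
    have e : (fun y => (S n ε).indicator (fun p => Φ p.1) (x, y)) =
        (Q ε x).indicator (fun _ => Φ x) := by
      funext y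
      by_cases hy : y ∈ Q ε x
      · rw [Set.indicator_of_mem hy, Set.indicator_of_mem (show (x, y) ∈ S n ε from hy)]
      · rw [Set.indicator_of_notMem hy, Set.indicator_of_notMem (show (x, y) ∉ S n ε from hy)]
    rw [lintegral_const_mul, e, lintegral_indicator_const (meas_Q ε x)]
    · ring
    · rw [e]
      exact measurable_const.indicator (meas_Q ε x)
  have h2 : ∀ y, kap n ε * (∫⁻ x in Q ε y, Φ x) =
      ∫⁻ x, kap n ε * ((S n ε).indicator (fun p => Φ p.1) (x, y)) := by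
    intro y
    have e : (fun x => (S n ε).indicator (fun p => Φ p.1) (x, y)) = (Q ε y).indicator Φ := by
      funext x
      by_cases hx : x ∈ Q ε y
      · rw [Set.indicator_of_mem hx,
          Set.indicator_of_mem (show (x, y) ∈ S n ε from (Q_symm ε y x).1 hx)]
      · rw [Set.indicator_of_notMem hx,
          Set.indicator_of_notMem (show (x, y) ∉ S n ε from fun h => hx ((Q_symm ε y x).2 h))]
    rw [lintegral_const_mul, e, lintegral_indicator (meas_Q ε y)]
    rw [e]
    exact hΦ.indicator (meas_Q ε y)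
  simp only [h1, h2]
  apply lintegral_lintegral_swap
  apply Measurable.aemeasurable
  have : Measurable (fun p : (Fin n → ℝ) × (Fin n → ℝ) =>
      kap n ε * ((S n ε).indicator (fun p => Φ p.1) p)) :=
    ((hΦ.comp measurable_fst).indicator (meas_S ε)).const_mul _
  exact this

lemma key_le (μ : Measure (Fin n → ℝ)) [IsProbabilityMeasure μ] {ε : ℝ} (hε : 0 < ε)
    (Φ : (Fin n → ℝ) → ℝ≥0∞) (hΦ : Measurable Φ) (Ψ : (Fin n → ℝ) → ℝ≥0∞)
    (h : ∀ y, ∀ x ∈ Q ε y, Φ x ≤ Ψ y) :
    ∫⁻ x, Φ x * (kap n ε * μ (Q ε x)) ≤ ∫⁻ y, Ψ y ∂μ := by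
  rw [key μ ε Φ hΦ]
  refine lintegral_mono fun y => ?_
  have h1 : ∫⁻ x in Q ε y, Φ x ≤ Ψ y * volume (Q ε y) := by
    rw [← setLIntegral_const]
    exact setLIntegral_mono measurable_const (h y)
  calc kap n ε * (∫⁻ x in Q ε y, Φ x) ≤ kap n ε * (Ψ y * volume (Q ε y)) := by gcongr
    _ = Ψ y * (kap n ε * ENNReal.ofReal (2 * ε) ^ n) := by rw [vol_Q]; ring
    _ = Ψ y := by rw [kap_mul hε, mul_one]

lemma refl (ε : ℝ) (y : Fin n → ℝ) (Φ : (Fin n → ℝ) → ℝ≥0∞) (hΦ : Measurable Φ) :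
    ∫⁻ x in Q ε y, Φ (y + y - x) = ∫⁻ x in Q ε y, Φ x := by
  have hmp : MeasurePreserving (fun x : Fin n → ℝ => y + y - x) volume volume :=
    Measure.measurePreserving_sub_left volume (y + y)
  have hpre : (fun x : Fin n → ℝ => y + y - x) ⁻¹' (Q ε y) = Q ε y := by
    ext x
    simp only [Set.mem_preimage]
    constructor
    · intro h i
      have := h i
      rw [abs_sub_comm]
      have e : y i - x i = (y + y - x) i - y i := by
        simp only [Pi.sub_apply, Pi.add_apply]; ring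
      rw [e]
      exact this
    · intro h i
      have := h i
      rw [abs_sub_comm] at this
      have e : (y + y - x) i - y i = y i - x i := by
        simp only [Pi.sub_apply, Pi.add_apply]; ring
      rw [e]
      exact this
  have := hmp.setLIntegral_comp_preimage (meas_Q ε y) hΦ
  rw [hpre] at this
  exact this

lemma half_sum (p : ℝ) (hp : 1 ≤ p) (a b : ℝ) :
    2 * ENNReal.ofReal (|(a + b) / 2| ^ p) ≤ ENNReal.ofReal (|a| ^ p) + ENNReal.ofReal (|b| ^ p) := by
  rw [← ENNReal.ofReal_add (by positivity) (by positivity)]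
  have h2 : (2 : ℝ≥0∞) = ENNReal.ofReal 2 := by simp
  rw [h2, ← ENNReal.ofReal_mul (by norm_num)]
  apply ENNReal.ofReal_le_ofReal
  have h1 : |(a + b) / 2| ≤ (1 / 2 : ℝ) * |a| + (1 / 2) * |b| := by
    have := abs_add_le a b
    rw [abs_div, abs_of_pos (by norm_num : (0:ℝ) < 2)]
    linarith
  have h3 : |(a + b) / 2| ^ p ≤ ((1 / 2 : ℝ) * |a| + (1 / 2) * |b|) ^ p :=
    Real.rpow_le_rpow (abs_nonneg _) h1 (by linarith)
  have h4 := (convexOn_rpow hp).2 (Set.mem_Ici.2 (abs_nonneg a)) (Set.mem_Ici.2 (abs_nonneg b))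
    (by norm_num : (0:ℝ) ≤ 1 / 2) (by norm_num : (0:ℝ) ≤ 1 / 2) (by norm_num)
  simp only [smul_eq_mul] at h4
  linarith

lemma le_key (μ : Measure (Fin n → ℝ)) [IsProbabilityMeasure μ] {ε : ℝ} (hε : 0 < ε)
    (l : Fin n → ℝ) (p : ℝ) (hp : 1 ≤ p) :
    ∫⁻ x, ENNReal.ofReal (|∑ i, l i * x i| ^ p) ∂μ ≤
      ∫⁻ x, ENNReal.ofReal (|∑ i, l i * x i| ^ p) * (kap n ε * μ (Q ε x)) := by
  have hΦ : Measurable (fun x : Fin n → ℝ => ENNReal.ofReal (|∑ i, l i * x i| ^ p)) := by
    apply ENNReal.measurable_ofReal.comp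
    have h1 : Continuous (fun x : Fin n → ℝ => |∑ i, l i * x i|) := by fun_prop
    exact h1.measurable.pow_const p
  rw [key μ ε _ hΦ]
  refine lintegral_mono fun y => ?_
  simp only
  have h1 : 2 * (ENNReal.ofReal (|∑ i, l i * y i| ^ p) * volume (Q ε y)) ≤
      2 * ∫⁻ x in Q ε y, ENNReal.ofReal (|∑ i, l i * x i| ^ p) := by
    have e1 : 2 * ∫⁻ x in Q ε y, ENNReal.ofReal (|∑ i, l i * x i| ^ p) =
        ∫⁻ x in Q ε y, (ENNReal.ofReal (|∑ i, l i * x i| ^ p) +
          ENNReal.ofReal (|∑ i, l i * (y + y - x) i| ^ p)) := by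
      rw [lintegral_add_left hΦ,
        refl ε y (fun x : Fin n → ℝ => ENNReal.ofReal (|∑ i, l i * x i| ^ p)) hΦ, two_mul]
    rw [e1, ← mul_assoc, ← setLIntegral_const]
    apply setLIntegral_mono
    · refine hΦ.add ?_
      exact hΦ.comp (measurable_const.sub measurable_id)
    · intro x _
      have := half_sum p hp (∑ i, l i * x i) (∑ i, l i * (y + y - x) i)
      have e2 : (∑ i, l i * x i + ∑ i, l i * (y + y - x) i) / 2 = ∑ i, l i * y i := by
        rw [← Finset.sum_add_distrib, Finset.sum_div]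
        refine Finset.sum_congr rfl fun i _ => ?_
        simp only [Pi.sub_apply, Pi.add_apply]
        ring
      rw [e2] at this
      exact this
  have h2 : ENNReal.ofReal (|∑ i, l i * y i| ^ p) * volume (Q ε y) ≤
      ∫⁻ x in Q ε y, ENNReal.ofReal (|∑ i, l i * x i| ^ p) :=
    (ENNReal.mul_le_mul_iff_right (by norm_num) (by norm_num)).1 h1
  calc ENNReal.ofReal (|∑ i, l i * y i| ^ p)
      = ENNReal.ofReal (|∑ i, l i * y i| ^ p) * (kap n ε * ENNReal.ofReal (2 * ε) ^ n) := by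
        rw [kap_mul hε, mul_one]
    _ = kap n ε * (ENNReal.ofReal (|∑ i, l i * y i| ^ p) * volume (Q ε y)) := by rw [vol_Q]; ring
    _ ≤ _ := by gcongr

lemma meas_f (μ : Measure (Fin n → ℝ)) [IsProbabilityMeasure μ] (ε : ℝ) :
    Measurable (fun x => kap n ε * μ (Q ε x)) := by
  apply Measurable.const_mul
  exact measurable_measure_prodMk_left (ν := μ) (meas_S ε)

lemma ud (μ : Measure (Fin n → ℝ)) [IsProbabilityMeasure μ] {ε : ℝ} (hε : 0 < ε)
    (hB : ∀ K L : Set (Fin n → ℝ), IsCompact K → IsCompact L →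
      ∀ t : ℝ, t ∈ Set.Ioo (0 : ℝ) 1 → μ K ^ t * μ L ^ (1 - t) ≤ μ (t • K + (1 - t) • L))
    (hE : ∀ i : Fin n, μ.map (fun x => Function.update x i (-x i)) = μ) :
    UD (fun x => kap n ε * μ (Q ε x)) := by
  refine ⟨meas_f μ ε, ?_, ?_, ?_⟩
  · have h := key μ ε (fun _ => 1) measurable_const
    simp only [one_mul] at h
    rw [h]
    have : ∀ y : Fin n → ℝ, kap n ε * (∫⁻ _ in Q ε y, (1 : ℝ≥0∞)) = 1 := by
      intro y
      rw [setLIntegral_const, one_mul, vol_Q, kap_mul hε]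
    rw [lintegral_congr this]
    simp
  · intro s hs0 hs1 x y
    have h1 := hB (Q ε x) (Q ε y) (compact_Q ε x) (compact_Q ε y) s ⟨hs0, hs1⟩
    have h2 : s • Q ε x + (1 - s) • Q ε y ⊆ Q ε (s • x + (1 - s) • y) := by
      rintro _ ⟨_, ⟨a, ha, rfl⟩, _, ⟨b, hb, rfl⟩, rfl⟩ i
      have e : ((fun x => s • x) a + (fun x => (1 - s) • x) b) i - (s • x + (1 - s) • y) i =
          s * (a i - x i) + (1 - s) * (b i - y i) := by
        simp only [Pi.add_apply, Pi.smul_apply, smul_eq_mul]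
        ring
      have e' : (s • a + (1 - s) • b) i - (s • x + (1 - s) • y) i =
          s * (a i - x i) + (1 - s) * (b i - y i) := e
      show |(s • a + (1 - s) • b) i - (s • x + (1 - s) • y) i| ≤ ε
      rw [e']
      have h3 := abs_add_le (s * (a i - x i)) ((1 - s) * (b i - y i))
      rw [abs_mul, abs_mul, abs_of_pos hs0, abs_of_pos (by linarith : (0:ℝ) < 1 - s)] at h3
      have h4 := ha i
      have h5 := hb i
      nlinarith
    have h3 : kap n ε ^ s * kap n ε ^ (1 - s) = kap n ε := by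
      rw [← ENNReal.rpow_add _ _ (kap_ne_zero ε) (kap_ne_top hε)]
      simp
    calc (kap n ε * μ (Q ε x)) ^ s * (kap n ε * μ (Q ε y)) ^ (1 - s)
        = (kap n ε ^ s * kap n ε ^ (1 - s)) * (μ (Q ε x) ^ s * μ (Q ε y) ^ (1 - s)) := by
          rw [ENNReal.mul_rpow_of_nonneg _ _ hs0.le,
            ENNReal.mul_rpow_of_nonneg _ _ (by linarith : (0:ℝ) ≤ 1 - s)]
          ring
      _ = kap n ε * (μ (Q ε x) ^ s * μ (Q ε y) ^ (1 - s)) := by rw [h3]
      _ ≤ kap n ε * μ (Q ε (s • x + (1 - s) • y)) := by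
          gcongr
          exact h1.trans (measure_mono h2)
  · intro i x
    congr 1
    have hm : Measurable (fun x : Fin n → ℝ => Function.update x i (-x i)) := by
      rw [measurable_pi_iff]
      intro j
      by_cases hj : j = i
      · subst hj
        simp only [Function.update_self]
        exact (measurable_pi_apply j).neg
      · simp only [Function.update_of_ne hj]
        exact measurable_pi_apply j
    conv_rhs => rw [← hE i]
    rw [Measure.map_apply hm (meas_Q ε x)]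
    congr 1
    ext y
    simp only [Set.mem_preimage]
    constructor
    · intro h j
      have := h j
      by_cases hj : j = i
      · subst hj
        simp only [Function.update_self] at this ⊢
        rw [← abs_neg]
        convert this using 2
        ring
      · simp only [Function.update_of_ne hj] at this ⊢
        exact this
    · intro h j
      have := h j
      by_cases hj : j = i
      · subst hj
        simp only [Function.update_self] at this ⊢
        rw [← abs_neg]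
        convert this using 2
        ring
      · simp only [Function.update_of_ne hj] at this ⊢
        exact this

/-- a bound for differences of widths -/
noncomputable def CC (V : Finset (Fin n → ℝ)) : ℝ := ∑ v ∈ V, ∑ w ∈ V, ∑ i, |v i - w i|

lemma CC_nonneg (V : Finset (Fin n → ℝ)) : 0 ≤ CC V := by
  unfold CC
  positivity

lemma le_CC (V : Finset (Fin n → ℝ)) {v w : Fin n → ℝ} (hv : v ∈ V) (hw : w ∈ V) :
    ∑ i, |v i - w i| ≤ CC V := by
  unfold CC
  have h1 : ∑ i, |v i - w i| ≤ ∑ w ∈ V, ∑ i, |v i - w i| :=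
    Finset.single_le_sum (f := fun w => ∑ i, |v i - w i|)
      (fun w _ => Finset.sum_nonneg fun i _ => abs_nonneg _) hw
  have h2 : ∑ w ∈ V, ∑ i, |v i - w i| ≤ ∑ v ∈ V, ∑ w ∈ V, ∑ i, |v i - w i| :=
    Finset.single_le_sum (f := fun v => ∑ w ∈ V, ∑ i, |v i - w i|)
      (fun v _ => Finset.sum_nonneg fun w _ => Finset.sum_nonneg fun i _ => abs_nonneg _) hv
  exact h1.trans h2

lemma pair_le (V : Finset (Fin n → ℝ)) (hV : V.Nonempty) (x : Fin n → ℝ) {v w : Fin n → ℝ}
    (hv : v ∈ V) (hw : w ∈ V) : ∑ i, (v i - w i) * x i ≤ NV V hV x := by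
  unfold NV
  rw [Finset.le_sup'_iff]
  refine ⟨v, hv, ?_⟩
  rw [Finset.le_sup'_iff]
  exact ⟨w, hw, le_rfl⟩

lemma NV_nonneg (V : Finset (Fin n → ℝ)) (hV : V.Nonempty) (x : Fin n → ℝ) : 0 ≤ NV V hV x := by
  obtain ⟨v, hv⟩ := id hV
  have h1 := pair_le V hV x hv hv
  simpa using h1

lemma NV_le (V : Finset (Fin n → ℝ)) (hV : V.Nonempty) {ε : ℝ} (hε : 0 < ε) (x y : Fin n → ℝ)
    (hx : x ∈ Q ε y) : NV V hV x ≤ NV V hV y + ε * CC V := by
  rw [NV]
  refine Finset.sup'_le _ _ fun v hv => Finset.sup'_le _ _ fun w hw => ?_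
  have h1 := pair_le V hV y hv hw
  have h2 : ∑ i, (v i - w i) * x i ≤ ∑ i, (v i - w i) * y i + ε * ∑ i, |v i - w i| := by
    rw [Finset.mul_sum, ← Finset.sum_add_distrib]
    refine Finset.sum_le_sum fun i _ => ?_
    have h3 : (v i - w i) * (x i - y i) ≤ |v i - w i| * ε := by
      refine (le_abs_self _).trans ?_
      rw [abs_mul]
      exact mul_le_mul_of_nonneg_left (hx i) (abs_nonneg _)
    linarith
  have h3 : ε * ∑ i, |v i - w i| ≤ ε * CC V :=
    mul_le_mul_of_nonneg_left (le_CC V hv hw) hε.le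
  linarith

lemma NV_le_sum (V : Finset (Fin n → ℝ)) (hV : V.Nonempty) (x : Fin n → ℝ) :
    NV V hV x ≤ ∑ i, CC V * |x i| := by
  unfold NV
  refine Finset.sup'_le _ _ fun v hv => Finset.sup'_le _ _ fun w hw => ?_
  refine Finset.sum_le_sum fun i _ => ?_
  refine (le_abs_self _).trans ?_
  rw [abs_mul]
  refine mul_le_mul_of_nonneg_right ?_ (abs_nonneg _)
  refine le_trans ?_ (le_CC V hv hw)
  exact Finset.single_le_sum (f := fun i => |v i - w i|) (fun i _ => abs_nonneg _)
    (Finset.mem_univ i)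

lemma cont_NV (V : Finset (Fin n → ℝ)) (hV : V.Nonempty) : Continuous (NV V hV) := by
  unfold NV
  refine Continuous.finset_sup'_apply hV fun v _ => Continuous.finset_sup'_apply hV fun w _ => ?_
  fun_prop

end Smooth

theorem main_meas3 : ∃ c : ℝ, 0 < c ∧ ∀ (n : ℕ) (μ : Measure (Fin n → ℝ)), IsProbabilityMeasure μ →
    (∀ K L : Set (Fin n → ℝ), IsCompact K → IsCompact L →
      ∀ t : ℝ, t ∈ Set.Ioo (0 : ℝ) 1 → μ K ^ t * μ L ^ (1 - t) ≤ μ (t • K + (1 - t) • L)) →
    (∀ i : Fin n, μ.map (fun x => Function.update x i (-x i)) = μ) →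
    (∀ i, ∫⁻ x, ENNReal.ofReal |x i| ∂μ < ⊤) →
    ∀ p : ℝ, 1 ≤ p → ∀ (V : Finset (Fin n → ℝ)) (hV : V.Nonempty),
      Real.exp p ≤ (V.card : ℝ) → ∀ A : ℝ, 0 < A →
      (∀ v ∈ V, ∀ w ∈ V, v ≠ w →
        ENNReal.ofReal (A ^ p) ≤ ∫⁻ x, ENNReal.ofReal (|∑ i, (v i - w i) * x i| ^ p) ∂μ) →
      c * A ≤ ∫ x, NV V hV x ∂μ := by
  obtain ⟨c, hc, hmain⟩ := main_dens3
  refine ⟨c, hc, ?_⟩
  intro n μ hμ hB hE h1 p hp V hV hcard A hA hsep
  refine le_of_forall_pos_le_add fun δ hδ => ?_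
  obtain ⟨ε, hε, hεδ⟩ : ∃ ε : ℝ, 0 < ε ∧ ε * Smooth.CC V ≤ δ := by
    have hC := Smooth.CC_nonneg V
    refine ⟨δ / (Smooth.CC V + 1), by positivity, ?_⟩
    rw [div_mul_eq_mul_div, div_le_iff₀ (by linarith)]
    nlinarith
  have hUD := Smooth.ud μ hε hB hE
  have hfin : ∀ i, ∫⁻ x : Fin n → ℝ, ENNReal.ofReal |x i| * (Smooth.kap n ε * μ (Smooth.Q ε x)) < ⊤ := by
    intro i
    have hΦ : Measurable (fun x : Fin n → ℝ => ENNReal.ofReal |x i|) := by
      apply ENNReal.measurable_ofReal.comp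
      have : Continuous (fun x : Fin n → ℝ => |x i|) := by fun_prop
      exact this.measurable
    refine lt_of_le_of_lt (Smooth.key_le μ hε _ hΦ
      (fun y => ENNReal.ofReal |y i| + ENNReal.ofReal ε) ?_) ?_
    · intro y x hx
      rw [← ENNReal.ofReal_add (abs_nonneg _) hε.le]
      apply ENNReal.ofReal_le_ofReal
      have h2 := hx i
      have h3 : |x i| ≤ |x i - y i| + |y i| := by
        have := abs_add_le (x i - y i) (y i)
        rwa [sub_add_cancel] at this
      linarith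
    · rw [lintegral_add_left hΦ]
      refine ENNReal.add_lt_top.2 ⟨h1 i, ?_⟩
      simp
  have hkey := hmain n _ hUD hfin p hp V hV hcard A hA (fun v hv w hw hvw =>
    (hsep v hv w hw hvw).trans (Smooth.le_key μ hε (fun i => v i - w i) p hp))
  refine hkey.trans ?_
  have hNVm : Measurable (fun x => ENNReal.ofReal (NV V hV x)) :=
    ENNReal.measurable_ofReal.comp (Smooth.cont_NV V hV).measurable
  have hfinμ : ∫⁻ x, ENNReal.ofReal (NV V hV x) ∂μ < ⊤ := by
    have h2 : ∀ x, ENNReal.ofReal (NV V hV x) ≤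
        ∑ i, ENNReal.ofReal (Smooth.CC V) * ENNReal.ofReal |x i| := by
      intro x
      refine (ENNReal.ofReal_le_ofReal (Smooth.NV_le_sum V hV x)).trans ?_
      rw [ENNReal.ofReal_sum_of_nonneg (fun i _ =>
        mul_nonneg (Smooth.CC_nonneg V) (abs_nonneg _))]
      refine Finset.sum_le_sum fun i _ => ?_
      rw [ENNReal.ofReal_mul (Smooth.CC_nonneg V)]
    refine lt_of_le_of_lt (lintegral_mono h2) ?_
    have hm : ∀ i : Fin n, Measurable (fun x : Fin n → ℝ => ENNReal.ofReal |x i|) := by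
      intro i
      apply ENNReal.measurable_ofReal.comp
      have : Continuous (fun x : Fin n → ℝ => |x i|) := by fun_prop
      exact this.measurable
    rw [lintegral_finsetSum _ (fun i _ => (hm i).const_mul _)]
    refine ENNReal.sum_lt_top.2 fun i _ => ?_
    rw [lintegral_const_mul _ (hm i)]
    exact ENNReal.mul_lt_top ENNReal.ofReal_lt_top (h1 i)
  rw [integral_eq_lintegral_of_nonneg_ae (Filter.Eventually.of_forall fun x =>
      Smooth.NV_nonneg V hV x) (Smooth.cont_NV V hV).aestronglyMeasurable,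
    integral_eq_lintegral_of_nonneg_ae (Filter.Eventually.of_forall fun x =>
      Smooth.NV_nonneg V hV x) (Smooth.cont_NV V hV).aestronglyMeasurable,
    lintegral_withDensity_eq_lintegral_mul _ (Smooth.meas_f μ ε) hNVm]
  have h3 : ∫⁻ x : Fin n → ℝ, ((fun x => Smooth.kap n ε * μ (Smooth.Q ε x)) *
      fun x => ENNReal.ofReal (NV V hV x)) x ≤
      ∫⁻ x, ENNReal.ofReal (NV V hV x) ∂μ + ENNReal.ofReal δ := by
    have e1 : ∀ x : Fin n → ℝ, ((fun x => Smooth.kap n ε * μ (Smooth.Q ε x)) *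
      fun x => ENNReal.ofReal (NV V hV x)) x =
        ENNReal.ofReal (NV V hV x) * (Smooth.kap n ε * μ (Smooth.Q ε x)) := by
      intro x
      simp only [Pi.mul_apply]
      ring
    simp only [e1]
    refine (Smooth.key_le μ hε _ hNVm (fun y => ENNReal.ofReal (NV V hV y) + ENNReal.ofReal δ)
      ?_).trans ?_
    · intro y x hx
      rw [← ENNReal.ofReal_add (Smooth.NV_nonneg V hV y) hδ.le]
      apply ENNReal.ofReal_le_ofReal
      have := Smooth.NV_le V hV hε x y hx
      linarith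
    · rw [lintegral_add_left hNVm]
      simp
  have h4 := ENNReal.toReal_mono (ENNReal.add_lt_top.2 ⟨hfinμ, ENNReal.ofReal_lt_top⟩).ne h3
  rwa [ENNReal.toReal_add hfinμ.ne ENNReal.ofReal_ne_top, ENNReal.toReal_ofReal hδ.le] at h4

end Pool.Agent.Helper711SMP.P13

namespace Pool.Agent.Helper711SMP

alias main_meas3 := Pool.Agent.Helper711SMP.P13.main_meas3

end Pool.Agent.Helper711SMP
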