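import Mathlib
import Pool.Agent.Helper711_SMP.Basic
import Pool.Agent.Helper711_SMP.NV
import Pool.Agent.Helper711_SMP.P0
import Pool.Agent.Helper711_SMP.P13

/-!
# Final form
-/

set_option autoImplicit false

namespace Pool.Agent.Helper711SMP.P23

open MeasureTheory
open scoped ENNReal Pointwise

variable {n : ℕ}

/-- Borell's inequality for compact sets -/
def LogConc {E : Type*} [TopologicalSpace E] [AddCommGroup E] [Module ℝ E] [MeasurableSpace E]
    (μ : Measure E) : Prop :=
  ∀ K L : Set E, IsCompact K → IsCompact L → ∀ t : ℝ, t ∈ Set.Ioo (0 : ℝ) 1 →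
    μ K ^ t * μ L ^ (1 - t) ≤ μ (t • K + (1 - t) • L)

/-- `x` with the sign of its `i`-th coordinate changed -/
def flipAt {m : ℕ} (i : Fin m) (x : EuclideanSpace ℝ (Fin m)) : EuclideanSpace ℝ (Fin m) :=
  WithLp.toLp 2 (fun j => if j = i then -x j else x j)

/-- Euclidean space as a product, measurably -/
noncomputable def eL (m : ℕ) : EuclideanSpace ℝ (Fin m) ≃L[ℝ] (Fin m → ℝ) :=
  EuclideanSpace.equiv (Fin m) ℝ

noncomputable def eM (m : ℕ) : EuclideanSpace ℝ (Fin m) ≃ᵐ (Fin m → ℝ) :=
  (eL m).toHomeomorph.toMeasurableEquiv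

theorem eM_apply (m : ℕ) (x : EuclideanSpace ℝ (Fin m)) : eM m x = eL m x := rfl

theorem eL_apply (m : ℕ) (x : EuclideanSpace ℝ (Fin m)) (i : Fin m) : eL m x i = x i := rfl

theorem transfer_B {m : ℕ} (ν : Measure (EuclideanSpace ℝ (Fin m))) (h : LogConc ν) :
    ∀ K L : Set (Fin m → ℝ), IsCompact K → IsCompact L →
      ∀ t : ℝ, t ∈ Set.Ioo (0 : ℝ) 1 →
        (ν.map (eM m)) K ^ t * (ν.map (eM m)) L ^ (1 - t) ≤
          (ν.map (eM m)) (t • K + (1 - t) • L) := by
  intro K L hK hL t ht
  rw [MeasurableEquiv.map_apply, MeasurableEquiv.map_apply, MeasurableEquiv.map_apply]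
  have hpre : ∀ K : Set (Fin m → ℝ), IsCompact K → IsCompact (eM m ⁻¹' K) := by
    intro K hK
    exact ((eL m).toHomeomorph.isCompact_preimage).2 hK
  refine (h _ _ (hpre K hK) (hpre L hL) t ht).trans (measure_mono ?_)
  intro x hx
  rw [Set.mem_add] at hx
  obtain ⟨a, ha, b, hb, rfl⟩ := hx
  rw [Set.mem_smul_set] at ha hb
  obtain ⟨a', ha', rfl⟩ := ha
  obtain ⟨b', hb', rfl⟩ := hb
  show eL m (t • a' + (1 - t) • b') ∈ t • K + (1 - t) • L
  rw [map_add, map_smul, map_smul]
  exact Set.add_mem_add (Set.smul_mem_smul_set ha') (Set.smul_mem_smul_set hb')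

theorem flip_cont {m : ℕ} (i : Fin m) : Continuous (flipAt i) := by
  have h1 : Continuous (fun x : EuclideanSpace ℝ (Fin m) =>
      (fun j => if j = i then -x j else x j : Fin m → ℝ)) := by
    refine continuous_pi fun j => ?_
    by_cases h : j = i
    · simp only [h, if_true]; fun_prop
    · simp only [h, if_false]; fun_prop
  exact ((eL m).symm.continuous).comp h1

theorem transfer_E {m : ℕ} (ν : Measure (EuclideanSpace ℝ (Fin m)))
    (h : ∀ i : Fin m, ν.map (flipAt i) = ν) (i : Fin m) :
    (ν.map (eM m)).map (fun x => Function.update x i (-x i)) = ν.map (eM m) := by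
  have hm : Measurable (fun x : Fin m → ℝ => Function.update x i (-x i)) := by
    refine measurable_pi_lambda _ fun j => ?_
    by_cases hj : j = i
    · subst hj
      simp only [Function.update_self]
      exact (measurable_pi_apply j).neg
    · simp only [Function.update_of_ne hj]
      exact measurable_pi_apply j
  rw [Measure.map_map hm (eM m).measurable]
  have h1 : (fun x : Fin m → ℝ => Function.update x i (-x i)) ∘ (eM m) =
      (eM m) ∘ (flipAt i) := by
    funext x
    funext j
    show Function.update (eL m x) i (-(eL m x) i) j = flipAt i x j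
    by_cases hj : j = i
    · subst hj
      simp [flipAt, eL_apply]
    · simp [flipAt, hj, eL_apply]
  rw [h1, ← Measure.map_map (eM m).measurable (flip_cont i).measurable, h i]

theorem inner_T {m n : ℕ} (T : EuclideanSpace ℝ (Fin m) →ₗ[ℝ] EuclideanSpace ℝ (Fin n))
    (v w : EuclideanSpace ℝ (Fin n)) (y : EuclideanSpace ℝ (Fin m)) :
    @inner ℝ _ _ (v - w) (T y) = ∑ i, (eL m (LinearMap.adjoint T v) i -
      eL m (LinearMap.adjoint T w) i) * eL m y i := by
  rw [← LinearMap.adjoint_inner_left, map_sub, PiLp.inner_apply]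
  refine Finset.sum_congr rfl fun i _ => ?_
  simp only [eL_apply, PiLp.sub_apply]
  simp [mul_comm]

theorem final3 :
    ∃ c : ℝ, 0 < c ∧
      ∀ (m : ℕ) (ν : Measure (EuclideanSpace ℝ (Fin m))), IsProbabilityMeasure ν → LogConc ν →
        (∀ i : Fin m, ν.map (flipAt i) = ν) →
        ∀ (n : ℕ) (T : EuclideanSpace ℝ (Fin m) →ₗ[ℝ] EuclideanSpace ℝ (Fin n)),
        ∀ p : ℝ, 1 ≤ p →
          ∀ V : Finset (EuclideanSpace ℝ (Fin n)), ∀ hV : V.Nonempty,
            Real.exp p ≤ (V.card : ℝ) →
            ∀ A : ℝ,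
              (∀ v ∈ V, ∀ w ∈ V, v ≠ w →
                A ≤ (∫ x, |@inner ℝ _ _ (v - w) x| ^ p ∂(ν.map T)) ^ (1 / p)) →
              c * A ≤
                ∫ x, V.sup' hV (fun v => V.sup' hV (fun w => @inner ℝ _ _ (v - w) x)) ∂(ν.map T) := by
  obtain ⟨c, hc, H⟩ := main_meas3
  refine ⟨c, hc, ?_⟩
  intro m ν hν hLC hflip n T p hp V hV hcard A hA
  have hp0 : 0 < p := by linarith
  rcases le_or_gt A 0 with hA0 | hA0
  · have h1 : c * A ≤ 0 :=
      mul_nonpos_of_nonneg_of_nonpos hc.le hA0
    refine h1.trans (integral_nonneg fun x => ?_)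
    obtain ⟨v, hv⟩ := id hV
    have h2 : (0 : ℝ) = @inner ℝ _ _ (v - v) x := by simp
    show (0 : ℝ) ≤ V.sup' hV (fun v => V.sup' hV (fun w => @inner ℝ _ _ (v - w) x))
    calc (0 : ℝ) = @inner ℝ _ _ (v - v) x := h2
      _ ≤ V.sup' hV (fun w => @inner ℝ _ _ (v - w) x) :=
          Finset.le_sup' (fun w => @inner ℝ _ _ (v - w) x) hv
      _ ≤ _ := Finset.le_sup' (fun v => V.sup' hV (fun w => @inner ℝ _ _ (v - w) x)) hv
  have hTc : Continuous T := T.continuous_of_finiteDimensional
  -- the image of `V`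
  obtain ⟨F, hF⟩ : ∃ F : EuclideanSpace ℝ (Fin n) → (Fin m → ℝ),
    F = fun v => eL m (LinearMap.adjoint T v) := ⟨_, rfl⟩
  have hin : ∀ v w y, @inner ℝ _ _ (v - w) (T y) = ∑ i, (F v i - F w i) * eL m y i := by
    intro v w y
    rw [hF]; exact inner_T T v w y
  have hint : ∀ v w, ∫ x, |@inner ℝ _ _ (v - w) x| ^ p ∂(ν.map T) =
      ∫ y, |∑ i, (F v i - F w i) * eL m y i| ^ p ∂ν := by
    intro v w
    rw [integral_map hTc.measurable.aemeasurable]
    · simp only [hin]
    · have h1 : Continuous (fun x : EuclideanSpace ℝ (Fin n) => |@inner ℝ _ _ (v - w) x| ^ p) := by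
        refine Continuous.rpow_const ?_ fun x => Or.inr hp0.le
        exact (continuous_const.inner continuous_id).abs
      exact h1.aestronglyMeasurable
  have hpos : ∀ v ∈ V, ∀ w ∈ V, v ≠ w → A ^ p ≤ ∫ y, |∑ i, (F v i - F w i) * eL m y i| ^ p ∂ν := by
    intro v hv w hw hvw
    have h1 := hA v hv w hw hvw
    rw [hint] at h1
    have h2 : 0 ≤ ∫ y, |∑ i, (F v i - F w i) * eL m y i| ^ p ∂ν :=
      integral_nonneg fun y => Real.rpow_nonneg (abs_nonneg _) _
    calc A ^ p ≤ ((∫ y, |∑ i, (F v i - F w i) * eL m y i| ^ p ∂ν) ^ (1 / p)) ^ p :=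
          Real.rpow_le_rpow hA0.le h1 hp0.le
      _ = _ := by
          rw [← Real.rpow_mul h2, one_div, inv_mul_cancel₀ hp0.ne', Real.rpow_one]
  have hAp : 0 < A ^ p := Real.rpow_pos_of_pos hA0 _
  have hinj : Set.InjOn F V := by
    intro v hv w hw hvw
    by_contra hne
    have h1 := hpos v hv w hw hne
    rw [hvw] at h1
    simp only [sub_self, zero_mul, Finset.sum_const_zero, abs_zero, Real.zero_rpow hp0.ne',
      integral_zero] at h1
    linarith
  classical
  have hprob : IsProbabilityMeasure (ν.map (eM m)) :=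
    Measure.isProbabilityMeasure_map (eM m).measurable.aemeasurable
  have hB := transfer_B ν hLC
  have h3 := H m (ν.map (eM m)) hprob hB (transfer_E ν hflip)
    (fun i => borell_moment (ν.map (eM m)) hB i) p hp (V.image F) (hV.image F)
    (by rw [Finset.card_image_of_injOn hinj]; exact hcard) A hA0 (by
      intro v' hv' w' hw' hne
      obtain ⟨v, hv, rfl⟩ := Finset.mem_image.1 hv'
      obtain ⟨w, hw, rfl⟩ := Finset.mem_image.1 hw'
      have hvw : v ≠ w := fun h => hne (by rw [h])
      have h4 := hpos v hv w hw hvw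
      rw [lintegral_map_equiv]
      refine (ENNReal.ofReal_le_ofReal h4).trans ?_
      rw [integral_eq_lintegral_of_nonneg_ae (Filter.Eventually.of_forall fun y =>
        Real.rpow_nonneg (abs_nonneg _) _)]
      · exact ENNReal.ofReal_toReal_le
      · have h5 : Continuous (fun y : EuclideanSpace ℝ (Fin m) =>
            |∑ i, (F v i - F w i) * eL m y i| ^ p) := by
          refine Continuous.rpow_const ?_ fun x => Or.inr hp0.le
          refine (continuous_finsetSum _ fun i _ => continuous_const.mul ?_).abs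
          exact (continuous_apply i).comp (eL m).continuous
        exact h5.aestronglyMeasurable)
  refine h3.trans (le_of_eq ?_)
  rw [integral_map_equiv, integral_map hTc.measurable.aemeasurable]
  · refine integral_congr_ae (Filter.Eventually.of_forall fun y => ?_)
    show NV (V.image F) (hV.image F) (eL m y) =
      V.sup' hV (fun v => V.sup' hV (fun w => @inner ℝ _ _ (v - w) (T y)))
    simp only [hin]
    unfold NV
    rw [Finset.sup'_image]
    refine Finset.sup'_congr hV rfl fun v _ => ?_
    simp only [Function.comp_apply]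
    rw [Finset.sup'_image]
    rfl
  · have h6 : Continuous (fun x : EuclideanSpace ℝ (Fin n) =>
        V.sup' hV (fun v => V.sup' hV (fun w => @inner ℝ _ _ (v - w) x))) := by
      refine Continuous.finset_sup'_apply hV fun v _ => ?_
      refine Continuous.finset_sup'_apply hV fun w _ => ?_
      exact continuous_const.inner continuous_id
    exact h6.aestronglyMeasurable

end Pool.Agent.Helper711SMP.P23

namespace Pool.Agent.Helper711SMP

alias final3 := Pool.Agent.Helper711SMP.P23.final3

end Pool.Agent.Helper711SMP
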