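import Mathlib
import Pool.Agent.Helper711_SMP.Basic
import Pool.Agent.Helper711_SMP.PLx
import Pool.Agent.Helper711_SMP.Sign
import Pool.Agent.Helper711_SMP.B
import Pool.Agent.Helper711_SMP.Clip

/-!
# Tail sets
-/

set_option autoImplicit false

namespace Pool.Agent.Helper711SMP.X1

open MeasureTheory
open scoped ENNReal

variable {n : ℕ} {f : (Fin n → ℝ) → ℝ≥0∞}

/-- the translated closed orthant -/
def OrT {n : ℕ} (t : Fin n → ℝ) : Set (Fin n → ℝ) := {x | ∀ i, t i ≤ x i}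

lemma OrT_meas (t : Fin n → ℝ) : MeasurableSet (OrT t) := by
  have h : OrT t = ⋂ i, {x : Fin n → ℝ | t i ≤ x i} := by
    ext x; simp [OrT]
  rw [h]
  exact MeasurableSet.iInter fun i => measurableSet_le measurable_const (measurable_pi_apply i)

lemma abs_meas (t : Fin n → ℝ) : MeasurableSet {x : Fin n → ℝ | ∀ i, t i ≤ |x i|} := by
  have h : {x : Fin n → ℝ | ∀ i, t i ≤ |x i|} = ⋂ i, {x : Fin n → ℝ | t i ≤ |x i|} := by
    ext x; simp
  rw [h]
  exact MeasurableSet.iInter fun i => measurableSet_le measurable_const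
    ((measurable_pi_apply i).abs)

lemma u_eq (hf : UD f) (t : Fin n → ℝ) (ht : ∀ i, 0 ≤ t i) :
    ∫⁻ x in {x : Fin n → ℝ | ∀ i, t i ≤ |x i|}, f x = 2 ^ n * ∫⁻ x, (OrT t).indicator f x := by
  have hA := abs_meas t
  rw [← lintegral_indicator hA]
  have hev : ∀ (i : Fin n) (x : Fin n → ℝ),
      ({x : Fin n → ℝ | ∀ i, t i ≤ |x i|}.indicator f) (Function.update x i (-x i)) =
        ({x : Fin n → ℝ | ∀ i, t i ≤ |x i|}.indicator f) x := by
    intro i x
    have hiff : (Function.update x i (-x i) ∈ {x : Fin n → ℝ | ∀ i, t i ≤ |x i|}) ↔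
        (x ∈ {x : Fin n → ℝ | ∀ i, t i ≤ |x i|}) := by
      simp only [Set.mem_ofPred_eq]
      refine forall_congr' fun j => ?_
      by_cases hj : j = i
      · subst hj; simp
      · simp [Function.update_of_ne hj]
    by_cases hx : x ∈ {x : Fin n → ℝ | ∀ i, t i ≤ |x i|}
    · rw [Set.indicator_of_mem hx, Set.indicator_of_mem (hiff.2 hx), hf.even]
    · rw [Set.indicator_of_notMem hx, Set.indicator_of_notMem (fun h => hx (hiff.1 h))]
  rw [lintegral_even _ (hf.meas.indicator hA) hev]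
  congr 1
  have hO : MeasurableSet {x : Fin n → ℝ | ∀ i, 0 ≤ x i} := OrT_meas (fun _ => 0)
  rw [← lintegral_indicator hO]
  refine lintegral_congr fun x => ?_
  by_cases hx : x ∈ OrT t
  · have h0 : x ∈ {x : Fin n → ℝ | ∀ i, 0 ≤ x i} := fun i => (ht i).trans (hx i)
    have h1 : x ∈ {x : Fin n → ℝ | ∀ i, t i ≤ |x i|} := fun i => (hx i).trans (le_abs_self _)
    rw [Set.indicator_of_mem hx, Set.indicator_of_mem h0, Set.indicator_of_mem h1]
  · rw [Set.indicator_of_notMem hx]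
    by_cases h0 : x ∈ {x : Fin n → ℝ | ∀ i, 0 ≤ x i}
    · have h1 : x ∉ {x : Fin n → ℝ | ∀ i, t i ≤ |x i|} := by
        intro h1
        apply hx
        intro i
        have := h1 i
        rwa [abs_of_nonneg (h0 i)] at this
      rw [Set.indicator_of_mem h0, Set.indicator_of_notMem h1]
    · rw [Set.indicator_of_notMem h0]

lemma u_conv (hf : UD f) (t t' : Fin n → ℝ) (a : ℝ) (ha : 0 < a) (ha1 : a < 1) :
    (∫⁻ x, (OrT t).indicator f x) ^ a * (∫⁻ x, (OrT t').indicator f x) ^ (1 - a) ≤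
      ∫⁻ x, (OrT (a • t + (1 - a) • t')).indicator f x := by
  refine pl n a ha ha1 _ _ _ (hf.meas.indicator (OrT_meas _)) (hf.meas.indicator (OrT_meas _))
    (hf.meas.indicator (OrT_meas _)) ?_
  intro x y
  by_cases hx : x ∈ OrT t
  · by_cases hy : y ∈ OrT t'
    · have hz : a • x + (1 - a) • y ∈ OrT (a • t + (1 - a) • t') := by
        intro i
        simp only [Pi.add_apply, Pi.smul_apply, smul_eq_mul]
        have h1 := mul_le_mul_of_nonneg_left (hx i) ha.le
        have h2 := mul_le_mul_of_nonneg_left (hy i) (sub_nonneg.2 ha1.le)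
        linarith
      rw [Set.indicator_of_mem hx, Set.indicator_of_mem hy, Set.indicator_of_mem hz]
      exact hf.logc a ha ha1 x y
    · rw [Set.indicator_of_notMem hy, ENNReal.zero_rpow_of_pos (sub_pos.2 ha1), mul_zero]
      exact zero_le
  · rw [Set.indicator_of_notMem hx, ENNReal.zero_rpow_of_pos ha, zero_mul]
    exact zero_le

lemma rpow_split (E : ℝ≥0∞) (h0 : E ≠ 0) (h1 : E ≠ ⊤) (a : ℝ) : E ^ a * E ^ (1 - a) = E := by
  rw [← ENNReal.rpow_add a (1 - a) h0 h1]
  simp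

theorem TS_facts (hf : UD f) (hm : ∀ i, ∫⁻ x, ENNReal.ofReal |x i| * f x ≤ 1) (q : ℝ) :
    Convex ℝ (TS f q) ∧
    (∀ t ∈ TS f q, ∀ t' : Fin n → ℝ, (∀ i, 0 ≤ t' i ∧ t' i ≤ t i) → t' ∈ TS f q) ∧
    (∀ t ∈ TS f q, ∑ i, t i ≤ 40 * q) := by
  refine ⟨?_, ?_, ?_⟩
  · intro t ht t' ht' a b ha hb hab
    rcases ha.eq_or_lt with ha0 | ha0
    · have hb1 : b = 1 := by linarith
      subst hb1
      rw [← ha0]
      simpa using ht'
    rcases hb.eq_or_lt with hb0 | hb0
    · have ha1 : a = 1 := by linarith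
      subst ha1
      rw [← hb0]
      simpa using ht
    have ha1 : a < 1 := by linarith
    have hb' : b = 1 - a := by linarith
    subst hb'
    have hs0 : ∀ i, 0 ≤ (a • t + (1 - a) • t') i := by
      intro i
      simp only [Pi.add_apply, Pi.smul_apply, smul_eq_mul]
      have := mul_nonneg ha (ht.1 i)
      have := mul_nonneg hb (ht'.1 i)
      linarith
    refine ⟨hs0, ?_⟩
    rw [u_eq hf _ hs0]
    have h1 := ht.2
    have h2 := ht'.2
    rw [u_eq hf _ ht.1] at h1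
    rw [u_eq hf _ ht'.1] at h2
    set E := ENNReal.ofReal (Real.exp (-q)) with hE
    have hE0 : E ≠ 0 := by
      rw [hE]
      exact (ENNReal.ofReal_pos.2 (Real.exp_pos _)).ne'
    have hEt : E ≠ ⊤ := ENNReal.ofReal_ne_top
    have h20 : (2 : ℝ≥0∞) ^ n ≠ 0 := pow_ne_zero _ (by norm_num)
    have h2t : (2 : ℝ≥0∞) ^ n ≠ ⊤ := ENNReal.pow_ne_top (by norm_num)
    calc E = E ^ a * E ^ (1 - a) := (rpow_split E hE0 hEt a).symm
      _ ≤ (2 ^ n * ∫⁻ x, (OrT t).indicator f x) ^ a *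
          (2 ^ n * ∫⁻ x, (OrT t').indicator f x) ^ (1 - a) :=
        mul_le_mul' (ENNReal.rpow_le_rpow h1 ha) (ENNReal.rpow_le_rpow h2 hb)
      _ = ((2 ^ n) ^ a * (2 ^ n) ^ (1 - a)) * ((∫⁻ x, (OrT t).indicator f x) ^ a *
          (∫⁻ x, (OrT t').indicator f x) ^ (1 - a)) := by
        rw [ENNReal.mul_rpow_of_nonneg _ _ ha, ENNReal.mul_rpow_of_nonneg _ _ hb]
        ring
      _ = 2 ^ n * ((∫⁻ x, (OrT t).indicator f x) ^ a *
          (∫⁻ x, (OrT t').indicator f x) ^ (1 - a)) := by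
        rw [rpow_split _ h20 h2t]
      _ ≤ _ := mul_le_mul_right (u_conv hf t t' a ha0 ha1) _
  · intro t ht t' h
    refine ⟨fun i => (h i).1, ht.2.trans ?_⟩
    exact lintegral_mono_set fun x hx i => (h i).2.trans (hx i)
  · intro t ht
    have h := ht.2.trans (tail_bound hf hm t ht.1)
    rw [ENNReal.ofReal_le_ofReal_iff (Real.exp_pos _).le, Real.exp_le_exp] at h
    linarith

end Pool.Agent.Helper711SMP.X1

namespace Pool.Agent.Helper711SMP

alias TS_facts := Pool.Agent.Helper711SMP.X1.TS_facts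

end Pool.Agent.Helper711SMP
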