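import Mathlib
import Pool.Agent.Helper711_SMP.Basic
import Pool.Agent.Helper711_SMP.Sign
import Pool.Agent.Helper711_SMP.D1
import Pool.Agent.Helper711_SMP.Clip

/-!
# Boxes
-/

set_option autoImplicit false

namespace Pool.Agent.Helper711SMP.X2

open MeasureTheory
open scoped ENNReal

variable {n : ℕ} {f : (Fin n → ℝ) → ℝ≥0∞}

/-- the box, shifted by `c` -/
def BoxA {n : ℕ} (I : Finset (Fin n)) (t : Fin n → ℝ) : Set (Fin n → ℝ) :=
  {x | ∀ i ∈ I, t i ≤ |x i| ∧ |x i| < t i + 1 / 2}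

lemma BoxA_meas (I : Finset (Fin n)) (t : Fin n → ℝ) : MeasurableSet (BoxA I t) := by
  have h : BoxA I t = ⋂ i ∈ I, {x : Fin n → ℝ | t i ≤ |x i|} ∩ {x : Fin n → ℝ | |x i| < t i + 1 / 2} := by
    ext x; simp [BoxA]
  rw [h]
  exact Finset.measurableSet_biInter _ fun i _ =>
    (measurableSet_le measurable_const ((measurable_pi_apply i).abs)).inter
      (measurableSet_lt ((measurable_pi_apply i).abs) measurable_const)

lemma Orth_meas : MeasurableSet {x : Fin n → ℝ | ∀ i, 0 ≤ x i} := by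
  have h : {x : Fin n → ℝ | ∀ i, 0 ≤ x i} = ⋂ i, {x : Fin n → ℝ | 0 ≤ x i} := by
    ext x; simp
  rw [h]
  exact MeasurableSet.iInter fun i => measurableSet_le measurable_const (measurable_pi_apply i)

lemma BoxA_eq (hf : UD f) (I : Finset (Fin n)) (t : Fin n → ℝ) :
    ∫⁻ x in BoxA I t, f x = 2 ^ n * ∫⁻ x, (BoxA I t ∩ {x : Fin n → ℝ | ∀ i, 0 ≤ x i}).indicator f x := by
  have hA := BoxA_meas I t
  rw [← lintegral_indicator hA]
  have hev : ∀ (i : Fin n) (x : Fin n → ℝ),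
      ((BoxA I t).indicator f) (Function.update x i (-x i)) = ((BoxA I t).indicator f) x := by
    intro i x
    have hiff : (Function.update x i (-x i) ∈ BoxA I t) ↔ (x ∈ BoxA I t) := by
      refine forall_congr' fun j => ?_
      by_cases hj : j = i
      · subst hj; simp
      · simp [Function.update_of_ne hj]
    by_cases hx : x ∈ BoxA I t
    · rw [Set.indicator_of_mem hx, Set.indicator_of_mem (hiff.2 hx), hf.even]
    · rw [Set.indicator_of_notMem hx, Set.indicator_of_notMem (fun h => hx (hiff.1 h))]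
  rw [lintegral_even _ (hf.meas.indicator hA) hev]
  congr 1
  rw [← lintegral_indicator Orth_meas, Set.indicator_indicator, Set.inter_comm]

lemma BoxA_mono (hf : UD f) (I : Finset (Fin n)) (t : Fin n → ℝ) (ht : ∀ i, 0 ≤ t i)
    (c : Fin n → ℝ) (hc : ∀ i, 0 ≤ c i) (hc0 : ∀ i, i ∉ I → c i = 0) :
    ∫⁻ x in BoxA I (t + c), f x ≤ ∫⁻ x in BoxA I t, f x := by
  rw [BoxA_eq hf, BoxA_eq hf]
  gcongr 2 ^ n * ?_
  rw [← lintegral_sub_right_eq_self (fun x =>
    (BoxA I t ∩ {x : Fin n → ℝ | ∀ i, 0 ≤ x i}).indicator f x) c]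
  refine lintegral_mono fun y => ?_
  by_cases hy : y ∈ BoxA I (t + c) ∩ {x : Fin n → ℝ | ∀ i, 0 ≤ x i}
  · have h0 : ∀ i, 0 ≤ (y - c) i := by
      intro i
      by_cases hi : i ∈ I
      · have h1 := (hy.1 i hi).1
        rw [abs_of_nonneg (hy.2 i)] at h1
        simp only [Pi.add_apply, Pi.sub_apply] at *
        have := ht i
        linarith
      · simp only [Pi.sub_apply, hc0 i hi, sub_zero]
        exact hy.2 i
    have hx : y - c ∈ BoxA I t ∩ {x : Fin n → ℝ | ∀ i, 0 ≤ x i} := by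
      refine ⟨fun i hi => ?_, h0⟩
      have h1 := hy.1 i hi
      rw [abs_of_nonneg (hy.2 i)] at h1
      rw [abs_of_nonneg (h0 i)]
      simp only [Pi.add_apply, Pi.sub_apply] at *
      constructor
      · linarith [h1.1]
      · linarith [h1.2]
    simp only []
    rw [Set.indicator_of_mem hy, Set.indicator_of_mem hx]
    refine hf.anti fun i => ?_
    rw [abs_of_nonneg (h0 i), abs_of_nonneg (hy.2 i)]
    simp only [Pi.sub_apply]
    linarith [hc i]
  · rw [Set.indicator_of_notMem hy]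
    exact zero_le

/-- the index set of the boxes -/
def KK {n : ℕ} (I : Finset (Fin n)) (N : ℕ) : Finset (Fin n → ℕ) :=
  (Fintype.piFinset (fun i : Fin n => if i ∈ I then Finset.range (N + 1) else {0})).filter
    (fun k => ∑ i, k i ≤ N)

lemma geom_le_two (N : ℕ) : ∑ j ∈ Finset.range (N + 1), ((1 : ℝ) / 2) ^ j ≤ 2 := by
  have := geom_sum_eq (by norm_num : ((1 : ℝ) / 2) ≠ 1) (N + 1)
  rw [this]
  have h : (0 : ℝ) ≤ (1 / 2) ^ (N + 1) := by positivity
  rw [div_le_iff_of_neg (by norm_num)]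
  linarith

lemma KK_card (I : Finset (Fin n)) (N : ℕ) : ((KK I N).card : ℝ) ≤ 2 ^ (N + I.card) := by
  have h1 : ((KK I N).card : ℝ) ≤ ∑ k ∈ KK I N, (2 : ℝ) ^ N * ∏ i, ((1 : ℝ) / 2) ^ (k i) := by
    rw [Finset.card_eq_sum_ones, Nat.cast_sum]
    refine Finset.sum_le_sum fun k hk => ?_
    have hk2 : ∑ i, k i ≤ N := (Finset.mem_filter.1 hk).2
    rw [Finset.prod_pow_eq_pow_sum]
    calc ((1 : ℕ) : ℝ) = 1 := by simp
      _ = 2 ^ (∑ i, k i) * (1 / 2) ^ (∑ i, k i) := by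
        rw [← mul_pow]; norm_num
      _ ≤ 2 ^ N * (1 / 2) ^ (∑ i, k i) := by
        gcongr
        · norm_num
  have h2 : ∑ k ∈ KK I N, (2 : ℝ) ^ N * ∏ i, ((1 : ℝ) / 2) ^ (k i) ≤
      ∑ k ∈ Fintype.piFinset (fun i : Fin n => if i ∈ I then Finset.range (N + 1) else {0}),
        (2 : ℝ) ^ N * ∏ i, ((1 : ℝ) / 2) ^ (k i) := by
    refine Finset.sum_le_sum_of_subset_of_nonneg (Finset.filter_subset _ _) ?_
    intro k _ _
    positivity
  have h3 : ∑ k ∈ Fintype.piFinset (fun i : Fin n => if i ∈ I then Finset.range (N + 1) else {0}),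
        (2 : ℝ) ^ N * ∏ i, ((1 : ℝ) / 2) ^ (k i) =
      2 ^ N * ∏ i, ∑ j ∈ (if i ∈ I then Finset.range (N + 1) else {0}), ((1 : ℝ) / 2) ^ j := by
    rw [← Finset.mul_sum, Finset.prod_univ_sum]
  have h4 : ∏ i : Fin n, ∑ j ∈ (if i ∈ I then Finset.range (N + 1) else {0}), ((1 : ℝ) / 2) ^ j ≤
      ∏ i : Fin n, (if i ∈ I then (2 : ℝ) else 1) := by
    refine Finset.prod_le_prod (fun i _ => Finset.sum_nonneg fun j _ => by positivity) ?_
    intro i _
    split_ifs with hi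
    · exact geom_le_two N
    · simp
  have h5 : ∏ i : Fin n, (if i ∈ I then (2 : ℝ) else 1) = 2 ^ I.card := by
    rw [Finset.prod_ite_mem]
    simp
  calc ((KK I N).card : ℝ) ≤ 2 ^ N * ∏ i : Fin n, ∑ j ∈
        (if i ∈ I then Finset.range (N + 1) else {0}), ((1 : ℝ) / 2) ^ j := by
        rw [← h3]; exact h1.trans h2
    _ ≤ 2 ^ N * 2 ^ I.card := by
      rw [← h5]
      gcongr
    _ = 2 ^ (N + I.card) := (pow_add _ _ _).symm

lemma cover (I : Finset (Fin n)) (t : Fin n → ℝ) (ht : ∀ i, 0 ≤ t i) (q : ℝ) (x : Fin n → ℝ)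
    (hx : ∀ i ∈ I, t i ≤ |x i|) (hs : ∑ i ∈ I, |x i| ≤ 240 * q) :
    ∃ k ∈ KK I ⌊480 * q⌋₊, x ∈ BoxA I (t + fun i => (k i : ℝ) / 2) := by
  classical
  set k : Fin n → ℕ := fun i => if i ∈ I then ⌊2 * (|x i| - t i)⌋₊ else 0 with hk
  have hki : ∀ i ∈ I, (k i : ℝ) ≤ 2 * (|x i| - t i) ∧ 2 * (|x i| - t i) < k i + 1 := by
    intro i hi
    have h0 : 0 ≤ 2 * (|x i| - t i) := by linarith [hx i hi]
    simp only [hk, if_pos hi]
    exact ⟨Nat.floor_le h0, Nat.lt_floor_add_one _⟩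
  have hsum : ∑ i, k i ≤ ⌊480 * q⌋₊ := by
    apply Nat.le_floor
    push_cast
    have e : ∑ i, (k i : ℝ) = ∑ i ∈ I, (k i : ℝ) := by
      symm
      apply Finset.sum_subset (Finset.subset_univ _)
      intro i _ hi
      simp [hk, hi]
    rw [e]
    calc ∑ i ∈ I, (k i : ℝ) ≤ ∑ i ∈ I, 2 * |x i| := by
          refine Finset.sum_le_sum fun i hi => ?_
          linarith [(hki i hi).1, ht i]
      _ = 2 * ∑ i ∈ I, |x i| := by rw [Finset.mul_sum]
      _ ≤ 480 * q := by linarith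
  refine ⟨k, ?_, ?_⟩
  · rw [KK, Finset.mem_filter, Fintype.mem_piFinset]
    refine ⟨fun i => ?_, hsum⟩
    by_cases hi : i ∈ I
    · rw [if_pos hi, Finset.mem_range]
      have : k i ≤ ∑ i, k i := Finset.single_le_sum (fun _ _ => Nat.zero_le _) (Finset.mem_univ i)
      omega
    · rw [if_neg hi]
      simp [hk, hi]
  · intro i hi
    have := hki i hi
    simp only [Pi.add_apply]
    constructor
    · linarith [this.1]
    · linarith [this.2]

lemma markov (hf : UD f) (hm : ∀ i, ∫⁻ x, ENNReal.ofReal |x i| * f x ≤ 1)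
    (I : Finset (Fin n)) (q : ℝ) (hq : 1 ≤ q) (hI : (I.card : ℝ) ≤ q) :
    ∫⁻ x in {x : Fin n → ℝ | 240 * q < ∑ i ∈ I, |x i|}, f x ≤
      ENNReal.ofReal (Real.exp (-q) / 2) := by
  have hS : MeasurableSet {x : Fin n → ℝ | 240 * q < ∑ i ∈ I, |x i|} := by
    apply measurableSet_lt measurable_const
    exact Finset.measurable_sum _ fun i _ => (measurable_pi_apply i).abs
  have h1 : ENNReal.ofReal (Real.exp (3 * q)) *
      ∫⁻ x in {x : Fin n → ℝ | 240 * q < ∑ i ∈ I, |x i|}, f x ≤ 3 ^ I.card := by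
    rw [← lintegral_const_mul _ hf.meas]
    calc ∫⁻ x in {x : Fin n → ℝ | 240 * q < ∑ i ∈ I, |x i|}, ENNReal.ofReal (Real.exp (3 * q)) * f x
        ≤ ∫⁻ x in {x : Fin n → ℝ | 240 * q < ∑ i ∈ I, |x i|},
          ENNReal.ofReal (Real.exp ((∑ i ∈ I, |x i|) / 80)) * f x := by
          refine setLIntegral_mono' hS fun x hx => ?_
          have hx' : 240 * q < ∑ i ∈ I, |x i| := hx
          gcongr
          linarith
      _ ≤ ∫⁻ x, ENNReal.ofReal (Real.exp ((∑ i ∈ I, |x i|) / 80)) * f x :=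
          setLIntegral_le_lintegral _ _
      _ ≤ _ := (cosh_exp_moment hf hm).2 I
  have h3 : (3 : ℝ≥0∞) ^ I.card ≤ ENNReal.ofReal (Real.exp (3 * q)) *
      ENNReal.ofReal (Real.exp (-q) / 2) := by
    rw [← ENNReal.ofReal_mul (Real.exp_pos _).le]
    have e3 : (3 : ℝ≥0∞) = ENNReal.ofReal 3 := by norm_num
    rw [e3, ← ENNReal.ofReal_pow (by norm_num)]
    apply ENNReal.ofReal_le_ofReal
    have ha : (3 : ℝ) ≤ Real.exp (11 / 10) := by
      have h1 := Real.exp_one_gt_d9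
      have h2 := Real.quadratic_le_exp_of_nonneg (by norm_num : (0 : ℝ) ≤ 1 / 10)
      have : Real.exp (11 / 10) = Real.exp 1 * Real.exp (1 / 10) := by
        rw [← Real.exp_add]; norm_num
      rw [this]
      nlinarith
    have hb : (2 : ℝ) ≤ Real.exp (9 / 10 * q) := by
      have h2 := Real.quadratic_le_exp_of_nonneg (by norm_num : (0 : ℝ) ≤ 9 / 10)
      have h3 : Real.exp (9 / 10) ≤ Real.exp (9 / 10 * q) := Real.exp_le_exp.2 (by linarith)
      linarith
    calc (3 : ℝ) ^ I.card ≤ Real.exp (11 / 10) ^ I.card := by gcongr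
      _ = Real.exp (I.card * (11 / 10)) := (Real.exp_nat_mul _ _).symm
      _ ≤ Real.exp (11 / 10 * q) := Real.exp_le_exp.2 (by linarith)
      _ ≤ Real.exp (11 / 10 * q) * (Real.exp (9 / 10 * q) / 2) := by
        have := Real.exp_pos (11 / 10 * q)
        nlinarith
      _ = Real.exp (3 * q) * (Real.exp (-q) / 2) := by
        rw [← mul_div_assoc, ← mul_div_assoc, ← Real.exp_add, ← Real.exp_add]
        ring_nf
  have hE0 : ENNReal.ofReal (Real.exp (3 * q)) ≠ 0 := (ENNReal.ofReal_pos.2 (Real.exp_pos _)).ne'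
  exact (ENNReal.mul_le_mul_iff_right hE0 ENNReal.ofReal_ne_top).1 (h1.trans h3)

theorem box_at (hf : UD f) (hm : ∀ i, ∫⁻ x, ENNReal.ofReal |x i| * f x ≤ 1)
    (I : Finset (Fin n)) (t : Fin n → ℝ) (ht : ∀ i, 0 ≤ t i) (q : ℝ) (hq : 1 ≤ q)
    (hI : (I.card : ℝ) ≤ q)
    (hu : ENNReal.ofReal (Real.exp (-q)) ≤
      ∫⁻ x in {x : Fin n → ℝ | ∀ i ∈ I, t i ≤ |x i|}, f x) :
    ENNReal.ofReal (Real.exp (-(340 * q))) ≤
      ∫⁻ x in {x : Fin n → ℝ | ∀ i ∈ I, t i ≤ |x i| ∧ |x i| < t i + 1 / 2}, f x := by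
  change _ ≤ ∫⁻ x in BoxA I t, f x
  set N := ⌊480 * q⌋₊ with hN
  set E : Set (Fin n → ℝ) := {x | (∀ i ∈ I, t i ≤ |x i|) ∧ ∑ i ∈ I, |x i| ≤ 240 * q} with hE
  set M : Set (Fin n → ℝ) := {x | 240 * q < ∑ i ∈ I, |x i|} with hM
  have hsub : {x : Fin n → ℝ | ∀ i ∈ I, t i ≤ |x i|} ⊆ E ∪ M := by
    intro x hx
    by_cases h : ∑ i ∈ I, |x i| ≤ 240 * q
    · exact Or.inl ⟨hx, h⟩
    · exact Or.inr (not_le.1 h)
  have h1 : ENNReal.ofReal (Real.exp (-q)) ≤ (∫⁻ x in E, f x) + ∫⁻ x in M, f x :=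
    (hu.trans (lintegral_mono_set hsub)).trans (lintegral_union_le _ _ _)
  have h2 : ENNReal.ofReal (Real.exp (-q) / 2) ≤ ∫⁻ x in E, f x := by
    have h3 := h1.trans (add_le_add_right (markov hf hm I q hq hI) _)
    have e : ENNReal.ofReal (Real.exp (-q)) =
        ENNReal.ofReal (Real.exp (-q) / 2) + ENNReal.ofReal (Real.exp (-q) / 2) := by
      rw [← ENNReal.ofReal_add (by positivity) (by positivity)]
      congr 1; ring
    rw [e] at h3
    exact (ENNReal.add_le_add_iff_right ENNReal.ofReal_ne_top).1 h3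
  have h4 : ∫⁻ x in E, f x ≤ ∑ k ∈ KK I N, ∫⁻ x in BoxA I (t + fun i => (k i : ℝ) / 2), f x := by
    have hc : E ⊆ ⋃ k ∈ KK I N, BoxA I (t + fun i => (k i : ℝ) / 2) := by
      intro x hx
      obtain ⟨k, hk, hxk⟩ := cover I t ht q x hx.1 hx.2
      exact Set.mem_biUnion hk hxk
    refine (lintegral_mono_set hc).trans ?_
    calc ∫⁻ x in ⋃ k ∈ KK I N, BoxA I (t + fun i => (k i : ℝ) / 2), f x
        = (volume.withDensity f) (⋃ k ∈ KK I N, BoxA I (t + fun i => (k i : ℝ) / 2)) := by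
          rw [withDensity_apply _ (Finset.measurableSet_biUnion _ fun k _ => BoxA_meas _ _)]
      _ ≤ ∑ k ∈ KK I N, (volume.withDensity f) (BoxA I (t + fun i => (k i : ℝ) / 2)) :=
          measure_biUnion_finset_le _ _
      _ = _ := by
          refine Finset.sum_congr rfl fun k _ => ?_
          rw [withDensity_apply _ (BoxA_meas _ _)]
  have h5 : ∑ k ∈ KK I N, ∫⁻ x in BoxA I (t + fun i => (k i : ℝ) / 2), f x ≤
      (KK I N).card * ∫⁻ x in BoxA I t, f x := by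
    rw [← nsmul_eq_mul]
    refine Finset.sum_le_card_nsmul _ _ _ fun k hk => ?_
    refine BoxA_mono hf I t ht _ (fun i => by positivity) fun i hi => ?_
    rw [KK, Finset.mem_filter, Fintype.mem_piFinset] at hk
    have := hk.1 i
    rw [if_neg hi, Finset.mem_singleton] at this
    simp [this]
  have h6 : ((KK I N).card : ℝ≥0∞) ≤ ENNReal.ofReal ((2 : ℝ) ^ (481 * q)) := by
    rw [← ENNReal.ofReal_natCast]
    apply ENNReal.ofReal_le_ofReal
    refine (KK_card I N).trans ?_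
    rw [← Real.rpow_natCast]
    apply Real.rpow_le_rpow_of_exponent_le (by norm_num)
    push_cast
    have : (N : ℝ) ≤ 480 * q := Nat.floor_le (by linarith)
    linarith
  have hMpos : (0 : ℝ) < 2 ^ (481 * q) := Real.rpow_pos_of_pos (by norm_num) _
  have h7 : ENNReal.ofReal ((2 : ℝ) ^ (481 * q)) * ENNReal.ofReal (Real.exp (-(340 * q))) ≤
      ENNReal.ofReal (Real.exp (-q) / 2) := by
    rw [← ENNReal.ofReal_mul hMpos.le]
    apply ENNReal.ofReal_le_ofReal
    have hl := Real.log_two_lt_d9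
    rw [Real.rpow_def_of_pos (by norm_num), ← Real.exp_add]
    have e2 : Real.exp (-q) / 2 = Real.exp (-q - Real.log 2) := by
      rw [Real.exp_sub, Real.exp_log (by norm_num)]
    rw [e2]
    apply Real.exp_le_exp.2
    nlinarith
  have hM0 : ENNReal.ofReal ((2 : ℝ) ^ (481 * q)) ≠ 0 := (ENNReal.ofReal_pos.2 hMpos).ne'
  refine (ENNReal.mul_le_mul_iff_right hM0 ENNReal.ofReal_ne_top).1 ?_
  calc _ ≤ ENNReal.ofReal (Real.exp (-q) / 2) := h7
    _ ≤ _ := h2
    _ ≤ _ := h4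
    _ ≤ _ := h5
    _ ≤ _ := mul_le_mul_left h6 _

end Pool.Agent.Helper711SMP.X2

namespace Pool.Agent.Helper711SMP

alias box_at := Pool.Agent.Helper711SMP.X2.box_at

end Pool.Agent.Helper711SMP
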