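import Mathlib
import Pool.Agent.Helper711_SMP.Basic
import Pool.Agent.Helper711_SMP.Rad
import Pool.Agent.Helper711_SMP.I5
import Pool.Agent.Helper711_SMP.X2
import Pool.Agent.Helper711_SMP.Clip

/-!
# Shifts from tail sets
-/

set_option autoImplicit false

namespace Pool.Agent.Helper711SMP.X3

open MeasureTheory
open scoped ENNReal

variable {n : ℕ} {f : (Fin n → ℝ) → ℝ≥0∞}

theorem shift_TS (hf : UD f) (hm : ∀ i, ∫⁻ x, ENNReal.ofReal |x i| * f x = 1)
    (N : Seminorm ℝ (Fin n → ℝ)) (hN : Continuous N) (S : ℝ) (hS : 0 < S)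
    (hNS : ∫⁻ x, ENNReal.ofReal (N x) * f x ≤ ENNReal.ofReal S)
    (q : ℝ) (hq : 1 ≤ q) (t : Fin n → ℝ) (ht : t ∈ TS f q)
    (hcard : ((Finset.univ.filter (fun i => t i ≠ 0)).card : ℝ) ≤ q)
    (σ : Fin n → ℝ) (hσ : ∀ i, σ i = 1 ∨ σ i = -1) :
    ∃ ζ : Fin n → ℝ, (∀ i, 0 ≤ ζ i ∧ ζ i ≤ t i ∧ t i - 1 / 2 ≤ ζ i) ∧
      ENNReal.ofReal (Real.exp (-(1100 * q))) ≤
        ∫⁻ x in {x : Fin n → ℝ | N (fun i => x i - σ i * ζ i) ≤ 17 * S}, f x := by
  classical
  obtain ⟨ht0, htm⟩ := ht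
  set I : Finset (Fin n) := Finset.univ.filter (fun i => 1 / 2 ≤ t i) with hIdef
  have hmemI : ∀ i, i ∈ I ↔ 1 / 2 ≤ t i := by
    intro i
    simp [hIdef]
  have hIcard : (I.card : ℝ) ≤ q := by
    refine le_trans ?_ hcard
    have hsub : I ⊆ Finset.univ.filter (fun i => t i ≠ 0) := by
      intro i hi
      have h1 := (hmemI i).1 hi
      simp only [Finset.mem_filter, Finset.mem_univ, true_and]
      intro h0
      rw [h0] at h1
      norm_num at h1
    exact_mod_cast Finset.card_le_card hsub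
  have hu : ENNReal.ofReal (Real.exp (-q)) ≤
      ∫⁻ x in {x : Fin n → ℝ | ∀ i ∈ I, t i ≤ |x i|}, f x := by
    refine le_trans htm (lintegral_mono_set ?_)
    intro x hx i _
    exact hx i
  have hβ := box_at hf (fun i => (hm i).le) I t ht0 q hq hIcard hu
  have hmain := shift_prob hf hm N hN S hS hNS I t (fun i hi => (hmemI i).1 hi) σ hσ
    (ENNReal.ofReal (Real.exp (-(340 * q)))) hβ
  refine ⟨fun i => if i ∈ I then t i - 1 / 4 else 0, ?_, ?_⟩
  · intro i
    have h0 := ht0 i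
    by_cases hi : i ∈ I
    · have h1 := (hmemI i).1 hi
      simp only [hi, if_true]
      refine ⟨by linarith, by linarith, by linarith⟩
    · have h1 : ¬ (1 / 2 ≤ t i) := fun h => hi ((hmemI i).2 h)
      simp only [hi, if_false]
      push Not at h1
      refine ⟨le_refl _, h0, by linarith⟩
  · have hset : {x : Fin n → ℝ | N (fun i => x i - σ i * (if i ∈ I then t i - 1 / 4 else 0)) ≤ 17 * S}
        = {x : Fin n → ℝ | N (fun i => x i - if i ∈ I then σ i * (t i - 1 / 4) else 0) ≤ 17 * S} := by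
      have hfun : ∀ x : Fin n → ℝ, (fun i => x i - σ i * (if i ∈ I then t i - 1 / 4 else 0))
          = (fun i => x i - if i ∈ I then σ i * (t i - 1 / 4) else 0) := by
        intro x
        funext i
        by_cases hi : i ∈ I
        · simp [hi]
        · simp [hi]
      ext x
      simp only [Set.mem_setOf_eq]
      rw [hfun x]
    show ENNReal.ofReal (Real.exp (-(1100 * q))) ≤
        ∫⁻ x in {x : Fin n → ℝ | N (fun i => x i - σ i * (if i ∈ I then t i - 1 / 4 else 0)) ≤ 17 * S}, f x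
    rw [hset]
    refine le_trans ?_ hmain
    have hhalf : (1 / 2 : ℝ≥0∞) = ENNReal.ofReal (1 / 2) := by
      rw [ENNReal.ofReal_div_of_pos (by norm_num)]
      simp
    rw [hhalf, ← ENNReal.ofReal_pow (by norm_num), ← ENNReal.ofReal_pow (Real.exp_pos _).le,
      ← ENNReal.ofReal_mul (by positivity)]
    apply ENNReal.ofReal_le_ofReal
    have hlog : Real.exp (-(7 / 10 : ℝ)) ≤ 1 / 2 := by
      have h2 : Real.log 2 ≤ 7 / 10 := by
        have := Real.log_two_lt_d9
        linarith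
      have h3 : Real.exp (-(7 / 10 : ℝ)) ≤ Real.exp (-(Real.log 2)) := Real.exp_le_exp.2 (by linarith)
      rw [Real.exp_neg (Real.log 2), Real.exp_log (by norm_num)] at h3
      linarith
    have h4 : Real.exp (-(7 / 10 : ℝ)) ^ (19 * I.card + 4) ≤ (1 / 2 : ℝ) ^ (19 * I.card + 4) :=
      pow_le_pow_left₀ (Real.exp_pos _).le hlog _
    have h5 : Real.exp (-(7 / 10 : ℝ)) ^ (19 * I.card + 4) * Real.exp (-(340 * q)) ^ 3
        ≤ (1 / 2 : ℝ) ^ (19 * I.card + 4) * Real.exp (-(340 * q)) ^ 3 :=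
      mul_le_mul_of_nonneg_right h4 (by positivity)
    refine le_trans ?_ h5
    rw [← Real.exp_nat_mul, ← Real.exp_nat_mul, ← Real.exp_add]
    apply Real.exp_le_exp.2
    push_cast
    nlinarith [hIcard, hq]

end Pool.Agent.Helper711SMP.X3

namespace Pool.Agent.Helper711SMP

alias shift_TS := Pool.Agent.Helper711SMP.X3.shift_TS

end Pool.Agent.Helper711SMP
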