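import Mathlib
import Pool.Agent.Helper711_SMP.Clip

/-!
# Integer truncation
-/

set_option autoImplicit false

namespace Pool.Agent.Helper711SMP.X5

open MeasureTheory
open scoped ENNReal

variable {n : ℕ}

theorem trunc_facts_abs (θ : ℝ) (hθ : 0 < θ) (y : Fin n → ℝ) (i : Fin n) :
    ((ktr θ y i).natAbs : ℝ) = (⌊|y i| / θ⌋ : ℤ) := by
  unfold ktr
  by_cases h : 0 ≤ y i
  · rw [if_pos h, abs_of_nonneg h]
    have h1 : (0 : ℤ) ≤ ⌊y i / θ⌋ := Int.floor_nonneg.2 (div_nonneg h hθ.le)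
    rw [Nat.cast_natAbs, abs_of_nonneg h1]
  · rw [if_neg h, abs_of_neg (not_le.1 h), Int.natAbs_neg]
    have h1 : (0 : ℤ) ≤ ⌊-(y i) / θ⌋ :=
      Int.floor_nonneg.2 (div_nonneg (by linarith [not_le.1 h]) hθ.le)
    rw [Nat.cast_natAbs, abs_of_nonneg h1]

theorem trunc_facts_err (θ : ℝ) (hθ : 0 < θ) (y : Fin n → ℝ) (i : Fin n) :
    |y i - θ * (ktr θ y i : ℝ)| ≤ θ := by
  unfold ktr
  by_cases h : 0 ≤ y i
  · rw [if_pos h]
    have h1 := Int.floor_le (y i / θ)
    have h2 := Int.lt_floor_add_one (y i / θ)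
    rw [le_div_iff₀ hθ] at h1
    rw [div_lt_iff₀ hθ] at h2
    rw [abs_le]
    constructor <;> nlinarith
  · rw [if_neg h]
    have h1 := Int.floor_le (-(y i) / θ)
    have h2 := Int.lt_floor_add_one (-(y i) / θ)
    rw [le_div_iff₀ hθ] at h1
    rw [div_lt_iff₀ hθ] at h2
    rw [abs_le]
    push_cast
    constructor <;> nlinarith

theorem trunc_facts_sum (y : Fin n → ℝ) (p H : ℝ)
    (hy : ∀ z : Fin n → ℝ, (∀ i, |z i| ≤ 1 / 3) → ∑ i, z i ^ 2 ≤ p → ∑ i, y i * z i ≤ H)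
    (J : Finset (Fin n)) (hJ : (J.card : ℝ) ≤ 9 * p) : ∑ i ∈ J, |y i| ≤ 3 * H := by
  classical
  have h := hy (fun i => if i ∈ J then (if 0 ≤ y i then 1 / 3 else -(1 / 3)) else 0) ?_ ?_
  · have h1 : ∑ i, y i * (if i ∈ J then (if 0 ≤ y i then (1 / 3 : ℝ) else -(1 / 3)) else 0)
        = ∑ i ∈ J, |y i| / 3 := by
      rw [← Finset.sum_filter_add_sum_filter_not Finset.univ (fun i => i ∈ J)]
      have e1 : Finset.univ.filter (fun i => i ∈ J) = J := by ext i; simp
      rw [e1]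
      have e2 : ∑ i ∈ Finset.univ.filter (fun i => i ∉ J),
          y i * (if i ∈ J then (if 0 ≤ y i then (1 / 3 : ℝ) else -(1 / 3)) else 0) = 0 := by
        apply Finset.sum_eq_zero
        intro i hi
        rw [if_neg (Finset.mem_filter.1 hi).2, mul_zero]
      rw [e2, add_zero]
      apply Finset.sum_congr rfl
      intro i hi
      rw [if_pos hi]
      by_cases h : 0 ≤ y i
      · rw [if_pos h, abs_of_nonneg h]; ring
      · rw [if_neg h, abs_of_neg (not_le.1 h)]; ring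
    rw [h1, ← Finset.sum_div] at h
    linarith
  · intro i
    by_cases hi : i ∈ J
    · simp only [if_pos hi]
      by_cases h : 0 ≤ y i
      · rw [if_pos h, abs_of_nonneg (by norm_num)]
      · rw [if_neg h, abs_neg, abs_of_nonneg (by norm_num)]
    · simp only [if_neg hi, abs_zero]
      norm_num
  · have h1 : ∑ i, (if i ∈ J then (if 0 ≤ y i then (1 / 3 : ℝ) else -(1 / 3)) else 0) ^ 2
        = ∑ i ∈ J, (1 / 9 : ℝ) := by
      rw [← Finset.sum_filter_add_sum_filter_not Finset.univ (fun i => i ∈ J)]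
      have e1 : Finset.univ.filter (fun i => i ∈ J) = J := by ext i; simp
      rw [e1]
      have e2 : ∑ i ∈ Finset.univ.filter (fun i => i ∉ J),
          (if i ∈ J then (if 0 ≤ y i then (1 / 3 : ℝ) else -(1 / 3)) else 0) ^ 2 = 0 := by
        apply Finset.sum_eq_zero
        intro i hi
        rw [if_neg (Finset.mem_filter.1 hi).2]
        norm_num
      rw [e2, add_zero]
      apply Finset.sum_congr rfl
      intro i hi
      rw [if_pos hi]
      by_cases h : 0 ≤ y i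
      · rw [if_pos h]; norm_num
      · rw [if_neg h]; norm_num
    rw [h1, Finset.sum_const, nsmul_eq_mul]
    linarith

theorem trunc_facts (y : Fin n → ℝ) (p H θ : ℝ) (hp : 1 ≤ p) (hH : 0 < H) (hθ : 0 < θ)
    (hHθ : 3 * H / θ ≤ p / 50)
    (hy : ∀ z : Fin n → ℝ, (∀ i, |z i| ≤ 1 / 3) → ∑ i, z i ^ 2 ≤ p → ∑ i, y i * z i ≤ H) :
    (∀ i, |y i - θ * (ktr θ y i : ℝ)| ≤ θ) ∧ ∑ i, (ktr θ y i).natAbs ≤ ⌊p / 50⌋₊ := by
  classical
  refine ⟨fun i => trunc_facts_err θ hθ y i, ?_⟩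
  apply Nat.le_floor
  push_cast
  have hH' : 3 * H ≤ θ * (p / 50) := by
    rw [div_le_iff₀ hθ] at hHθ
    linarith
  set J : Finset (Fin n) := Finset.univ.filter (fun i => θ ≤ |y i|) with hJdef
  have hJcard : (J.card : ℝ) ≤ 9 * p := by
    by_contra hcon
    have hcon' : 9 * p < (J.card : ℝ) := not_le.1 hcon
    have hle : ⌊9 * p⌋₊ ≤ J.card := by
      have h1 : ((⌊9 * p⌋₊ : ℕ) : ℝ) ≤ 9 * p := Nat.floor_le (by linarith)
      have h2 : ((⌊9 * p⌋₊ : ℕ) : ℝ) ≤ (J.card : ℝ) := by linarith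
      exact_mod_cast h2
    obtain ⟨J', hJ', hcard⟩ := Finset.exists_subset_card_eq hle
    have h3 := trunc_facts_sum y p H hy J' (by
      rw [hcard]
      exact Nat.floor_le (by linarith))
    have h4 : (J'.card : ℝ) * θ ≤ ∑ i ∈ J', |y i| := by
      rw [← nsmul_eq_mul]
      apply Finset.card_nsmul_le_sum
      intro i hi
      exact (Finset.mem_filter.1 (hJ' hi)).2
    have h5 : 9 * p - 1 < (J'.card : ℝ) := by
      rw [hcard]
      have := Nat.lt_floor_add_one (9 * p)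
      linarith
    have h6 : (9 * p - 1) * θ < θ * (p / 50) := by
      have : (9 * p - 1) * θ < (J'.card : ℝ) * θ := mul_lt_mul_of_pos_right h5 hθ
      linarith
    nlinarith
  have hsumJ := trunc_facts_sum y p H hy J hJcard
  have h1 : ∀ i, i ∉ J → ((ktr θ y i).natAbs : ℝ) = 0 := by
    intro i hi
    rw [trunc_facts_abs θ hθ]
    have h2 : |y i| < θ := by
      by_contra hc
      exact hi (Finset.mem_filter.2 ⟨Finset.mem_univ _, not_lt.1 hc⟩)
    have h3 : ⌊|y i| / θ⌋ = 0 := by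
      rw [Int.floor_eq_zero_iff, Set.mem_Ico]
      exact ⟨div_nonneg (abs_nonneg _) hθ.le, (div_lt_one hθ).2 h2⟩
    rw [h3, Int.cast_zero]
  have h2 : ∑ i, ((ktr θ y i).natAbs : ℝ) = ∑ i ∈ J, ((ktr θ y i).natAbs : ℝ) := by
    symm
    apply Finset.sum_subset (Finset.subset_univ _)
    intro i _ hi
    exact h1 i hi
  rw [h2]
  calc ∑ i ∈ J, ((ktr θ y i).natAbs : ℝ) ≤ ∑ i ∈ J, |y i| / θ := by
        apply Finset.sum_le_sum
        intro i _
        rw [trunc_facts_abs θ hθ]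
        exact Int.floor_le _
    _ = (∑ i ∈ J, |y i|) / θ := by rw [Finset.sum_div]
    _ ≤ 3 * H / θ := by
        apply div_le_div_of_nonneg_right hsumJ hθ.le
    _ ≤ p / 50 := hHθ

end Pool.Agent.Helper711SMP.X5

namespace Pool.Agent.Helper711SMP

alias trunc_facts := Pool.Agent.Helper711SMP.X5.trunc_facts

end Pool.Agent.Helper711SMP
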