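import Mathlib
import Pool.Agent.Helper711_SMP.Basic
import Pool.Agent.Helper711_SMP.Rad
import Pool.Agent.Helper711_SMP.NV
import Pool.Agent.Helper711_SMP.I1
import Pool.Agent.Helper711_SMP.N0
import Pool.Agent.Helper711_SMP.I2
import Pool.Agent.Helper711_SMP.F1
import Pool.Agent.Helper711_SMP.F3
import Pool.Agent.Helper711_SMP.B5
import Pool.Agent.Helper711_SMP.B4
import Pool.Agent.Helper711_SMP.X1
import Pool.Agent.Helper711_SMP.X3
import Pool.Agent.Helper711_SMP.X5
import Pool.Agent.Helper711_SMP.R6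
import Pool.Agent.Helper711_SMP.Clip

/-!
# Normalised densities
-/

set_option autoImplicit false

namespace Pool.Agent.Helper711SMP.X4

open MeasureTheory
open scoped ENNReal

variable {n : ℕ} {f : (Fin n → ℝ) → ℝ≥0∞}

lemma NV_mono_x4 {V W : Finset (Fin n → ℝ)} (hV : V.Nonempty) (hW : W.Nonempty) (h : W ⊆ V)
    (x : Fin n → ℝ) : NV W hW x ≤ NV V hV x := by
  unfold NV
  apply Finset.sup'_le
  intro v hv
  apply Finset.sup'_le
  intro w hw
  exact le_trans (Finset.le_sup' (fun w => ∑ i, (v i - w i) * x i) (h hw))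
    (Finset.le_sup' (fun v => V.sup' hV (fun w => ∑ i, (v i - w i) * x i)) (h hv))

theorem main_norm2 (hf : UD f) (hm : ∀ i, ∫⁻ x, ENNReal.ofReal |x i| * f x = 1)
    (p A : ℝ) (hp : 1 ≤ p) (hA : 0 < A) (V : Finset (Fin n → ℝ)) (hV : V.Nonempty)
    (hcard : Real.exp p ≤ (V.card : ℝ))
    (hsep : ∀ v ∈ V, ∀ w ∈ V, v ≠ w →
      ENNReal.ofReal (A ^ p) ≤ ∫⁻ x, ENNReal.ofReal (|∑ i, (v i - w i) * x i| ^ p) * f x) :
    A / 10 ^ 28 ≤ ∫ x, NV V hV x ∂(volume.withDensity f) := by
  classical
  by_contra hcon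
  push Not at hcon
  have hm1 : ∀ i, ∫⁻ x, ENNReal.ofReal |x i| * f x ≤ 1 := fun i => (hm i).le
  have hi : ∀ i, ∫⁻ x, ENNReal.ofReal |x i| * f x < ⊤ := fun i => by
    rw [hm i]; exact ENNReal.one_lt_top
  set S' : ℝ := A / 10 ^ 28 with hS'
  have hS'0 : 0 < S' := by positivity
  have hp0 : 0 < p := by linarith
  -- widths of subsets
  have hsub : ∀ (W : Finset (Fin n → ℝ)) (hW : W.Nonempty), W ⊆ V →
      (∫ x, NV W hW x ∂(volume.withDensity f)) < S' := by
    intro W hW hWV
    refine lt_of_le_of_lt ?_ hcon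
    exact integral_mono ((NV_facts W hW).2 f hf hi).1 ((NV_facts V hV).2 f hf hi).1
      (fun x => NV_mono_x4 hV hW hWV x)
  have hS1 : ∀ (W : Finset (Fin n → ℝ)) (hW : W.Nonempty), W ⊆ V → S1 f W hW ≤ S' / 2 := by
    intro W hW hWV
    have h1 := hsub W hW hWV
    have h2 := ((NV_facts W hW).2 f hf hi).2.1
    linarith
  have hlint : ∀ (W : Finset (Fin n → ℝ)) (hW : W.Nonempty), W ⊆ V →
      ∫⁻ x, ENNReal.ofReal (NV W hW x) * f x ≤ ENNReal.ofReal S' := by
    intro W hW hWV
    rw [((NV_facts W hW).2 f hf hi).2.2]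
    exact ENNReal.ofReal_le_ofReal (hsub W hW hWV).le
  have hrad : ∀ (W : Finset (Fin n → ℝ)) (hW : W.Nonempty), W ⊆ V →
      rad (NV W hW) (fun _ => 1) ≤ S' := by
    intro W hW hWV
    obtain ⟨N, hN, hNW⟩ := (NV_facts W hW).1
    have hfun : (fun x => N x) = NV W hW := funext hNW
    have := rad_one_le hf hm N hN S' hS'0.le (by
      have h3 := hlint W hW hWV
      simpa only [hNW] using h3)
    rwa [hfun] at this
  -- constants
  set c4 : ℝ := 1 / 10 ^ 9 with hc4
  set η : ℝ := c4 / 150 with hη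
  have hc40 : 0 < c4 := by positivity
  have hη0 : 0 < η := by positivity
  -- the net
  let R : (Fin n → ℝ) → (Fin n → ℝ) → Prop := fun v w =>
    ∃ z : Fin n → ℝ, (∀ i, |z i| ≤ 1 / 3) ∧ ∑ i, z i ^ 2 ≤ p ∧
      η * A / 2 ≤ ∑ i, (v i - w i) * z i
  have hR : ∀ v w, R v w → R w v := by
    rintro v w ⟨z, hz1, hz2, hz3⟩
    refine ⟨fun i => - z i, fun i => by rw [abs_neg]; exact hz1 i, by simpa using hz2, ?_⟩
    refine hz3.trans (le_of_eq ?_)
    refine Finset.sum_congr rfl (fun i _ => ?_)
    ring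
  obtain ⟨V₁, hV₁V, hV₁R, u, huV₁, V₂, hV₂V, hcards, hV₂⟩ := net_pigeon V hV R hR
  have hV₁ne : V₁.Nonempty := ⟨u, huV₁⟩
  have hexp2 : (1.5 : ℝ) ≤ Real.exp (p / 2) := by
    have := Real.add_one_le_exp (p / 2)
    linarith
  have hV₁card : (V₁.card : ℝ) < Real.exp (p / 2) := by
    by_contra hge
    push Not at hge
    have h2 : 2 ≤ V₁.card := by
      by_contra hlt
      have : V₁.card ≤ 1 := by omega
      have : (V₁.card : ℝ) ≤ 1 := by exact_mod_cast this
      linarith
    have hb := bern_smp (p / 2) (η * A / 4) (by linarith) (by positivity) V₁ hV₁ne h2 hge (by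
      intro v hv w hw hvw
      obtain ⟨z, hz1, hz2, hz3⟩ := hV₁R v hv w hw hvw
      refine ⟨fun i => z i / 2, fun i => ?_, ?_, ?_⟩
      · rw [abs_div, abs_two]
        have := hz1 i
        have h0 := abs_nonneg (z i)
        linarith
      · have : ∑ i, (z i / 2) ^ 2 = (∑ i, z i ^ 2) / 4 := by
          rw [Finset.sum_div]
          exact Finset.sum_congr rfl (fun i _ => by ring)
        rw [this]
        linarith
      · have : ∑ i, (v i - w i) * (z i / 2) = (∑ i, (v i - w i) * z i) / 2 := by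
          rw [Finset.sum_div]
          exact Finset.sum_congr rfl (fun i _ => by ring)
        rw [this]
        linarith)
    have hr := hrad V₁ hV₁ne hV₁V
    have : η * A / 4 / 10 ^ 15 ≤ A / 10 ^ 28 := hb.trans hr
    rw [hη, hc4] at this
    have h5 : (1 / 10 ^ 9 / 150 * A / 4 / 10 ^ 15 : ℝ) = A / (6 * 10 ^ 26) := by
      field_simp
      norm_num
    rw [h5, div_le_div_iff₀ (by positivity) (by positivity)] at this
    nlinarith
  have hV₂card : Real.exp (p / 2) ≤ (V₂.card : ℝ) := by
    have h1 : (V.card : ℝ) ≤ V₁.card * V₂.card := by exact_mod_cast hcards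
    have h2 : Real.exp p = Real.exp (p / 2) * Real.exp (p / 2) := by
      rw [← Real.exp_add]; ring_nf
    by_contra hlt
    push Not at hlt
    have h3 : (V₁.card : ℝ) * V₂.card < Real.exp (p / 2) * Real.exp (p / 2) := by
      have h4 : (0 : ℝ) ≤ V₂.card := Nat.cast_nonneg _
      have h5 : (0 : ℝ) < Real.exp (p / 2) := Real.exp_pos _
      have h6 : (V₁.card : ℝ) * V₂.card ≤ Real.exp (p / 2) * V₂.card :=
        mul_le_mul_of_nonneg_right hV₁card.le h4
      have h7 : Real.exp (p / 2) * V₂.card < Real.exp (p / 2) * Real.exp (p / 2) :=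
        mul_lt_mul_of_pos_left hlt h5
      linarith
    linarith
  have hV₂2 : 2 ≤ V₂.card := by
    by_contra hlt
    have : V₂.card ≤ 1 := by omega
    have : (V₂.card : ℝ) ≤ 1 := by exact_mod_cast this
    linarith
  have hV₂ne : V₂.Nonempty := Finset.card_pos.mp (by omega)
  have hV₂small : ∀ v ∈ V₂, ∀ z : Fin n → ℝ, (∀ i, |z i| ≤ 1 / 3) → ∑ i, z i ^ 2 ≤ p →
      ∑ i, (v i - u i) * z i ≤ η * A / 2 := by
    intro v hv z hz1 hz2
    rcases hV₂ v hv with h | h
    · subst h
      simp only [sub_self, zero_mul, Finset.sum_const_zero]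
      positivity
    · by_contra hlt
      push Not at hlt
      exact h ⟨z, hz1, hz2, hlt.le⟩
  -- truncation
  set θ : ℝ := c4 * A / p with hθ
  have hθ0 : 0 < θ := by positivity
  have hθp : θ * p = c4 * A := by
    rw [hθ]; field_simp
  have htr : ∀ v ∈ V₂, (∀ i, |(v i - u i) - θ * (ktr θ (fun i => v i - u i) i : ℝ)| ≤ θ) ∧
      ∑ i, (ktr θ (fun i => v i - u i) i).natAbs ≤ ⌊p / 50⌋₊ := by
    intro v hv
    refine trunc_facts (fun i => v i - u i) p (η * A / 2) θ hp (by positivity) hθ0 ?_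
      (hV₂small v hv)
    rw [div_le_iff₀ hθ0]
    have : p / 50 * θ = c4 * A / 50 := by
      rw [← hθp]; ring
    rw [this, hη]
    have : 0 < c4 * A := by positivity
    linarith
  have hfl : ((⌊p / 50⌋₊ : ℕ) : ℝ) ≤ p / 50 := Nat.floor_le (by positivity)
  obtain ⟨hTc, hTd, hTsum⟩ := TS_facts hf hm1 (700 * p)
  obtain ⟨N, hN, hNV⟩ := (NV_facts V₂ hV₂ne).1
  have hmain := sparse_thm hf hi V₂ hV₂ne hV₂2 (TS f (700 * p)) (fun t ht => ht.1) hTc hTd
    (770000 * p) (17 * S') (1 / 2) θ (56000 * c4 * A) (A / 16) (by linarith) (by positivity)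
    (by norm_num) hθ0 (by positivity) (by positivity) ⌊p / 50⌋₊
    (fun v => ktr θ (fun i => v i - u i)) (fun v hv => (htr v hv).2)
    (by
      intro t ht hcard' σ hσ
      have hN' : ∫⁻ x, ENNReal.ofReal (N x) * f x ≤ ENNReal.ofReal S' := by
        have h3 := hlint V₂ hV₂ne hV₂V
        simpa only [hNV] using h3
      have hc' : ((Finset.univ.filter (fun i => t i ≠ 0)).card : ℝ) ≤ 700 * p := by
        have h4 : ((Finset.univ.filter (fun i => t i ≠ 0)).card : ℝ) ≤ (⌊p / 50⌋₊ : ℕ) := by
          exact_mod_cast hcard'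
        linarith
      obtain ⟨ζ, hζ1, hζ2⟩ := shift_TS hf hm N hN S' hS'0 hN' (700 * p) (by linarith) t ht hc' σ hσ
      refine ⟨ζ, fun i => hζ1 i, ?_⟩
      have h5 : -(1100 * (700 * p)) = -(770000 * p) := by ring
      rw [h5] at hζ2
      simpa only [hNV] using hζ2)
    (by
      intro v hv w hw z hz
      have h1 : |∑ i, ((v i - w i) - θ * ((ktr θ (fun i => v i - u i) i : ℝ) -
          (ktr θ (fun i => w i - u i) i : ℝ))) * z i| ≤ ∑ i, (2 * θ) * |z i| := by
        refine (Finset.abs_sum_le_sum_abs _ _).trans (Finset.sum_le_sum (fun i _ => ?_))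
        rw [abs_mul]
        refine mul_le_mul_of_nonneg_right ?_ (abs_nonneg _)
        have ha := abs_le.mp ((htr v hv).1 i)
        have hb := abs_le.mp ((htr w hw).1 i)
        rw [abs_le]
        constructor
        · nlinarith [ha.1, ha.2, hb.1, hb.2]
        · nlinarith [ha.1, ha.2, hb.1, hb.2]
      refine h1.trans ?_
      rw [← Finset.mul_sum]
      have h2 := hTsum _ hz
      have h3 : 2 * θ * ∑ i, |z i| ≤ 2 * θ * (40 * (700 * p)) :=
        mul_le_mul_of_nonneg_left h2 (by positivity)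
      refine h3.trans (le_of_eq ?_)
      have : 2 * θ * (40 * (700 * p)) = 56000 * (θ * p) := by ring
      rw [this, hθp]
      ring)
    (by
      intro v hv w hw hvw
      have hmom := hsep v (hV₂V hv) w (hV₂V hw) hvw
      obtain ⟨I, hI1, hI2, hI3⟩ := head_moment hf hm1 (fun i => v i - w i) p A hp hA hmom (by
        intro z hz1 hz2
        have h1 := hV₂small v hv z hz1 hz2
        have h2 := hV₂small w hw (fun i => - z i) (fun i => by rw [abs_neg]; exact hz1 i)
          (by simpa using hz2)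
        have h3 : ∑ i, (v i - w i) * z i =
            ∑ i, (v i - u i) * z i + ∑ i, (w i - u i) * (- z i) := by
          rw [← Finset.sum_add_distrib]
          exact Finset.sum_congr rfl (fun i _ => by ring)
        show ∑ i, (v i - w i) * z i ≤ A / 4320
        rw [h3]
        have h4 : η * A ≤ A / 4320 := by
          rw [hη, hc4]
          nlinarith
        linarith)
      obtain ⟨J, hJI, w', hw1, hw2, hw3⟩ := box_from_T hf hm1 I (fun i => |v i - w i|)
        (fun i => abs_nonneg _) p A hp hA hI1 (by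
          have : A / 1440 ≤ A / 8 := by
            rw [div_le_div_iff₀ (by norm_num) (by norm_num)]
            nlinarith
          exact hI2.trans this) hI3
      refine ⟨fun i => if i ∈ J then w' i else 0, ⟨fun i => ?_, ?_⟩, ?_⟩
      · dsimp only
        split_ifs with h
        · have := hw1 i h; linarith
        · exact le_rfl
      · refine hw3.trans (lintegral_mono_set ?_)
        intro x hx i
        dsimp only
        split_ifs with h
        · exact (hx i h).1
        · exact abs_nonneg _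
      · refine hw2.trans (le_of_eq ?_)
        rw [← Finset.sum_subset (Finset.subset_univ J)]
        · exact Finset.sum_congr rfl (fun i hiJ => by simp [hiJ])
        · intro i _ hiJ
          simp [hiJ])
    (by
      have h1 : 1 / 2 * θ * ((⌊p / 50⌋₊ : ℕ) : ℝ) ≤ 1 / 2 * θ * (p / 50) :=
        mul_le_mul_of_nonneg_left hfl (by positivity)
      have h2 : 1 / 2 * θ * (p / 50) = (θ * p) / 100 := by ring
      rw [h2, hθp] at h1
      rw [hS']
      have h3 : 56000 * c4 * A + c4 * A / 100 + 17 * (A / 10 ^ 28) ≤ A / 16 / 100 := by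
        rw [hc4]
        norm_num
        nlinarith
      linarith)
    (by
      have h1 : p / 2 ≤ Real.log V₂.card := by
        rw [Real.le_log_iff_exp_le (by linarith [Real.exp_pos (p / 2)])]
        exact hV₂card
      linarith)
  have h1 : p / 2 ≤ Real.log V₂.card := by
    rw [Real.le_log_iff_exp_le (by linarith [Real.exp_pos (p / 2)])]
    exact hV₂card
  have h2 := hS1 V₂ hV₂ne hV₂V
  have h3 : A / 16 / (20000 * (770000 * p)) * (p / 2) ≤ S' / 2 :=
    (mul_le_mul_of_nonneg_left h1 (by positivity)).trans (hmain.trans h2)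
  have h4 : A / 16 / (20000 * (770000 * p)) * (p / 2) = A / (16 * 20000 * 770000 * 2) := by
    field_simp
  rw [h4, hS', div_div, div_le_div_iff₀ (by positivity) (by positivity)] at h3
  nlinarith

end Pool.Agent.Helper711SMP.X4

namespace Pool.Agent.Helper711SMP

alias main_norm2 := Pool.Agent.Helper711SMP.X4.main_norm2

end Pool.Agent.Helper711SMP
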